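import Pool.Agent.Run7.h507.SP.EE3

/-!
Strong continuity of the weak solutions.
-/

set_option autoImplicit false

open MeasureTheory Set Filter Topology
open scoped ENNReal

namespace Pool.Agent.Run7.h507.SP

open RT FD

/-- The projection to `[0, T]`. -/
noncomputable def cl (T t : ℝ) : ℝ := max 0 (min t T)

theorem cl_mem {T : ℝ} (hT : 0 ≤ T) (t : ℝ) : cl T t ∈ Icc 0 T :=
  ⟨le_max_left _ _, max_le hT (min_le_right _ _)⟩

theorem cl_of {T t : ℝ} (h : t ∈ Icc 0 T) : cl T t = t := by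
  unfold cl
  rw [min_eq_left h.2, max_eq_right h.1]

theorem cl_cont (T : ℝ) : Continuous (cl T) := continuous_const.max (continuous_id.min continuous_const)

theorem cont_cl {T : ℝ} (hT : 0 ≤ T) {f : ℝ → C3} (hf : ContinuousOn f (Icc 0 T)) :
    Continuous fun t => f (cl T t) :=
  hf.comp_continuous (cl_cont T) (cl_mem hT)

section

variable {μ : K3 → ℝ} {T : ℝ} {f : ℝ → Cf} {c : Cf} {a : ℝ → Cf} {m : ℝ → ℝ}

theorem WE.cont_energy (h : WE μ T f c a) (hT : 0 ≤ T) (hm0 : ∀ r, 0 ≤ m r) (hm : Monotone m)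
    (hmμ : ∀ k, m (len k) ≤ μ k)
    (hdiv : ∀ K, ∃ J, K < ∑ j ∈ Finset.range J, om m j / 32 ^ j) :
    ContinuousOn (fun t => ∑' k, nsq (a t k)) (Icc 0 T) := by
  have hμ0 : ∀ k, 0 ≤ μ k := fun k => (hm0 _).trans (hmμ k)
  have hTT : T ∈ Icc 0 T := ⟨hT, le_rfl⟩
  obtain ⟨s1, s2⟩ := h.sums hμ0 hTT
  have hn : ∀ k, Continuous fun s => nsq (a s k) := fun k => nsq_continuous.comp (h.cont k)
  have c1 : ContinuousOn (fun t => ∑' k, μ k * ∫ s in (0 : ℝ)..t, nsq (a s k)) (Icc 0 T) := by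
    refine continuousOn_tsum (fun k => ?_) s1 fun k t ht => ?_
    · have : Continuous fun t => ∫ s in (0 : ℝ)..t, nsq (a s k) :=
        intervalIntegral.continuous_primitive (fun _ _ => (hn k).intervalIntegrable _ _) 0
      exact (continuous_const.mul this).continuousOn
    · have h1 : 0 ≤ ∫ s in (0 : ℝ)..t, nsq (a s k) :=
        intervalIntegral.integral_nonneg ht.1 fun s _ => nsq_nonneg _
      rw [Real.norm_eq_abs, abs_of_nonneg (mul_nonneg (hμ0 k) h1)]
      refine mul_le_mul_of_nonneg_left ?_ (hμ0 k)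
      exact intervalIntegral.integral_mono_interval le_rfl ht.1 ht.2
        (Eventually.of_forall fun s => nsq_nonneg _) ((hn k).intervalIntegrable _ _)
  have c2 : ContinuousOn (fun t => ∑' k, ∫ s in (0 : ℝ)..t, ip (f s k) (a s k)) (Icc 0 T) := by
    refine continuousOn_tsum (fun k => ?_) s2 fun k t ht => ?_
    · have h2 := intervalIntegral.continuousOn_primitive_interval' (h.ipi k hTT) left_mem_uIcc
      rwa [uIcc_of_le hT] at h2
    · rw [Real.norm_eq_abs]
      refine (h.abs_force k ht).trans ?_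
      exact intervalIntegral.integral_mono_interval le_rfl ht.1 ht.2
        (Eventually.of_forall fun s => add_nonneg (nsq_nonneg _) (nsq_nonneg _))
        ((h.fint2 k).add ((hn k).intervalIntegrable _ _))
  have c3 : ContinuousOn (fun t => ∑' k, nsq (c k)
      + 2 * (∑' k, ∫ s in (0 : ℝ)..t, ip (f s k) (a s k))
      - 2 * ∑' k, μ k * ∫ s in (0 : ℝ)..t, nsq (a s k)) (Icc 0 T) :=
    (continuousOn_const.add (continuousOn_const.mul c2)).sub (continuousOn_const.mul c1)
  refine c3.congr fun t ht => ?_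
  have := h.energy hm0 hm hmμ hdiv ht
  show ∑' k, nsq (a t k) = _
  linarith

/-- Weak solutions are continuous in time with values in `L²`. -/
theorem WE.strong_cont (h : WE μ T f c a) (hT : 0 ≤ T) (hm0 : ∀ r, 0 ≤ m r) (hm : Monotone m)
    (hmμ : ∀ k, m (len k) ≤ μ k)
    (hdiv : ∀ K, ∃ J, K < ∑ j ∈ Finset.range J, om m j / 32 ^ j) {t : ℝ} (ht : t ∈ Icc 0 T) :
    Tendsto (fun s => ∑' k, nsq (a s k - a t k)) (𝓝[Icc 0 T] t) (𝓝 0) :=
  strong (fun s => h.sn s) (h.sn t)
    (fun k => ((h.cont k).tendsto t).mono_left nhdsWithin_le_nhds)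
    (h.cont_energy hT hm0 hm hmμ hdiv t ht)

end

end Pool.Agent.Run7.h507.SP
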