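import Pool.Agent.Run7.h507.SP.Lat

/-!
The barrier at the scale `N`.
-/

set_option autoImplicit false

open MeasureTheory Set Filter Topology
open scoped ContDiff ComplexConjugate NNReal

namespace Pool.Agent.Run7.h507.SP

open RT

/-- The constant of the barrier. -/
noncomputable def K0 : ℝ := 864 * Real.sqrt (729 * Z6)

theorem K0_nonneg : 0 ≤ K0 := by unfold K0; positivity

section

variable {η : K3 → K3 → ℝ} {μ : K3 → ℝ} {B : Finset K3} {T : ℝ} {a : ℝ → Cf}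

/-- The weighted energy. -/
noncomputable def Phi (N : ℝ) (m : ℕ) (B : Finset K3) (a : Cf) : ℝ :=
  ∑ k ∈ B, vN N k ^ m * nsq (a k)

theorem Phi_nonneg (N : ℝ) (m : ℕ) (B : Finset K3) (a : Cf) : 0 ≤ Phi N m B a :=
  Finset.sum_nonneg fun k _ => mul_nonneg (pow_nonneg (vN_pos k).le _) (nsq_nonneg _)

theorem hasDerivAt_Phi (hG : GalM η μ B T a) (N : ℝ) (m : ℕ) {t : ℝ} (ht : t ∈ Icc 0 T) :
    HasDerivAt (fun s => Phi N m B (a s))
      (-(2 * ∑ k ∈ B, vN N k ^ m * (μ k * nsq (a t k)))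
        - 2 * ∑ k ∈ B, vN N k ^ m * ip (nl η (a t) (a t) k) (a t k)) t := by
  have h1 : HasDerivAt (fun s => Phi N m B (a s))
      (∑ k ∈ B, vN N k ^ m * (2 * ip (rhsM η μ (a t) k) (a t k))) t := by
    unfold Phi
    exact HasDerivAt.fun_sum fun k hk => (hasDerivAt_nsq (hG.der t ht k hk)).const_mul _
  have e : ∑ k ∈ B, vN N k ^ m * (2 * ip (rhsM η μ (a t) k) (a t k))
      = -(2 * ∑ k ∈ B, vN N k ^ m * (μ k * nsq (a t k)))
        - 2 * ∑ k ∈ B, vN N k ^ m * ip (nl η (a t) (a t) k) (a t k) := by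
    rw [Finset.mul_sum, Finset.mul_sum, ← Finset.sum_neg_distrib, ← Finset.sum_sub_distrib]
    refine Finset.sum_congr rfl fun k _ => ?_
    rw [ip_rhsM]
    ring
  rw [← e]
  exact h1

/-- The bound of the nonlinear term. -/
theorem nl_Phi (hη : IsWeight η) (hB : ∀ k ∈ B, -k ∈ B) {N : ℝ} (hN : 0 < N) (n : ℕ) {b : Cf}
    (hs : ∀ k ∉ B, b k = 0) (hh : Herm b) (hd : Dv b) :
    |∑ k ∈ B, vN N k ^ (2 * (n + 1)) * ip (nl η b b k) (b k)|
      ≤ 27 * (n + 1) * 2 ^ n * N * (∑ k ∈ B, vN N k * ‖b k‖) * Phi N (2 * (n + 1)) B b := by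
  have h2 := sum_ip_nl η hs hs hB hd hh (fun k => vN N k ^ (2 * (n + 1)))
    (fun k => by rw [vN_neg])
  have h1 := com hη hN n B hd
  rw [h2, abs_neg]
  refine (Complex.abs_re_le_norm _).trans ?_
  rw [norm_mul, Complex.norm_I, one_mul]
  refine h1.trans ?_
  refine mul_le_mul_of_nonneg_left (Finset.sum_le_sum fun k _ => ?_) ?_
  · exact mul_le_mul_of_nonneg_left (norm_sq_le_nsq _) (pow_nonneg (vN_pos k).le _)
  · have : 0 ≤ ∑ k ∈ B, vN N k * ‖b k‖ := Finset.sum_nonneg fun k _ =>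
      mul_nonneg (vN_pos k).le (norm_nonneg _)
    positivity

/-- The barrier. -/
theorem barrier (hη : IsWeight η) (hμ : IsSym μ) (hB : ∀ k ∈ B, -k ∈ B) (hG : GalM η μ B T a)
    {N : ℕ} (hN : 0 < N) {A R : ℝ} (hR : 0 < R)
    (hA : ∀ k, (N : ℝ) ≤ len k → A * ((N : ℝ) ^ 2 * Real.sqrt N) ≤ μ k)
    (hAR : K0 * (2 * R) * Real.sqrt (2 * R) < A * R) (h0 : Phi N 8 B (a 0) ≤ R) :
    ∀ t ∈ Icc 0 T, Phi N 8 B (a t) ≤ 2 * R := by
  have hN0 : (0 : ℝ) < N := by exact_mod_cast hN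
  set Q : ℝ := (N : ℝ) ^ 2 * Real.sqrt N with hQ
  have hQ0 : 0 < Q := by positivity
  have hK := K0_nonneg
  have hA0 : 0 < A := by
    have : 0 ≤ K0 * (2 * R) * Real.sqrt (2 * R) := by positivity
    by_contra hcon
    have := mul_nonpos_of_nonpos_of_nonneg (not_lt.1 hcon) hR.le
    linarith
  have hen : ∀ t ∈ Icc 0 T, ∑ k ∈ B, nsq (a t k) ≤ R := by
    intro t ht
    refine (hG.energy t ht).trans (le_trans (Finset.sum_le_sum fun k _ => ?_) h0)
    have h1 : 1 ≤ vN N k ^ 8 := one_le_pow₀ (one_le_vN k)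
    have := nsq_nonneg (a 0 k)
    nlinarith
  refine image_le_of_deriv_right_lt_deriv_boundary' (f := fun t => Phi N 8 B (a t))
    (f' := fun t => -(2 * ∑ k ∈ B, vN N k ^ 8 * (μ k * nsq (a t k)))
        - 2 * ∑ k ∈ B, vN N k ^ 8 * ip (nl η (a t) (a t) k) (a t k))
    (B := fun _ => 2 * R) (B' := fun _ => 0) (fun t ht =>
      (hasDerivAt_Phi hG N 8 ht).continuousAt.continuousWithinAt)
    (fun t ht => (hasDerivAt_Phi hG N 8 ⟨ht.1, ht.2.le⟩).hasDerivWithinAt) (by linarith)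
    continuousOn_const (fun t _ => hasDerivWithinAt_const _ _ _) ?_
  intro t ht hft
  have hft' : Phi N 8 B (a t) = 2 * R := hft
  have htI : t ∈ Icc 0 T := ⟨ht.1, ht.2.le⟩
  have h1 := nl_Phi hη hB hN0 3 (hG.supp t) (hG.herm t) (hG.div t)
  norm_num at h1
  have h2 := sum_le_sqrt hN B (a t)
  have h3 : ∑ k ∈ B, vN N k ^ 8 * ‖a t k‖ ^ 2 ≤ 2 * R := by
    rw [← hft']
    exact Finset.sum_le_sum fun k _ => mul_le_mul_of_nonneg_left (norm_sq_le_nsq _)
      (pow_nonneg (vN_pos k).le _)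
  have h4 : ∑ k ∈ B, vN N k * ‖a t k‖
      ≤ Real.sqrt (729 * (N : ℝ) ^ 3 * Z6) * Real.sqrt (2 * R) :=
    h2.trans (mul_le_mul_of_nonneg_left (Real.sqrt_le_sqrt h3) (Real.sqrt_nonneg _))
  have e1 : Real.sqrt (729 * (N : ℝ) ^ 3 * Z6) = Real.sqrt (729 * Z6) * (N * Real.sqrt N) := by
    have : 729 * (N : ℝ) ^ 3 * Z6 = (729 * Z6) * ((N : ℝ) ^ 2 * N) := by ring
    have e0 : Real.sqrt ((N : ℝ) ^ 2 * N) = N * Real.sqrt N := by
      rw [Real.sqrt_mul (by positivity), Real.sqrt_sq hN0.le]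
    rw [this, Real.sqrt_mul (mul_nonneg (by norm_num) Z6_nonneg) ((N : ℝ) ^ 2 * N), e0]
  rw [e1] at h4
  rw [hft'] at h1
  have h5 : |∑ k ∈ B, vN N k ^ 8 * ip (nl η (a t) (a t) k) (a t k)|
      ≤ Q * (K0 * (2 * R) * Real.sqrt (2 * R)) := by
    refine h1.trans ?_
    calc 864 * (N : ℝ) * (∑ k ∈ B, vN N k * ‖a t k‖) * (2 * R)
        ≤ 864 * (N : ℝ) * (Real.sqrt (729 * Z6) * (N * Real.sqrt N) * Real.sqrt (2 * R))
          * (2 * R) := by gcongr
      _ = Q * (K0 * (2 * R) * Real.sqrt (2 * R)) := by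
          rw [hQ]
          unfold K0
          ring
  have h6 : A * Q * (2 * R - R) ≤ ∑ k ∈ B, vN N k ^ 8 * (μ k * nsq (a t k)) := by
    have e2 : ∀ k ∈ B, A * Q * (vN N k ^ 8 * nsq (a t k) - nsq (a t k))
        ≤ vN N k ^ 8 * (μ k * nsq (a t k)) := by
      intro k _
      have n1 := nsq_nonneg (a t k)
      have n2 : 1 ≤ vN N k ^ 8 := one_le_pow₀ (one_le_vN k)
      rcases le_total (len k) N with h | h
      · rw [vN_of_le hN0 h]
        have := hμ.nonneg k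
        have := mul_nonneg this n1
        simp only [one_pow, one_mul, sub_self, mul_zero]
        exact this
      · have n3 := hA k h
        calc A * Q * (vN N k ^ 8 * nsq (a t k) - nsq (a t k))
            ≤ A * Q * (vN N k ^ 8 * nsq (a t k)) := by
              refine mul_le_mul_of_nonneg_left (by linarith) (by positivity)
          _ = vN N k ^ 8 * (A * Q * nsq (a t k)) := by ring
          _ ≤ _ := by
              refine mul_le_mul_of_nonneg_left ?_ (by positivity)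
              exact mul_le_mul_of_nonneg_right n3 n1
    refine le_trans ?_ (Finset.sum_le_sum e2)
    rw [← Finset.mul_sum, Finset.sum_sub_distrib]
    refine mul_le_mul_of_nonneg_left ?_ (by positivity)
    have h7 := hen t htI
    have h8 : ∑ k ∈ B, vN N k ^ 8 * nsq (a t k) = 2 * R := hft'
    linarith
  have h9 := (abs_le.1 h5).1
  have h10 : Q * (K0 * (2 * R) * Real.sqrt (2 * R)) < Q * (A * R) := mul_lt_mul_of_pos_left hAR hQ0
  show -(2 * ∑ k ∈ B, vN N k ^ 8 * (μ k * nsq (a t k)))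
        - 2 * ∑ k ∈ B, vN N k ^ 8 * ip (nl η (a t) (a t) k) (a t k) < 0
  nlinarith

end

end Pool.Agent.Run7.h507.SP
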