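import Pool.Agent.Run7.h507.SP.Uni

/-!
The commutator estimate with the weights `max 1 (|k| / N)`.
-/

set_option autoImplicit false

open MeasureTheory Set Filter Topology
open scoped ContDiff ComplexConjugate NNReal

namespace Pool.Agent.Run7.h507.SP

open RT

/-- `max 1 (|k| / N)`. -/
noncomputable def vN (N : ℝ) (k : K3) : ℝ := max 1 (len k / N)

section

variable {N : ℝ}

theorem one_le_vN (k : K3) : 1 ≤ vN N k := le_max_left _ _

theorem vN_pos (k : K3) : 0 < vN N k := zero_lt_one.trans_le (one_le_vN k)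

theorem vN_neg (k : K3) : vN N (-k) = vN N k := by rw [vN, vN, len_neg]

theorem len_le_vN (hN : 0 < N) (k : K3) : len k ≤ N * vN N k := by
  have h : len k / N ≤ vN N k := le_max_right _ _
  rw [div_le_iff₀ hN] at h
  linarith

theorem jb_le_vN (hN : 1 ≤ N) (k : K3) : jb k ≤ N * vN N k := by
  refine max_le ?_ (len_le_vN (by linarith) k)
  have := one_le_vN (N := N) k
  nlinarith

theorem vN_le_jb (hN : 1 ≤ N) (k : K3) : vN N k ≤ jb k := by
  refine max_le (one_le_jb k) ((div_le_self (len_nonneg k) hN).trans (len_le_jb k))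

theorem vN_of_le {k : K3} (hN : 0 < N) (h : len k ≤ N) : vN N k = 1 := by
  unfold vN
  exact max_eq_left ((div_le_one hN).2 h)

theorem vN_one (k : K3) : vN 1 k = jb k := by rw [vN, jb, div_one]

theorem abs_vN_sub (hN : 0 < N) (p q : K3) :
    |vN N (-(p + q)) - vN N q| ≤ vN N p := by
  have h1 : |vN N (-(p + q)) - vN N q| ≤ |len (-(p + q)) / N - len q / N| := by
    unfold vN
    refine (abs_max_sub_max_le_max _ _ _ _).trans ?_
    rw [sub_self, abs_zero]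
    exact max_le (abs_nonneg _) le_rfl
  have h2 : |len (-(p + q)) / N - len q / N| ≤ len p / N := by
    rw [← sub_div, abs_div, abs_of_pos hN]
    refine div_le_div_of_nonneg_right ?_ hN.le
    rw [len_neg, abs_le]
    have e1 := len_add_le p q
    have e2 := len_add_le (-p) (p + q)
    rw [neg_add_cancel_left, len_neg] at e2
    constructor <;> linarith
  exact (h1.trans h2).trans (le_max_right _ _)

/-- Powers. -/
theorem pow_sub_le {x y : ℝ} (hx : 0 ≤ x) (hxy : x ≤ y) (k : ℕ) :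
    y ^ (k + 1) - x ^ (k + 1) ≤ (k + 1) * y ^ k * (y - x) := by
  induction k with
  | zero => simp
  | succ k ih =>
    have h1 : x ^ (k + 1) ≤ y ^ (k + 1) := pow_le_pow_left₀ hx hxy _
    have h2 : y ^ (k + 1 + 1) - x ^ (k + 1 + 1)
        = y * (y ^ (k + 1) - x ^ (k + 1)) + x ^ (k + 1) * (y - x) := by ring
    have hy : 0 ≤ y := hx.trans hxy
    have h3 := mul_le_mul_of_nonneg_left ih hy
    have h4 := mul_le_mul_of_nonneg_right h1 (sub_nonneg.2 hxy)
    rw [h2]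
    calc y * (y ^ (k + 1) - x ^ (k + 1)) + x ^ (k + 1) * (y - x)
        ≤ y * ((k + 1) * y ^ k * (y - x)) + y ^ (k + 1) * (y - x) := add_le_add h3 h4
      _ = _ := by push_cast; ring

theorem real_ineq (n : ℕ) {x y z u : ℝ} (hx : 1 ≤ x) (hz : 1 ≤ z) (hxy : x ≤ y)
    (hyz : y - x ≤ z) (hu : 0 ≤ u) (hN : 0 < N) (hux : u ≤ N * x) :
    (y ^ (2 * (n + 1)) - x ^ (2 * (n + 1))) * u
      ≤ 2 * (n + 1) * 2 ^ n * N * (z * (x * y) ^ (n + 1) + x * (z * y) ^ (n + 1)) := by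
  have hx0 : 0 ≤ x := by linarith
  have hz0 : 0 ≤ z := by linarith
  have hy0 : 0 ≤ y := hx0.trans hxy
  have h1 := pow_sub_le hx0 hxy (2 * n + 1)
  have e1 : 2 * n + 1 + 1 = 2 * (n + 1) := by ring
  rw [e1] at h1
  have h2 : y ^ n ≤ 2 ^ n * (x ^ n + z ^ n) := by
    have e2 : y ≤ 2 * max x z := by
      have := le_max_left x z
      have := le_max_right x z
      linarith
    have e3 := pow_le_pow_left₀ hy0 e2 n
    rw [mul_pow] at e3
    refine e3.trans (mul_le_mul_of_nonneg_left ?_ (by positivity))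
    rcases le_total x z with h | h
    · rw [max_eq_right h]
      have : 0 ≤ x ^ n := by positivity
      linarith
    · rw [max_eq_left h]
      have : 0 ≤ z ^ n := by positivity
      linarith
  have h3 : 0 ≤ y ^ (2 * (n + 1)) - x ^ (2 * (n + 1)) :=
    sub_nonneg.2 (pow_le_pow_left₀ hx0 hxy _)
  calc (y ^ (2 * (n + 1)) - x ^ (2 * (n + 1))) * u
      ≤ (((2 * n + 1 : ℕ) : ℝ) + 1) * y ^ (2 * n + 1) * (y - x) * (N * x) :=
        mul_le_mul h1 hux hu (h3.trans h1)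
    _ ≤ (((2 * n + 1 : ℕ) : ℝ) + 1) * y ^ (2 * n + 1) * z * (N * x) := by
        refine mul_le_mul_of_nonneg_right ?_ (by positivity)
        exact mul_le_mul_of_nonneg_left hyz (by positivity)
    _ = 2 * (n + 1) * N * z * x * y ^ (n + 1) * y ^ n := by
        push_cast
        ring
    _ ≤ 2 * (n + 1) * N * z * x * y ^ (n + 1) * (2 ^ n * (x ^ n + z ^ n)) :=
        mul_le_mul_of_nonneg_left h2 (by positivity)
    _ = _ := by ring

/-- The difference of the weights. -/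
theorem weight_diff (n : ℕ) (hN : 0 < N) (p q : K3) :
    |vN N (-(p + q)) ^ (2 * (n + 1)) - vN N q ^ (2 * (n + 1))| * min (len q) (len (-(p + q)))
      ≤ 2 * (n + 1) * 2 ^ n * N * (vN N p * (vN N q * vN N (-(p + q))) ^ (n + 1)
        + vN N q * (vN N p * vN N (-(p + q))) ^ (n + 1)
        + vN N (-(p + q)) * (vN N p * vN N q) ^ (n + 1)) := by
  have h1 := abs_vN_sub hN p q
  have hp := one_le_vN (N := N) p
  have hq := one_le_vN (N := N) q
  have hr := one_le_vN (N := N) (-(p + q))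
  have hm : 0 ≤ min (len q) (len (-(p + q))) := le_min (len_nonneg _) (len_nonneg _)
  set x := vN N q with hx
  set y := vN N (-(p + q)) with hy
  set z := vN N p with hz
  have hx0 : 0 < x := by linarith
  have hy0 : 0 < y := by linarith
  have hz0 : 0 < z := by linarith
  have hc : 0 ≤ 2 * ((n : ℝ) + 1) * 2 ^ n * N := by positivity
  rcases le_total x y with h | h
  · have h2 := real_ineq n hq hp h ((le_abs_self _).trans h1) hm hN
      ((min_le_left _ _).trans (len_le_vN hN q))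
    rw [abs_of_nonneg (sub_nonneg.2 (pow_le_pow_left₀ hx0.le h _))]
    refine h2.trans (mul_le_mul_of_nonneg_left ?_ hc)
    have : 0 ≤ y * (z * x) ^ (n + 1) := by positivity
    linarith
  · have h2 := real_ineq n hr hp h (by
      have := (abs_le.1 h1).1
      linarith) hm hN ((min_le_right _ _).trans (len_le_vN hN _))
    rw [abs_of_nonpos (sub_nonpos.2 (pow_le_pow_left₀ hy0.le h _)), neg_sub]
    refine h2.trans (mul_le_mul_of_nonneg_left ?_ hc)
    have : 0 ≤ x * (z * y) ^ (n + 1) := by positivity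
    rw [mul_comm y x]
    linarith

end

/-! ### Sums over triads -/

theorem sum_Tr_swap {M : Type*} [AddCommMonoid M] (B : Finset K3) (f : K3 × K3 → M) :
    ∑ x ∈ Tr B, f x = ∑ x ∈ Tr B, f (x.2, x.1) := by
  refine Finset.sum_nbij' (fun x => (x.2, x.1)) (fun x => (x.2, x.1))
    (fun x hx => ?_) (fun x hx => ?_) (fun x _ => rfl) (fun x _ => rfl) (fun x _ => rfl)
  · rw [mem_Tr] at hx ⊢
    exact ⟨hx.2.1, hx.1, by rw [add_comm]; exact hx.2.2⟩
  · rw [mem_Tr] at hx ⊢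
    exact ⟨hx.2.1, hx.1, by rw [add_comm]; exact hx.2.2⟩

theorem tri_one (B : Finset K3) {f h : K3 → ℝ} (hf : ∀ k, 0 ≤ f k) :
    ∑ x ∈ Tr B, f x.1 * (h x.2 * h (-(x.1 + x.2))) ≤ (∑ k ∈ B, f k) * ∑ k ∈ B, h k ^ 2 := by
  classical
  have h1 : ∑ x ∈ Tr B, f x.1 * (h x.2 * h (-(x.1 + x.2)))
      ≤ ∑ x ∈ Tr B, (f x.1 * h x.2 ^ 2 + f x.1 * h (-(x.1 + x.2)) ^ 2) / 2 := by
    refine Finset.sum_le_sum fun x _ => ?_
    have e1 := hf x.1
    nlinarith [sq_nonneg (h x.2 - h (-(x.1 + x.2))), mul_nonneg e1 (sq_nonneg (h x.2 - h (-(x.1 + x.2))))]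
  have h2 : ∑ x ∈ Tr B, f x.1 * h (-(x.1 + x.2)) ^ 2 = ∑ x ∈ Tr B, f x.1 * h x.2 ^ 2 := by
    rw [sum_Tr_third]
    refine Finset.sum_congr rfl fun x _ => ?_
    simp
  have h3 : ∑ x ∈ Tr B, f x.1 * h x.2 ^ 2 ≤ ∑ x ∈ B ×ˢ B, f x.1 * h x.2 ^ 2 :=
    Finset.sum_le_sum_of_subset_of_nonneg (Finset.filter_subset _ _) fun x _ _ =>
      mul_nonneg (hf _) (sq_nonneg _)
  have h4 : ∑ x ∈ B ×ˢ B, f x.1 * h x.2 ^ 2 = (∑ k ∈ B, f k) * ∑ k ∈ B, h k ^ 2 := by
    rw [Finset.sum_product, Finset.sum_mul]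
    refine Finset.sum_congr rfl fun p _ => ?_
    rw [Finset.mul_sum]
  rw [← Finset.sum_div, Finset.sum_add_distrib, h2] at h1
  rw [← h4]
  linarith

theorem tri_two (B : Finset K3) {f h : K3 → ℝ} (hf : ∀ k, 0 ≤ f k) :
    ∑ x ∈ Tr B, f x.2 * (h x.1 * h (-(x.1 + x.2))) ≤ (∑ k ∈ B, f k) * ∑ k ∈ B, h k ^ 2 := by
  refine le_trans (le_of_eq ?_) (tri_one B hf (h := h))
  rw [sum_Tr_swap]
  refine Finset.sum_congr rfl fun x _ => ?_
  simp only [add_comm x.2 x.1]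

theorem tri_three (B : Finset K3) {f h : K3 → ℝ} (hf : ∀ k, 0 ≤ f k) :
    ∑ x ∈ Tr B, f (-(x.1 + x.2)) * (h x.1 * h x.2) ≤ (∑ k ∈ B, f k) * ∑ k ∈ B, h k ^ 2 := by
  refine le_trans (le_of_eq ?_) (tri_two B hf (h := h))
  rw [sum_Tr_third]
  refine Finset.sum_congr rfl fun x _ => ?_
  have e : -(x.1 + -(x.1 + x.2)) = x.2 := by abel
  simp only [e]

/-- The bound for the contribution of a triad. -/
theorem norm_th_le' {η : K3 → K3 → ℝ} (hη : ∀ p q, |η p q| ≤ 1) {a : Cf} (hd : Dv a)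
    (x : K3 × K3) : ‖th η a a a x‖
      ≤ 9 * (min (len x.2) (len (-(x.1 + x.2))) * (‖a x.1‖ * (‖a x.2‖ * ‖a (-(x.1 + x.2))‖))) := by
  unfold th
  rw [norm_mul, norm_mul, Complex.norm_real, Real.norm_eq_abs]
  have h1 : ‖kd (-(x.1 + x.2)) (a x.1)‖ ≤ 3 * min (len x.2) (len (-(x.1 + x.2))) * ‖a x.1‖ := by
    have e1 := norm_kd_le (-(x.1 + x.2)) (a x.1)
    have e2 : kd (-(x.1 + x.2)) (a x.1) = -kd x.2 (a x.1) := by
      rw [kd_neg_left, kd_add_left, hd x.1, zero_add]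
    have e3 := norm_kd_le x.2 (a x.1)
    rw [← norm_neg, ← e2] at e3
    rcases le_total (len x.2) (len (-(x.1 + x.2))) with h | h
    · rw [min_eq_left h]; exact e3
    · rw [min_eq_right h]; exact e1
  have h2 := norm_dc_le (a x.2) (a (-(x.1 + x.2)))
  have hm : 0 ≤ min (len x.2) (len (-(x.1 + x.2))) := le_min (len_nonneg _) (len_nonneg _)
  calc |η x.1 x.2| * (‖kd (-(x.1 + x.2)) (a x.1)‖ * ‖dc (a x.2) (a (-(x.1 + x.2)))‖)
      ≤ 1 * ((3 * min (len x.2) (len (-(x.1 + x.2))) * ‖a x.1‖)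
        * (3 * (‖a x.2‖ * ‖a (-(x.1 + x.2))‖))) := by
        refine mul_le_mul (hη _ _) (mul_le_mul h1 h2 (norm_nonneg _) (by positivity))
          (by positivity) zero_le_one
    _ = _ := by ring

/-- The commutator estimate. -/
theorem com {η : K3 → K3 → ℝ} (hη : IsWeight η) {N : ℝ} (hN : 0 < N) (n : ℕ) (B : Finset K3)
    {a : Cf} (hd : Dv a) :
    ‖∑ x ∈ Tr B, ((vN N (-(x.1 + x.2)) ^ (2 * (n + 1)) : ℝ) : ℂ) * th η a a a x‖
      ≤ 27 * (n + 1) * 2 ^ n * N * (∑ k ∈ B, vN N k * ‖a k‖)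
        * ∑ k ∈ B, vN N k ^ (2 * (n + 1)) * ‖a k‖ ^ 2 := by
  have h0 := sum_th hη hd B (fun k => vN N k ^ (2 * (n + 1)))
  rw [h0]
  set f : K3 → ℝ := fun k => vN N k * ‖a k‖ with hf
  set h : K3 → ℝ := fun k => vN N k ^ (n + 1) * ‖a k‖ with hh
  have hf0 : ∀ k, 0 ≤ f k := fun k => mul_nonneg (vN_pos k).le (norm_nonneg _)
  have h1 : ∀ x ∈ Tr B, ‖((((vN N (-(x.1 + x.2)) ^ (2 * (n + 1)) - vN N x.2 ^ (2 * (n + 1))) / 2
      : ℝ)) : ℂ) * th η a a a x‖
      ≤ 9 * (n + 1) * 2 ^ n * N * (f x.1 * (h x.2 * h (-(x.1 + x.2)))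
        + f x.2 * (h x.1 * h (-(x.1 + x.2))) + f (-(x.1 + x.2)) * (h x.1 * h x.2)) := by
    intro x _
    rw [norm_mul, Complex.norm_real, Real.norm_eq_abs, abs_div, abs_two]
    have e1 := norm_th_le' hη.bdd hd x
    have e2 := weight_diff n hN x.1 x.2
    have e3 : 0 ≤ ‖a x.1‖ * (‖a x.2‖ * ‖a (-(x.1 + x.2))‖) := by positivity
    calc |vN N (-(x.1 + x.2)) ^ (2 * (n + 1)) - vN N x.2 ^ (2 * (n + 1))| / 2 * ‖th η a a a x‖
        ≤ |vN N (-(x.1 + x.2)) ^ (2 * (n + 1)) - vN N x.2 ^ (2 * (n + 1))| / 2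
          * (9 * (min (len x.2) (len (-(x.1 + x.2)))
            * (‖a x.1‖ * (‖a x.2‖ * ‖a (-(x.1 + x.2))‖)))) :=
          mul_le_mul_of_nonneg_left e1 (by positivity)
      _ = 9 / 2 * ((|vN N (-(x.1 + x.2)) ^ (2 * (n + 1)) - vN N x.2 ^ (2 * (n + 1))|
          * min (len x.2) (len (-(x.1 + x.2)))) * (‖a x.1‖ * (‖a x.2‖ * ‖a (-(x.1 + x.2))‖))) := by
          ring
      _ ≤ 9 / 2 * ((2 * (n + 1) * 2 ^ n * N * (vN N x.1 * (vN N x.2 * vN N (-(x.1 + x.2))) ^ (n + 1)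
        + vN N x.2 * (vN N x.1 * vN N (-(x.1 + x.2))) ^ (n + 1)
        + vN N (-(x.1 + x.2)) * (vN N x.1 * vN N x.2) ^ (n + 1)))
          * (‖a x.1‖ * (‖a x.2‖ * ‖a (-(x.1 + x.2))‖))) :=
          mul_le_mul_of_nonneg_left (mul_le_mul_of_nonneg_right e2 e3) (by norm_num)
      _ = _ := by
          simp only [hf, hh, mul_pow]
          ring
  refine (norm_sum_le _ _).trans ((Finset.sum_le_sum h1).trans ?_)
  rw [← Finset.mul_sum, Finset.sum_add_distrib, Finset.sum_add_distrib]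
  have t1 := tri_one B hf0 (h := h)
  have t2 := tri_two B hf0 (h := h)
  have t3 := tri_three B hf0 (h := h)
  have e : ∑ k ∈ B, h k ^ 2 = ∑ k ∈ B, vN N k ^ (2 * (n + 1)) * ‖a k‖ ^ 2 := by
    refine Finset.sum_congr rfl fun k _ => ?_
    rw [hh]
    ring
  rw [e] at t1 t2 t3
  have hc : 0 ≤ 9 * ((n : ℝ) + 1) * 2 ^ n * N := by positivity
  calc _ ≤ 9 * ((n : ℝ) + 1) * 2 ^ n * N * (3 * ((∑ k ∈ B, f k)
        * ∑ k ∈ B, vN N k ^ (2 * (n + 1)) * ‖a k‖ ^ 2)) :=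
        mul_le_mul_of_nonneg_left (by linarith) hc
    _ = _ := by ring

end Pool.Agent.Run7.h507.SP
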