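import Pool.Agent.Run7.h507.SP.Ex

/-!
The critical case: the flux of energy through a scale, and the commutator with the derivative on the
smallest frequency.
-/

set_option autoImplicit false

open MeasureTheory Set Filter Topology
open scoped ContDiff ComplexConjugate NNReal

namespace Pool.Agent.Run7.h507.SP

open RT

open Classical in
/-- The indicator function of the frequencies with length at least `M`. -/
noncomputable def gH (M : ℝ) (k : K3) : ℝ := if M ≤ len k then 1 else 0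

theorem gH_of {M : ℝ} {k : K3} (h : M ≤ len k) : gH M k = 1 := by unfold gH; rw [if_pos h]

theorem gH_of_lt {M : ℝ} {k : K3} (h : len k < M) : gH M k = 0 := by
  unfold gH; rw [if_neg (not_le.2 h)]

theorem gH_nonneg (M : ℝ) (k : K3) : 0 ≤ gH M k := by
  rcases le_or_gt M (len k) with h | h
  · rw [gH_of h]; norm_num
  · rw [gH_of_lt h]

theorem gH_le (M : ℝ) (k : K3) : gH M k ≤ 1 := by
  rcases le_or_gt M (len k) with h | h
  · rw [gH_of h]
  · rw [gH_of_lt h]; norm_num

theorem gH_neg (M : ℝ) (k : K3) : gH M (-k) = gH M k := by unfold gH; rw [len_neg]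

theorem gH_mono {M M' : ℝ} (h : M ≤ M') (k : K3) : gH M' k ≤ gH M k := by
  rcases le_or_gt M' (len k) with h1 | h1
  · rw [gH_of h1, gH_of (h.trans h1)]
  · rw [gH_of_lt h1]; exact gH_nonneg _ _

theorem gH_sq (M : ℝ) (k : K3) : gH M k ^ 2 = gH M k := by
  rcases le_or_gt M (len k) with h | h
  · rw [gH_of h]; norm_num
  · rw [gH_of_lt h]; norm_num

/-- The constant of the lattice sums. -/
noncomputable def K1 : ℝ := Real.sqrt (729 * Z6)

theorem K1_nonneg : 0 ≤ K1 := Real.sqrt_nonneg _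

theorem sqrt_cube {N : ℕ} : Real.sqrt (729 * (N : ℝ) ^ 3 * Z6) = K1 * (N * Real.sqrt N) := by
  have h1 : 729 * (N : ℝ) ^ 3 * Z6 = (729 * Z6) * ((N : ℝ) ^ 2 * N) := by ring
  have e0 : Real.sqrt ((N : ℝ) ^ 2 * N) = N * Real.sqrt N := by
    rw [Real.sqrt_mul (by positivity), Real.sqrt_sq (Nat.cast_nonneg N)]
  rw [h1, Real.sqrt_mul (mul_nonneg (by norm_num) Z6_nonneg) ((N : ℝ) ^ 2 * N), e0]
  rfl

/-- The derivatives of the modes below `M`. -/
theorem low_sum {M : ℕ} (hM : 0 < M) (B : Finset K3) (a : Cf) :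
    ∑ k ∈ B, (1 - gH M k) * (len k * ‖a k‖)
      ≤ K1 * ((M : ℝ) ^ 2 * Real.sqrt M) * Real.sqrt (∑ k ∈ B, nsq (a k)) := by
  classical
  have hM0 : (0 : ℝ) < M := by exact_mod_cast hM
  have h1 : ∑ k ∈ B, (1 - gH M k) * (len k * ‖a k‖)
      = ∑ k ∈ B.filter (fun k => len k < M), len k * ‖a k‖ := by
    rw [Finset.sum_filter]
    refine Finset.sum_congr rfl fun k _ => ?_
    rcases le_or_gt (M : ℝ) (len k) with h | h
    · rw [gH_of h, if_neg (not_lt.2 h)]; ring
    · rw [gH_of_lt h, if_pos h]; ring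
  have h2 := sum_le_sqrt hM (B.filter (fun k => len k < M)) a
  rw [sqrt_cube] at h2
  have h3 : ∑ k ∈ B.filter (fun k => len k < M), len k * ‖a k‖
      ≤ M * ∑ k ∈ B.filter (fun k => len k < M), vN M k * ‖a k‖ := by
    rw [Finset.mul_sum]
    refine Finset.sum_le_sum fun k _ => ?_
    rw [← mul_assoc]
    exact mul_le_mul_of_nonneg_right (len_le_vN hM0 k) (norm_nonneg _)
  have h4 : ∑ k ∈ B.filter (fun k => len k < M), vN M k ^ 8 * ‖a k‖ ^ 2 ≤ ∑ k ∈ B, nsq (a k) := by
    refine le_trans (Finset.sum_le_sum fun k hk => ?_)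
      (Finset.sum_le_sum_of_subset_of_nonneg (Finset.filter_subset _ _) fun k _ _ => nsq_nonneg _)
    rw [vN_of_le hM0 (Finset.mem_filter.1 hk).2.le, one_pow, one_mul]
    exact norm_sq_le_nsq _
  have hK := K1_nonneg
  rw [h1]
  calc _ ≤ _ := h3
    _ ≤ M * (K1 * (M * Real.sqrt M) * Real.sqrt (∑ k ∈ B, nsq (a k))) := by
        refine mul_le_mul_of_nonneg_left (h2.trans ?_) hM0.le
        exact mul_le_mul_of_nonneg_left (Real.sqrt_le_sqrt h4) (by positivity)
    _ = _ := by ring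

/-- The derivatives of the modes above `M`. -/
theorem high_sum {N : ℕ} (hN : 0 < N) (M : ℝ) (B : Finset K3) (a : Cf) :
    ∑ k ∈ B, gH M k * (len k * ‖a k‖)
      ≤ K1 * ((N : ℝ) ^ 2 * Real.sqrt N)
        * Real.sqrt (∑ k ∈ B, gH M k * (vN N k ^ 8 * nsq (a k))) := by
  classical
  have hN0 : (0 : ℝ) < N := by exact_mod_cast hN
  have h1 : ∀ f : K3 → ℝ, ∑ k ∈ B, gH M k * f k
      = ∑ k ∈ B.filter (fun k => M ≤ len k), f k := by
    intro f
    rw [Finset.sum_filter]
    refine Finset.sum_congr rfl fun k _ => ?_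
    rcases le_or_gt M (len k) with h | h
    · rw [gH_of h, if_pos h]; ring
    · rw [gH_of_lt h, if_neg (not_le.2 h)]; ring
  have h2 := sum_le_sqrt hN (B.filter (fun k => M ≤ len k)) a
  rw [sqrt_cube] at h2
  have h3 : ∑ k ∈ B.filter (fun k => M ≤ len k), len k * ‖a k‖
      ≤ N * ∑ k ∈ B.filter (fun k => M ≤ len k), vN N k * ‖a k‖ := by
    rw [Finset.mul_sum]
    refine Finset.sum_le_sum fun k _ => ?_
    rw [← mul_assoc]
    exact mul_le_mul_of_nonneg_right (len_le_vN hN0 k) (norm_nonneg _)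
  have h4 : ∑ k ∈ B.filter (fun k => M ≤ len k), vN N k ^ 8 * ‖a k‖ ^ 2
      ≤ ∑ k ∈ B.filter (fun k => M ≤ len k), vN N k ^ 8 * nsq (a k) :=
    Finset.sum_le_sum fun k _ => mul_le_mul_of_nonneg_left (norm_sq_le_nsq _)
      (pow_nonneg (vN_pos k).le _)
  have hK := K1_nonneg
  rw [h1, h1]
  calc _ ≤ _ := h3
    _ ≤ N * (K1 * (N * Real.sqrt N)
        * Real.sqrt (∑ k ∈ B.filter (fun k => M ≤ len k), vN N k ^ 8 * nsq (a k))) := by
        refine mul_le_mul_of_nonneg_left (h2.trans ?_) hN0.le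
        exact mul_le_mul_of_nonneg_left (Real.sqrt_le_sqrt h4) (by positivity)
    _ = _ := by ring

/-- The flux of energy through the scale `M`. -/
theorem flux {η : K3 → K3 → ℝ} (hη : IsWeight η) {B : Finset K3} (hB : ∀ k ∈ B, -k ∈ B) {M : ℕ}
    (hM : 0 < M) {b : Cf} (hs : ∀ k ∉ B, b k = 0) (hh : Herm b) (hd : Dv b) {R : ℝ}
    (hR : ∑ k ∈ B, nsq (b k) ≤ R) :
    |∑ k ∈ B, gH M k * ip (nl η b b k) (b k)|
      ≤ 9 * K1 * ((M : ℝ) ^ 2 * Real.sqrt M) * (Real.sqrt R * R) := by
  have h2 := sum_ip_nl η hs hs hB hd hh (gH M) (gH_neg M)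
  rw [h2, abs_neg]
  refine (Complex.abs_re_le_norm _).trans ?_
  rw [norm_mul, Complex.norm_I, one_mul, sum_th hη hd B (gH M)]
  set u : K3 → ℝ := fun k => (1 - gH M k) * (len k * ‖b k‖) with hu
  set h : K3 → ℝ := fun k => ‖b k‖ with hh'
  have hu0 : ∀ k, 0 ≤ u k := fun k => mul_nonneg (by have := gH_le M k; linarith)
    (mul_nonneg (len_nonneg _) (norm_nonneg _))
  have h1 : ∀ x ∈ Tr B, ‖(((gH M (-(x.1 + x.2)) - gH M x.2) / 2 : ℝ) : ℂ) * th η b b b x‖
      ≤ 9 / 2 * (u x.2 * (h x.1 * h (-(x.1 + x.2))) + u (-(x.1 + x.2)) * (h x.1 * h x.2)) := by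
    intro x _
    rw [norm_mul, Complex.norm_real, Real.norm_eq_abs, abs_div, abs_two]
    have e1 := norm_th_le' hη.bdd hd x
    set q := x.2 with hq
    set r := -(x.1 + x.2) with hr
    have n1 := norm_nonneg (b x.1)
    have n2 := norm_nonneg (b q)
    have n3 := norm_nonneg (b r)
    have m0 : 0 ≤ min (len q) (len r) := le_min (len_nonneg _) (len_nonneg _)
    have key : |gH M r - gH M q| * min (len q) (len r)
        ≤ (1 - gH M q) * len q + (1 - gH M r) * len r := by
      have l1 := len_nonneg q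
      have l2 := len_nonneg r
      rcases le_or_gt (M : ℝ) (len q) with a1 | a1 <;> rcases le_or_gt (M : ℝ) (len r) with a2 | a2
      · rw [gH_of a1, gH_of a2]; simp
      · rw [gH_of a1, gH_of_lt a2]
        norm_num
      · rw [gH_of_lt a1, gH_of a2]
        norm_num
      · rw [gH_of_lt a1, gH_of_lt a2]
        norm_num
        positivity
    calc |gH M r - gH M q| / 2 * ‖th η b b b x‖
        ≤ |gH M r - gH M q| / 2 * (9 * (min (len q) (len r) * (‖b x.1‖ * (‖b q‖ * ‖b r‖)))) :=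
          mul_le_mul_of_nonneg_left e1 (by positivity)
      _ = 9 / 2 * ((|gH M r - gH M q| * min (len q) (len r)) * (‖b x.1‖ * (‖b q‖ * ‖b r‖))) := by
          ring
      _ ≤ 9 / 2 * (((1 - gH M q) * len q + (1 - gH M r) * len r)
          * (‖b x.1‖ * (‖b q‖ * ‖b r‖))) :=
          mul_le_mul_of_nonneg_left (mul_le_mul_of_nonneg_right key (by positivity)) (by norm_num)
      _ = _ := by simp only [hu, hh']; ring
  refine (norm_sum_le _ _).trans ((Finset.sum_le_sum h1).trans ?_)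
  rw [← Finset.mul_sum, Finset.sum_add_distrib]
  have t2 := tri_two B hu0 (h := h)
  have t3 := tri_three B hu0 (h := h)
  have t4 : ∑ k ∈ B, h k ^ 2 ≤ R :=
    (Finset.sum_le_sum fun k _ => norm_sq_le_nsq _).trans hR
  have t5 : ∑ k ∈ B, u k ≤ K1 * ((M : ℝ) ^ 2 * Real.sqrt M) * Real.sqrt R := by
    refine (low_sum hM B b).trans ?_
    have hK := K1_nonneg
    exact mul_le_mul_of_nonneg_left (Real.sqrt_le_sqrt hR) (by positivity)
  have t6 : (∑ k ∈ B, u k) * ∑ k ∈ B, h k ^ 2
      ≤ K1 * ((M : ℝ) ^ 2 * Real.sqrt M) * Real.sqrt R * R := by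
    have hK := K1_nonneg
    exact mul_le_mul t5 t4 (Finset.sum_nonneg fun _ _ => sq_nonneg _) (by positivity)
  calc _ ≤ 9 / 2 * (2 * (K1 * ((M : ℝ) ^ 2 * Real.sqrt M) * Real.sqrt R * R)) :=
        mul_le_mul_of_nonneg_left (by linarith) (by norm_num)
    _ = _ := by ring

/-! ### The commutator with the derivative on the smallest frequency -/

/-- The weights of the high modes. -/
noncomputable def hv (N : ℝ) (n : ℕ) (k : K3) : ℝ := gH (N / 2) k * vN N k ^ (n + 1)

theorem hv_nonneg (N : ℝ) (n : ℕ) (k : K3) : 0 ≤ hv N n k :=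
  mul_nonneg (gH_nonneg _ _) (pow_nonneg (vN_pos k).le _)

theorem hv_of {N : ℝ} (n : ℕ) {k : K3} (h : N / 2 ≤ len k) : hv N n k = vN N k ^ (n + 1) := by
  unfold hv
  rw [gH_of h, one_mul]

theorem vN_eq {N : ℝ} (hN : 0 < N) {k : K3} (h : N ≤ len k) : vN N k = len k / N := by
  unfold vN
  exact max_eq_right ((one_le_div hN).2 h)

theorem vN_two {N : ℝ} {r q : K3} (hN : 0 < N) (h : len r ≤ 2 * len q) : vN N r ≤ 2 * vN N q := by
  have h1 := one_le_vN (N := N) q
  refine max_le (by linarith) ?_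
  have h2 : len q / N ≤ vN N q := le_max_right _ _
  have h3 : len r / N ≤ 2 * len q / N := div_le_div_of_nonneg_right h hN.le
  rw [mul_div_assoc] at h3
  linarith

/-- One ordering of the frequencies. -/
theorem diff_one (n : ℕ) {N : ℝ} (hN : 0 < N) {p q r : K3} (hr : N < len r) (hqr : len q ≤ len r)
    (hrpq : len r ≤ len p + len q) :
    (vN N r ^ (2 * (n + 1)) - vN N q ^ (2 * (n + 1))) * len q
      ≤ 2 * (n + 1) * 2 ^ n * (len p * (hv N n q * hv N n r) + len q * (hv N n p * hv N n r)) := by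
  have v1 := one_le_vN (N := N) q
  have v2 := one_le_vN (N := N) r
  have v3 := one_le_vN (N := N) p
  have l1 := len_nonneg q
  have l2 := len_nonneg p
  have vqr : vN N q ≤ vN N r := by
    unfold vN
    exact max_le_max le_rfl (div_le_div_of_nonneg_right hqr hN.le)
  have hc : 0 ≤ 2 * ((n : ℝ) + 1) * 2 ^ n := by positivity
  have g1 := hv_nonneg N n q
  have g2 := hv_nonneg N n r
  have g3 := hv_nonneg N n p
  have hrh : hv N n r = vN N r ^ (n + 1) := hv_of n (by linarith)
  rcases le_total (len p) (len q) with h | h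
  · have hq : N / 2 ≤ len q := by linarith
    have hqh : hv N n q = vN N q ^ (n + 1) := hv_of n hq
    have e1 := pow_sub_le (zero_le_one.trans v1) vqr (2 * n + 1)
    have e2 : 2 * n + 1 + 1 = 2 * (n + 1) := by ring
    rw [e2] at e1
    have e3 : vN N r ≤ 2 * vN N q := vN_two hN (by linarith)
    have e4 : vN N r ^ n ≤ 2 ^ n * vN N q ^ n := by
      rw [← mul_pow]
      exact pow_le_pow_left₀ (by linarith) e3 n
    have e5 : (vN N r - vN N q) * N ≤ len p := by
      have a1 : vN N r = len r / N := vN_eq hN hr.le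
      have a2 : len q / N ≤ vN N q := le_max_right _ _
      have a3 : len r / N * N = len r := div_mul_cancel₀ _ hN.ne'
      have a4 : len q / N * N = len q := div_mul_cancel₀ _ hN.ne'
      have a5 := mul_le_mul_of_nonneg_right a2 hN.le
      rw [a1, sub_mul, a3]
      linarith
    have e6 : len q ≤ N * vN N q := len_le_vN hN q
    have e0 : 0 ≤ vN N r - vN N q := sub_nonneg.2 vqr
    have key : (vN N r ^ (2 * (n + 1)) - vN N q ^ (2 * (n + 1))) * len q
        ≤ 2 * (n + 1) * 2 ^ n * (len p * (vN N q ^ (n + 1) * vN N r ^ (n + 1))) := by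
      calc (vN N r ^ (2 * (n + 1)) - vN N q ^ (2 * (n + 1))) * len q
          ≤ ((((2 * n + 1 : ℕ) : ℝ) + 1) * vN N r ^ (2 * n + 1) * (vN N r - vN N q))
            * (N * vN N q) := by
            refine mul_le_mul e1 e6 l1 (by positivity)
        _ = 2 * (n + 1) * vN N r ^ n * ((vN N r - vN N q) * N) * (vN N q * vN N r ^ (n + 1)) := by
            push_cast
            ring
        _ ≤ 2 * (n + 1) * (2 ^ n * vN N q ^ n) * len p * (vN N q * vN N r ^ (n + 1)) := by
            refine mul_le_mul_of_nonneg_right ?_ (by positivity)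
            refine mul_le_mul ?_ e5 (mul_nonneg e0 hN.le) (by positivity)
            exact mul_le_mul_of_nonneg_left e4 (by positivity)
        _ = _ := by ring
    refine key.trans ?_
    rw [hqh, hrh]
    refine mul_le_mul_of_nonneg_left ?_ hc
    have : 0 ≤ len q * (hv N n p * vN N r ^ (n + 1)) := by positivity
    linarith
  · have hp : N / 2 ≤ len p := by linarith
    have hph : hv N n p = vN N p ^ (n + 1) := hv_of n hp
    have e3 : vN N r ≤ 2 * vN N p := vN_two hN (by linarith)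
    have e4 : vN N r ^ (n + 1) ≤ 2 ^ (n + 1) * vN N p ^ (n + 1) := by
      rw [← mul_pow]
      exact pow_le_pow_left₀ (by linarith) e3 _
    have e5 : (0 : ℝ) ≤ vN N q ^ (2 * (n + 1)) := by positivity
    have key : (vN N r ^ (2 * (n + 1)) - vN N q ^ (2 * (n + 1))) * len q
        ≤ 2 * (n + 1) * 2 ^ n * (len q * (vN N p ^ (n + 1) * vN N r ^ (n + 1))) := by
      calc (vN N r ^ (2 * (n + 1)) - vN N q ^ (2 * (n + 1))) * len q
          ≤ vN N r ^ (2 * (n + 1)) * len q := mul_le_mul_of_nonneg_right (by linarith) l1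
        _ = vN N r ^ (n + 1) * (vN N r ^ (n + 1) * len q) := by ring
        _ ≤ 2 ^ (n + 1) * vN N p ^ (n + 1) * (vN N r ^ (n + 1) * len q) :=
            mul_le_mul_of_nonneg_right e4 (by positivity)
        _ = 2 * 2 ^ n * (len q * (vN N p ^ (n + 1) * vN N r ^ (n + 1))) := by ring
        _ ≤ 2 * (n + 1) * 2 ^ n * (len q * (vN N p ^ (n + 1) * vN N r ^ (n + 1))) := by
            refine mul_le_mul_of_nonneg_right ?_ (by positivity)
            have : (0 : ℝ) ≤ n := Nat.cast_nonneg n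
            have : (0 : ℝ) < 2 ^ n := by positivity
            nlinarith
    refine key.trans ?_
    rw [hph, hrh]
    refine mul_le_mul_of_nonneg_left ?_ hc
    have : 0 ≤ len p * (hv N n q * vN N r ^ (n + 1)) := by positivity
    linarith

/-- The difference of the weights. -/
theorem weight_diff2 (n : ℕ) {N : ℝ} (hN : 0 < N) (p q : K3) :
    |vN N (-(p + q)) ^ (2 * (n + 1)) - vN N q ^ (2 * (n + 1))| * min (len q) (len (-(p + q)))
      ≤ 2 * (n + 1) * 2 ^ n * (len p * (hv N n q * hv N n (-(p + q)))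
        + len q * (hv N n p * hv N n (-(p + q))) + len (-(p + q)) * (hv N n p * hv N n q)) := by
  set r := -(p + q) with hr
  have l1 := len_nonneg q
  have l2 := len_nonneg p
  have l3 := len_nonneg r
  have g1 := hv_nonneg N n q
  have g2 := hv_nonneg N n r
  have g3 := hv_nonneg N n p
  have hc : 0 ≤ 2 * ((n : ℝ) + 1) * 2 ^ n := by positivity
  have hrpq : len r ≤ len p + len q := by rw [hr, len_neg]; exact len_add_le p q
  have hqpr : len q ≤ len p + len r := by
    have := len_add_le (-p) (p + q)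
    rw [neg_add_cancel_left, len_neg] at this
    rw [hr, len_neg (p + q)]
    exact this
  rcases le_total (max (len q) (len r)) N with h | h
  · rw [vN_of_le hN ((le_max_left _ _).trans h), vN_of_le hN ((le_max_right _ _).trans h)]
    simp only [one_pow, sub_self, abs_zero, zero_mul]
    positivity
  rcases h.eq_or_lt with h | h
  · rw [vN_of_le hN ((le_max_left (len q) (len r)).trans h.ge),
      vN_of_le hN ((le_max_right (len q) (len r)).trans h.ge)]
    simp only [one_pow, sub_self, abs_zero, zero_mul]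
    positivity
  rcases le_total (len q) (len r) with hqr | hqr
  · rw [max_eq_right hqr] at h
    have vqr : vN N q ≤ vN N r := by
      unfold vN
      exact max_le_max le_rfl (div_le_div_of_nonneg_right hqr hN.le)
    rw [abs_of_nonneg (sub_nonneg.2 (pow_le_pow_left₀ (vN_pos q).le vqr _)), min_eq_left hqr]
    refine (diff_one n hN h hqr hrpq).trans (mul_le_mul_of_nonneg_left ?_ hc)
    have : 0 ≤ len r * (hv N n p * hv N n q) := by positivity
    linarith
  · rw [max_eq_left hqr] at h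
    have vqr : vN N r ≤ vN N q := by
      unfold vN
      exact max_le_max le_rfl (div_le_div_of_nonneg_right hqr hN.le)
    rw [abs_of_nonpos (sub_nonpos.2 (pow_le_pow_left₀ (vN_pos r).le vqr _)), neg_sub,
      min_eq_right hqr]
    refine (diff_one n hN h hqr hqpr).trans (mul_le_mul_of_nonneg_left ?_ hc)
    have : 0 ≤ len q * (hv N n p * hv N n r) := by positivity
    rw [mul_comm (hv N n r) (hv N n q)]
    linarith

/-- The commutator estimate with the derivative on the smallest frequency. -/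
theorem com2 {η : K3 → K3 → ℝ} (hη : IsWeight η) {N : ℝ} (hN : 0 < N) (n : ℕ) (B : Finset K3)
    {a : Cf} (hd : Dv a) :
    ‖∑ x ∈ Tr B, ((vN N (-(x.1 + x.2)) ^ (2 * (n + 1)) : ℝ) : ℂ) * th η a a a x‖
      ≤ 27 * (n + 1) * 2 ^ n * (∑ k ∈ B, len k * ‖a k‖)
        * ∑ k ∈ B, gH (N / 2) k * (vN N k ^ (2 * (n + 1)) * ‖a k‖ ^ 2) := by
  have h0 := sum_th hη hd B (fun k => vN N k ^ (2 * (n + 1)))
  rw [h0]
  set f : K3 → ℝ := fun k => len k * ‖a k‖ with hf
  set h : K3 → ℝ := fun k => hv N n k * ‖a k‖ with hh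
  have hf0 : ∀ k, 0 ≤ f k := fun k => mul_nonneg (len_nonneg k) (norm_nonneg _)
  have h1 : ∀ x ∈ Tr B, ‖((((vN N (-(x.1 + x.2)) ^ (2 * (n + 1)) - vN N x.2 ^ (2 * (n + 1))) / 2
      : ℝ)) : ℂ) * th η a a a x‖
      ≤ 9 * (n + 1) * 2 ^ n * (f x.1 * (h x.2 * h (-(x.1 + x.2)))
        + f x.2 * (h x.1 * h (-(x.1 + x.2))) + f (-(x.1 + x.2)) * (h x.1 * h x.2)) := by
    intro x _
    rw [norm_mul, Complex.norm_real, Real.norm_eq_abs, abs_div, abs_two]
    have e1 := norm_th_le' hη.bdd hd x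
    have e2 := weight_diff2 n hN x.1 x.2
    have e3 : 0 ≤ ‖a x.1‖ * (‖a x.2‖ * ‖a (-(x.1 + x.2))‖) := by positivity
    calc |vN N (-(x.1 + x.2)) ^ (2 * (n + 1)) - vN N x.2 ^ (2 * (n + 1))| / 2 * ‖th η a a a x‖
        ≤ |vN N (-(x.1 + x.2)) ^ (2 * (n + 1)) - vN N x.2 ^ (2 * (n + 1))| / 2
          * (9 * (min (len x.2) (len (-(x.1 + x.2)))
            * (‖a x.1‖ * (‖a x.2‖ * ‖a (-(x.1 + x.2))‖)))) :=
          mul_le_mul_of_nonneg_left e1 (by positivity)
      _ = 9 / 2 * ((|vN N (-(x.1 + x.2)) ^ (2 * (n + 1)) - vN N x.2 ^ (2 * (n + 1))|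
          * min (len x.2) (len (-(x.1 + x.2)))) * (‖a x.1‖ * (‖a x.2‖ * ‖a (-(x.1 + x.2))‖))) := by
          ring
      _ ≤ 9 / 2 * ((2 * (n + 1) * 2 ^ n * (len x.1 * (hv N n x.2 * hv N n (-(x.1 + x.2)))
        + len x.2 * (hv N n x.1 * hv N n (-(x.1 + x.2)))
        + len (-(x.1 + x.2)) * (hv N n x.1 * hv N n x.2)))
          * (‖a x.1‖ * (‖a x.2‖ * ‖a (-(x.1 + x.2))‖))) :=
          mul_le_mul_of_nonneg_left (mul_le_mul_of_nonneg_right e2 e3) (by norm_num)
      _ = _ := by
          simp only [hf, hh]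
          ring
  refine (norm_sum_le _ _).trans ((Finset.sum_le_sum h1).trans ?_)
  rw [← Finset.mul_sum, Finset.sum_add_distrib, Finset.sum_add_distrib]
  have t1 := tri_one B hf0 (h := h)
  have t2 := tri_two B hf0 (h := h)
  have t3 := tri_three B hf0 (h := h)
  have e : ∑ k ∈ B, h k ^ 2 = ∑ k ∈ B, gH (N / 2) k * (vN N k ^ (2 * (n + 1)) * ‖a k‖ ^ 2) := by
    refine Finset.sum_congr rfl fun k _ => ?_
    simp only [hh, hv]
    rw [mul_pow, mul_pow, gH_sq, ← pow_mul]
    ring
  rw [e] at t1 t2 t3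
  have hc : 0 ≤ 9 * ((n : ℝ) + 1) * 2 ^ n := by positivity
  calc _ ≤ 9 * ((n : ℝ) + 1) * 2 ^ n * (3 * ((∑ k ∈ B, f k)
        * ∑ k ∈ B, gH (N / 2) k * (vN N k ^ (2 * (n + 1)) * ‖a k‖ ^ 2))) :=
        mul_le_mul_of_nonneg_left (by linarith) hc
    _ = _ := by ring

end Pool.Agent.Run7.h507.SP
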