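import Pool.Agent.Run7.h507.SP.Crit1

/-!
The critical case: the barrier for small energy of the high modes, and the energy lost when the
energy crosses a scale.
-/

set_option autoImplicit false

open MeasureTheory Set Filter Topology
open scoped ContDiff ComplexConjugate NNReal

namespace Pool.Agent.Run7.h507.SP

open RT

section

variable {η : K3 → K3 → ℝ} {μ : K3 → ℝ} {B : Finset K3} {T : ℝ} {a : ℝ → Cf}

/-- The energy with a weight. -/
noncomputable def eW (g : K3 → ℝ) (B : Finset K3) (a : Cf) : ℝ := ∑ k ∈ B, g k * nsq (a k)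

theorem eW_nonneg {g : K3 → ℝ} (hg : ∀ k, 0 ≤ g k) (B : Finset K3) (a : Cf) : 0 ≤ eW g B a :=
  Finset.sum_nonneg fun k _ => mul_nonneg (hg k) (nsq_nonneg _)

theorem eW_mono {g g' : K3 → ℝ} (hg : ∀ k, g k ≤ g' k) (B : Finset K3) (a : Cf) :
    eW g B a ≤ eW g' B a :=
  Finset.sum_le_sum fun k _ => mul_le_mul_of_nonneg_right (hg k) (nsq_nonneg _)

theorem hasDerivAt_eW (hG : GalM η μ B T a) (g : K3 → ℝ) {t : ℝ} (ht : t ∈ Icc 0 T) :
    HasDerivAt (fun s => eW g B (a s))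
      (-(2 * ∑ k ∈ B, g k * (μ k * nsq (a t k)))
        - 2 * ∑ k ∈ B, g k * ip (nl η (a t) (a t) k) (a t k)) t := by
  have h1 : HasDerivAt (fun s => eW g B (a s))
      (∑ k ∈ B, g k * (2 * ip (rhsM η μ (a t) k) (a t k))) t := by
    unfold eW
    exact HasDerivAt.fun_sum fun k hk => (hasDerivAt_nsq (hG.der t ht k hk)).const_mul _
  have e : ∑ k ∈ B, g k * (2 * ip (rhsM η μ (a t) k) (a t k))
      = -(2 * ∑ k ∈ B, g k * (μ k * nsq (a t k)))
        - 2 * ∑ k ∈ B, g k * ip (nl η (a t) (a t) k) (a t k) := by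
    rw [Finset.mul_sum, Finset.mul_sum, ← Finset.sum_neg_distrib, ← Finset.sum_sub_distrib]
    refine Finset.sum_congr rfl fun k _ => ?_
    rw [ip_rhsM]
    ring
  rw [← e]
  exact h1

/-- The energy. -/
noncomputable def eE (B : Finset K3) (a : Cf) : ℝ := eW (fun _ => 1) B a

theorem eE_eq (B : Finset K3) (a : Cf) : eE B a = ∑ k ∈ B, nsq (a k) := by
  unfold eE eW
  simp only [one_mul]

theorem hasDerivAt_eE (hη : IsWeight η) (hB : ∀ k ∈ B, -k ∈ B) (hG : GalM η μ B T a) {t : ℝ}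
    (ht : t ∈ Icc 0 T) :
    HasDerivAt (fun s => eE B (a s)) (-(2 * ∑ k ∈ B, μ k * nsq (a t k))) t := by
  have h1 := hasDerivAt_eW hG (fun _ => 1) ht
  simp only [one_mul] at h1
  rw [sum_ip_nl_one hη (hG.supp t) hB (hG.div t) (hG.herm t), mul_zero, sub_zero] at h1
  exact h1

theorem eE_anti (hη : IsWeight η) (hμ : IsSym μ) (hB : ∀ k ∈ B, -k ∈ B) (hG : GalM η μ B T a)
    {s t : ℝ} (hs : 0 ≤ s) (hst : s ≤ t) (ht : t ≤ T) : eE B (a t) ≤ eE B (a s) := by
  have h := le_of_deriv_nonneg (f := fun x => -eE B (a x))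
    (f' := fun x => -(-(2 * ∑ k ∈ B, μ k * nsq (a x k)))) hst
    (fun x hx => (hasDerivAt_eE hη hB hG ⟨hs.trans hx.1, hx.2.trans ht⟩).neg)
    (fun x _ => by
      rw [neg_neg]
      have : 0 ≤ ∑ k ∈ B, μ k * nsq (a x k) :=
        Finset.sum_nonneg fun k _ => mul_nonneg (hμ.nonneg k) (nsq_nonneg _)
      linarith)
  linarith

/-- The weight of the barrier. -/
noncomputable def gP (N : ℝ) (k : K3) : ℝ := vN N k ^ 8 - 1

theorem gP_nonneg (N : ℝ) (k : K3) : 0 ≤ gP N k := sub_nonneg.2 (one_le_pow₀ (one_le_vN k))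

/-- The barrier when the energy of the high modes is small. -/
theorem barrier2 (hη : IsWeight η) (hμ : IsSym μ) (hB : ∀ k ∈ B, -k ∈ B) (hG : GalM η μ B T a)
    {N M : ℕ} (hM : 0 < M) (hMN : 2 * M ≤ N) {δ R ρ : ℝ} (hρ : 0 < ρ)
    (hδ : ∀ k, (N : ℝ) ≤ len k → δ * ((N : ℝ) ^ 2 * Real.sqrt N) ≤ μ k)
    (hR : eE B (a 0) ≤ R)
    (hcond : 1728 * (K1 * ((M : ℝ) ^ 2 * Real.sqrt M) * Real.sqrt R
      + K1 * ((N : ℝ) ^ 2 * Real.sqrt N) * Real.sqrt (2 * ρ)) < δ * ((N : ℝ) ^ 2 * Real.sqrt N))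
    (h0 : eW (gP N) B (a 0) ≤ ρ) {t : ℝ} (htT : t ≤ T)
    (he : ∀ x ∈ Icc 0 t, eW (gH M) B (a x) ≤ ρ) :
    ∀ x ∈ Icc 0 t, eW (gP N) B (a x) ≤ ρ := by
  have hN : 0 < N := by omega
  have hN0 : (0 : ℝ) < N := by exact_mod_cast hN
  set Q : ℝ := (N : ℝ) ^ 2 * Real.sqrt N with hQ
  have hQ0 : 0 < Q := by positivity
  have hK := K1_nonneg
  have hδ0 : 0 < δ := by
    by_contra hcon
    have h1 := mul_nonpos_of_nonpos_of_nonneg (not_lt.1 hcon) hQ0.le
    have h2 : 0 ≤ 1728 * (K1 * ((M : ℝ) ^ 2 * Real.sqrt M) * Real.sqrt R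
      + K1 * Q * Real.sqrt (2 * ρ)) := by positivity
    linarith
  have hI : ∀ x ∈ Icc 0 t, x ∈ Icc 0 T := fun x hx => ⟨hx.1, hx.2.trans htT⟩
  refine image_le_of_deriv_right_lt_deriv_boundary' (f := fun x => eW (gP N) B (a x))
    (f' := fun x => -(2 * ∑ k ∈ B, gP N k * (μ k * nsq (a x k)))
        - 2 * ∑ k ∈ B, gP N k * ip (nl η (a x) (a x) k) (a x k))
    (B := fun _ => ρ) (B' := fun _ => 0) (fun x hx =>
      (hasDerivAt_eW hG _ (hI x hx)).continuousAt.continuousWithinAt)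
    (fun x hx => (hasDerivAt_eW hG _ (hI x ⟨hx.1, hx.2.le⟩)).hasDerivWithinAt) h0
    continuousOn_const (fun x _ => hasDerivWithinAt_const _ _ _) ?_
  intro x hx hfx
  have hfx' : eW (gP N) B (a x) = ρ := hfx
  have hxI : x ∈ Icc 0 T := hI x ⟨hx.1, hx.2.le⟩
  have hex := he x ⟨hx.1, hx.2.le⟩
  -- the energies
  have hgm : ∀ k, gH (N / 2 : ℝ) k ≤ gH M k := gH_mono (by
    have : (2 * M : ℝ) ≤ N := by exact_mod_cast hMN
    linarith)
  have hen : ∑ k ∈ B, nsq (a x k) ≤ R := by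
    rw [← eE_eq]
    exact (eE_anti hη hμ hB hG le_rfl hx.1 (hx.2.le.trans htT)).trans hR
  have h1 : ∑ k ∈ B, gH M k * (vN N k ^ 8 * nsq (a x k)) ≤ 2 * ρ := by
    calc ∑ k ∈ B, gH M k * (vN N k ^ 8 * nsq (a x k))
        ≤ ∑ k ∈ B, (gP N k * nsq (a x k) + gH M k * nsq (a x k)) := by
          refine Finset.sum_le_sum fun k _ => ?_
          have n1 := nsq_nonneg (a x k)
          have n2 := gP_nonneg N k
          have n3 := gH_le M k
          have n4 := gH_nonneg M k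
          have e : vN (N : ℝ) k ^ 8 = gP N k + 1 := by unfold gP; ring
          rw [e]
          nlinarith [mul_nonneg n2 n1, mul_nonneg (mul_nonneg n2 n1) (by linarith : 0 ≤ 1 - gH M k)]
      _ ≤ 2 * ρ := by
          rw [Finset.sum_add_distrib]
          have e1 : ∑ k ∈ B, gP N k * nsq (a x k) = ρ := hfx'
          have e2 : ∑ k ∈ B, gH M k * nsq (a x k) ≤ ρ := hex
          linarith
  have h2 : ∑ k ∈ B, gH ((N : ℝ) / 2) k * (vN N k ^ (2 * (3 + 1)) * ‖a x k‖ ^ 2) ≤ 2 * ρ := by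
    refine le_trans (Finset.sum_le_sum fun k _ => ?_) h1
    refine mul_le_mul (hgm k) ?_ (by have := vN_pos (N := (N : ℝ)) k; positivity) (gH_nonneg _ _)
    exact mul_le_mul_of_nonneg_left (norm_sq_le_nsq _) (pow_nonneg (vN_pos k).le _)
  have h3 : ∑ k ∈ B, len k * ‖a x k‖ ≤ K1 * ((M : ℝ) ^ 2 * Real.sqrt M) * Real.sqrt R
      + K1 * Q * Real.sqrt (2 * ρ) := by
    have e1 : ∑ k ∈ B, len k * ‖a x k‖ = ∑ k ∈ B, (1 - gH M k) * (len k * ‖a x k‖)
        + ∑ k ∈ B, gH M k * (len k * ‖a x k‖) := by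
      rw [← Finset.sum_add_distrib]
      exact Finset.sum_congr rfl fun k _ => by ring
    rw [e1]
    refine add_le_add ((low_sum hM B (a x)).trans ?_) ((high_sum hN M B (a x)).trans ?_)
    · exact mul_le_mul_of_nonneg_left (Real.sqrt_le_sqrt hen) (by positivity)
    · exact mul_le_mul_of_nonneg_left (Real.sqrt_le_sqrt h1) (by positivity)
  -- the nonlinear term
  have h4 : ∑ k ∈ B, gP N k * ip (nl η (a x) (a x) k) (a x k)
      = ∑ k ∈ B, vN N k ^ 8 * ip (nl η (a x) (a x) k) (a x k) := by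
    have e1 := sum_ip_nl_one hη (hG.supp x) hB (hG.div x) (hG.herm x)
    have e2 : ∑ k ∈ B, gP N k * ip (nl η (a x) (a x) k) (a x k)
        = ∑ k ∈ B, vN N k ^ 8 * ip (nl η (a x) (a x) k) (a x k)
          - ∑ k ∈ B, ip (nl η (a x) (a x) k) (a x k) := by
      rw [← Finset.sum_sub_distrib]
      exact Finset.sum_congr rfl fun k _ => by unfold gP; ring
    rw [e2, e1, sub_zero]
  have h5 : |∑ k ∈ B, vN N k ^ 8 * ip (nl η (a x) (a x) k) (a x k)|
      ≤ 864 * (K1 * ((M : ℝ) ^ 2 * Real.sqrt M) * Real.sqrt R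
      + K1 * Q * Real.sqrt (2 * ρ)) * (2 * ρ) := by
    have e1 := sum_ip_nl η (hG.supp x) (hG.supp x) hB (hG.div x) (hG.herm x)
      (fun k => vN N k ^ 8) (fun k => by rw [vN_neg])
    have e2 := com2 hη hN0 3 B (hG.div x)
    have e4 : 27 * (((3 : ℕ) : ℝ) + 1) * 2 ^ 3 = 864 := by norm_num
    rw [e4] at e2
    rw [e1, abs_neg]
    refine (Complex.abs_re_le_norm _).trans ?_
    rw [norm_mul, Complex.norm_I, one_mul]
    refine e2.trans ?_
    have e3 : 0 ≤ ∑ k ∈ B, gH ((N : ℝ) / 2) k * (vN N k ^ (2 * (3 + 1)) * ‖a x k‖ ^ 2) :=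
      Finset.sum_nonneg fun k _ => mul_nonneg (gH_nonneg _ _)
        (by have := vN_pos (N := (N : ℝ)) k; positivity)
    exact mul_le_mul (mul_le_mul_of_nonneg_left h3 (by norm_num)) h2 e3 (by positivity)
  have h6 : δ * Q * ρ ≤ ∑ k ∈ B, gP N k * (μ k * nsq (a x k)) := by
    rw [← hfx']
    unfold eW
    rw [Finset.mul_sum]
    refine Finset.sum_le_sum fun k _ => ?_
    have n1 := nsq_nonneg (a x k)
    have n2 := gP_nonneg N k
    rcases le_total (len k) N with h | h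
    · have : gP (N : ℝ) k = 0 := by unfold gP; rw [vN_of_le hN0 h]; norm_num
      rw [this]
      simp
    · have n3 := hδ k h
      calc δ * Q * (gP N k * nsq (a x k)) = gP N k * (δ * Q * nsq (a x k)) := by ring
        _ ≤ _ := mul_le_mul_of_nonneg_left (mul_le_mul_of_nonneg_right n3 n1) n2
  have h7 := (abs_le.1 h5).1
  have h8 := mul_lt_mul_of_pos_right hcond hρ
  show -(2 * ∑ k ∈ B, gP N k * (μ k * nsq (a x k)))
        - 2 * ∑ k ∈ B, gP N k * ip (nl η (a x) (a x) k) (a x k) < 0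
  rw [h4]
  nlinarith

/-- Energy is lost when the energy of the modes above `M` grows. -/
theorem drop (hη : IsWeight η) (hμ : IsSym μ) (hB : ∀ k ∈ B, -k ∈ B) (hG : GalM η μ B T a)
    {M : ℕ} (hM : 0 < M) {δ R ρ lm : ℝ} (hδ0 : 0 < δ) (hlm : 0 ≤ lm)
    (hδ : ∀ k, (M : ℝ) ≤ len k → δ * ((M : ℝ) ^ 2 * Real.sqrt M) ≤ μ k)
    (hR : eE B (a 0) ≤ R) (hlm2 : lm * (18 * K1 * (Real.sqrt R * R)) ≤ δ * ρ)
    {s t : ℝ} (hs : 0 ≤ s) (hst : s ≤ t) (ht : t ≤ T)
    (he : ∀ x ∈ Ioo s t, ρ / 2 ≤ eW (gH M) B (a x)) :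
    eE B (a t) + lm * eW (gH M) B (a t) ≤ eE B (a s) + lm * eW (gH M) B (a s) := by
  set Q : ℝ := (M : ℝ) ^ 2 * Real.sqrt M with hQ
  have hM0 : (0 : ℝ) < M := by exact_mod_cast hM
  have hQ0 : 0 < Q := by positivity
  have hI : ∀ x ∈ Icc s t, x ∈ Icc 0 T := fun x hx => ⟨hs.trans hx.1, hx.2.trans ht⟩
  have h := le_of_deriv_nonneg (f := fun x => -(eE B (a x) + lm * eW (gH M) B (a x)))
    (f' := fun x => -(-(2 * ∑ k ∈ B, μ k * nsq (a x k))
      + lm * (-(2 * ∑ k ∈ B, gH M k * (μ k * nsq (a x k)))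
        - 2 * ∑ k ∈ B, gH M k * ip (nl η (a x) (a x) k) (a x k)))) hst
    (fun x hx => ((hasDerivAt_eE hη hB hG (hI x hx)).add
      ((hasDerivAt_eW hG (gH M) (hI x hx)).const_mul lm)).neg)
    (fun x hx => by
      have hxI := hI x ⟨hx.1.le, hx.2.le⟩
      have hen : ∑ k ∈ B, nsq (a x k) ≤ R := by
        rw [← eE_eq]
        exact (eE_anti hη hμ hB hG le_rfl hxI.1 hxI.2).trans hR
      have h1 := flux hη hB hM (hG.supp x) (hG.herm x) (hG.div x) hen
      have h2 : 0 ≤ ∑ k ∈ B, gH M k * (μ k * nsq (a x k)) :=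
        Finset.sum_nonneg fun k _ => mul_nonneg (gH_nonneg _ _)
          (mul_nonneg (hμ.nonneg k) (nsq_nonneg _))
      have h3 : δ * Q * (ρ / 2) ≤ ∑ k ∈ B, μ k * nsq (a x k) := by
        have h4 : δ * Q * eW (gH M) B (a x) ≤ ∑ k ∈ B, μ k * nsq (a x k) := by
          unfold eW
          rw [Finset.mul_sum]
          refine Finset.sum_le_sum fun k _ => ?_
          have n1 := nsq_nonneg (a x k)
          rcases le_or_gt (M : ℝ) (len k) with h5 | h5
          · rw [gH_of h5, one_mul]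
            exact mul_le_mul_of_nonneg_right (hδ k h5) n1
          · rw [gH_of_lt h5, zero_mul, mul_zero]
            exact mul_nonneg (hμ.nonneg k) n1
        refine le_trans ?_ h4
        exact mul_le_mul_of_nonneg_left (he x hx) (by positivity)
      have h6 := (abs_le.1 h1).1
      have h7 := mul_le_mul_of_nonneg_left h6 hlm
      have h8 := mul_nonneg hlm h2
      have h9 := mul_le_mul_of_nonneg_right hlm2 hQ0.le
      have h10 : lm * (9 * K1 * Q * (Real.sqrt R * R)) * 2 ≤ δ * Q * ρ := by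
        calc lm * (9 * K1 * Q * (Real.sqrt R * R)) * 2
            = lm * (18 * K1 * (Real.sqrt R * R)) * Q := by ring
          _ ≤ δ * ρ * Q := h9
          _ = _ := by ring
      nlinarith)
  linarith

end

end Pool.Agent.Run7.h507.SP
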