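import Pool.Agent.Run7.h507.SP.Rec5
import Pool.Agent.Run7.h507.FD.Weak

/-!
The flux of energy for fields of finite energy.
-/

set_option autoImplicit false

open MeasureTheory Set Filter Topology
open scoped ENNReal

namespace Pool.Agent.Run7.h507.SP

open RT FD

/-- The weight of the true equations. -/
theorem w1 : IsWeight (dw (univ : Set K3)) := isWeight_dw fun _ => Iff.rfl

theorem tendsto_nl_cut {b : Cf} (hb : Sm 0 b) (k : K3) :
    Tendsto (fun n => nl (dw univ) (cut n b) (cut n b) k) atTop (𝓝 (nl (dw univ) b b k)) := by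
  have hcut : ∀ (n : ℕ) (p : K3), ‖cut n b p‖ ≤ ‖b p‖ := by
    intro n p
    by_cases hp : p ∈ Bn n
    · rw [cut_mem hp]
    · rw [cut_not hp, norm_zero]; exact norm_nonneg _
  have h1 : Tendsto (fun n => ∑' p, ((dw univ p (k - p) : ℂ) * kd k (cut n b p)) • cut n b (k - p))
      atTop (𝓝 (∑' p, ((dw univ p (k - p) : ℂ) * kd k (b p)) • b (k - p))) := by
    refine tendsto_tsum_of_dominated_convergence
      (bound := fun p => 3 * len k * (‖b p‖ * ‖b (k - p)‖))
      ((summable_pair hb hb k).mul_left _) ?_ ?_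
    · intro p
      obtain ⟨N, hN⟩ := exists_Bn p
      obtain ⟨N', hN'⟩ := exists_Bn (k - p)
      refine tendsto_const_nhds.congr' ?_
      filter_upwards [eventually_ge_atTop N, eventually_ge_atTop N'] with n hn hn'
      rw [cut_mem (hN n hn), cut_mem (hN' n hn')]
    · refine Eventually.of_forall fun n p => ?_
      refine (norm_term_le w1.bdd p (k - p) k _ _).trans ?_
      have := len_nonneg k
      refine mul_le_mul_of_nonneg_left ?_ (by positivity)
      exact mul_le_mul (hcut n p) (hcut n _) (norm_nonneg _) (norm_nonneg _)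
  have h2 := (((prjC k).continuous.tendsto _).comp h1).const_smul Complex.I
  exact h2

/-- The frequencies below `4 ^ (j + 1)`. -/
noncomputable def low (j : ℕ) : Finset K3 := by
  classical
  exact (Bn (4 ^ (j + 1))).filter fun k => len k < 4 ^ (j + 1)

theorem mem_low {j : ℕ} {k : K3} : k ∈ low j ↔ len k < 4 ^ (j + 1) := by
  unfold low
  rw [Finset.mem_filter]
  refine ⟨fun h => h.2, fun h => ⟨?_, h⟩⟩
  rw [mem_Bn]
  intro i
  have h1 := (abs_le_len k i).trans h.le
  have h3 : ((|k i| : ℤ) : ℝ) ≤ ((4 ^ (j + 1) : ℕ) : ℝ) := by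
    rw [Int.cast_abs]
    push_cast
    exact h1
  have h4 : |k i| ≤ ((4 ^ (j + 1) : ℕ) : ℤ) := by exact_mod_cast h3
  exact abs_le.1 h4

theorem tendsto_low : Tendsto low atTop atTop := by
  refine tendsto_atTop.2 fun F => ?_
  obtain ⟨n, hn⟩ := pow_unbounded_of_one_lt (∑ k ∈ F, len k) (by norm_num : (1 : ℝ) < 4)
  filter_upwards [eventually_ge_atTop n] with j hj k hk
  rw [mem_low]
  have h1 : len k ≤ ∑ k ∈ F, len k :=
    Finset.single_le_sum (f := fun k => len k) (fun k _ => len_nonneg k) hk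
  have h2 : (4 : ℝ) ^ n ≤ 4 ^ (j + 1) := pow_le_pow_right₀ (by norm_num) (by omega)
  exact (h1.trans_lt hn).trans_le h2

/-- The flux of energy through the scale `4 ^ (j + 1)`. -/
theorem flux3 {b : Cf} (hb : Sm 0 b) (hh : Herm b) (hd : Dv b) {R : ℝ}
    (hR : ∀ F : Finset K3, ∑ k ∈ F, nsq (b k) ≤ R) (j : ℕ) :
    |∑ k ∈ low j, ip (nl (dw univ) b b k) (b k)|
      ≤ 27 / 2 * (K1 * 32 ^ (j + 1) * Real.sqrt R) * ∑' k, gH (4 ^ j) k * nsq (b k) := by
  have hK := K1_nonneg
  have hR0 : 0 ≤ R := by simpa using hR ∅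
  have hsum : Summable fun k => gH (4 ^ j) k * nsq (b k) := by
    refine Summable.of_nonneg_of_le (fun k => mul_nonneg (gH_nonneg _ _) (nsq_nonneg _))
      (fun k => ?_) (summable_nsq_of_bdd hR)
    have h1 := gH_le (4 ^ j) k
    have h2 := nsq_nonneg (b k)
    nlinarith
  have ipc : ∀ w : C3, Continuous fun v : C3 => ip v w := by
    intro w
    unfold ip
    fun_prop
  have h1 : Tendsto (fun n => |∑ k ∈ low j, ip (nl (dw univ) (cut n b) (cut n b) k) (b k)|) atTop
      (𝓝 |∑ k ∈ low j, ip (nl (dw univ) b b k) (b k)|) := by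
    refine Tendsto.abs (tendsto_finsetSum _ fun k _ => ?_)
    exact ((ipc (b k)).tendsto _).comp (tendsto_nl_cut hb k)
  refine le_of_tendsto h1 ?_
  filter_upwards [eventually_ge_atTop (4 ^ (j + 1))] with n hn
  have hsub : low j ⊆ Bn n := by
    intro k hk
    rw [mem_low] at hk
    rw [mem_Bn]
    intro i
    have e1 := (abs_le_len k i).trans hk.le
    have e2 : (4 : ℝ) ^ (j + 1) ≤ (n : ℝ) := by exact_mod_cast hn
    have e3 : ((|k i| : ℤ) : ℝ) ≤ ((n : ℕ) : ℝ) := by
      rw [Int.cast_abs]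
      exact e1.trans e2
    have e4 : |k i| ≤ ((n : ℕ) : ℤ) := by exact_mod_cast e3
    exact abs_le.1 e4
  have hs : ∀ k ∉ Bn n, cut n b k = 0 := fun k hk => cut_not hk
  have hM : (0 : ℝ) < 4 ^ (j + 1) := by positivity
  have f2 := flux2 w1 (Bn_neg (n := n)) hM hs (cut_herm hh) (cut_dv hd)
  have z := sum_ip_nl_one w1 hs (Bn_neg (n := n)) (cut_dv hd) (cut_herm hh)
  -- the low part
  have e1 : ∑ k ∈ low j, ip (nl (dw univ) (cut n b) (cut n b) k) (b k)
      = ∑ k ∈ Bn n, (1 - gH (4 ^ (j + 1)) k) * ip (nl (dw univ) (cut n b) (cut n b) k) (cut n b k) := by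
    rw [← Finset.sum_subset hsub (f := fun k => (1 - gH (4 ^ (j + 1)) k)
      * ip (nl (dw univ) (cut n b) (cut n b) k) (cut n b k)) fun k _ hk => by
        rw [mem_low, not_lt] at hk
        rw [gH_of hk, sub_self, zero_mul]]
    refine Finset.sum_congr rfl fun k hk => ?_
    rw [cut_mem (hsub hk), gH_of_lt (mem_low.1 hk), sub_zero, one_mul]
  have e2 : ∑ k ∈ Bn n, (1 - gH (4 ^ (j + 1)) k)
        * ip (nl (dw univ) (cut n b) (cut n b) k) (cut n b k)
      = -∑ k ∈ Bn n, gH (4 ^ (j + 1)) k * ip (nl (dw univ) (cut n b) (cut n b) k) (cut n b k) := by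
    have : ∀ k, (1 - gH (4 ^ (j + 1)) k) * ip (nl (dw univ) (cut n b) (cut n b) k) (cut n b k)
        = ip (nl (dw univ) (cut n b) (cut n b) k) (cut n b k)
          - gH (4 ^ (j + 1)) k * ip (nl (dw univ) (cut n b) (cut n b) k) (cut n b k) := fun k => by
      ring
    rw [Finset.sum_congr rfl fun k _ => this k, Finset.sum_sub_distrib, z, zero_sub]
  rw [e1, e2, abs_neg]
  refine f2.trans ?_
  have e3 : ∑ k ∈ Bn n, (1 - gH (4 ^ (j + 1)) k) * ‖cut n b k‖ ≤ K1 * 8 ^ (j + 1) * Real.sqrt R := by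
    have e4 : ∑ k ∈ Bn n, (1 - gH (4 ^ (j + 1)) k) * ‖cut n b k‖ = ∑ k ∈ low j, ‖b k‖ := by
      rw [← Finset.sum_subset hsub (f := fun k => (1 - gH (4 ^ (j + 1)) k) * ‖cut n b k‖)
        fun k _ hk => by
          rw [mem_low, not_lt] at hk
          rw [gH_of hk, sub_self, zero_mul]]
      refine Finset.sum_congr rfl fun k hk => ?_
      rw [cut_mem (hsub hk), gH_of_lt (mem_low.1 hk), sub_zero, one_mul]
    rw [e4]
    exact shell_sum (j + 1) (low j) (fun k hk => mem_low.1 hk) b (Real.sqrt_nonneg _)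
      (by rw [Real.sq_sqrt hR0]; exact hR _)
  have e5 : ∑ k ∈ Bn n, gH (4 ^ (j + 1) / 2) k * nsq (cut n b k)
      ≤ ∑' k, gH (4 ^ j) k * nsq (b k) := by
    refine le_trans (Finset.sum_le_sum fun k hk => ?_) (hsum.sum_le_tsum (Bn n) fun k _ =>
      mul_nonneg (gH_nonneg _ _) (nsq_nonneg _))
    rw [cut_mem hk]
    refine mul_le_mul_of_nonneg_right (gH_mono ?_ k) (nsq_nonneg _)
    have : (0 : ℝ) < 4 ^ j := by positivity
    rw [pow_succ]
    linarith
  have e6 : (4 : ℝ) ^ (j + 1) * ∑ k ∈ Bn n, (1 - gH (4 ^ (j + 1)) k) * ‖cut n b k‖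
      ≤ K1 * 32 ^ (j + 1) * Real.sqrt R := by
    refine (mul_le_mul_of_nonneg_left e3 hM.le).trans (le_of_eq ?_)
    have : (32 : ℝ) ^ (j + 1) = 4 ^ (j + 1) * 8 ^ (j + 1) := by rw [← mul_pow]; norm_num
    rw [this]
    ring
  exact mul_le_mul (mul_le_mul_of_nonneg_left e6 (by norm_num)) e5
    (Finset.sum_nonneg fun k _ => mul_nonneg (gH_nonneg _ _) (nsq_nonneg _)) (by positivity)

end Pool.Agent.Run7.h507.SP
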