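import Pool.Agent.Run7.h507.SP.EE1

/-!
The energy equality for weak solutions.
-/

set_option autoImplicit false

open MeasureTheory Set Filter Topology
open scoped ENNReal

namespace Pool.Agent.Run7.h507.SP

open RT FD

theorem ip_add_right (u v w : C3) : ip u (v + w) = ip u v + ip u w := by
  rw [ip_comm, ip_add_left, ip_comm v, ip_comm w]

theorem ip_cont_left (w : C3) : Continuous fun v : C3 => ip v w := by
  unfold ip
  fun_prop

theorem abs_ip_le (v w : C3) : |ip v w| ≤ (nsq v + nsq w) / 2 := by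
  have e1 : nsq (v - w) = nsq v + nsq w - 2 * ip v w := by
    rw [← ip_self, ← ip_self, ← ip_self, sub_eq_add_neg, ip_add_left, ip_add_right, ip_add_right,
      ip_neg_left, ip_neg_left, ip_comm v (-w), ip_neg_left, ip_comm w (-w), ip_neg_left,
      ip_comm w v]
    ring
  have e2 : nsq (v + w) = nsq v + nsq w + 2 * ip v w := by
    rw [← ip_self, ← ip_self, ← ip_self, ip_add_left, ip_add_right, ip_add_right, ip_comm w v]
    ring
  have h1 := nsq_nonneg (v - w)
  have h2 := nsq_nonneg (v + w)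
  rw [abs_le]
  constructor <;> linarith

/-- The scalar product with a constant, as a continuous linear map. -/
noncomputable def ipL (w : C3) : C3 →L[ℝ] ℝ :=
  ∑ i, ((w i).re • reL i + (w i).im • imL i)

theorem ipL_apply (w v : C3) : ipL w v = ip v w := by
  unfold ipL
  rw [ip_eq_re, sum_apply]
  refine Finset.sum_congr rfl fun i _ => ?_
  rw [add_apply, smul_apply, smul_apply, reL_apply, imL_apply, smul_eq_mul, smul_eq_mul]
  ring

/-- The derivative of the energy of an integral. -/
theorem nsq_add_int {g : ℝ → C3} {c : C3} {t : ℝ} (ht : 0 ≤ t)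
    (hg : IntervalIntegrable g volume 0 t) :
    nsq (c + ∫ s in (0 : ℝ)..t, g s)
      = nsq c + ∫ s in (0 : ℝ)..t, 2 * ip (g s) (c + ∫ r in (0 : ℝ)..s, g r) := by
  have h1 := nsq_int ht hg
  have h2 := ip_int_ii ht hg hg
  have h3 : IntervalIntegrable (fun s => 2 * ip (g s) c) volume 0 t := by
    have := clm_ii (ipL c) hg
    simp only [ipL_apply] at this
    exact this.const_mul 2
  have h4 : ip (∫ s in (0 : ℝ)..t, g s) c = ∫ s in (0 : ℝ)..t, ip (g s) c := by
    have := clm_int (ipL c) hg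
    simp only [ipL_apply] at this
    exact this
  have e1 : nsq (c + ∫ s in (0 : ℝ)..t, g s)
      = nsq c + 2 * ip (∫ s in (0 : ℝ)..t, g s) c + nsq (∫ s in (0 : ℝ)..t, g s) := by
    rw [← ip_self, ← ip_self, ← ip_self, ip_add_left, ip_add_right, ip_add_right,
      ip_comm c (∫ s in (0 : ℝ)..t, g s)]
    ring
  have e2 : ∫ s in (0 : ℝ)..t, 2 * ip (g s) (c + ∫ r in (0 : ℝ)..s, g r)
      = ∫ s in (0 : ℝ)..t, (2 * ip (g s) c + 2 * ip (g s) (∫ r in (0 : ℝ)..s, g r)) := by
    refine intervalIntegral.integral_congr fun s _ => ?_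
    show 2 * ip (g s) (c + ∫ r in (0 : ℝ)..s, g r) = _
    rw [ip_add_right]
    ring
  have e3 : ∫ s in (0 : ℝ)..t, 2 * ip (g s) c = 2 * ∫ s in (0 : ℝ)..t, ip (g s) c :=
    intervalIntegral.integral_const_mul _ _
  rw [e1, e2, intervalIntegral.integral_add h3 h2, h1, h4, e3]
  ring

/-- Weak solutions on `[0, T]`, extended to all times. -/
structure WE (μ : K3 → ℝ) (T : ℝ) (f : ℝ → Cf) (c : Cf) (a : ℝ → Cf) : Prop where
  herm : ∀ t, Herm (a t)
  div : ∀ t, Dv (a t)
  cont : ∀ k, Continuous fun t => a t k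
  bdd : ∃ E : ℝ, ∀ t, ∀ F : Finset K3, ∑ k ∈ F, nsq (a t k) ≤ E
  diss : ∃ E : ℝ, ∀ F : Finset K3, ∫ s in (0 : ℝ)..T, ∑ k ∈ F, μ k * nsq (a s k) ≤ E
  fint : ∀ k, IntervalIntegrable (fun s => f s k) volume 0 T
  fint2 : ∀ k, IntervalIntegrable (fun s => nsq (f s k)) volume 0 T
  fbdd : ∃ E : ℝ, ∀ F : Finset K3, ∫ s in (0 : ℝ)..T, ∑ k ∈ F, nsq (f s k) ≤ E
  eqn : ∀ t ∈ Icc 0 T, ∀ k, a t k
    = c k + ∫ s in (0 : ℝ)..t, (f s k - μ k • a s k - nl (dw univ) (a s) (a s) k)

section

variable {μ : K3 → ℝ} {T : ℝ} {f : ℝ → Cf} {c : Cf} {a : ℝ → Cf} {m : ℝ → ℝ}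

theorem WE.sm (h : WE μ T f c a) (t : ℝ) : Sm 0 (a t) := by
  obtain ⟨E, hE⟩ := h.bdd
  exact (sm0_of_bdd (hE t)).1

theorem WE.nli (h : WE μ T f c a) (k : K3) (s t : ℝ) :
    IntervalIntegrable (fun s => nl (dw univ) (a s) (a s) k) volume s t := by
  obtain ⟨E, hE⟩ := h.bdd
  have h1 : IntervalIntegrable (fun _ : ℝ => 12 * len k * E) volume s t := intervalIntegrable_const
  refine h1.mono_fun (meas_nl h.cont h.cont h.sm h.sm k).aestronglyMeasurable
    (Eventually.of_forall fun s => ?_)
  rw [Real.norm_eq_abs]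
  exact (norm_nl_le0 (h.sm s) (h.sm s) (sm0_of_bdd (hE s)).2 (sm0_of_bdd (hE s)).2 k).trans
    (le_abs_self _)

theorem ii_sub {β : Type*} [NormedAddCommGroup β] {g : ℝ → β}
    (h : IntervalIntegrable g volume 0 T) {t : ℝ} (ht : t ∈ Icc 0 T) :
    IntervalIntegrable g volume 0 t := by
  refine h.mono_set ?_
  rw [uIcc_of_le ht.1, uIcc_of_le (ht.1.trans ht.2)]
  exact Icc_subset_Icc le_rfl ht.2

theorem WE.ipi (h : WE μ T f c a) (k : K3) {t : ℝ} (ht : t ∈ Icc 0 T) :
    IntervalIntegrable (fun s => ip (f s k) (a s k)) volume 0 t := by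
  have h1 := ii_sub (h.fint k) ht
  have h2 : (fun s => ip (f s k) (a s k))
      = fun s => ∑ i, ((a s k i).re * reL i (f s k) + (a s k i).im * imL i (f s k)) := by
    funext s
    rw [ip_eq_re]
    refine Finset.sum_congr rfl fun i _ => ?_
    rw [reL_apply, imL_apply]
    ring
  rw [h2]
  have h3 : ∀ i : Fin 3, IntervalIntegrable (fun s => (a s k i).re * reL i (f s k)
      + (a s k i).im * imL i (f s k)) volume 0 t := by
    intro i
    have c1 : Continuous fun s => (a s k i).re :=
      Complex.continuous_re.comp ((continuous_apply i).comp (h.cont k))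
    have c2 : Continuous fun s => (a s k i).im :=
      Complex.continuous_im.comp ((continuous_apply i).comp (h.cont k))
    exact ((clm_ii (reL i) h1).continuousOn_mul c1.continuousOn).add
      ((clm_ii (imL i) h1).continuousOn_mul c2.continuousOn)
  simp only [Fin.sum_univ_three]
  exact ((h3 0).add (h3 1)).add (h3 2)

theorem WE.nlipi (h : WE μ T f c a) (k : K3) (s t : ℝ) :
    IntervalIntegrable (fun s => ip (nl (dw univ) (a s) (a s) k) (a s k)) volume s t := by
  have h1 := h.nli k s t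
  have h2 : (fun s => ip (nl (dw univ) (a s) (a s) k) (a s k))
      = fun s => ∑ i, ((a s k i).re * reL i (nl (dw univ) (a s) (a s) k)
        + (a s k i).im * imL i (nl (dw univ) (a s) (a s) k)) := by
    funext s
    rw [ip_eq_re]
    refine Finset.sum_congr rfl fun i _ => ?_
    rw [reL_apply, imL_apply]
    ring
  rw [h2]
  have h3 : ∀ i : Fin 3, IntervalIntegrable (fun s => (a s k i).re
      * reL i (nl (dw univ) (a s) (a s) k)
      + (a s k i).im * imL i (nl (dw univ) (a s) (a s) k)) volume s t := by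
    intro i
    have c1 : Continuous fun s => (a s k i).re :=
      Complex.continuous_re.comp ((continuous_apply i).comp (h.cont k))
    have c2 : Continuous fun s => (a s k i).im :=
      Complex.continuous_im.comp ((continuous_apply i).comp (h.cont k))
    have l1 : ∀ L : C3 →L[ℝ] ℝ, IntervalIntegrable
        (fun s => L (nl (dw univ) (a s) (a s) k)) volume s t := fun L =>
      ⟨L.integrable_comp h1.1, L.integrable_comp h1.2⟩
    exact ((l1 (reL i)).continuousOn_mul c1.continuousOn).add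
      ((l1 (imL i)).continuousOn_mul c2.continuousOn)
  simp only [Fin.sum_univ_three]
  exact ((h3 0).add (h3 1)).add (h3 2)

/-- The energy balance of one mode. -/
theorem WE.mode (h : WE μ T f c a) (k : K3) {t : ℝ} (ht : t ∈ Icc 0 T) :
    nsq (a t k) = nsq (c k) + (2 * (∫ s in (0 : ℝ)..t, ip (f s k) (a s k))
      - 2 * (μ k * ∫ s in (0 : ℝ)..t, nsq (a s k))
      - 2 * ∫ s in (0 : ℝ)..t, ip (nl (dw univ) (a s) (a s) k) (a s k)) := by
  have hc : Continuous fun s => μ k • a s k := (h.cont k).const_smul (μ k)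
  have hg : IntervalIntegrable (fun s => f s k - μ k • a s k - nl (dw univ) (a s) (a s) k)
      volume 0 t := ((ii_sub (h.fint k) ht).sub (hc.intervalIntegrable _ _)).sub (h.nli k 0 t)
  have h1 := nsq_add_int (c := c k) ht.1 hg
  rw [← h.eqn t ht k] at h1
  rw [h1]
  congr 1
  have e : ∫ s in (0 : ℝ)..t, 2 * ip (f s k - μ k • a s k - nl (dw univ) (a s) (a s) k)
      (c k + ∫ r in (0 : ℝ)..s, (f r k - μ k • a r k - nl (dw univ) (a r) (a r) k))
      = ∫ s in (0 : ℝ)..t, (2 * ip (f s k) (a s k) - 2 * (μ k * nsq (a s k))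
        - 2 * ip (nl (dw univ) (a s) (a s) k) (a s k)) := by
    refine intervalIntegral.integral_congr fun s hs => ?_
    rw [uIcc_of_le ht.1] at hs
    show 2 * ip (f s k - μ k • a s k - nl (dw univ) (a s) (a s) k)
      (c k + ∫ r in (0 : ℝ)..s, (f r k - μ k • a r k - nl (dw univ) (a r) (a r) k)) = _
    rw [← h.eqn s ⟨hs.1, hs.2.trans ht.2⟩ k, ip_sub_left, ip_sub_left, ip_smul_left, ip_self]
    ring
  have hn : Continuous fun s => nsq (a s k) := nsq_continuous.comp (h.cont k)
  have i1 := (h.ipi k ht).const_mul 2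
  have i2 : IntervalIntegrable (fun s => 2 * (μ k * nsq (a s k))) volume 0 t :=
    (continuous_const.mul (continuous_const.mul hn)).intervalIntegrable _ _
  have i3 := (h.nlipi k 0 t).const_mul 2
  rw [e, intervalIntegral.integral_sub (i1.sub i2) i3, intervalIntegral.integral_sub i1 i2,
    intervalIntegral.integral_const_mul, intervalIntegral.integral_const_mul,
    intervalIntegral.integral_const_mul, intervalIntegral.integral_const_mul]

end

end Pool.Agent.Run7.h507.SP
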