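import Pool.Agent.Run7.h507.SP.EE2

/-!
The energy equality for weak solutions: the limit.
-/

set_option autoImplicit false

open MeasureTheory Set Filter Topology
open scoped ENNReal

namespace Pool.Agent.Run7.h507.SP

open RT FD

theorem nsq_par (v w : C3) : nsq (v - w) + nsq (v + w) = 2 * nsq v + 2 * nsq w := by
  rw [← ip_self, ← ip_self, ← ip_self, ← ip_self, sub_eq_add_neg, ip_add_left, ip_add_right,
    ip_add_right, ip_neg_left, ip_neg_left, ip_comm v (-w), ip_neg_left, ip_comm w (-w), ip_neg_left,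
    ip_add_left, ip_add_right, ip_add_right, ip_comm w v]
  ring

/-- Weak convergence and convergence of the energies. -/
theorem strong {ι : Type*} {l : Filter ι} {x : ι → Cf} {c : Cf}
    (hx : ∀ i, Summable fun k => nsq (x i k)) (hc : Summable fun k => nsq (c k))
    (hk : ∀ k, Tendsto (fun i => x i k) l (𝓝 (c k)))
    (hE : Tendsto (fun i => ∑' k, nsq (x i k)) l (𝓝 (∑' k, nsq (c k)))) :
    Tendsto (fun i => ∑' k, nsq (x i k - c k)) l (𝓝 0) := by
  set E := ∑' k, nsq (c k) with hEd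
  have s0 : ∀ i, Summable fun k => 2 * nsq (x i k) + 2 * nsq (c k) := fun i =>
    ((hx i).mul_left 2).add (hc.mul_left 2)
  have s1 : ∀ i, Summable fun k => nsq (x i k - c k) := fun i =>
    Summable.of_nonneg_of_le (fun k => nsq_nonneg _) (fun k => by
      have := nsq_par (x i k) (c k)
      have := nsq_nonneg (x i k + c k)
      linarith) (s0 i)
  have s2 : ∀ i, Summable fun k => nsq (x i k + c k) := fun i =>
    Summable.of_nonneg_of_le (fun k => nsq_nonneg _) (fun k => by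
      have := nsq_par (x i k) (c k)
      have := nsq_nonneg (x i k - c k)
      linarith) (s0 i)
  have e1 : ∀ i, ∑' k, nsq (x i k - c k) + ∑' k, nsq (x i k + c k)
      = 2 * ∑' k, nsq (x i k) + 2 * E := by
    intro i
    rw [← (s1 i).tsum_add (s2 i), tsum_congr fun k => nsq_par (x i k) (c k),
      ((hx i).mul_left 2).tsum_add (hc.mul_left 2), tsum_mul_left, tsum_mul_left]
  rw [Metric.tendsto_nhds]
  intro ε hε
  obtain ⟨F, hF⟩ : ∃ F : Finset K3, E - ε / 8 < ∑ k ∈ F, nsq (c k) := by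
    have h1 : Tendsto (fun F : Finset K3 => ∑ k ∈ F, nsq (c k)) atTop (𝓝 E) := hc.hasSum
    exact (h1.eventually (lt_mem_nhds (by linarith : E - ε / 8 < E))).exists
  have e2 : ∀ k, nsq (c k + c k) = 4 * nsq (c k) := by
    intro k
    have h := nsq_par (c k) (c k)
    rw [sub_self, nsq_zero] at h
    linarith
  have h1 : Tendsto (fun i => 2 * ∑' k, nsq (x i k) + 2 * E - ∑ k ∈ F, nsq (x i k + c k)) l
      (𝓝 (2 * E + 2 * E - ∑ k ∈ F, nsq (c k + c k))) :=
    ((hE.const_mul 2).add_const _).sub (tendsto_finsetSum _ fun k _ =>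
      (nsq_continuous.tendsto _).comp ((hk k).add_const _))
  have h2 : 2 * E + 2 * E - ∑ k ∈ F, nsq (c k + c k) < ε := by
    rw [Finset.sum_congr rfl fun k _ => e2 k, ← Finset.mul_sum]
    linarith
  filter_upwards [h1.eventually (gt_mem_nhds h2)] with i hi
  have h3 : ∑ k ∈ F, nsq (x i k + c k) ≤ ∑' k, nsq (x i k + c k) :=
    (s2 i).sum_le_tsum _ fun _ _ => nsq_nonneg _
  have h4 := e1 i
  have h5 : 0 ≤ ∑' k, nsq (x i k - c k) := tsum_nonneg fun k => nsq_nonneg _
  rw [Real.dist_eq, sub_zero, abs_of_nonneg h5]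
  linarith

section

variable {μ : K3 → ℝ} {T : ℝ} {f : ℝ → Cf} {c : Cf} {a : ℝ → Cf} {m : ℝ → ℝ}

theorem WE.gi (h : WE μ T f c a) (hT : 0 ≤ T) (j : ℕ) :
    IntervalIntegrable (fun s => ∑' k, gH (4 ^ j) k * nsq (a s k)) volume 0 T := by
  obtain ⟨E, hE⟩ := h.bdd
  have hn : ∀ k, Continuous fun s => gH (4 ^ j) k * nsq (a s k) := fun k =>
    continuous_const.mul (nsq_continuous.comp (h.cont k))
  refine (tsum_int hT (f := fun k s => gH (4 ^ j) k * nsq (a s k)) (E := ∫ _s in (0 : ℝ)..T, E)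
    (fun k s => mul_nonneg (gH_nonneg _ _) (nsq_nonneg _)) (fun k => (hn k).measurable)
    (fun k => (hn k).intervalIntegrable _ _) fun F => ?_).2
  have hc : Continuous fun s => ∑ k ∈ F, gH (4 ^ j) k * nsq (a s k) :=
    continuous_finsetSum _ fun k _ => hn k
  refine intervalIntegral.integral_mono_on hT (hc.intervalIntegrable _ _)
    intervalIntegrable_const fun s _ => ?_
  refine le_trans (Finset.sum_le_sum fun k _ => ?_) (hE s F)
  have h1 := gH_le (4 ^ j) k
  have h2 := nsq_nonneg (a s k)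
  nlinarith

theorem WE.sn (h : WE μ T f c a) (t : ℝ) : Summable fun k => nsq (a t k) := by
  obtain ⟨E, hE⟩ := h.bdd
  exact summable_nsq_of_bdd (hE t)

theorem WE.di (h : WE μ T f c a) (hT : 0 ≤ T) (hμ0 : ∀ k, 0 ≤ μ k) :
    (∀ᵐ s ∂volume.restrict (Ioc 0 T), Summable fun k => μ k * nsq (a s k)) ∧
      IntervalIntegrable (fun s => ∑' k, μ k * nsq (a s k)) volume 0 T := by
  obtain ⟨E, hE⟩ := h.diss
  have hn : ∀ k, Continuous fun s => μ k * nsq (a s k) := fun k =>
    continuous_const.mul (nsq_continuous.comp (h.cont k))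
  exact tsum_int hT (f := fun k s => μ k * nsq (a s k)) (E := E)
    (fun k s => mul_nonneg (hμ0 k) (nsq_nonneg _)) (fun k => (hn k).measurable)
    (fun k => (hn k).intervalIntegrable _ _) hE

/-- The flux is small for arbitrarily large scales. -/
theorem WE.small (h : WE μ T f c a) (hT : 0 ≤ T) (hm0 : ∀ r, 0 ≤ m r) (hm : Monotone m)
    (hmμ : ∀ k, m (len k) ≤ μ k)
    (hdiv : ∀ K, ∃ J, K < ∑ j ∈ Finset.range J, om m j / 32 ^ j) {ε : ℝ} (hε : 0 < ε) (j₀ : ℕ) :
    ∃ j, j₀ ≤ j ∧ 32 ^ j * ∫ s in (0 : ℝ)..T, ∑' k, gH (4 ^ j) k * nsq (a s k) < ε := by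
  have hμ0 : ∀ k, 0 ≤ μ k := fun k => (hm0 _).trans (hmμ k)
  obtain ⟨hs, hi⟩ := h.di hT hμ0
  by_contra hcon
  push Not at hcon
  set D : ℝ := ∫ s in (0 : ℝ)..T, ∑' k, μ k * nsq (a s k) with hD
  have sg : ∀ j s, Summable fun k => gH (4 ^ j) k * nsq (a s k) := fun j s =>
    Summable.of_nonneg_of_le (fun k => mul_nonneg (gH_nonneg _ _) (nsq_nonneg _)) (fun k => by
      have h1 := gH_le (4 ^ j) k
      have h2 := nsq_nonneg (a s k)
      nlinarith) (h.sn s)
  have h1 : ∀ J, ∑ j ∈ Finset.Ico j₀ J, om m j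
      * ∫ s in (0 : ℝ)..T, ∑' k, gH (4 ^ j) k * nsq (a s k) ≤ D := by
    intro J
    have e1 : ∑ j ∈ Finset.Ico j₀ J, om m j
        * ∫ s in (0 : ℝ)..T, ∑' k, gH (4 ^ j) k * nsq (a s k)
        = ∫ s in (0 : ℝ)..T, ∑ j ∈ Finset.Ico j₀ J, om m j * ∑' k, gH (4 ^ j) k * nsq (a s k) := by
      rw [intervalIntegral.integral_finsetSum fun j _ => (h.gi hT j).const_mul _]
      refine Finset.sum_congr rfl fun j _ => ?_
      rw [intervalIntegral.integral_const_mul]
    have e2 : IntervalIntegrable (fun s => ∑ j ∈ Finset.Ico j₀ J, om m j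
        * ∑' k, gH (4 ^ j) k * nsq (a s k)) volume 0 T := by
      have := IntervalIntegrable.sum (Finset.Ico j₀ J) fun j _ => (h.gi hT j).const_mul (om m j)
      refine this.congr fun s _ => ?_
      simp only [Finset.sum_apply]
    rw [e1]
    refine intervalIntegral.integral_mono_ae_restrict hT e2 hi ?_
    have hs' : ∀ᵐ s ∂volume.restrict (Icc 0 T), Summable fun k => μ k * nsq (a s k) := by
      rw [restrict_Ioc_eq_restrict_Icc] at hs
      exact hs
    filter_upwards [hs'] with s hss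
    have e3 : ∑ j ∈ Finset.Ico j₀ J, om m j * ∑' k, gH (4 ^ j) k * nsq (a s k)
        = ∑' k, ∑ j ∈ Finset.Ico j₀ J, om m j * (gH (4 ^ j) k * nsq (a s k)) := by
      rw [Summable.tsum_finsetSum fun j _ => (sg j s).mul_left (om m j)]
      refine Finset.sum_congr rfl fun j _ => ?_
      rw [tsum_mul_left]
    rw [e3]
    refine (summable_sum fun j _ => (sg j s).mul_left (om m j)).tsum_le_tsum (fun k => ?_) hss
    have e4 : ∑ j ∈ Finset.Ico j₀ J, om m j * (gH (4 ^ j) k * nsq (a s k))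
        = (∑ j ∈ Finset.Ico j₀ J, om m j * gH (4 ^ j) k) * nsq (a s k) := by
      rw [Finset.sum_mul]
      exact Finset.sum_congr rfl fun j _ => by ring
    rw [e4]
    refine mul_le_mul_of_nonneg_right ((sum_om_gH' hm0 hm hmμ j₀ J k).trans ?_) (nsq_nonneg _)
    have h1 := gH_le (4 ^ j₀) k
    have h2 := hμ0 k
    nlinarith
  have h2 : ∀ J, ∑ j ∈ Finset.Ico j₀ J, om m j / 32 ^ j ≤ D / ε := by
    intro J
    rw [le_div_iff₀ hε, Finset.sum_mul]
    refine le_trans (Finset.sum_le_sum fun j hj => ?_) (h1 J)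
    have h3 := hcon j (Finset.mem_Ico.1 hj).1
    have h4 := om_nonneg hm0 hm j
    have h5 : (0 : ℝ) < 32 ^ j := by positivity
    calc om m j / 32 ^ j * ε ≤ om m j / 32 ^ j
          * (32 ^ j * ∫ s in (0 : ℝ)..T, ∑' k, gH (4 ^ j) k * nsq (a s k)) :=
          mul_le_mul_of_nonneg_left h3 (div_nonneg h4 h5.le)
      _ = _ := by field_simp
  have hD0 : 0 ≤ D / ε := by simpa using h2 0
  obtain ⟨J, hJ⟩ := hdiv (∑ j ∈ Finset.range j₀, om m j / 32 ^ j + D / ε)
  rcases le_total J j₀ with h3 | h3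
  · have h4 : ∑ j ∈ Finset.range J, om m j / 32 ^ j ≤ ∑ j ∈ Finset.range j₀, om m j / 32 ^ j :=
      Finset.sum_le_sum_of_subset_of_nonneg (Finset.range_mono h3) fun j _ _ =>
        div_nonneg (om_nonneg hm0 hm j) (by positivity)
    linarith
  · have h4 := Finset.sum_range_add_sum_Ico (fun j => om m j / 32 ^ j) h3
    have h5 := h2 J
    linarith

/-- The integral of the flux. -/
theorem WE.fluxi (h : WE μ T f c a) {R : ℝ} (hR : ∀ t, ∀ F : Finset K3, ∑ k ∈ F, nsq (a t k) ≤ R)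
    {t : ℝ} (ht : t ∈ Icc 0 T) (j : ℕ) :
    |∑ k ∈ low j, ∫ s in (0 : ℝ)..t, ip (nl (dw univ) (a s) (a s) k) (a s k)|
      ≤ 27 / 2 * (K1 * 32 * Real.sqrt R)
        * (32 ^ j * ∫ s in (0 : ℝ)..T, ∑' k, gH (4 ^ j) k * nsq (a s k)) := by
  have hT : 0 ≤ T := ht.1.trans ht.2
  have hK := K1_nonneg
  have hg := h.gi hT j
  have hgt := ii_sub hg ht
  rw [← intervalIntegral.integral_finsetSum fun k _ => h.nlipi k 0 t]
  have hc : 0 ≤ 27 / 2 * (K1 * 32 ^ (j + 1) * Real.sqrt R) := by positivity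
  have h1 : |∫ s in (0 : ℝ)..t, ∑ k ∈ low j, ip (nl (dw univ) (a s) (a s) k) (a s k)|
      ≤ ∫ s in (0 : ℝ)..t, 27 / 2 * (K1 * 32 ^ (j + 1) * Real.sqrt R)
        * ∑' k, gH (4 ^ j) k * nsq (a s k) := by
    have h2 := intervalIntegral.norm_integral_le_of_norm_le ht.1
      (f := fun s => ∑ k ∈ low j, ip (nl (dw univ) (a s) (a s) k) (a s k))
      (g := fun s => 27 / 2 * (K1 * 32 ^ (j + 1) * Real.sqrt R)
        * ∑' k, gH (4 ^ j) k * nsq (a s k)) (μ := volume)
      (Eventually.of_forall fun s _ => by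
        rw [Real.norm_eq_abs]
        exact flux3 (h.sm s) (h.herm s) (h.div s) (hR s) j) (hgt.const_mul _)
    rwa [Real.norm_eq_abs] at h2
  refine h1.trans ?_
  rw [intervalIntegral.integral_const_mul]
  have h3 : ∫ s in (0 : ℝ)..t, ∑' k, gH (4 ^ j) k * nsq (a s k)
      ≤ ∫ s in (0 : ℝ)..T, ∑' k, gH (4 ^ j) k * nsq (a s k) := by
    refine intervalIntegral.integral_mono_interval le_rfl ht.1 ht.2 ?_ hg
    exact Eventually.of_forall fun s => tsum_nonneg fun k =>
      mul_nonneg (gH_nonneg _ _) (nsq_nonneg _)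
  refine (mul_le_mul_of_nonneg_left h3 hc).trans (le_of_eq ?_)
  rw [pow_succ]
  ring

/-- The sums of the integrals. -/
theorem WE.sums (h : WE μ T f c a) (hμ0 : ∀ k, 0 ≤ μ k) {t : ℝ} (ht : t ∈ Icc 0 T) :
    (Summable fun k => μ k * ∫ s in (0 : ℝ)..t, nsq (a s k)) ∧
      Summable fun k => ∫ s in (0 : ℝ)..t, (nsq (f s k) + nsq (a s k)) := by
  have hT : 0 ≤ T := ht.1.trans ht.2
  obtain ⟨E, hE⟩ := h.bdd
  obtain ⟨E', hE'⟩ := h.diss
  obtain ⟨E'', hE''⟩ := h.fbdd
  have hn : ∀ k, Continuous fun s => nsq (a s k) := fun k => nsq_continuous.comp (h.cont k)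
  constructor
  · refine summable_of_sum_le (c := E') (fun k => mul_nonneg (hμ0 k)
      (intervalIntegral.integral_nonneg ht.1 fun s _ => nsq_nonneg _)) fun F => ?_
    refine le_trans ?_ (hE' F)
    have hn' : ∀ k, Continuous fun s => μ k * nsq (a s k) := fun k => continuous_const.mul (hn k)
    rw [intervalIntegral.integral_finsetSum fun k _ => (hn' k).intervalIntegrable _ _]
    refine Finset.sum_le_sum fun k _ => ?_
    rw [intervalIntegral.integral_const_mul]
    refine mul_le_mul_of_nonneg_left ?_ (hμ0 k)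
    exact intervalIntegral.integral_mono_interval le_rfl ht.1 ht.2
      (Eventually.of_forall fun s => nsq_nonneg _) ((hn k).intervalIntegrable _ _)
  · refine summable_of_sum_le (c := E'' + ∫ _s in (0 : ℝ)..T, E) (fun k =>
      intervalIntegral.integral_nonneg ht.1 fun s _ =>
        add_nonneg (nsq_nonneg _) (nsq_nonneg _)) fun F => ?_
    have h1 : ∑ k ∈ F, ∫ s in (0 : ℝ)..t, (nsq (f s k) + nsq (a s k))
        ≤ ∑ k ∈ F, ∫ s in (0 : ℝ)..T, (nsq (f s k) + nsq (a s k)) :=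
      Finset.sum_le_sum fun k _ => intervalIntegral.integral_mono_interval le_rfl ht.1 ht.2
        (Eventually.of_forall fun s => add_nonneg (nsq_nonneg _) (nsq_nonneg _))
        ((h.fint2 k).add ((hn k).intervalIntegrable _ _))
    refine h1.trans ?_
    have h2 : ∑ k ∈ F, ∫ s in (0 : ℝ)..T, (nsq (f s k) + nsq (a s k))
        = ∑ k ∈ F, (∫ s in (0 : ℝ)..T, nsq (f s k)) + ∑ k ∈ F, ∫ s in (0 : ℝ)..T, nsq (a s k) := by
      rw [← Finset.sum_add_distrib]
      exact Finset.sum_congr rfl fun k _ =>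
        intervalIntegral.integral_add (h.fint2 k) ((hn k).intervalIntegrable _ _)
    rw [h2]
    refine add_le_add ?_ ?_
    · rw [← intervalIntegral.integral_finsetSum fun k _ => h.fint2 k]
      exact hE'' F
    · rw [← intervalIntegral.integral_finsetSum fun k _ => (hn k).intervalIntegrable _ _]
      exact intervalIntegral.integral_mono_on hT
        ((continuous_finsetSum _ fun k _ => hn k).intervalIntegrable _ _)
        intervalIntegrable_const fun s _ => hE s F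

theorem WE.abs_force (h : WE μ T f c a) (k : K3) {t : ℝ} (ht : t ∈ Icc 0 T) :
    |∫ s in (0 : ℝ)..t, ip (f s k) (a s k)| ≤ ∫ s in (0 : ℝ)..t, (nsq (f s k) + nsq (a s k)) := by
  have hn : Continuous fun s => nsq (a s k) := nsq_continuous.comp (h.cont k)
  have h2 := intervalIntegral.norm_integral_le_of_norm_le ht.1
    (f := fun s => ip (f s k) (a s k)) (g := fun s => nsq (f s k) + nsq (a s k)) (μ := volume)
    (Eventually.of_forall fun s _ => by
      rw [Real.norm_eq_abs]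
      have h1 := abs_ip_le (f s k) (a s k)
      have h3 := nsq_nonneg (f s k)
      have h4 := nsq_nonneg (a s k)
      linarith) ((ii_sub (h.fint2 k) ht).add (hn.intervalIntegrable _ _))
  rwa [Real.norm_eq_abs] at h2

/-- The energy equality. -/
theorem WE.energy (h : WE μ T f c a) (hm0 : ∀ r, 0 ≤ m r) (hm : Monotone m)
    (hmμ : ∀ k, m (len k) ≤ μ k)
    (hdiv : ∀ K, ∃ J, K < ∑ j ∈ Finset.range J, om m j / 32 ^ j) {t : ℝ} (ht : t ∈ Icc 0 T) :
    ∑' k, nsq (a t k) + 2 * ∑' k, μ k * ∫ s in (0 : ℝ)..t, nsq (a s k)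
      = ∑' k, nsq (c k) + 2 * ∑' k, ∫ s in (0 : ℝ)..t, ip (f s k) (a s k) := by
  have hT : 0 ≤ T := ht.1.trans ht.2
  have hμ0 : ∀ k, 0 ≤ μ k := fun k => (hm0 _).trans (hmμ k)
  obtain ⟨R, hR⟩ := h.bdd
  have hc0 : a 0 = c := by
    funext k
    rw [h.eqn 0 ⟨le_rfl, hT⟩ k, intervalIntegral.integral_same, add_zero]
  obtain ⟨s1, s2⟩ := h.sums hμ0 ht
  have s3 : Summable fun k => ∫ s in (0 : ℝ)..t, ip (f s k) (a s k) :=
    Summable.of_norm_bounded s2 fun k => h.abs_force k ht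
  have s4 : Summable fun k => nsq (c k) := by rw [← hc0]; exact h.sn 0
  have h0 : Tendsto (fun F : Finset K3 => ∑ k ∈ F, (nsq (a t k)
      + 2 * (μ k * ∫ s in (0 : ℝ)..t, nsq (a s k))
      - nsq (c k) - 2 * ∫ s in (0 : ℝ)..t, ip (f s k) (a s k))) atTop
      (𝓝 (∑' k, nsq (a t k) + 2 * ∑' k, μ k * (∫ s in (0 : ℝ)..t, nsq (a s k))
        - ∑' k, nsq (c k) - 2 * ∑' k, ∫ s in (0 : ℝ)..t, ip (f s k) (a s k))) :=
    (((h.sn t).hasSum.add (s1.hasSum.mul_left 2)).sub s4.hasSum).sub (s3.hasSum.mul_left 2)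
  have h1 := h0.comp tendsto_low
  set X := ∑' k, nsq (a t k) + 2 * ∑' k, μ k * (∫ s in (0 : ℝ)..t, nsq (a s k))
        - ∑' k, nsq (c k) - 2 * ∑' k, ∫ s in (0 : ℝ)..t, ip (f s k) (a s k) with hX
  have h2 : ∀ j, ∑ k ∈ low j, (nsq (a t k) + 2 * (μ k * ∫ s in (0 : ℝ)..t, nsq (a s k))
      - nsq (c k) - 2 * ∫ s in (0 : ℝ)..t, ip (f s k) (a s k))
      = -(2 * ∑ k ∈ low j, ∫ s in (0 : ℝ)..t, ip (nl (dw univ) (a s) (a s) k) (a s k)) := by
    intro j
    rw [Finset.mul_sum, ← Finset.sum_neg_distrib]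
    refine Finset.sum_congr rfl fun k _ => ?_
    rw [h.mode k ht]
    ring
  have h3 : X = 0 := by
    by_contra hne
    have hX0 : 0 < |X| := abs_pos.2 hne
    set C : ℝ := 27 * (K1 * 32 * Real.sqrt R) with hC
    have hC0 : 0 ≤ C := by have := K1_nonneg; positivity
    have h4 : ∀ᶠ j in atTop, |X| / 2 < |∑ k ∈ low j, (nsq (a t k)
        + 2 * (μ k * ∫ s in (0 : ℝ)..t, nsq (a s k))
        - nsq (c k) - 2 * ∫ s in (0 : ℝ)..t, ip (f s k) (a s k))| :=
      (h1.abs).eventually (lt_mem_nhds (by linarith : |X| / 2 < |X|))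
    obtain ⟨j₀, hj₀⟩ := eventually_atTop.1 h4
    obtain ⟨j, hj, hj2⟩ := h.small hT hm0 hm hmμ hdiv (ε := |X| / (2 * (C + 1)))
      (by positivity) j₀
    have h5 := hj₀ j hj
    rw [h2, abs_neg, abs_mul, abs_two] at h5
    have h6 := h.fluxi hR ht j
    have h7 : C * (32 ^ j * ∫ s in (0 : ℝ)..T, ∑' k, gH (4 ^ j) k * nsq (a s k)) ≤ |X| / 2 := by
      refine (mul_le_mul_of_nonneg_left hj2.le hC0).trans ?_
      rw [mul_div_assoc', div_le_div_iff₀ (by positivity) (by norm_num)]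
      nlinarith
    have h8 : 2 * (27 / 2 * (K1 * 32 * Real.sqrt R)
        * (32 ^ j * ∫ s in (0 : ℝ)..T, ∑' k, gH (4 ^ j) k * nsq (a s k)))
        = C * (32 ^ j * ∫ s in (0 : ℝ)..T, ∑' k, gH (4 ^ j) k * nsq (a s k)) := by
      rw [hC]
      ring
    linarith
  rw [hX] at h3
  linarith

end

end Pool.Agent.Run7.h507.SP
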