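import Pool.Agent.Run7.h507.SP.Bar

/-!
Global smooth solutions.
-/

set_option autoImplicit false

open MeasureTheory Set Filter Topology
open scoped ContDiff ComplexConjugate NNReal

namespace Pool.Agent.Run7.h507.SP

open RT

section

variable {η : K3 → K3 → ℝ} {μ : K3 → ℝ} {B : Finset K3} {T : ℝ} {a : ℝ → Cf}

/-- The growth of the higher norms. -/
theorem high (hη : IsWeight η) (hμ : IsSym μ) (hB : ∀ k ∈ B, -k ∈ B) (hG : GalM η μ B T a)
    {G : ℝ} (hG1 : ∀ t ∈ Icc 0 T, ∑ k ∈ B, jb k * ‖a t k‖ ≤ G) (n : ℕ) :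
    ∀ t ∈ Icc 0 T, Phi 1 (2 * (n + 1)) B (a t)
      ≤ Real.exp (2 * (27 * (n + 1) * 2 ^ n * G) * t) * Phi 1 (2 * (n + 1)) B (a 0) := by
  intro t ht
  set M : ℝ := 2 * (27 * (n + 1) * 2 ^ n * G) with hM
  set F : ℝ → ℝ := fun s => Phi 1 (2 * (n + 1)) B (a s) with hF
  set F' : ℝ → ℝ := fun t => -(2 * ∑ k ∈ B, vN 1 k ^ (2 * (n + 1)) * (μ k * nsq (a t k)))
        - 2 * ∑ k ∈ B, vN 1 k ^ (2 * (n + 1)) * ip (nl η (a t) (a t) k) (a t k) with hF'
  have hder : ∀ τ ∈ Icc 0 T, HasDerivAt F (F' τ) τ := fun τ hτ => hasDerivAt_Phi hG 1 _ hτ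
  have hle : ∀ τ ∈ Icc 0 T, F' τ ≤ M * F τ := by
    intro τ hτ
    have h1 := nl_Phi hη hB one_pos n (hG.supp τ) (hG.herm τ) (hG.div τ)
    have h2 : 0 ≤ ∑ k ∈ B, vN 1 k ^ (2 * (n + 1)) * (μ k * nsq (a τ k)) :=
      Finset.sum_nonneg fun k _ => mul_nonneg (pow_nonneg (vN_pos k).le _)
        (mul_nonneg (hμ.nonneg k) (nsq_nonneg _))
    have h3 : ∑ k ∈ B, vN 1 k * ‖a τ k‖ ≤ G := by
      have := hG1 τ hτ
      simp only [← vN_one] at this
      exact this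
    have h4 := Phi_nonneg 1 (2 * (n + 1)) B (a τ)
    have h5 : 27 * ((n : ℝ) + 1) * 2 ^ n * 1 * (∑ k ∈ B, vN 1 k * ‖a τ k‖)
        * Phi 1 (2 * (n + 1)) B (a τ) ≤ 27 * ((n : ℝ) + 1) * 2 ^ n * G
        * Phi 1 (2 * (n + 1)) B (a τ) := by
      refine mul_le_mul_of_nonneg_right ?_ h4
      rw [mul_one]
      exact mul_le_mul_of_nonneg_left h3 (by positivity)
    have h6 := (abs_le.1 (h1.trans h5)).1
    simp only [hF', hM, hF]
    linarith
  have hmono := le_of_deriv_nonneg (f := fun τ => -(Real.exp (-(M * τ)) * F τ))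
    (f' := fun τ => -(-M * Real.exp (-(M * τ)) * F τ + Real.exp (-(M * τ)) * F' τ)) ht.1
    (fun τ hτ => by
      have e1 : HasDerivAt (fun τ : ℝ => Real.exp (-(M * τ))) (-M * Real.exp (-(M * τ))) τ := by
        have := (((hasDerivAt_id τ).const_mul M).neg).exp
        simp only [id, mul_one] at this
        rw [mul_comm] at this
        exact this
      exact (e1.mul (hder τ ⟨hτ.1, hτ.2.trans ht.2⟩)).neg)
    (fun τ hτ => by
      have := hle τ ⟨hτ.1.le, hτ.2.le.trans ht.2⟩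
      have h8 := Real.exp_pos (-(M * τ))
      nlinarith)
  simp only [mul_zero, neg_zero, Real.exp_zero, one_mul] at hmono
  have h9 : Real.exp (-(M * t)) * F t ≤ F 0 := by linarith
  have h11 := mul_le_mul_of_nonneg_left h9 (Real.exp_pos (M * t)).le
  rw [← mul_assoc, ← Real.exp_add] at h11
  simpa using h11

/-- The bound of the first derivatives from the barrier. -/
theorem grad_bound {N : ℕ} (hN : 0 < N) {R : ℝ} {b : Cf} (h : Phi N 8 B b ≤ 2 * R) :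
    ∑ k ∈ B, jb k * ‖b k‖ ≤ Real.sqrt (729 * Z6) * Real.sqrt ((N : ℝ) ^ 8 * (2 * R)) := by
  have h1 := sum_le_sqrt (N := 1) one_pos B b
  simp only [Nat.cast_one, one_pow, mul_one] at h1
  have h2 : ∑ k ∈ B, vN 1 k ^ 8 * ‖b k‖ ^ 2 ≤ (N : ℝ) ^ 8 * (2 * R) := by
    refine le_trans ?_ (mul_le_mul_of_nonneg_left h (by positivity))
    unfold Phi
    rw [Finset.mul_sum]
    refine Finset.sum_le_sum fun k _ => ?_
    have e1 : vN 1 k ≤ N * vN N k := by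
      rw [vN_one]
      exact jb_le_vN (by exact_mod_cast hN) k
    have e2 := pow_le_pow_left₀ (vN_pos k).le e1 8
    rw [mul_pow] at e2
    calc vN 1 k ^ 8 * ‖b k‖ ^ 2 ≤ ((N : ℝ) ^ 8 * vN N k ^ 8) * nsq (b k) :=
          mul_le_mul e2 (norm_sq_le_nsq _) (sq_nonneg _) (by have := vN_pos (N := (N : ℝ)) k; positivity)
      _ = _ := by ring
  have h3 : ∑ k ∈ B, jb k * ‖b k‖ = ∑ k ∈ B, vN 1 k * ‖b k‖ :=
    Finset.sum_congr rfl fun k _ => by rw [vN_one]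
  rw [h3]
  exact h1.trans (mul_le_mul_of_nonneg_left (Real.sqrt_le_sqrt h2) (Real.sqrt_nonneg _))

theorem summable_pow {c : Cf} (hc : Rapid c) (m : ℕ) : Summable fun k => jb k ^ m * nsq (c k) := by
  obtain ⟨C1, hC1⟩ := hc (m + 3)
  obtain ⟨C2, hC2⟩ := hc 0
  have h1 : ∀ k, jb k ^ (m + 3) * ‖c k‖ ≤ |C1| + |C2| := by
    intro k
    by_cases hk : k = 0
    · subst hk
      rw [jb_zero, one_pow, one_mul]
      have := hC2 0
      rw [pow_zero, one_mul] at this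
      have := this.trans (le_abs_self C2)
      linarith [abs_nonneg C1]
    · rw [jb_of_ne hk]
      have := (hC1 k).trans (le_abs_self C1)
      linarith [abs_nonneg C2]
  refine Summable.of_nonneg_of_le (fun k => mul_nonneg (pow_nonneg (jb_pos k).le _)
    (nsq_nonneg _)) (fun k => ?_) (summable_jb.mul_left (3 * (|C1| + |C2|) ^ 2))
  have h0 := jb_pos k
  rw [← div_eq_mul_inv, le_div_iff₀ (by positivity)]
  have h3 : jb k ^ m ≤ jb k ^ (2 * m) := pow_le_pow_right₀ (one_le_jb k) (by omega)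
  calc jb k ^ m * nsq (c k) * jb k ^ 6
      ≤ jb k ^ (2 * m) * (3 * ‖c k‖ ^ 2) * jb k ^ 6 := by
        refine mul_le_mul_of_nonneg_right ?_ (by positivity)
        exact mul_le_mul h3 (nsq_le _) (nsq_nonneg _) (by positivity)
    _ = 3 * (jb k ^ (m + 3) * ‖c k‖) ^ 2 := by ring
    _ ≤ 3 * (|C1| + |C2|) ^ 2 := by
        have := pow_le_pow_left₀ (by positivity) (h1 k) 2
        linarith

theorem Phi_init {c : Cf} (hc : Rapid c) {n : ℕ} (h0 : ∀ k ∈ Bn n, a 0 k = c k) {N : ℝ}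
    (hN : 1 ≤ N) (m : ℕ) : Phi N m (Bn n) (a 0) ≤ ∑' k, jb k ^ m * nsq (c k) := by
  refine le_trans ?_ ((summable_pow hc m).sum_le_tsum (Bn n) fun k _ =>
    mul_nonneg (pow_nonneg (jb_pos k).le _) (nsq_nonneg _))
  unfold Phi
  refine Finset.sum_le_sum fun k hk => ?_
  rw [h0 k hk]
  exact mul_le_mul_of_nonneg_right (pow_le_pow_left₀ (vN_pos k).le (vN_le_jb hN k) m)
    (nsq_nonneg _)

/-- Bounds for all Galerkin approximations, for all times. -/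
theorem bound_all (hη : IsWeight η) (hμ : IsSym μ) {N : ℕ} (hN : 0 < N) {A R : ℝ} (hR : 0 < R)
    (hA : ∀ k, (N : ℝ) ≤ len k → A * ((N : ℝ) ^ 2 * Real.sqrt N) ≤ μ k)
    (hAR : K0 * (2 * R) * Real.sqrt (2 * R) < A * R) {c : Cf} (hc : Rapid c)
    (hcR : ∑' k, jb k ^ 8 * nsq (c k) ≤ R) {t : ℝ} (_ht : 0 ≤ t) (m : ℕ) :
    ∃ C : ℝ, ∀ n : ℕ, t ≤ n → ∀ a : ℝ → Cf, GalM η μ (Bn n) n a →
      (∀ k ∈ Bn n, a 0 k = c k) → ∀ τ ∈ Icc 0 t, ∀ k, jb k ^ m * ‖a τ k‖ ≤ C := by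
  set G : ℝ := Real.sqrt (729 * Z6) * Real.sqrt ((N : ℝ) ^ 8 * (2 * R)) with hGd
  have hG0 : 0 ≤ G := by positivity
  set Q : ℝ := ∑' k, jb k ^ (2 * (m + 1)) * nsq (c k) with hQ
  have hQ0 : 0 ≤ Q := tsum_nonneg fun k => mul_nonneg (pow_nonneg (jb_pos k).le _) (nsq_nonneg _)
  refine ⟨Real.sqrt (Real.exp (2 * (27 * (m + 1) * 2 ^ m * G) * t) * Q),
    fun n hn a hG h0 τ hτ k => ?_⟩
  have hτn : τ ∈ Icc (0 : ℝ) n := ⟨hτ.1, hτ.2.trans hn⟩
  have h1 := barrier hη hμ Bn_neg hG hN hR hA hAR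
    ((Phi_init hc h0 (by exact_mod_cast hN) 8).trans hcR)
  have h2 := high hη hμ Bn_neg hG (G := G) (fun s hs => grad_bound hN (h1 s hs)) m τ hτn
  have h3 := Phi_init hc h0 le_rfl (2 * (m + 1))
  have h4 : Phi 1 (2 * (m + 1)) (Bn n) (a τ)
      ≤ Real.exp (2 * (27 * (m + 1) * 2 ^ m * G) * t) * Q := by
    refine h2.trans (mul_le_mul (Real.exp_le_exp.2 ?_) h3 (Phi_nonneg _ _ _ _)
      (Real.exp_pos _).le)
    exact mul_le_mul_of_nonneg_left hτ.2 (by positivity)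
  by_cases hk : k ∈ Bn n
  · refine Real.le_sqrt_of_sq_le (le_trans ?_ h4)
    have h5 : vN 1 k ^ (2 * (m + 1)) * nsq (a τ k) ≤ Phi 1 (2 * (m + 1)) (Bn n) (a τ) :=
      Finset.single_le_sum (f := fun k => vN 1 k ^ (2 * (m + 1)) * nsq (a τ k))
        (fun k _ => mul_nonneg (pow_nonneg (vN_pos k).le _) (nsq_nonneg _)) hk
    refine le_trans ?_ h5
    rw [vN_one, mul_pow, ← pow_mul]
    refine mul_le_mul (pow_le_pow_right₀ (one_le_jb k) (by omega)) (norm_sq_le_nsq _)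
      (sq_nonneg _) (pow_nonneg (jb_pos k).le _)
  · rw [hG.supp τ k hk, norm_zero, mul_zero]
    exact Real.sqrt_nonneg _

/-- The condition on the dissipation. -/
def Often (μ : K3 → ℝ) : Prop :=
  ∀ A : ℝ, ∃ N : ℕ, 0 < N ∧ ∀ k, (N : ℝ) ≤ len k → A * ((N : ℝ) ^ 2 * Real.sqrt N) ≤ μ k

/-- Global smooth solutions. -/
theorem exists_global (hη : IsWeight η) (hμ : IsSym μ) (ho : Often μ) {c : Cf} (hh : Herm c)
    (hd : Dv c) (hc : Rapid c) : ∃ L : ℝ → Cf, L 0 = c ∧ SolM η μ (Ici 0) L := by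
  set R : ℝ := 1 + ∑' k, jb k ^ 8 * nsq (c k) with hR
  have hR0 : 0 ≤ ∑' k, jb k ^ 8 * nsq (c k) :=
    tsum_nonneg fun k => mul_nonneg (pow_nonneg (jb_pos k).le _) (nsq_nonneg _)
  have hR1 : 0 < R := by linarith
  obtain ⟨N, hN, hA⟩ := ho (K0 * (2 * R) * Real.sqrt (2 * R) / R + 1)
  have hAR : K0 * (2 * R) * Real.sqrt (2 * R)
      < (K0 * (2 * R) * Real.sqrt (2 * R) / R + 1) * R := by
    rw [add_mul, div_mul_cancel₀ _ hR1.ne']
    linarith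
  obtain ⟨L, h0, h1, _⟩ := exists_solM hη hμ hh hd (summable_of_rapid hc) (J := Ici 0)
    (fun t ht => ht)
    (fun t ht => ⟨0, self_mem_Ici, t + 1, by have : (0 : ℝ) ≤ t := ht; exact add_nonneg this zero_le_one,
      ⟨ht, by linarith⟩, by
        have : Ici (0 : ℝ) ∩ Iio (t + 1) ⊆ Icc 0 (t + 1) := fun s hs => ⟨hs.1, hs.2.le⟩
        exact mem_of_superset (inter_mem self_mem_nhdsWithin
          (mem_nhdsWithin_of_mem_nhds (Iio_mem_nhds (by linarith)))) this⟩)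
    (fun s hs t ht m => by
      obtain ⟨C, hC⟩ := bound_all hη hμ hN hR1 hA hAR hc (by linarith) ht m
      exact ⟨C, fun n hn a hG h0 τ hτ k => hC n hn a hG h0 τ ⟨le_trans hs hτ.1, hτ.2⟩ k⟩)
  exact ⟨L, h0, h1⟩

end

end Pool.Agent.Run7.h507.SP
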