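import Pool.Agent.Run7.h507.RT.Ex
import Pool.Agent.Run7.h507.RT.Uni

/-!
The Galerkin approximations for a general dissipation.
-/

set_option autoImplicit false

open MeasureTheory Set Filter Topology
open scoped ContDiff ComplexConjugate NNReal

namespace Pool.Agent.Run7.h507.SP

open RT

/-- The rates of the dissipation. -/
structure IsSym (μ : K3 → ℝ) : Prop where
  neg : ∀ k, μ (-k) = μ k
  nonneg : ∀ k, 0 ≤ μ k
  poly : ∃ n : ℕ, ∃ C : ℝ, 0 ≤ C ∧ ∀ k, μ k ≤ C * jb k ^ n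

variable {B : Finset K3} {μ : K3 → ℝ}

/-- The dissipation. -/
noncomputable def disM (μ : K3 → ℝ) (a : Cf) : Cf := fun k => μ k • a k

theorem herm_disM (hμ : IsSym μ) {a : Cf} (ha : Herm a) : Herm (disM μ a) := fun k i => by
  simp only [disM, Pi.smul_apply]
  rw [hμ.neg, ha k i]
  simp

theorem dv_disM {a : Cf} (ha : Dv a) (μ : K3 → ℝ) : Dv (disM μ a) := fun k => by
  rw [disM, kd_rsmul, ha k, mul_zero]

/-- The right hand side. -/
noncomputable def rhsM (η : K3 → K3 → ℝ) (μ : K3 → ℝ) (a : Cf) : Cf := -(disM μ a) - nl η a a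

theorem rhsM_apply (η : K3 → K3 → ℝ) (μ : K3 → ℝ) (a : Cf) (k : K3) :
    rhsM η μ a k = -(μ k • a k) - nl η a a k := rfl

theorem herm_rhsM {η : K3 → K3 → ℝ} (hη : IsWeight η) (hμ : IsSym μ) {a : Cf} (ha : Herm a) :
    Herm (rhsM η μ a) := (herm_disM hμ ha).neg.sub (herm_nl hη.neg ha ha)

theorem dv_rhsM (η : K3 → K3 → ℝ) (μ : K3 → ℝ) {a : Cf} (ha : Dv a) :
    Dv (rhsM η μ a) := (dv_disM ha μ).neg.sub (dv_nl η a a)

/-- The vector field. -/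
noncomputable def vflM (η : K3 → K3 → ℝ) (μ : K3 → ℝ) (B : Finset K3) (x : ↥B → C3) : ↥B → C3 :=
  rst B (rhsM η μ (ext B x))

theorem contDiff_vflM (η : K3 → K3 → ℝ) (μ : K3 → ℝ) (B : Finset K3) :
    ContDiff ℝ 1 (vflM η μ B) := by
  rw [contDiff_pi]
  intro k
  rw [contDiff_pi]
  intro i
  have hS : ∀ i : Fin 3, ContDiff ℝ 1 (fun x : ↥B → C3 =>
      (∑ p ∈ B, ((η p (k - p) : ℂ) * kd k (ext B x p)) • ext B x (k - p)) i) := by
    intro i
    simp only [Finset.sum_apply, Pi.smul_apply, smul_eq_mul]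
    exact ContDiff.sum fun p _ => (contDiff_const.mul (contDiff_kd _ _)).mul (contDiff_ext _ _)
  have hK : ContDiff ℝ 1 (fun x : ↥B → C3 =>
      kd k (∑ p ∈ B, ((η p (k - p) : ℂ) * kd k (ext B x p)) • ext B x (k - p))) := by
    unfold kd
    exact ContDiff.sum fun j _ => contDiff_const.mul (hS j)
  have he : (fun x : ↥B → C3 => vflM η μ B x k i) = fun x =>
      -(((μ k : ℝ) : ℂ) * ext B x k i) - Complex.I
        * ((∑ p ∈ B, ((η p (k - p) : ℂ) * kd k (ext B x p)) • ext B x (k - p)) i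
          - ((k : K3) i : ℂ)
            * (kd k (∑ p ∈ B, ((η p (k - p) : ℂ) * kd k (ext B x p)) • ext B x (k - p))
              * (RT.sq k : ℂ)⁻¹)) := by
    funext x
    simp only [vflM, rst, rhsM, Pi.sub_apply, Pi.neg_apply, disM, Pi.smul_apply]
    rw [nl_eq_sum η (fun p hp => ext_not hp)]
    simp only [Pi.smul_apply, prj, smul_eq_mul, Complex.real_smul, div_eq_mul_inv]
  rw [he]
  exact (contDiff_const.mul (contDiff_ext _ _)).neg.sub
    (contDiff_const.mul ((hS i).sub (contDiff_const.mul (hK.mul contDiff_const))))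

theorem vflM_mem {η : K3 → K3 → ℝ} (hη : IsWeight η) (hμ : IsSym μ) (hB : ∀ k ∈ B, -k ∈ B)
    {x : ↥B → C3} (hx : x ∈ HS B) : vflM η μ B x ∈ HS B :=
  ⟨(herm_rhsM hη hμ hx.1).rst hB, (dv_rhsM η μ hx.2).rst⟩

/-- Galerkin approximations on `[0,T]`. -/
structure GalM (η : K3 → K3 → ℝ) (μ : K3 → ℝ) (B : Finset K3) (T : ℝ) (a : ℝ → Cf) : Prop where
  supp : ∀ t, ∀ k ∉ B, a t k = 0
  herm : ∀ t, Herm (a t)
  div : ∀ t, Dv (a t)
  der : ∀ t ∈ Icc 0 T, ∀ k ∈ B, HasDerivAt (fun s => a s k) (rhsM η μ (a t) k) t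
  energy : ∀ t ∈ Icc 0 T, ∑ k ∈ B, nsq (a t k) ≤ ∑ k ∈ B, nsq (a 0 k)

theorem GalM.mono {η : K3 → K3 → ℝ} {T T' : ℝ} {a : ℝ → Cf}
    (hG : GalM η μ B T a) (h : T' ≤ T) : GalM η μ B T' a :=
  ⟨hG.supp, hG.herm, hG.div, fun t ht => hG.der t ⟨ht.1, ht.2.trans h⟩,
    fun t ht => hG.energy t ⟨ht.1, ht.2.trans h⟩⟩

theorem ip_rhsM (η : K3 → K3 → ℝ) (μ : K3 → ℝ) (a : Cf) (k : K3) :
    ip (rhsM η μ a k) (a k) = -(μ k * nsq (a k)) - ip (nl η a a k) (a k) := by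
  rw [rhsM, Pi.sub_apply, ip_sub_left, Pi.neg_apply, ip_neg_left, disM, ip_smul_left, ip_self]

theorem exists_galM {η : K3 → K3 → ℝ} (hη : IsWeight η) (hμ : IsSym μ)
    (hB : ∀ k ∈ B, -k ∈ B) {T : ℝ} (hT : 0 ≤ T) {c : Cf} (hh : Herm c) (hd : Dv c) :
    ∃ a : ℝ → Cf, (∀ k ∈ B, a 0 k = c k) ∧ GalM η μ B T a := by
  obtain ⟨x, h0, h1, h2, h3⟩ := exists_global_sub (HS B) (vflM η μ B) (contDiff_vflM η μ B)
    (fun x hx => vflM_mem hη hμ hB hx) (eng B) (contDiff_eng B) (compact_eng B)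
    (fun x hx => by
      rw [fderiv_eng]
      have e1 : ∑ k : ↥B, 2 * ip (vflM η μ B x k) (x k)
          = 2 * ∑ k ∈ B, ip (rhsM η μ (ext B x) k) (ext B x k) := by
        rw [Finset.mul_sum,
          ← Finset.sum_coe_sort B (fun k => 2 * ip (rhsM η μ (ext B x) k) (ext B x k))]
        refine Finset.sum_congr rfl fun k _ => ?_
        rw [ext_mem k.2]
        rfl
      rw [e1]
      simp only [ip_rhsM]
      rw [Finset.sum_sub_distrib, sum_ip_nl_one hη (fun k hk => ext_not hk) hB hx.2 hx.1, sub_zero,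
        Finset.sum_neg_distrib]
      have : 0 ≤ ∑ k ∈ B, μ k * nsq (ext B x k) :=
        Finset.sum_nonneg fun k _ => mul_nonneg (hμ.nonneg k) (nsq_nonneg _)
      linarith) (rst B c) ⟨hh.rst hB, hd.rst⟩ hT
  refine ⟨fun t => ext B (x t), fun k hk => ?_, fun t k hk => ext_not hk, fun t => (h1 t).1,
    fun t => (h1 t).2, fun t ht k hk => ?_, fun t ht => ?_⟩
  · simp only [h0]
    exact ext_rst_mem hk
  · have e : HasDerivAt (fun s => x s ⟨k, hk⟩) (vflM η μ B (x t) ⟨k, hk⟩) t :=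
      (hasDerivAt_pi (φ := x)).1 (h2 t ht) ⟨k, hk⟩
    simp only [ext_mem hk]
    exact e
  · have := h3 t ht
    rw [eng_eq, eng_eq] at this
    simp only [h0]
    exact this

/-! ### Bounds of the right hand side -/

theorem rhsM_bound {η : K3 → K3 → ℝ} (hη : ∀ p q, |η p q| ≤ 1) (hμ : IsSym μ) (m : ℕ) :
    ∃ M : ℕ, ∀ A : ℝ, ∃ C : ℝ, ∀ a : Cf,
      (∀ k, jb k ^ M * ‖a k‖ ≤ A) → ∀ k, jb k ^ m * ‖rhsM η μ a k‖ ≤ C := by
  obtain ⟨n, D, hD, hn⟩ := hμ.poly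
  refine ⟨m + n + 7, fun A => ⟨D * A + 12 * (2 ^ (m + 1) * (A * A) * Z6), fun a ha k => ?_⟩⟩
  have h0 := jb_pos k
  have h1 : ‖rhsM η μ a k‖ ≤ D * jb k ^ n * ‖a k‖ + ‖nl η a a k‖ := by
    rw [rhsM_apply]
    refine (norm_sub_le _ _).trans (add_le_add ?_ le_rfl)
    rw [norm_neg, norm_smul, Real.norm_eq_abs, abs_of_nonneg (hμ.nonneg k)]
    exact mul_le_mul_of_nonneg_right (hn k) (norm_nonneg _)
  have h2 := nl_bound hη (m := m) (a := a) (b := a) (A := A) (A' := A)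
    (fun k => (pow_mono (by omega)).trans (ha k)) (fun k => (pow_mono (by omega)).trans (ha k)) k
  have h3 : jb k ^ (m + n) * ‖a k‖ ≤ A := (pow_mono (by omega)).trans (ha k)
  calc jb k ^ m * ‖rhsM η μ a k‖ ≤ jb k ^ m * (D * jb k ^ n * ‖a k‖ + ‖nl η a a k‖) :=
        mul_le_mul_of_nonneg_left h1 (by positivity)
    _ = D * (jb k ^ (m + n) * ‖a k‖) + jb k ^ m * ‖nl η a a k‖ := by ring
    _ ≤ _ := add_le_add (mul_le_mul_of_nonneg_left h3 hD) h2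

/-- The right hand side is Lipschitz, mode by mode. -/
theorem rhsM_lip {η : K3 → K3 → ℝ} (hη : ∀ p q, |η p q| ≤ 1) (hμ : IsSym μ)
    (k : K3) (A : ℝ) : ∃ C : ℝ, 0 ≤ C ∧ ∀ (a b : Cf) (d : ℝ), (∀ k, jb k ^ 7 * ‖a k‖ ≤ A) →
      (∀ k, jb k ^ 7 * ‖b k‖ ≤ A) → (∀ k, jb k ^ 7 * ‖a k - b k‖ ≤ d) →
      ‖rhsM η μ a k - rhsM η μ b k‖ ≤ C * d := by
  have hZ := Z6_nonneg
  refine ⟨μ k + 48 * |A| * Z6, by have := hμ.nonneg k; positivity,
    fun a b d ha hb hd => ?_⟩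
  have h6 : ∀ (c : Cf) (D : ℝ), (∀ k, jb k ^ 7 * ‖c k‖ ≤ D) → ∀ k, jb k ^ 6 * ‖c k‖ ≤ D :=
    fun c D h k => (pow_mono (by omega)).trans (h k)
  have h1' : ∀ (c : Cf) (D : ℝ), (∀ k, jb k ^ 7 * ‖c k‖ ≤ D) → ∀ k, jb k ^ 1 * ‖c k‖ ≤ D :=
    fun c D h k => (pow_mono (by omega)).trans (h k)
  have hd' : ∀ k, jb k ^ 7 * ‖(a - b) k‖ ≤ d := hd
  have hd0 : 0 ≤ d := le_trans (by have := jb_pos 0; positivity) (hd 0)
  have hA0 : 0 ≤ A := le_trans (by have := jb_pos 0; positivity) (ha 0)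
  have hn1 := nl_bound hη (m := 0) (a := a - b) (b := a) hd' (h1' a A ha) k
  have hn2 := nl_bound hη (m := 0) (a := b) (b := a - b) hb (h1' (a - b) d hd') k
  simp only [pow_zero, one_mul, zero_add, pow_one] at hn1 hn2
  have h3 : ‖a k - b k‖ ≤ d := by
    have := (pow_mono (k := k) (v := a k - b k) (Nat.zero_le 7)).trans (hd k)
    simpa using this
  have e : rhsM η μ a k - rhsM η μ b k
      = -(μ k • (a k - b k)) - (nl η (a - b) a k + nl η b (a - b) k) := by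
    rw [← nl_sub_self hη (L1_of (h6 a A ha)) (L1_of (h6 b A hb))]
    simp only [rhsM, Pi.sub_apply, Pi.neg_apply, disM, smul_sub]
    abel
  rw [e]
  refine (norm_sub_le _ _).trans ?_
  rw [norm_neg, norm_smul, Real.norm_eq_abs, abs_of_nonneg (hμ.nonneg k), abs_of_nonneg hA0]
  have h4 := norm_add_le (nl η (a - b) a k) (nl η b (a - b) k)
  have h5 := mul_le_mul_of_nonneg_left h3 (hμ.nonneg k)
  calc μ k * ‖a k - b k‖ + ‖nl η (a - b) a k + nl η b (a - b) k‖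
      ≤ μ k * d + (12 * (2 * (d * A) * Z6) + 12 * (2 * (A * d) * Z6)) := by linarith
    _ = _ := by ring

end Pool.Agent.Run7.h507.SP
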