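import Pool.Agent.Run7.h507.SP.Com

/-!
Sums over the frequencies at the scale `N`.
-/

set_option autoImplicit false

open MeasureTheory Set Filter Topology
open scoped ContDiff ComplexConjugate NNReal

namespace Pool.Agent.Run7.h507.SP

open RT

/-- The block of a frequency. -/
def blk (N : ℕ) (k : K3) : K3 := fun i => k i / (N : ℤ)

theorem len_smul (N : ℕ) (m : K3) : len (fun i => (N : ℤ) * m i) = N * len m := by
  have h : RT.sq (fun i => (N : ℤ) * m i) = (N : ℝ) ^ 2 * RT.sq m := by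
    unfold RT.sq
    rw [Finset.mul_sum]
    refine Finset.sum_congr rfl fun i _ => ?_
    push_cast
    ring
  unfold len
  rw [h, Real.sqrt_mul (by positivity), Real.sqrt_sq (Nat.cast_nonneg N)]

theorem jb_blk {N : ℕ} (hN : 0 < N) (k : K3) : jb (blk N k) ≤ 3 * vN N k := by
  have hN0 : (0 : ℝ) < N := by exact_mod_cast hN
  have h1 := one_le_vN (N := (N : ℝ)) k
  refine max_le (by linarith) ?_
  have e1 : (fun i => (N : ℤ) * blk N k i) = k + -(fun i => k i % (N : ℤ)) := by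
    funext i
    rw [Pi.add_apply, Pi.neg_apply]
    have := Int.mul_ediv_add_emod (k i) (N : ℤ)
    unfold blk
    linarith
  have h2 := len_add_le k (-(fun i => k i % (N : ℤ)))
  rw [← e1, len_smul, len_neg] at h2
  have h3 : len (fun i => k i % (N : ℤ)) ≤ 2 * N := by
    have h4 : RT.sq (fun i => k i % (N : ℤ)) ≤ (2 * N : ℝ) ^ 2 := by
      unfold RT.sq
      have h5 : ∀ i : Fin 3, ((k i % (N : ℤ) : ℤ) : ℝ) ^ 2 ≤ (N : ℝ) ^ 2 := by
        intro i
        have hNi : (0 : ℤ) < N := by exact_mod_cast hN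
        have a1 := Int.emod_nonneg (k i) hNi.ne'
        have a2 := (Int.emod_lt_of_pos (k i) hNi).le
        have b1 : (0 : ℝ) ≤ ((k i % (N : ℤ) : ℤ) : ℝ) := by exact_mod_cast a1
        have b2 : ((k i % (N : ℤ) : ℤ) : ℝ) ≤ N := by exact_mod_cast a2
        exact pow_le_pow_left₀ b1 b2 2
      calc ∑ j : Fin 3, ((k j % (N : ℤ) : ℤ) : ℝ) ^ 2 ≤ ∑ _j : Fin 3, (N : ℝ) ^ 2 :=
            Finset.sum_le_sum fun i _ => h5 i
        _ = 3 * (N : ℝ) ^ 2 := by simp
        _ ≤ (2 * N : ℝ) ^ 2 := by nlinarith [sq_nonneg (N : ℝ)]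
    unfold len
    refine Real.sqrt_le_iff.2 ⟨by positivity, h4⟩
  have h6 := len_le_vN hN0 k
  have h7 : (N : ℝ) * len (blk N k) ≤ N * (3 * vN N k) := by nlinarith
  exact le_of_mul_le_mul_left h7 hN0

theorem card_fiber {N : ℕ} (hN : 0 < N) (B : Finset K3) (m : K3) :
    (B.filter fun k => blk N k = m).card ≤ N ^ 3 := by
  have h : (B.filter fun k => blk N k = m)
      ⊆ Fintype.piFinset fun i => Finset.Ico ((N : ℤ) * m i) ((N : ℤ) * m i + N) := by
    intro k hk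
    rw [Finset.mem_filter] at hk
    rw [Fintype.mem_piFinset]
    intro i
    have hNi : (0 : ℤ) < N := by exact_mod_cast hN
    have h1 : k i / (N : ℤ) = m i := congrFun hk.2 i
    have h2 := Int.mul_ediv_add_emod (k i) (N : ℤ)
    have h3 := Int.emod_nonneg (k i) hNi.ne'
    have h4 := Int.emod_lt_of_pos (k i) hNi
    rw [h1] at h2
    rw [Finset.mem_Ico]
    constructor <;> linarith
  refine (Finset.card_le_card h).trans (le_of_eq ?_)
  rw [Fintype.card_piFinset]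
  simp

/-- The lattice sum. -/
theorem sum_vN {N : ℕ} (hN : 0 < N) (B : Finset K3) :
    ∑ k ∈ B, (vN N k ^ 6)⁻¹ ≤ 729 * (N : ℝ) ^ 3 * Z6 := by
  classical
  have h1 : ∀ k, (vN N k ^ 6)⁻¹ ≤ 729 * (jb (blk N k) ^ 6)⁻¹ := by
    intro k
    have h2 := pow_le_pow_left₀ (jb_pos _).le (jb_blk hN k) 6
    rw [mul_pow] at h2
    have h3 := vN_pos (N := (N : ℝ)) k
    have h4 := jb_pos (blk N k)
    rw [← div_eq_mul_inv, le_div_iff₀ (by positivity), inv_mul_le_iff₀ (by positivity)]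
    norm_num at h2
    linarith
  calc ∑ k ∈ B, (vN N k ^ 6)⁻¹ ≤ ∑ k ∈ B, 729 * (jb (blk N k) ^ 6)⁻¹ :=
        Finset.sum_le_sum fun k _ => h1 k
    _ = 729 * ∑ m ∈ B.image (blk N), ((B.filter fun k => blk N k = m).card : ℝ)
          * (jb m ^ 6)⁻¹ := by
        rw [← Finset.mul_sum, Finset.sum_comp (fun m => (jb m ^ 6)⁻¹) (blk N)]
        congr 1
        refine Finset.sum_congr rfl fun m _ => ?_
        rw [nsmul_eq_mul]
    _ ≤ 729 * ∑ m ∈ B.image (blk N), (N : ℝ) ^ 3 * (jb m ^ 6)⁻¹ := by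
        refine mul_le_mul_of_nonneg_left (Finset.sum_le_sum fun m _ => ?_) (by norm_num)
        refine mul_le_mul_of_nonneg_right ?_ (by have := jb_pos m; positivity)
        exact_mod_cast card_fiber hN B m
    _ = 729 * (N : ℝ) ^ 3 * ∑ m ∈ B.image (blk N), (jb m ^ 6)⁻¹ := by
        rw [← Finset.mul_sum]
        ring
    _ ≤ 729 * (N : ℝ) ^ 3 * Z6 := by
        refine mul_le_mul_of_nonneg_left ?_ (by positivity)
        exact summable_jb.sum_le_tsum _ fun k _ => by have := jb_pos k; positivity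

/-- The sum of the first derivatives is bounded by the weighted energy. -/
theorem sum_le_sqrt {N : ℕ} (hN : 0 < N) (B : Finset K3) (a : Cf) :
    ∑ k ∈ B, vN N k * ‖a k‖
      ≤ Real.sqrt (729 * (N : ℝ) ^ 3 * Z6) * Real.sqrt (∑ k ∈ B, vN N k ^ 8 * ‖a k‖ ^ 2) := by
  have h1 := Finset.sum_mul_sq_le_sq_mul_sq B (fun k => Real.sqrt ((vN N k ^ 6)⁻¹))
    (fun k => vN N k ^ 4 * ‖a k‖)
  have e1 : ∀ k, Real.sqrt ((vN N k ^ 6)⁻¹) * (vN N k ^ 4 * ‖a k‖) = vN N k * ‖a k‖ := by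
    intro k
    have h0 := vN_pos (N := (N : ℝ)) k
    have e : (vN N k ^ 6)⁻¹ = ((vN N k ^ 3)⁻¹) ^ 2 := by
      rw [inv_pow, ← pow_mul]
    rw [e, Real.sqrt_sq (by positivity)]
    field_simp
  have e2 : ∀ k, Real.sqrt ((vN N k ^ 6)⁻¹) ^ 2 = (vN N k ^ 6)⁻¹ := by
    intro k
    have h0 := vN_pos (N := (N : ℝ)) k
    exact Real.sq_sqrt (by positivity)
  have e3 : ∀ k, (vN N k ^ 4 * ‖a k‖) ^ 2 = vN N k ^ 8 * ‖a k‖ ^ 2 := fun k => by ring
  simp only [e1, e2, e3] at h1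
  have h2 : 0 ≤ ∑ k ∈ B, vN N k ^ 8 * ‖a k‖ ^ 2 := Finset.sum_nonneg fun k _ => by
    have := vN_pos (N := (N : ℝ)) k
    positivity
  rw [← Real.sqrt_mul (by have := Z6_nonneg; positivity)]
  refine Real.le_sqrt_of_sq_le (h1.trans ?_)
  exact mul_le_mul_of_nonneg_right (sum_vN hN B) h2

end Pool.Agent.Run7.h507.SP
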