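import Pool.Agent.Run7.h507.SP.Gal

/-!
The limit of the Galerkin approximations for a general dissipation.
-/

set_option autoImplicit false

open MeasureTheory Set Filter Topology
open scoped ContDiff ComplexConjugate NNReal

namespace Pool.Agent.Run7.h507.SP

open RT

variable {μ : K3 → ℝ}

/-- Smooth solutions for the times in `I`. -/
structure SolM (η : K3 → K3 → ℝ) (μ : K3 → ℝ) (I : Set ℝ) (a : ℝ → Cf) : Prop where
  herm : ∀ t ∈ I, Herm (a t)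
  div : ∀ t ∈ I, Dv (a t)
  rapid : ∀ s ∈ I, ∀ t ∈ I, ∀ m : ℕ, ∃ C : ℝ, ∀ τ ∈ Icc s t, ∀ k, len k ^ m * ‖a τ k‖ ≤ C
  der : ∀ t ∈ I, ∀ k, HasDerivWithinAt (fun s => a s k)
    (-(μ k • a t k) - nl η (a t) (a t) k) I t

theorem rhsM_le_of_energy {η : K3 → K3 → ℝ} {E : ℝ} (hη : ∀ p q, |η p q| ≤ 1) (hμ : IsSym μ) {a : Cf}
    (ha : ∀ F : Finset K3, ∑ k ∈ F, ‖a k‖ ^ 2 ≤ E) (k : K3) :
    ‖rhsM η μ a k‖ ≤ μ k * Real.sqrt E + 12 * len k * E := by
  obtain ⟨h1, h2⟩ := conv_le_of_energy ha k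
  have h3 : ‖a k‖ ≤ Real.sqrt E := by
    refine Real.le_sqrt_of_sq_le ?_
    have := ha {k}
    simpa using this
  refine (norm_sub_le _ _).trans (add_le_add ?_ ?_)
  · rw [Pi.neg_apply, norm_neg, disM, norm_smul, Real.norm_eq_abs,
      abs_of_nonneg (hμ.nonneg k)]
    exact mul_le_mul_of_nonneg_left h3 (hμ.nonneg k)
  · refine (norm_nl_le hη k h1).trans ?_
    exact mul_le_mul_of_nonneg_left h2 (by have := len_nonneg k; positivity)

theorem tendsto_rhsM {η : K3 → K3 → ℝ} (hη : ∀ p q, |η p q| ≤ 1) (μ : K3 → ℝ) {U : Filter ℕ}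
    {a : ℕ → Cf} {b : Cf} {A : ℝ} (ha : ∀ᶠ n in U, ∀ k, jb k ^ 6 * ‖a n k‖ ≤ A)
    (hab : ∀ k, Tendsto (fun n => a n k) U (𝓝 (b k))) (k : K3) :
    Tendsto (fun n => rhsM η μ (a n) k) U (𝓝 (rhsM η μ b k)) := by
  have h1 : Tendsto (fun n => ∑' p : K3, ((η p (k - p) : ℂ) * kd k (a n p)) • a n (k - p)) U
      (𝓝 (∑' p : K3, ((η p (k - p) : ℂ) * kd k (b p)) • b (k - p))) := by
    refine tendsto_tsum_of_dominated_convergence
      (bound := fun p => 3 * len k * (A * A * (jb p ^ 6)⁻¹)) ?_ ?_ ?_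
    · exact (summable_jb.mul_left _).mul_left _
    · intro p
      exact (tendsto_const_nhds.mul (((kd_continuous k).tendsto _).comp (hab p))).smul (hab (k - p))
    · filter_upwards [ha] with n hn p
      refine (norm_term_le hη p (k - p) k (a n p) (a n (k - p))).trans ?_
      refine mul_le_mul_of_nonneg_left ?_ (by have := len_nonneg k; positivity)
      have h0 := jb_pos p
      have hp : ‖a n p‖ ≤ A * (jb p ^ 6)⁻¹ := by
        rw [← div_eq_mul_inv, le_div_iff₀ (by positivity), mul_comm]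
        exact hn p
      have hq : ‖a n (k - p)‖ ≤ A := by
        have := (pow_mono (k := k - p) (v := a n (k - p)) (Nat.zero_le 6)).trans (hn (k - p))
        simpa using this
      have hA : 0 ≤ A := (norm_nonneg _).trans hq
      calc ‖a n p‖ * ‖a n (k - p)‖ ≤ (A * (jb p ^ 6)⁻¹) * A :=
            mul_le_mul hp hq (norm_nonneg _) (by positivity)
        _ = _ := by ring
  have h2 := ((prjC k).continuous.tendsto _).comp h1
  have h3 := h2.const_smul Complex.I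
  have h4 := ((hab k).const_smul (μ k)).neg
  exact h4.sub h3

/-- The time differences of a Galerkin approximation. -/
theorem galM_diff {η : K3 → K3 → ℝ} {T : ℝ} {B : Finset K3} {a : ℝ → Cf}
    (hG : GalM η μ B T a) {t₀ t₁ C₁ : ℝ} (h0 : 0 ≤ t₀) (h1 : t₁ ≤ T)
    (hC : ∀ τ ∈ Icc t₀ t₁, ∀ p, jb p ^ 7 * ‖rhsM η μ (a τ) p‖ ≤ C₁) {τ τ' : ℝ}
    (hτ : τ ∈ Icc t₀ t₁) (hτ' : τ' ∈ Icc t₀ t₁) (p : K3) :
    jb p ^ 7 * ‖a τ p - a τ' p‖ ≤ C₁ * |τ - τ'| := by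
  have h3 := jb_pos p
  by_cases hp : p ∈ B
  · have h1 : ‖a τ p - a τ' p‖ ≤ C₁ * (jb p ^ 7)⁻¹ * ‖τ - τ'‖ := by
      refine Convex.norm_image_sub_le_of_norm_hasDerivWithin_le (s := Icc t₀ t₁)
        (f := fun τ => a τ p) (f' := fun τ => rhsM η μ (a τ) p) (fun x hx => ?_) (fun x hx => ?_)
        (convex_Icc t₀ t₁) hτ' hτ
      · exact (hG.der x ⟨h0.trans hx.1, hx.2.trans h1⟩ p hp).hasDerivWithinAt
      · have h2 := hC x hx p
        rw [← div_eq_mul_inv, le_div_iff₀ (by positivity), mul_comm]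
        exact h2
    calc jb p ^ 7 * ‖a τ p - a τ' p‖ ≤ jb p ^ 7 * (C₁ * (jb p ^ 7)⁻¹ * ‖τ - τ'‖) :=
          mul_le_mul_of_nonneg_left h1 (by positivity)
      _ = C₁ * |τ - τ'| := by
          rw [Real.norm_eq_abs]
          field_simp
  · rw [hG.supp τ p hp, hG.supp τ' p hp, sub_self, norm_zero, mul_zero]
    have h4 : 0 ≤ C₁ := le_trans (mul_nonneg (pow_nonneg h3.le _) (norm_nonneg _)) (hC τ hτ p)
    positivity

/-- The second order error. -/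
theorem galM_second {η : K3 → K3 → ℝ} {T : ℝ} {B : Finset K3} {a : ℝ → Cf}
    (hG : GalM η μ B T a) {t₀ t₁ C₁ C₂ : ℝ} (h0 : 0 ≤ t₀) (h1 : t₁ ≤ T) (hC₁0 : 0 ≤ C₁)
    (hC₂0 : 0 ≤ C₂) {k : K3} (hk : k ∈ B)
    (hL : ∀ x ∈ Icc t₀ t₁, ∀ y ∈ Icc t₀ t₁,
      ‖rhsM η μ (a x) k - rhsM η μ (a y) k‖ ≤ C₂ * (C₁ * |x - y|)) {s t : ℝ}
    (hs : s ∈ Icc t₀ t₁) (ht : t ∈ Icc t₀ t₁) :
    ‖a s k - a t k - (s - t) • rhsM η μ (a t) k‖ ≤ C₂ * C₁ * (s - t) ^ 2 := by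
  have hsub : uIcc t s ⊆ Icc t₀ t₁ := uIcc_subset_Icc ht hs
  have h2 := Convex.norm_image_sub_le_of_norm_hasDerivWithin_le (s := uIcc t s)
    (f := fun τ => a τ k - (τ - t) • rhsM η μ (a t) k)
    (f' := fun τ => rhsM η μ (a τ) k - rhsM η μ (a t) k) (C := C₂ * (C₁ * |s - t|))
    (x := t) (y := s)
    (fun x hx => by
      have e1 := (hG.der x ⟨h0.trans (hsub hx).1, (hsub hx).2.trans h1⟩ k hk)
      have e2 : HasDerivAt (fun τ : ℝ => (τ - t) • rhsM η μ (a t) k)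
          (rhsM η μ (a t) k) x := by
        have := ((hasDerivAt_id x).sub_const t).smul_const (rhsM η μ (a t) k)
        simpa using this
      exact (e1.sub e2).hasDerivWithinAt)
    (fun x hx => by
      refine (hL x (hsub hx) t ht).trans ?_
      refine mul_le_mul_of_nonneg_left (mul_le_mul_of_nonneg_left ?_ hC₁0) hC₂0
      exact abs_sub_left_of_mem_uIcc hx)
    (convex_uIcc t s) left_mem_uIcc right_mem_uIcc
  simp only [sub_self, zero_smul, sub_zero] at h2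
  have e : a s k - (s - t) • rhsM η μ (a t) k - a t k
      = a s k - a t k - (s - t) • rhsM η μ (a t) k := by abel
  rw [e, Real.norm_eq_abs] at h2
  refine h2.trans (le_of_eq ?_)
  rw [← sq_abs (s - t)]
  ring

/-- Continuity at zero. -/
theorem galM_zero {η : K3 → K3 → ℝ} {T E : ℝ} {B : Finset K3} {a : ℝ → Cf}
    (hη : ∀ p q, |η p q| ≤ 1) (hμ : IsSym μ)
    (hG : GalM η μ B T a) (hen : ∀ t ∈ Icc 0 T, ∀ F : Finset K3, ∑ k ∈ F, ‖a t k‖ ^ 2 ≤ E)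
    {k : K3} (hk : k ∈ B) {t : ℝ} (ht : 0 ≤ t) (htT : t ≤ T) :
    ‖a t k - a 0 k‖ ≤ (μ k * Real.sqrt E + 12 * len k * E) * t := by
  have h2 := Convex.norm_image_sub_le_of_norm_hasDerivWithin_le (s := Icc 0 t)
    (f := fun τ => a τ k)
    (f' := fun τ => rhsM η μ (a τ) k) (C := μ k * Real.sqrt E + 12 * len k * E)
    (x := 0) (y := t)
    (fun x hx => (hG.der x ⟨hx.1, hx.2.trans htT⟩ k hk).hasDerivWithinAt)
    (fun x hx => rhsM_le_of_energy hη hμ (hen x ⟨hx.1, hx.2.trans htT⟩) k)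
    (convex_Icc 0 t) (left_mem_Icc.2 ht) (right_mem_Icc.2 ht)
  rwa [sub_zero, Real.norm_eq_abs, abs_of_nonneg ht] at h2

/-- The passage to the limit in the equation. -/
theorem limM_eq {η : K3 → K3 → ℝ} (hη : IsWeight η) (hμ : IsSym μ)
    {a : ℕ → ℝ → Cf} (haG : ∀ n : ℕ, GalM η μ (Bn n) n (a n)) {L : ℝ → Cf}
    (hL : ∀ (t : ℝ) (k : K3), 0 ≤ t → Tendsto (fun n => a n t k) UU (𝓝 (L t k)))
    {J : Set ℝ} {t t₀ t₁ : ℝ} (h00 : 0 ≤ t₀) (htt : t ∈ Icc t₀ t₁) (hnb : Icc t₀ t₁ ∈ 𝓝[J] t)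
    (hUB : ∀ m : ℕ, ∃ C : ℝ, ∀ n : ℕ, t₁ ≤ n → ∀ τ ∈ Icc t₀ t₁, ∀ k,
      jb k ^ m * ‖a n τ k‖ ≤ C) (k : K3) :
    HasDerivWithinAt (fun s => L s k) (rhsM η μ (L t) k) J t := by
  obtain ⟨M, hM⟩ := rhsM_bound hη.bdd hμ 7
  obtain ⟨A₁, hA₁⟩ := hUB M
  obtain ⟨C₁, hC₁⟩ := hM A₁
  obtain ⟨A, hA⟩ := hUB 7
  obtain ⟨C₂, hC₂0, hC₂⟩ := rhsM_lip hη.bdd hμ k A
  have hC₁0 : 0 ≤ C₁ := by
    obtain ⟨n, hn⟩ := exists_nat_ge t₁
    have h2 := hC₁ (a n t) (hA₁ n hn t htt) 0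
    exact le_trans (mul_nonneg (pow_nonneg (jb_pos 0).le _) (norm_nonneg _)) h2
  refine hasDerivWithinAt_of_sq (C := C₂ * C₁) ?_
  have h0t : 0 ≤ t := h00.trans htt.1
  have hr : Tendsto (fun n => rhsM η μ (a n t) k) UU (𝓝 (rhsM η μ (L t) k)) := by
    refine tendsto_rhsM hη.bdd μ (A := A) ?_ (fun k => hL t k h0t) k
    filter_upwards [ev_ge t₁] with n hn p
    exact (pow_mono (by omega)).trans (hA n hn t htt p)
  filter_upwards [hnb] with s hs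
  have h0s : 0 ≤ s := h00.trans hs.1
  refine le_of_tendsto (((hL s k h0s).sub (hL t k h0t)).sub (hr.const_smul (s - t))).norm ?_
  filter_upwards [ev_ge t₁, ev_mem k] with n hn hk
  refine galM_second (haG n) h00 hn hC₁0 hC₂0 hk (fun x hx y hy => ?_) hs htt
  exact hC₂ (a n x) (a n y) (C₁ * |x - y|) (hA n hn x hx) (hA n hn y hy) fun p =>
    galM_diff (haG n) h00 hn (fun τ hτ p => hC₁ (a n τ) (hA₁ n hn τ hτ) p) hx hy p

/-- The existence of a solution, given uniform bounds for the Galerkin approximations. -/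
theorem exists_solM {η : K3 → K3 → ℝ} (hη : IsWeight η) (hμ : IsSym μ)
    {c : Cf} (hh : Herm c) (hd : Dv c) (hc : Summable fun k => nsq (c k)) {J : Set ℝ}
    (hJ0 : ∀ t ∈ J, 0 ≤ t)
    (hJ : ∀ t ∈ J, ∃ t₀ ∈ J, ∃ t₁ ∈ J, t ∈ Icc t₀ t₁ ∧ Icc t₀ t₁ ∈ 𝓝[J] t)
    (hUB : ∀ s ∈ J, ∀ t ∈ J, ∀ m : ℕ, ∃ C : ℝ, ∀ n : ℕ, t ≤ n → ∀ a : ℝ → Cf,
      GalM η μ (Bn n) n a → (∀ k ∈ Bn n, a 0 k = c k) →
      ∀ τ ∈ Icc s t, ∀ k, jb k ^ m * ‖a τ k‖ ≤ C) :
    ∃ L : ℝ → Cf, L 0 = c ∧ SolM η μ J L ∧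
      (∀ t, 0 ≤ t → ∀ F : Finset K3, ∑ k ∈ F, nsq (L t k) ≤ ∑' k, nsq (c k)) ∧
      (∀ k, ∃ C : ℝ, ∀ t, 0 ≤ t → ‖L t k - c k‖ ≤ C * t) ∧
      (∀ G : ℝ, (∀ n : ℕ, ∀ a : ℝ → Cf, GalM η μ (Bn n) n a → (∀ k ∈ Bn n, a 0 k = c k) →
        ∀ t ∈ Icc (0 : ℝ) n, ∑ k ∈ Bn n, jb k * ‖a t k‖ ≤ G) →
        ∀ t, 0 ≤ t → ∀ F : Finset K3, ∑ k ∈ F, jb k * ‖L t k‖ ≤ G) := by
  classical
  have hex : ∀ n : ℕ, ∃ a : ℝ → Cf, (∀ k ∈ Bn n, a 0 k = c k) ∧ GalM η μ (Bn n) n a := fun n =>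
    exists_galM hη hμ Bn_neg (Nat.cast_nonneg n) hh hd
  choose a ha0 haG using hex
  set E : ℝ := ∑' k, nsq (c k) with hE
  have hE0 : 0 ≤ E := tsum_nonneg fun k => nsq_nonneg _
  -- the energy bound
  have hen : ∀ n : ℕ, ∀ t ∈ Icc (0 : ℝ) n, ∀ F : Finset K3, ∑ k ∈ F, nsq (a n t k) ≤ E := by
    intro n t ht F
    have h1 : ∑ k ∈ F, nsq (a n t k) ≤ ∑ k ∈ Bn n, nsq (a n t k) := by
      calc ∑ k ∈ F, nsq (a n t k) = ∑ k ∈ F ∩ Bn n, nsq (a n t k) := by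
            symm
            refine Finset.sum_subset Finset.inter_subset_left fun k hk hk2 => ?_
            rw [(haG n).supp t k fun h => hk2 (Finset.mem_inter.2 ⟨hk, h⟩), nsq_zero]
        _ ≤ _ := Finset.sum_le_sum_of_subset_of_nonneg Finset.inter_subset_right
            fun _ _ _ => nsq_nonneg _
    refine h1.trans (((haG n).energy t ht).trans ?_)
    rw [Finset.sum_congr rfl fun k hk => by rw [ha0 n k hk]]
    exact hc.sum_le_tsum _ fun _ _ => nsq_nonneg _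
  have hen' : ∀ n : ℕ, ∀ t ∈ Icc (0 : ℝ) n, ∀ F : Finset K3, ∑ k ∈ F, ‖a n t k‖ ^ 2 ≤ E :=
    fun n t ht F => (Finset.sum_le_sum fun k _ => norm_sq_le_nsq _).trans (hen n t ht F)
  have hbd : ∀ n : ℕ, ∀ t ∈ Icc (0 : ℝ) n, ∀ k, ‖a n t k‖ ≤ Real.sqrt E := by
    intro n t ht k
    refine Real.le_sqrt_of_sq_le ?_
    have := hen' n t ht {k}
    simpa using this
  -- the limit
  have hlim : ∀ (t : ℝ) (k : K3), ∃ z : C3, 0 ≤ t →
      Tendsto (fun n => a n t k) UU (𝓝 z) := by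
    intro t k
    by_cases ht : 0 ≤ t
    · have h1 : ∀ᶠ n in (UU : Filter ℕ), a n t k ∈ Metric.closedBall (0 : C3) (Real.sqrt E) := by
        filter_upwards [ev_ge t] with n hn
        rw [mem_closedBall_zero_iff]
        exact hbd n t ⟨ht, hn⟩ k
      obtain ⟨z, _, hz⟩ := (isCompact_closedBall (0 : C3) (Real.sqrt E)).ultrafilter_le_nhds
        (UU.map fun n => a n t k) (by
          rw [le_principal_iff]
          exact h1)
      exact ⟨z, fun _ => hz⟩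
    · exact ⟨0, fun h => absurd h ht⟩
  choose L hL using hlim
  have hL0 : L 0 = c := by
    funext k
    refine tendsto_nhds_unique (hL 0 k le_rfl) ?_
    refine tendsto_const_nhds.congr' ?_
    filter_upwards [ev_mem k] with n hn
    rw [ha0 n k hn]
  have hherm : ∀ t, 0 ≤ t → Herm (L t) := by
    intro t ht k i
    have e1 : Tendsto (fun n => a n t (-k) i) UU (𝓝 (L t (-k) i)) :=
      ((continuous_apply i).tendsto _).comp (hL t (-k) ht)
    have e2 : Tendsto (fun n => conj (a n t k i)) UU (𝓝 (conj (L t k i))) :=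
      (Complex.continuous_conj.tendsto _).comp (((continuous_apply i).tendsto _).comp (hL t k ht))
    refine tendsto_nhds_unique e1 (e2.congr fun n => ?_)
    exact ((haG n).herm t k i).symm
  have hdv : ∀ t, 0 ≤ t → Dv (L t) := by
    intro t ht k
    have e1 : Tendsto (fun n => kd k (a n t k)) UU (𝓝 (kd k (L t k))) :=
      ((kd_continuous k).tendsto _).comp (hL t k ht)
    refine tendsto_nhds_unique e1 ?_
    simp only [(haG _).div t k]
    exact tendsto_const_nhds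
  have hnsqc : Continuous nsq := nsq_continuous
  refine ⟨L, hL0, ⟨fun t ht => hherm t (hJ0 t ht), fun t ht => hdv t (hJ0 t ht), ?_, ?_⟩, ?_, ?_,
    ?_⟩
  · -- rapid decay
    intro s hs t ht m
    obtain ⟨C, hC⟩ := hUB s hs t ht m
    refine ⟨C, fun τ hτ k => ?_⟩
    have h0 : 0 ≤ τ := (hJ0 s hs).trans hτ.1
    have h1 : jb k ^ m * ‖L τ k‖ ≤ C := by
      refine le_of_tendsto ((hL τ k h0).norm.const_mul _) ?_
      filter_upwards [ev_ge t] with n hn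
      exact hC n hn (a n) (haG n) (ha0 n) τ hτ k
    refine le_trans ?_ h1
    exact mul_le_mul_of_nonneg_right (pow_le_pow_left₀ (len_nonneg k) (len_le_jb k) m)
      (norm_nonneg _)
  · -- the equation
    intro t ht k
    obtain ⟨t₀, ht₀, t₁, ht₁, htt, hnb⟩ := hJ t ht
    refine limM_eq hη hμ haG (fun t k h => hL t k h) (hJ0 t₀ ht₀) htt hnb (fun m => ?_) k
    obtain ⟨C, hC⟩ := hUB t₀ ht₀ t₁ ht₁ m
    exact ⟨C, fun n hn τ hτ k => hC n hn (a n) (haG n) (ha0 n) τ hτ k⟩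
  · -- the energy
    intro t ht F
    have h1 : Tendsto (fun n => ∑ k ∈ F, nsq (a n t k)) UU (𝓝 (∑ k ∈ F, nsq (L t k))) :=
      tendsto_finsetSum _ fun k _ => (hnsqc.tendsto _).comp (hL t k ht)
    refine le_of_tendsto h1 ?_
    filter_upwards [ev_ge t] with n hn
    exact hen n t ⟨ht, hn⟩ F
  · -- continuity at zero
    intro k
    refine ⟨μ k * Real.sqrt E + 12 * len k * E, fun t ht => ?_⟩
    have h1 : Tendsto (fun n => a n t k - a n 0 k) UU (𝓝 (L t k - c k)) := by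
      rw [← hL0]
      exact (hL t k ht).sub (hL 0 k le_rfl)
    refine le_of_tendsto h1.norm ?_
    filter_upwards [ev_ge t, ev_mem k] with n hn hk
    exact galM_zero hη.bdd hμ (haG n) (hen' n) hk ht hn
  · -- the gradient
    intro G hG t ht F
    have h1 : Tendsto (fun n => ∑ k ∈ F, jb k * ‖a n t k‖) UU (𝓝 (∑ k ∈ F, jb k * ‖L t k‖)) :=
      tendsto_finsetSum _ fun k _ => (hL t k ht).norm.const_mul _
    refine le_of_tendsto h1 ?_
    filter_upwards [ev_ge t] with n hn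
    refine le_trans ?_ (hG n (a n) (haG n) (ha0 n) t ⟨ht, hn⟩)
    calc ∑ k ∈ F, jb k * ‖a n t k‖ = ∑ k ∈ F ∩ Bn n, jb k * ‖a n t k‖ := by
          symm
          refine Finset.sum_subset Finset.inter_subset_left fun k hk hk2 => ?_
          rw [(haG n).supp t k fun h => hk2 (Finset.mem_inter.2 ⟨hk, h⟩), norm_zero, mul_zero]
      _ ≤ _ := Finset.sum_le_sum_of_subset_of_nonneg Finset.inter_subset_right
          fun k _ _ => mul_nonneg (jb_pos k).le (norm_nonneg _)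

end Pool.Agent.Run7.h507.SP
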