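import Pool.Agent.Run7.h507.SP.Crit2

/-!
The flux of energy through a scale, in terms of the energy above one quarter of the scale, and the
recursion for the scales `4 ^ j`.
-/

set_option autoImplicit false

open MeasureTheory Set Filter Topology
open scoped ContDiff ComplexConjugate NNReal

namespace Pool.Agent.Run7.h507.SP

open RT

/-- The flux of energy through the scale `M`. -/
theorem flux2 {η : K3 → K3 → ℝ} (hη : IsWeight η) {B : Finset K3} (hB : ∀ k ∈ B, -k ∈ B) {M : ℝ}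
    (hM : 0 < M) {b : Cf} (hs : ∀ k ∉ B, b k = 0) (hh : Herm b) (hd : Dv b) :
    |∑ k ∈ B, gH M k * ip (nl η b b k) (b k)|
      ≤ 27 / 2 * (M * ∑ k ∈ B, (1 - gH M k) * ‖b k‖) * ∑ k ∈ B, gH (M / 2) k * nsq (b k) := by
  have h2 := sum_ip_nl η hs hs hB hd hh (gH M) (gH_neg M)
  rw [h2, abs_neg]
  refine (Complex.abs_re_le_norm _).trans ?_
  rw [norm_mul, Complex.norm_I, one_mul, sum_th hη hd B (gH M)]
  set u : K3 → ℝ := fun k => M * ((1 - gH M k) * ‖b k‖) with hu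
  set h : K3 → ℝ := fun k => gH (M / 2) k * ‖b k‖ with hh'
  have hu0 : ∀ k, 0 ≤ u k := fun k => mul_nonneg hM.le
    (mul_nonneg (by have := gH_le M k; linarith) (norm_nonneg _))
  have hh0 : ∀ k, 0 ≤ h k := fun k => mul_nonneg (gH_nonneg _ _) (norm_nonneg _)
  -- one ordering
  have one : ∀ p q r : K3, len q ≤ len p + len r → M ≤ len q → len r < M →
      len r * (‖b p‖ * (‖b q‖ * ‖b r‖)) ≤ u r * (h p * h q) + u p * (h q * h r) := by
    intro p q r hq h1 h3
    have n1 := norm_nonneg (b p)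
    have n2 := norm_nonneg (b q)
    have n3 := norm_nonneg (b r)
    have eq : h q = ‖b q‖ := by simp only [hh']; rw [gH_of (by linarith), one_mul]
    have er : u r = M * ‖b r‖ := by simp only [hu]; rw [gH_of_lt h3, sub_zero, one_mul]
    have e0 : len r * (‖b p‖ * (‖b q‖ * ‖b r‖)) ≤ M * (‖b p‖ * (‖b q‖ * ‖b r‖)) :=
      mul_le_mul_of_nonneg_right h3.le (by positivity)
    rcases le_or_gt (M / 2) (len p) with h4 | h4
    · have ep : h p = ‖b p‖ := by simp only [hh']; rw [gH_of h4, one_mul]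
      have e1 : 0 ≤ u p * (h q * h r) := mul_nonneg (hu0 _) (mul_nonneg (hh0 _) (hh0 _))
      rw [er, eq, ep]
      rw [eq] at e1
      nlinarith
    · have ep : u p = M * ‖b p‖ := by
        simp only [hu]; rw [gH_of_lt (by linarith), sub_zero, one_mul]
      have er' : h r = ‖b r‖ := by simp only [hh']; rw [gH_of (by linarith), one_mul]
      have e1 : 0 ≤ u r * (h p * h q) := mul_nonneg (hu0 _) (mul_nonneg (hh0 _) (hh0 _))
      rw [ep, eq, er']
      rw [eq] at e1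
      nlinarith
  have h1 : ∀ x ∈ Tr B, ‖(((gH M (-(x.1 + x.2)) - gH M x.2) / 2 : ℝ) : ℂ) * th η b b b x‖
      ≤ 9 / 2 * (u x.1 * (h x.2 * h (-(x.1 + x.2))) + u x.2 * (h x.1 * h (-(x.1 + x.2)))
        + u (-(x.1 + x.2)) * (h x.1 * h x.2)) := by
    intro x _
    rw [norm_mul, Complex.norm_real, Real.norm_eq_abs, abs_div, abs_two]
    have e1 := norm_th_le' hη.bdd hd x
    set p := x.1 with hp
    set q := x.2 with hq
    set r := -(p + q) with hr
    have n1 := norm_nonneg (b p)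
    have n2 := norm_nonneg (b q)
    have n3 := norm_nonneg (b r)
    have l1 := len_nonneg q
    have l2 := len_nonneg r
    have hrpq : len r ≤ len p + len q := by rw [hr, len_neg]; exact len_add_le p q
    have hqpr : len q ≤ len p + len r := by
      have := len_add_le (-p) (p + q)
      rw [neg_add_cancel_left, len_neg] at this
      rw [hr, len_neg (p + q)]
      exact this
    have m0 : 0 ≤ min (len q) (len r) := le_min l1 l2
    have key : |gH M r - gH M q| * (min (len q) (len r) * (‖b p‖ * (‖b q‖ * ‖b r‖)))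
        ≤ u p * (h q * h r) + u q * (h p * h r) + u r * (h p * h q) := by
      have p1 : 0 ≤ u p * (h q * h r) := mul_nonneg (hu0 _) (mul_nonneg (hh0 _) (hh0 _))
      have p2 : 0 ≤ u q * (h p * h r) := mul_nonneg (hu0 _) (mul_nonneg (hh0 _) (hh0 _))
      have p3 : 0 ≤ u r * (h p * h q) := mul_nonneg (hu0 _) (mul_nonneg (hh0 _) (hh0 _))
      rcases le_or_gt M (len q) with a1 | a1 <;> rcases le_or_gt M (len r) with a2 | a2
      · rw [gH_of a1, gH_of a2, sub_self, abs_zero, zero_mul]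
        positivity
      · have e2 := one p q r hqpr a1 a2
        rw [gH_of a1, gH_of_lt a2, min_eq_right (by linarith)]
        norm_num
        linarith
      · have e2 := one p r q hrpq a2 a1
        rw [gH_of_lt a1, gH_of a2, min_eq_left (by linarith)]
        norm_num
        rw [mul_comm ‖b r‖ ‖b q‖, mul_comm (h r) (h q)] at e2
        linarith
      · rw [gH_of_lt a1, gH_of_lt a2, sub_self, abs_zero, zero_mul]
        positivity
    calc |gH M r - gH M q| / 2 * ‖th η b b b x‖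
        ≤ |gH M r - gH M q| / 2 * (9 * (min (len q) (len r) * (‖b p‖ * (‖b q‖ * ‖b r‖)))) :=
          mul_le_mul_of_nonneg_left e1 (by positivity)
      _ = 9 / 2 * (|gH M r - gH M q| * (min (len q) (len r) * (‖b p‖ * (‖b q‖ * ‖b r‖)))) := by
          ring
      _ ≤ _ := mul_le_mul_of_nonneg_left key (by norm_num)
  refine (norm_sum_le _ _).trans ((Finset.sum_le_sum h1).trans ?_)
  rw [← Finset.mul_sum, Finset.sum_add_distrib, Finset.sum_add_distrib]
  have t1 := tri_one B hu0 (h := h)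
  have t2 := tri_two B hu0 (h := h)
  have t3 := tri_three B hu0 (h := h)
  have t4 : ∑ k ∈ B, h k ^ 2 ≤ ∑ k ∈ B, gH (M / 2) k * nsq (b k) := by
    refine Finset.sum_le_sum fun k _ => ?_
    simp only [hh']
    rw [mul_pow, gH_sq]
    exact mul_le_mul_of_nonneg_left (norm_sq_le_nsq _) (gH_nonneg _ _)
  have t5 : ∑ k ∈ B, u k = M * ∑ k ∈ B, (1 - gH M k) * ‖b k‖ := by rw [Finset.mul_sum]
  have t6 : (∑ k ∈ B, u k) * ∑ k ∈ B, h k ^ 2
      ≤ (∑ k ∈ B, u k) * ∑ k ∈ B, gH (M / 2) k * nsq (b k) :=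
    mul_le_mul_of_nonneg_left t4 (Finset.sum_nonneg fun k _ => hu0 k)
  rw [← t5]
  calc _ ≤ 9 / 2 * (3 * ((∑ k ∈ B, u k) * ∑ k ∈ B, gH (M / 2) k * nsq (b k))) :=
        mul_le_mul_of_nonneg_left (by linarith) (by norm_num)
    _ = _ := by ring

theorem sqrt_four_pow (i : ℕ) : Real.sqrt ((4 : ℝ) ^ i) = 2 ^ i := by
  have : (4 : ℝ) ^ i = (2 ^ i) ^ 2 := by rw [← pow_mul, mul_comm, pow_mul]; norm_num
  rw [this, Real.sqrt_sq (by positivity)]

/-- The sum of the modes in a set of frequencies below `4 ^ i`. -/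
theorem shell_sum (i : ℕ) (B : Finset K3) (hB : ∀ k ∈ B, len k < 4 ^ i) (b : Cf) {z : ℝ}
    (hz : 0 ≤ z) (h : ∑ k ∈ B, nsq (b k) ≤ z ^ 2) : ∑ k ∈ B, ‖b k‖ ≤ K1 * 8 ^ i * z := by
  have hN : 0 < 4 ^ i := by positivity
  have hN0 : (0 : ℝ) < ((4 ^ i : ℕ) : ℝ) := by exact_mod_cast hN
  have e0 : ((4 ^ i : ℕ) : ℝ) = 4 ^ i := by push_cast; rfl
  have h2 := sum_le_sqrt hN B b
  rw [sqrt_cube] at h2
  have e1 : ∀ k ∈ B, vN ((4 ^ i : ℕ) : ℝ) k = 1 := fun k hk =>
    vN_of_le hN0 (by rw [e0]; exact (hB k hk).le)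
  have h3 : ∑ k ∈ B, vN ((4 ^ i : ℕ) : ℝ) k * ‖b k‖ = ∑ k ∈ B, ‖b k‖ :=
    Finset.sum_congr rfl fun k hk => by rw [e1 k hk, one_mul]
  have h4 : ∑ k ∈ B, vN ((4 ^ i : ℕ) : ℝ) k ^ 8 * ‖b k‖ ^ 2 ≤ z ^ 2 := by
    refine le_trans (Finset.sum_le_sum fun k hk => ?_) h
    rw [e1 k hk, one_pow, one_mul]
    exact norm_sq_le_nsq _
  rw [h3, e0, sqrt_four_pow] at h2
  have h5 : Real.sqrt (∑ k ∈ B, vN ((4 ^ i : ℕ) : ℝ) k ^ 8 * ‖b k‖ ^ 2) ≤ z := by
    rw [← Real.sqrt_sq hz]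
    exact Real.sqrt_le_sqrt h4
  have hK := K1_nonneg
  have e2 : (8 : ℝ) ^ i = 4 ^ i * 2 ^ i := by rw [← mul_pow]; norm_num
  rw [e2]
  rw [e0] at h5
  exact h2.trans (mul_le_mul_of_nonneg_left h5 (by positivity))

/-- The sum of the modes below `4 ^ j`. -/
theorem low_sum2 (B : Finset K3) (b : Cf) {z : ℕ → ℝ} (hz : ∀ j, 0 ≤ z j)
    (hz2 : ∀ j, z j ≤ 2 * z (j + 1)) (h0 : ∑ k ∈ B, nsq (b k) ≤ z 0 ^ 2)
    (h : ∀ j, ∑ k ∈ B, gH (4 ^ j) k * nsq (b k) ≤ z j ^ 2) (j : ℕ) :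
    ∑ k ∈ B, (1 - gH (4 ^ j) k) * ‖b k‖ ≤ 3 * K1 * 8 ^ j * z j := by
  classical
  have hK := K1_nonneg
  induction j with
  | zero =>
    have h1 : ∑ k ∈ B, (1 - gH (4 ^ 0) k) * ‖b k‖
        = ∑ k ∈ B.filter (fun k => len k < 4 ^ 0), ‖b k‖ := by
      rw [Finset.sum_filter]
      refine Finset.sum_congr rfl fun k _ => ?_
      rcases le_or_gt ((4 : ℝ) ^ 0) (len k) with h | h
      · rw [gH_of h, if_neg (not_lt.2 h)]; ring
      · rw [gH_of_lt h, if_pos h]; ring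
    have h2 := shell_sum 0 (B.filter (fun k => len k < 4 ^ 0))
      (fun k hk => (Finset.mem_filter.1 hk).2) b (hz 0)
      ((Finset.sum_le_sum_of_subset_of_nonneg (Finset.filter_subset _ _)
        fun k _ _ => nsq_nonneg _).trans h0)
    rw [h1]
    refine h2.trans ?_
    have : 0 ≤ K1 * 8 ^ 0 * z 0 := mul_nonneg (by positivity) (hz 0)
    nlinarith
  | succ j ih =>
    have e1 : ∑ k ∈ B, (1 - gH (4 ^ (j + 1)) k) * ‖b k‖
        = ∑ k ∈ B, (1 - gH (4 ^ j) k) * ‖b k‖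
          + ∑ k ∈ B.filter (fun k : K3 => (4 : ℝ) ^ j ≤ len k ∧ len k < 4 ^ (j + 1)), ‖b k‖ := by
      rw [Finset.sum_filter, ← Finset.sum_add_distrib]
      refine Finset.sum_congr rfl fun k _ => ?_
      have e : (4 : ℝ) ^ j ≤ 4 ^ (j + 1) := pow_le_pow_right₀ (by norm_num) (by omega)
      rcases le_or_gt ((4 : ℝ) ^ j) (len k) with h | h
      · rcases le_or_gt ((4 : ℝ) ^ (j + 1)) (len k) with h' | h'
        · rw [gH_of h, gH_of h', if_neg (fun hc => not_lt.2 h' hc.2)]; ring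
        · rw [gH_of h, gH_of_lt h', if_pos ⟨h, h'⟩]; ring
      · rw [gH_of_lt h, gH_of_lt (h.trans_le e), if_neg (fun hc => not_le.2 h hc.1)]; ring
    have h2 := shell_sum (j + 1) (B.filter (fun k : K3 => (4 : ℝ) ^ j ≤ len k ∧ len k < 4 ^ (j + 1)))
      (fun k hk => (Finset.mem_filter.1 hk).2.2) b (hz j) (by
        refine le_trans (le_of_eq ?_) ((Finset.sum_le_sum_of_subset_of_nonneg
          (Finset.filter_subset (fun k : K3 => (4 : ℝ) ^ j ≤ len k ∧ len k < 4 ^ (j + 1)) B)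
          fun k _ _ => mul_nonneg (gH_nonneg _ _) (nsq_nonneg _)).trans (h j))
        refine Finset.sum_congr rfl fun k hk => ?_
        rw [gH_of (Finset.mem_filter.1 hk).2.1, one_mul])
    rw [e1]
    have h3 := hz2 j
    have h4 := hz (j + 1)
    have e3 : (8 : ℝ) ^ (j + 1) = 8 * 8 ^ j := pow_succ' _ _
    have e4 : 0 ≤ K1 * 8 ^ j := by positivity
    calc _ ≤ 3 * K1 * 8 ^ j * z j + K1 * 8 ^ (j + 1) * z j := add_le_add ih h2
      _ = 11 * (K1 * 8 ^ j) * z j := by rw [e3]; ring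
      _ ≤ 11 * (K1 * 8 ^ j) * (2 * z (j + 1)) := mul_le_mul_of_nonneg_left h3 (by positivity)
      _ = 22 * (K1 * 8 ^ j * z (j + 1)) := by ring
      _ ≤ 24 * (K1 * 8 ^ j * z (j + 1)) := by
          have := mul_nonneg e4 h4
          linarith
      _ = _ := by rw [e3]; ring

end Pool.Agent.Run7.h507.SP
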