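import Mathlib

/-!
The recursion: a discrete inequality.
-/

set_option autoImplicit false

open Finset

namespace Pool.Agent.Run7.h507.SP

/-- The regularised sequence. -/
noncomputable def zz (R : ℝ) (V : ℕ → ℝ) : ℕ → ℝ
  | 0 => Real.sqrt (2 * R)
  | j + 1 => max (Real.sqrt (V (j + 1))) (zz R V j / 2)

section

variable {R : ℝ} {V : ℕ → ℝ}

theorem zz_succ (j : ℕ) : zz R V (j + 1) = max (Real.sqrt (V (j + 1))) (zz R V j / 2) := rfl

theorem zz_pos (hR : 0 < R) (j : ℕ) : 0 < zz R V j := by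
  induction j with
  | zero => exact Real.sqrt_pos.2 (by linarith)
  | succ j ih => exact lt_max_of_lt_right (by linarith)

theorem zz_half (j : ℕ) : zz R V j ≤ 2 * zz R V (j + 1) := by
  have := le_max_right (Real.sqrt (V (j + 1))) (zz R V j / 2)
  rw [← zz_succ] at this
  linarith

theorem sqrt_le_zz (h0 : V 0 ≤ 2 * R) (j : ℕ) : Real.sqrt (V j) ≤ zz R V j := by
  cases j with
  | zero => exact Real.sqrt_le_sqrt h0
  | succ j => exact le_max_left _ _

theorem zz_anti (hR : 0 < R) (h0 : V 0 ≤ 2 * R) (hV : ∀ j, V (j + 1) ≤ V j) (j : ℕ) :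
    zz R V (j + 1) ≤ zz R V j := by
  refine max_le ((Real.sqrt_le_sqrt (hV j)).trans (sqrt_le_zz h0 j)) ?_
  have := zz_pos (V := V) hR j
  linarith

theorem zz_antitone (hR : 0 < R) (h0 : V 0 ≤ 2 * R) (hV : ∀ j, V (j + 1) ≤ V j) :
    Antitone (zz R V) := antitone_nat_of_succ_le (zz_anti hR h0 hV)

theorem le_zz_sq (h0 : V 0 ≤ 2 * R) (hV0 : ∀ j, 0 ≤ V j) (j : ℕ) :
    V j ≤ zz R V j ^ 2 := by
  have h1 := sqrt_le_zz h0 j
  rw [← Real.sq_sqrt (hV0 j)]
  exact pow_le_pow_left₀ (Real.sqrt_nonneg _) h1 2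

theorem zz_pow (i l : ℕ) : zz R V i ≤ 2 ^ l * zz R V (i + l) := by
  induction l with
  | zero => simp
  | succ l ih =>
    have h := zz_half (R := R) (V := V) (i + l)
    have h2 : (0 : ℝ) < 2 ^ l := by positivity
    calc zz R V i ≤ 2 ^ l * zz R V (i + l) := ih
      _ ≤ 2 ^ l * (2 * zz R V (i + l + 1)) := mul_le_mul_of_nonneg_left h h2.le
      _ = 2 ^ (l + 1) * zz R V (i + (l + 1)) := by rw [pow_succ, ← add_assoc]; ring

theorem zz_sq_ge (hR : 0 < R) (j : ℕ) : 2 * R / 4 ^ j ≤ zz R V j ^ 2 := by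
  have h := zz_pow (R := R) (V := V) 0 j
  rw [zero_add] at h
  have h1 : zz R V 0 ^ 2 = 2 * R := Real.sq_sqrt (by linarith)
  have h2 := pow_le_pow_left₀ (zz_pos (V := V) hR 0).le h 2
  rw [h1, mul_pow, ← pow_mul, mul_comm j 2, pow_mul] at h2
  rw [div_le_iff₀ (by positivity)]
  norm_num at h2
  linarith

end

/-- The first part: the scales at which the recursion is effective. -/
theorem disc_one {z Y δ : ℕ → ℝ} {C : ℝ} {J : ℕ} (hC : 0 ≤ C) (hz : ∀ j, 0 < z j)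
    (hanti : ∀ j, z (j + 1) ≤ z j) (hhalf : ∀ j, z j ≤ 2 * z (j + 1)) (hδ : ∀ j, 0 ≤ δ j)
    (hY : ∀ j, 0 ≤ Y j) (hI : ∀ n, ∑ j ∈ Ico n J, δ j * Y j ≤ z n ^ 2)
    (p : ℕ → Prop) [DecidablePred p] (hp : ∀ j, p j → z (j + 1) ≤ C * Y j) (n : ℕ) (hn : n ≤ J) :
    ∑ j ∈ Ico n J, (if p j then δ j else 0)
      ≤ (∑ j ∈ Ico n J, (if p j then δ j * z (j + 1) else 0)) / z (n + 1) + 2 * C * z (n + 1) := by
  have hs : ∀ n, ∑ j ∈ Ico n J, (if p j then δ j * z (j + 1) else 0) ≤ C * z n ^ 2 := by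
    intro n
    refine le_trans ?_ (mul_le_mul_of_nonneg_left (hI n) hC)
    rw [mul_sum]
    refine sum_le_sum fun j _ => ?_
    split_ifs with h
    · have := mul_le_mul_of_nonneg_left (hp j h) (hδ j)
      linarith
    · exact mul_nonneg hC (mul_nonneg (hδ j) (hY j))
  induction hn using Nat.decreasingInduction with
  | self =>
    have := hz (J + 1)
    simp only [Ico_self, sum_empty, zero_div, zero_add]
    positivity
  | of_succ n hn ih =>
    rw [sum_eq_sum_Ico_succ_bot hn, sum_eq_sum_Ico_succ_bot hn]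
    set s : ℝ := ∑ j ∈ Ico (n + 1) J, (if p j then δ j * z (j + 1) else 0) with hs'
    have h1 := hs (n + 1)
    rw [← hs'] at h1
    have z1 := hz (n + 1)
    have z2 := hz (n + 1 + 1)
    have a1 := hanti (n + 1)
    have a2 := hhalf (n + 1)
    have e1 : (if p n then δ n * z (n + 1) else 0) = (if p n then δ n else 0) * z (n + 1) := by
      split_ifs
      · rfl
      · rw [zero_mul]
    rw [e1, add_div, mul_div_assoc, div_self z1.ne', mul_one]
    have h2 : s / z (n + 1 + 1) + 2 * C * z (n + 1 + 1) ≤ s / z (n + 1) + 2 * C * z (n + 1) := by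
      have h3 : s / z (n + 1 + 1) - s / z (n + 1) ≤ 2 * C * (z (n + 1) - z (n + 1 + 1)) := by
        rw [div_sub_div _ _ z2.ne' z1.ne', div_le_iff₀ (by positivity)]
        have h4 : s * (z (n + 1) - z (n + 1 + 1)) ≤ C * z (n + 1) ^ 2 * (z (n + 1) - z (n + 1 + 1)) :=
          mul_le_mul_of_nonneg_right h1 (by linarith)
        have h5 : C * z (n + 1) ^ 2 * (z (n + 1) - z (n + 1 + 1))
            ≤ 2 * C * (z (n + 1) - z (n + 1 + 1)) * (z (n + 1 + 1) * z (n + 1)) := by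
          have h6 : 0 ≤ C * z (n + 1) * (z (n + 1) - z (n + 1 + 1)) :=
            mul_nonneg (by positivity) (by linarith)
          nlinarith [mul_le_mul_of_nonneg_left a2 h6]
        linarith
      linarith
    linarith

/-- The second part: the other scales. -/
theorem disc_two {z δ : ℕ → ℝ} {C₁ C₂ : ℝ} {J : ℕ} (h1 : 0 ≤ C₁) (h2 : 0 ≤ C₂) (hz : ∀ j, 0 < z j)
    (hanti : ∀ j, z (j + 1) ≤ z j) (p : ℕ → Prop) [DecidablePred p]
    (hp : ∀ j, ¬ p j → z (j + 1) ≤ z j / 2)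
    (hbad : ∀ j < J, δ j ≤ C₁ * Real.sqrt (z j) + C₂ * (1 / 2) ^ j) (n : ℕ) (hn : n ≤ J) :
    ∑ j ∈ Ico n J, (if p j then 0 else δ j)
      ≤ 4 * C₁ * Real.sqrt (z n) + 2 * C₂ * (1 / 2) ^ n := by
  induction hn using Nat.decreasingInduction with
  | self =>
    simp only [Ico_self, sum_empty]
    positivity
  | of_succ n hn ih =>
    rw [sum_eq_sum_Ico_succ_bot hn]
    have e : (1 / 2 : ℝ) ^ (n + 1) = 1 / 2 * (1 / 2) ^ n := pow_succ' _ _
    have h3 : (0 : ℝ) < (1 / 2) ^ n := by positivity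
    split_ifs with h
    · have h4 := Real.sqrt_le_sqrt (hanti n)
      have h5 := mul_le_mul_of_nonneg_left h4 (by positivity : 0 ≤ 4 * C₁)
      rw [e] at ih
      nlinarith
    · have h4 : Real.sqrt (z (n + 1)) ≤ 3 / 4 * Real.sqrt (z n) := by
        refine (Real.sqrt_le_sqrt (hp n h)).trans ?_
        refine Real.sqrt_le_iff.2 ⟨by positivity, ?_⟩
        rw [mul_pow, Real.sq_sqrt (hz n).le]
        have := hz n
        linarith
      have h5 := mul_le_mul_of_nonneg_left h4 (by positivity : 0 ≤ 4 * C₁)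
      have h6 := hbad n hn
      rw [e] at ih
      linarith

/-- The discrete inequality. -/
theorem disc {z Y δ : ℕ → ℝ} {C C₁ C₂ : ℝ} {J : ℕ} (hC : 0 ≤ C) (h1 : 0 ≤ C₁) (h2 : 0 ≤ C₂)
    (hz : ∀ j, 0 < z j) (hanti : ∀ j, z (j + 1) ≤ z j) (hhalf : ∀ j, z j ≤ 2 * z (j + 1))
    (hδ : ∀ j, 0 ≤ δ j) (hY : ∀ j, 0 ≤ Y j) (hI : ∀ n, ∑ j ∈ Ico n J, δ j * Y j ≤ z n ^ 2)
    (hstep : ∀ j, z (j + 1) ≤ C * Y j ∨ z (j + 1) ≤ z j / 2)
    (hbad : ∀ j < J, δ j ≤ C₁ * Real.sqrt (z j) + C₂ * (1 / 2) ^ j) :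
    ∑ j ∈ range J, δ j ≤ 4 * C * z 0 + 4 * C₁ * Real.sqrt (z 0) + 2 * C₂ := by
  classical
  have a1 := disc_one (J := J) hC hz hanti hhalf hδ hY hI (fun j => z (j + 1) ≤ C * Y j)
    (fun j h => h) 0 (Nat.zero_le _)
  have a2 := disc_two (J := J) h1 h2 hz hanti (fun j => z (j + 1) ≤ C * Y j)
    (fun j h => (hstep j).resolve_left h) hbad 0 (Nat.zero_le _)
  have e : ∑ j ∈ range J, δ j = ∑ j ∈ Ico 0 J, (if z (j + 1) ≤ C * Y j then δ j else 0)
      + ∑ j ∈ Ico 0 J, (if z (j + 1) ≤ C * Y j then 0 else δ j) := by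
    rw [range_eq_Ico, ← sum_add_distrib]
    refine sum_congr rfl fun j _ => ?_
    split_ifs <;> ring
  have a3 : ∑ j ∈ Ico 0 J, (if z (j + 1) ≤ C * Y j then δ j * z (j + 1) else 0) ≤ C * z 0 ^ 2 := by
    refine le_trans ?_ (mul_le_mul_of_nonneg_left (hI 0) hC)
    rw [mul_sum]
    refine sum_le_sum fun j _ => ?_
    split_ifs with h
    · have := mul_le_mul_of_nonneg_left h (hδ j)
      linarith
    · exact mul_nonneg hC (mul_nonneg (hδ j) (hY j))
  have z0 := hz 0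
  have z1 := hz (0 + 1)
  have b1 := hhalf 0
  have b2 := hanti 0
  have a4 : (∑ j ∈ Ico 0 J, (if z (j + 1) ≤ C * Y j then δ j * z (j + 1) else 0)) / z (0 + 1)
      ≤ 2 * C * z 0 := by
    rw [div_le_iff₀ z1]
    refine a3.trans ?_
    have : 0 ≤ C * z 0 := by positivity
    nlinarith
  have a5 := mul_le_mul_of_nonneg_left b2 (by positivity : 0 ≤ 2 * C)
  rw [pow_zero, mul_one] at a2
  rw [e]
  linarith

/-- The choice of the ratio. -/
theorem choose_l {d z z0 C₀ r : ℝ} {j : ℕ} (hj : 0 < j) (hz : 0 < z) (hz0 : z ≤ z0) (hC : 0 ≤ C₀)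
    (hr : 0 ≤ r) (h : ∀ l, 1 ≤ l → l ≤ j → d ≤ C₀ * (r / 32 ^ l + 2 * (2 ^ l * z))) :
    d ≤ C₀ * (r + 4 + 4 * Real.sqrt z0) * Real.sqrt z + C₀ * r * (1 / 2) ^ j := by
  set s : ℝ := Real.sqrt z with hs
  have hs0 : 0 < s := Real.sqrt_pos.2 hz
  have hss : s * s = z := Real.mul_self_sqrt hz.le
  have hs0' : s ≤ Real.sqrt z0 := Real.sqrt_le_sqrt hz0
  have hp : ∀ l : ℕ, r / 32 ^ l ≤ r * (1 / 2) ^ l := by
    intro l
    rw [div_eq_mul_inv]
    refine mul_le_mul_of_nonneg_left ?_ hr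
    rw [one_div, inv_pow]
    exact inv_anti₀ (by positivity) (pow_le_pow_left₀ (by norm_num) (by norm_num) l)
  have hrj : 0 ≤ C₀ * r * (1 / 2) ^ j := by positivity
  rcases le_or_gt s 1 with h1 | h1
  · obtain ⟨n, hn1, hn2⟩ := exists_nat_pow_near (x := 1 / s) (y := (2 : ℝ))
      ((one_le_div hs0).2 h1) (by norm_num)
    rw [le_div_iff₀ hs0] at hn1
    rw [div_lt_iff₀ hs0] at hn2
    rcases le_or_gt (n + 1) j with h2 | h2
    · have h3 := h (n + 1) (by omega) h2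
      have h4 := hp (n + 1)
      have h5 : (1 / 2 : ℝ) ^ (n + 1) ≤ s := by
        rw [one_div, inv_pow, inv_le_iff_one_le_mul₀ (by positivity)]
        linarith
      have h6 : (2 : ℝ) ^ (n + 1) * z ≤ 2 * s := by
        rw [← hss, pow_succ]
        nlinarith
      have h7 : r / 32 ^ (n + 1) ≤ r * s := h4.trans (mul_le_mul_of_nonneg_left h5 hr)
      have h8 : r / 32 ^ (n + 1) + 2 * (2 ^ (n + 1) * z) ≤ (r + 4 + 4 * Real.sqrt z0) * s := by
        have : 0 ≤ 4 * Real.sqrt z0 * s := by positivity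
        nlinarith
      have h9 := mul_le_mul_of_nonneg_left h8 hC
      linarith
    · have h3 := h j (by omega) le_rfl
      have h4 := hp j
      have h5 : (2 : ℝ) ^ j * z ≤ s := by
        have h6 : (2 : ℝ) ^ j ≤ 2 ^ n := pow_le_pow_right₀ (by norm_num) (by omega)
        have h7 : (2 : ℝ) ^ j * s ≤ 1 := (mul_le_mul_of_nonneg_right h6 hs0.le).trans hn1
        rw [← hss]
        nlinarith
      have h8 : r / 32 ^ j + 2 * (2 ^ j * z) ≤ (r + 4 + 4 * Real.sqrt z0) * s + r * (1 / 2) ^ j := by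
        have : 0 ≤ 4 * Real.sqrt z0 * s := by positivity
        have : 0 ≤ r * s := by positivity
        nlinarith
      have h9 := mul_le_mul_of_nonneg_left h8 hC
      linarith
  · have h3 := h 1 le_rfl hj
    have h8 : r / 32 ^ 1 + 2 * (2 ^ 1 * z) ≤ (r + 4 + 4 * Real.sqrt z0) * s := by
      have e1 : r / 32 ^ 1 ≤ r * s := by
        rw [pow_one, div_le_iff₀ (by norm_num)]
        nlinarith
      have e2 : z ≤ Real.sqrt z0 * s := by
        rw [← hss]
        exact mul_le_mul_of_nonneg_right hs0' hs0.le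
      nlinarith
    have h9 := mul_le_mul_of_nonneg_left h8 hC
    linarith

end Pool.Agent.Run7.h507.SP
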