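import Pool.Agent.Run7.h507.SP.Rec1
import Pool.Agent.Run7.h507.SP.Rec2
import Pool.Agent.Run7.h507.SP.Crit2

/-!
The recursion for the energy above the scales `4 ^ j`.
-/

set_option autoImplicit false

open MeasureTheory Set Filter Topology
open scoped ContDiff ComplexConjugate NNReal

namespace Pool.Agent.Run7.h507.SP

open RT

theorem Phi_eq (N : ℝ) (B : Finset K3) (b : Cf) : Phi N 8 B b = eW (gP N) B b + eE B b := by
  rw [eE_eq]
  unfold Phi eW gP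
  rw [← Finset.sum_add_distrib]
  exact Finset.sum_congr rfl fun k _ => by ring

theorem gP_le_jb {P : ℕ} (hP : 0 < P) (k : K3) : gP P k ≤ 1 / P * jb k ^ 8 := by
  have hP0 : (0 : ℝ) < P := by exact_mod_cast hP
  have hP1 : (1 : ℝ) ≤ P := by exact_mod_cast hP
  have hj := jb_pos k
  rcases le_total (len k) P with h | h
  · have : gP (P : ℝ) k = 0 := by unfold gP; rw [vN_of_le hP0 h]; norm_num
    rw [this]
    positivity
  · have h1 : vN P k ^ 8 ≤ 1 / P * jb k ^ 8 := by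
      rw [vN_eq hP0 h, div_pow, div_le_iff₀ (by positivity)]
      have h2 : len k ^ 8 ≤ jb k ^ 8 := pow_le_pow_left₀ (len_nonneg k) (len_le_jb k) 8
      have h3 : (1 : ℝ) ≤ 1 / P * P ^ 8 := by
        have : 1 / (P : ℝ) * P ^ 8 = P ^ 7 := by field_simp
        rw [this]
        exact one_le_pow₀ hP1
      calc len k ^ 8 ≤ 1 * jb k ^ 8 := by linarith
        _ ≤ (1 / P * P ^ 8) * jb k ^ 8 := mul_le_mul_of_nonneg_right h3 (by positivity)
        _ = _ := by ring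
    unfold gP
    linarith

section

variable {η : K3 → K3 → ℝ} {μ : K3 → ℝ} {B : Finset K3} {T : ℝ} {a : ℝ → Cf} {m : ℝ → ℝ}

/-- The increments. -/
noncomputable def om (m : ℝ → ℝ) : ℕ → ℝ
  | 0 => m 1
  | j + 1 => m (4 ^ (j + 1)) - m (4 ^ j)

theorem sum_om (m : ℝ → ℝ) (J : ℕ) : ∑ j ∈ Finset.range (J + 1), om m j = m (4 ^ J) := by
  induction J with
  | zero => simp [om]
  | succ J ih =>
    rw [Finset.sum_range_succ, ih]
    show m (4 ^ J) + (m (4 ^ (J + 1)) - m (4 ^ J)) = _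
    ring

theorem om_nonneg (hm0 : ∀ r, 0 ≤ m r) (hm : Monotone m) (j : ℕ) : 0 ≤ om m j := by
  cases j with
  | zero => exact hm0 1
  | succ j => exact sub_nonneg.2 (hm (pow_le_pow_right₀ (by norm_num) (by omega)))

theorem om_le (hm0 : ∀ r, 0 ≤ m r) (j : ℕ) : om m j ≤ m (4 ^ j) := by
  cases j with
  | zero => simp [om]
  | succ j => exact sub_le_self _ (hm0 _)

theorem sum_om_gH (hm0 : ∀ r, 0 ≤ m r) (hm : Monotone m) (J : ℕ) (k : K3) :
    ∑ j ∈ Finset.range J, om m j * gH (4 ^ j) k ≤ m (len k) := by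
  induction J with
  | zero => simpa using hm0 _
  | succ J ih =>
    rcases le_or_gt ((4 : ℝ) ^ J) (len k) with h | h
    · refine le_trans (le_trans (Finset.sum_le_sum fun j _ => ?_) (le_of_eq (sum_om m J))) (hm h)
      have h1 := gH_le (4 ^ j) k
      have h2 := om_nonneg hm0 hm j
      nlinarith
    · rw [Finset.sum_range_succ, gH_of_lt h, mul_zero, add_zero]
      exact ih

theorem sum_om_gH' (hm0 : ∀ r, 0 ≤ m r) (hm : Monotone m) (hmμ : ∀ k, m (len k) ≤ μ k) (n J : ℕ)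
    (k : K3) : ∑ j ∈ Finset.Ico n J, om m j * gH (4 ^ j) k ≤ gH (4 ^ n) k * μ k := by
  rcases le_or_gt ((4 : ℝ) ^ n) (len k) with h | h
  · rw [gH_of h, one_mul]
    refine le_trans ?_ ((sum_om_gH hm0 hm J k).trans (hmμ k))
    refine Finset.sum_le_sum_of_subset_of_nonneg (fun j hj => ?_) fun j _ _ =>
      mul_nonneg (om_nonneg hm0 hm j) (gH_nonneg _ _)
    rw [Finset.mem_range]
    exact (Finset.mem_Ico.1 hj).2
  · rw [gH_of_lt h, zero_mul]
    refine le_of_eq (Finset.sum_eq_zero fun j hj => ?_)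
    rw [gH_of_lt (h.trans_le (pow_le_pow_right₀ (by norm_num) (Finset.mem_Ico.1 hj).1)), mul_zero]

theorem cont_eW (hG : GalM η μ B T a) (g : K3 → ℝ) :
    ContinuousOn (fun t => eW g B (a t)) (Icc 0 T) := fun _ hx =>
  (hasDerivAt_eW hG g hx).continuousAt.continuousWithinAt

theorem int_eW (hG : GalM η μ B T a) (g : K3 → ℝ) {s t : ℝ} (hs : 0 ≤ s) (hst : s ≤ t)
    (ht : t ≤ T) : IntervalIntegrable (fun t => eW g B (a t)) volume s t := by
  refine ContinuousOn.intervalIntegrable ?_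
  rw [uIcc_of_le hst]
  exact (cont_eW hG g).mono (Icc_subset_Icc hs ht)

/-- The sum of the increments times the energies is at most the dissipation. -/
theorem int_sum (hG : GalM η μ B T a) (hT : 0 ≤ T) (hm0 : ∀ r, 0 ≤ m r) (hm : Monotone m)
    (hmμ : ∀ k, m (len k) ≤ μ k) (n J : ℕ) :
    ∑ j ∈ Finset.Ico n J, om m j * ∫ t in (0 : ℝ)..T, eW (gH (4 ^ j)) B (a t)
      ≤ ∫ t in (0 : ℝ)..T, eW (fun k => gH (4 ^ n) k * μ k) B (a t) := by
  have h1 : ∑ j ∈ Finset.Ico n J, om m j * ∫ t in (0 : ℝ)..T, eW (gH (4 ^ j)) B (a t)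
      = ∫ t in (0 : ℝ)..T, ∑ j ∈ Finset.Ico n J, om m j * eW (gH (4 ^ j)) B (a t) := by
    rw [intervalIntegral.integral_finsetSum fun j _ =>
      (int_eW hG _ le_rfl hT le_rfl).const_mul _]
    refine Finset.sum_congr rfl fun j _ => ?_
    rw [intervalIntegral.integral_const_mul]
  have h2 : ∀ t, ∑ j ∈ Finset.Ico n J, om m j * eW (gH (4 ^ j)) B (a t)
      = eW (fun k => ∑ j ∈ Finset.Ico n J, om m j * gH (4 ^ j) k) B (a t) := by
    intro t
    unfold eW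
    simp only [Finset.mul_sum, Finset.sum_mul]
    rw [Finset.sum_comm]
    refine Finset.sum_congr rfl fun k _ => Finset.sum_congr rfl fun j _ => ?_
    ring
  rw [h1]
  simp only [h2]
  exact intervalIntegral.integral_mono_on hT (int_eW hG _ le_rfl hT le_rfl)
    (int_eW hG _ le_rfl hT le_rfl) fun t _ => eW_mono (sum_om_gH' hm0 hm hmμ n J) B (a t)

/-- The balance of the energy above a scale. -/
theorem balance (hη : IsWeight η) (hB : ∀ k ∈ B, -k ∈ B) (hG : GalM η μ B T a)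
    {z : ℕ → ℝ} (hz : ∀ j, 0 ≤ z j) (hz2 : ∀ j, z j ≤ 2 * z (j + 1))
    (h0 : ∀ t ∈ Icc 0 T, eE B (a t) ≤ z 0 ^ 2)
    (h : ∀ j, ∀ t ∈ Icc 0 T, eW (gH (4 ^ j)) B (a t) ≤ z j ^ 2) (j : ℕ) {t : ℝ}
    (ht : t ∈ Icc 0 T) :
    eW (gH (4 ^ (j + 1))) B (a t) + 2 * ∫ s in (0 : ℝ)..t, eW (fun k => gH (4 ^ (j + 1)) k * μ k) B (a s)
      ≤ eW (gH (4 ^ (j + 1))) B (a 0)
        + 81 * K1 * 32 ^ (j + 1) * z (j + 1) * ∫ s in (0 : ℝ)..t, eW (gH (4 ^ j)) B (a s) := by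
  have hK := K1_nonneg
  have hsub : Icc 0 t ⊆ Icc 0 T := Icc_subset_Icc le_rfl ht.2
  have i1 := int_eW hG (fun k => gH (4 ^ (j + 1)) k * μ k) le_rfl ht.1 ht.2
  have i2 := int_eW hG (gH (4 ^ j)) le_rfl ht.1 ht.2
  have key := intervalIntegral.sub_le_integral_of_hasDeriv_right_of_le ht.1
    (g := fun s => eW (gH (4 ^ (j + 1))) B (a s))
    (g' := fun s => -(2 * ∑ k ∈ B, gH (4 ^ (j + 1)) k * (μ k * nsq (a s k)))
        - 2 * ∑ k ∈ B, gH (4 ^ (j + 1)) k * ip (nl η (a s) (a s) k) (a s k))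
    (φ := fun s => -2 * eW (fun k => gH (4 ^ (j + 1)) k * μ k) B (a s)
      + 81 * K1 * 32 ^ (j + 1) * z (j + 1) * eW (gH (4 ^ j)) B (a s))
    ((cont_eW hG _).mono hsub)
    (fun s hs => (hasDerivAt_eW hG _ (hsub ⟨hs.1.le, hs.2.le⟩)).hasDerivWithinAt)
    (ContinuousOn.integrableOn_Icc ((continuousOn_const.mul ((cont_eW hG _).mono hsub)).add
      (continuousOn_const.mul ((cont_eW hG _).mono hsub))))
    (fun s hs => by
      have hsI := hsub ⟨hs.1.le, hs.2.le⟩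
      have e1 : ∑ k ∈ B, gH (4 ^ (j + 1)) k * (μ k * nsq (a s k))
          = eW (fun k => gH (4 ^ (j + 1)) k * μ k) B (a s) := by
        unfold eW
        exact Finset.sum_congr rfl fun k _ => by ring
      have e2 := flux2 hη hB (M := 4 ^ (j + 1)) (by positivity) (hG.supp s) (hG.herm s) (hG.div s)
      have e3 := low_sum2 B (a s) hz hz2 (by rw [← eE_eq]; exact h0 s hsI)
        (fun i => h i s hsI) (j + 1)
      have e4 : ∑ k ∈ B, gH (4 ^ (j + 1) / 2) k * nsq (a s k) ≤ eW (gH (4 ^ j)) B (a s) := by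
        refine eW_mono (gH_mono ?_) B (a s)
        have : (0 : ℝ) < 4 ^ j := by positivity
        rw [pow_succ]
        linarith
      have e5 : (4 : ℝ) ^ (j + 1) * ∑ k ∈ B, (1 - gH (4 ^ (j + 1)) k) * ‖a s k‖
          ≤ 3 * K1 * 32 ^ (j + 1) * z (j + 1) := by
        refine (mul_le_mul_of_nonneg_left e3 (by positivity)).trans (le_of_eq ?_)
        have : (32 : ℝ) ^ (j + 1) = 4 ^ (j + 1) * 8 ^ (j + 1) := by rw [← mul_pow]; norm_num
        rw [this]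
        ring
      have e6 : 27 / 2 * ((4 : ℝ) ^ (j + 1) * ∑ k ∈ B, (1 - gH (4 ^ (j + 1)) k) * ‖a s k‖)
          * ∑ k ∈ B, gH (4 ^ (j + 1) / 2) k * nsq (a s k)
          ≤ 27 / 2 * (3 * K1 * 32 ^ (j + 1) * z (j + 1)) * eW (gH (4 ^ j)) B (a s) := by
        refine mul_le_mul (mul_le_mul_of_nonneg_left e5 (by norm_num)) e4
          (Finset.sum_nonneg fun k _ => mul_nonneg (gH_nonneg _ _) (nsq_nonneg _)) ?_
        have := hz (j + 1)
        positivity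
      have e7 := (abs_le.1 (e2.trans e6)).1
      show -(2 * ∑ k ∈ B, gH (4 ^ (j + 1)) k * (μ k * nsq (a s k)))
        - 2 * ∑ k ∈ B, gH (4 ^ (j + 1)) k * ip (nl η (a s) (a s) k) (a s k) ≤ _
      rw [e1]
      linarith)
  rw [intervalIntegral.integral_add (i1.const_mul (-2)) (i2.const_mul _),
    intervalIntegral.integral_const_mul, intervalIntegral.integral_const_mul] at key
  linarith

/-- The total dissipation. -/
theorem diss_le (hη : IsWeight η) (hB : ∀ k ∈ B, -k ∈ B) (hG : GalM η μ B T a) (hT : 0 ≤ T) :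
    2 * ∫ s in (0 : ℝ)..T, eW μ B (a s) ≤ eE B (a 0) := by
  have key := intervalIntegral.sub_le_integral_of_hasDeriv_right_of_le hT
    (g := fun s => eE B (a s)) (g' := fun s => -(2 * ∑ k ∈ B, μ k * nsq (a s k)))
    (φ := fun s => -(2 * eW μ B (a s)))
    (fun s hs => (hasDerivAt_eE hη hB hG hs).continuousAt.continuousWithinAt)
    (fun s hs => (hasDerivAt_eE hη hB hG ⟨hs.1.le, hs.2.le⟩).hasDerivWithinAt)
    (ContinuousOn.integrableOn_Icc ((continuousOn_const.mul (cont_eW hG _)).neg))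
    (fun s _ => le_rfl)
  rw [intervalIntegral.integral_neg, intervalIntegral.integral_const_mul] at key
  have : 0 ≤ eE B (a T) := eW_nonneg (fun _ => zero_le_one) _ _
  linarith

/-- The energy and the dissipation above the scale `4 ^ j`. -/
noncomputable def VV (μ : K3 → ℝ) (B : Finset K3) (T : ℝ) (a : ℝ → Cf) (j : ℕ) : ℝ :=
  sSup ((fun t => eW (gH (4 ^ j)) B (a t)) '' Icc 0 T)
    + ∫ t in (0 : ℝ)..T, eW (fun k => gH (4 ^ j) k * μ k) B (a t)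

theorem eW_gH_le (M : ℝ) (B : Finset K3) (b : Cf) : eW (gH M) B b ≤ eE B b :=
  eW_mono (gH_le M) B b

theorem bdd_eW (hG : GalM η μ B T a) (g : K3 → ℝ) :
    BddAbove ((fun t => eW g B (a t)) '' Icc 0 T) :=
  (isCompact_Icc.image_of_continuousOn (cont_eW hG g)).bddAbove

theorem dj_nonneg (hμ : IsSym μ) (hT : 0 ≤ T) (j : ℕ) :
    0 ≤ ∫ t in (0 : ℝ)..T, eW (fun k => gH (4 ^ j) k * μ k) B (a t) :=
  intervalIntegral.integral_nonneg hT fun _ _ =>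
    eW_nonneg (fun k => mul_nonneg (gH_nonneg _ _) (hμ.nonneg k)) _ _

theorem sup_nonneg (hG : GalM η μ B T a) (hT : 0 ≤ T) (j : ℕ) :
    0 ≤ sSup ((fun t => eW (gH (4 ^ j)) B (a t)) '' Icc 0 T) :=
  (eW_nonneg (gH_nonneg _) B (a 0)).trans (le_csSup (bdd_eW hG _) ⟨0, ⟨le_rfl, hT⟩, rfl⟩)

theorem VV_nonneg (hμ : IsSym μ) (hG : GalM η μ B T a) (hT : 0 ≤ T) (j : ℕ) :
    0 ≤ VV μ B T a j := add_nonneg (sup_nonneg hG hT j) (dj_nonneg hμ hT j)

theorem le_VV (hμ : IsSym μ) (hG : GalM η μ B T a) (hT : 0 ≤ T) (j : ℕ) {t : ℝ}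
    (ht : t ∈ Icc 0 T) : eW (gH (4 ^ j)) B (a t) ≤ VV μ B T a j :=
  (le_csSup (bdd_eW hG _) ⟨t, ht, rfl⟩).trans (le_add_of_nonneg_right (dj_nonneg hμ hT j))

theorem dj_le_VV (hG : GalM η μ B T a) (hT : 0 ≤ T) (j : ℕ) :
    ∫ t in (0 : ℝ)..T, eW (fun k => gH (4 ^ j) k * μ k) B (a t) ≤ VV μ B T a j :=
  le_add_of_nonneg_left (sup_nonneg hG hT j)

theorem VV_anti (hμ : IsSym μ) (hG : GalM η μ B T a) (hT : 0 ≤ T) (j : ℕ) :
    VV μ B T a (j + 1) ≤ VV μ B T a j := by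
  have hg : ∀ k, gH (4 ^ (j + 1)) k ≤ gH (4 ^ j) k :=
    gH_mono (pow_le_pow_right₀ (by norm_num) (by omega))
  refine add_le_add ?_ ?_
  · refine csSup_le ⟨_, 0, ⟨le_rfl, hT⟩, rfl⟩ ?_
    rintro _ ⟨t, ht, rfl⟩
    exact (eW_mono hg B (a t)).trans (le_csSup (bdd_eW hG _) ⟨t, ht, rfl⟩)
  · exact intervalIntegral.integral_mono_on hT (int_eW hG _ le_rfl hT le_rfl)
      (int_eW hG _ le_rfl hT le_rfl) fun t _ => eW_mono (fun k =>
        mul_le_mul_of_nonneg_right (hg k) (hμ.nonneg k)) B (a t)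

theorem VV_zero (hη : IsWeight η) (hμ : IsSym μ) (hB : ∀ k ∈ B, -k ∈ B) (hG : GalM η μ B T a)
    (hT : 0 ≤ T) {R : ℝ} (hR : eE B (a 0) ≤ R) : VV μ B T a 0 ≤ 2 * R := by
  have h1 : sSup ((fun t => eW (gH (4 ^ 0)) B (a t)) '' Icc 0 T) ≤ R := by
    refine csSup_le ⟨_, 0, ⟨le_rfl, hT⟩, rfl⟩ ?_
    rintro _ ⟨t, ht, rfl⟩
    exact (eW_gH_le _ B (a t)).trans ((eE_anti hη hμ hB hG le_rfl ht.1 ht.2).trans hR)
  have h2 : ∫ t in (0 : ℝ)..T, eW (fun k => gH (4 ^ 0) k * μ k) B (a t)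
      ≤ ∫ t in (0 : ℝ)..T, eW μ B (a t) :=
    intervalIntegral.integral_mono_on hT (int_eW hG _ le_rfl hT le_rfl)
      (int_eW hG _ le_rfl hT le_rfl) fun t _ => eW_mono (fun k => by
        have h3 := gH_le (4 ^ 0) k
        have h4 := hμ.nonneg k
        nlinarith) B (a t)
  have h3 := diss_le hη hB hG hT
  have h4 : 0 ≤ eE B (a 0) := eW_nonneg (fun _ => zero_le_one) _ _
  unfold VV
  linarith

/-- The recursion. -/
theorem VV_rec (hη : IsWeight η) (hμ : IsSym μ) (hB : ∀ k ∈ B, -k ∈ B) (hG : GalM η μ B T a)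
    (hT : 0 ≤ T) {z : ℕ → ℝ} (hz : ∀ j, 0 ≤ z j) (hz2 : ∀ j, z j ≤ 2 * z (j + 1))
    (h0 : ∀ t ∈ Icc 0 T, eE B (a t) ≤ z 0 ^ 2)
    (h : ∀ j, ∀ t ∈ Icc 0 T, eW (gH (4 ^ j)) B (a t) ≤ z j ^ 2) (j : ℕ) :
    VV μ B T a (j + 1) ≤ 2 * eW (gH (4 ^ (j + 1))) B (a 0)
        + 162 * K1 * 32 ^ (j + 1) * z (j + 1) * ∫ s in (0 : ℝ)..T, eW (gH (4 ^ j)) B (a s) := by
  have hK := K1_nonneg
  have hzj := hz (j + 1)
  have n1 : ∀ t ∈ Icc 0 T, 0 ≤ ∫ s in (0 : ℝ)..t, eW (fun k => gH (4 ^ (j + 1)) k * μ k) B (a s) :=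
    fun t ht => dj_nonneg hμ ht.1 (j + 1)
  have n2 : ∀ t ∈ Icc 0 T, ∫ s in (0 : ℝ)..t, eW (gH (4 ^ j)) B (a s)
      ≤ ∫ s in (0 : ℝ)..T, eW (gH (4 ^ j)) B (a s) := by
    intro t ht
    have h1 := intervalIntegral.integral_add_adjacent_intervals
      (int_eW hG (gH (4 ^ j)) le_rfl ht.1 ht.2) (int_eW hG (gH (4 ^ j)) ht.1 ht.2 le_rfl)
    have h2 : 0 ≤ ∫ s in t..T, eW (gH (4 ^ j)) B (a s) :=
      intervalIntegral.integral_nonneg ht.2 fun s _ => eW_nonneg (gH_nonneg _) _ _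
    linarith
  have hc : 0 ≤ 81 * K1 * 32 ^ (j + 1) * z (j + 1) := by positivity
  have h1 : sSup ((fun t => eW (gH (4 ^ (j + 1))) B (a t)) '' Icc 0 T)
      ≤ eW (gH (4 ^ (j + 1))) B (a 0)
        + 81 * K1 * 32 ^ (j + 1) * z (j + 1) * ∫ s in (0 : ℝ)..T, eW (gH (4 ^ j)) B (a s) := by
    refine csSup_le ⟨_, 0, ⟨le_rfl, hT⟩, rfl⟩ ?_
    rintro _ ⟨t, ht, rfl⟩
    have h2 := balance hη hB hG hz hz2 h0 h j ht
    have h3 := n1 t ht
    have h4 := mul_le_mul_of_nonneg_left (n2 t ht) hc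
    show eW (gH (4 ^ (j + 1))) B (a t) ≤ _
    linarith
  have h2 := balance hη hB hG hz hz2 h0 h j (t := T) ⟨hT, le_rfl⟩
  have h3 : 0 ≤ eW (gH (4 ^ (j + 1))) B (a T) := eW_nonneg (gH_nonneg _) _ _
  have h4 := n1 T ⟨hT, le_rfl⟩
  unfold VV
  linarith

end

end Pool.Agent.Run7.h507.SP
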