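import Pool.Agent.Run7.h507.SP.Rec3

/-!
Global smooth solutions when the integral of the dissipation rates diverges.
-/

set_option autoImplicit false

open MeasureTheory Set Filter Topology
open scoped ContDiff ComplexConjugate NNReal

namespace Pool.Agent.Run7.h507.SP

open RT

theorem pw (j : ℕ) : ((4 ^ j : ℕ) : ℝ) ^ 2 * Real.sqrt ((4 ^ j : ℕ) : ℝ) = 32 ^ j := by
  have e : ((4 ^ j : ℕ) : ℝ) = 4 ^ j := by push_cast; rfl
  rw [e, sqrt_four_pow, ← pow_mul, mul_comm j 2, pow_mul, ← mul_pow]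
  norm_num

theorem gH_le_jb' (j : ℕ) (k : K3) : gH (4 ^ (j + 1)) k ≤ 1 / (4 * 4 ^ (j + 1)) * jb k ^ 8 := by
  have hj := jb_pos k
  rcases le_or_gt ((4 : ℝ) ^ (j + 1)) (len k) with h | h
  · rw [gH_of h, one_div, inv_mul_eq_div, le_div_iff₀ (by positivity), one_mul]
    have h0 : (4 : ℝ) ≤ 4 ^ (j + 1) := by
      have : (1 : ℝ) ≤ 4 ^ j := one_le_pow₀ (by norm_num)
      rw [pow_succ]
      linarith
    have h1 := h.trans (len_le_jb k)
    have h2 : (4 : ℝ) * 4 ^ (j + 1) ≤ jb k ^ 2 := by nlinarith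
    exact h2.trans (pow_le_pow_right₀ (one_le_jb k) (by norm_num))
  · rw [gH_of_lt h]
    positivity

/-- The constants. -/
noncomputable def c1 (R : ℝ) : ℝ := 1728 * K1 * (Real.sqrt R + 4 + 4 * Real.sqrt (Real.sqrt (2 * R)))

/-- The bound of the sum when no scale is good. -/
noncomputable def bd (R b : ℝ) : ℝ :=
  4 * (10368 * K1) * Real.sqrt (2 * R) + 4 * c1 R * Real.sqrt (Real.sqrt (2 * R))
    + 2 * (1728 * K1 * Real.sqrt R + b)

section

variable {η : K3 → K3 → ℝ} {μ : K3 → ℝ} {B : Finset K3} {T : ℝ} {a : ℝ → Cf} {m : ℝ → ℝ}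

/-- One of finitely many scales is good. -/
theorem good (hη : IsWeight η) (hμ : IsSym μ) (hB : ∀ k ∈ B, -k ∈ B) (hG : GalM η μ B T a)
    (hT : 0 ≤ T) (hm0 : ∀ r, 0 ≤ m r) (hm : Monotone m) (hmμ : ∀ k, m (len k) ≤ μ k) {R : ℝ}
    (hR : 0 < R) (hS : ∑ k ∈ B, jb k ^ 8 * nsq (a 0 k) ≤ R) {J : ℕ}
    (hJ : bd R (m 1) < ∑ j ∈ Finset.range J, om m j / 32 ^ j) :
    ∃ j < J, ∀ x ∈ Icc 0 T, Phi ((4 ^ j : ℕ) : ℝ) 8 B (a x) ≤ 2 * (3 * R / 2) := by
  have hK := K1_nonneg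
  have hE0 : eE B (a 0) ≤ R := by
    rw [eE_eq]
    refine le_trans (Finset.sum_le_sum fun k _ => ?_) hS
    have h2 : 1 ≤ jb k ^ 8 := one_le_pow₀ (one_le_jb k)
    have := nsq_nonneg (a 0 k)
    nlinarith
  have hinit : ∀ w : K3 → ℝ, ∀ c : ℝ, 0 ≤ c → (∀ k, w k ≤ c * jb k ^ 8) →
      eW w B (a 0) ≤ c * R := by
    intro w c hc hw
    calc eW w B (a 0) ≤ eW (fun k => c * jb k ^ 8) B (a 0) := eW_mono hw _ _
      _ = c * ∑ k ∈ B, jb k ^ 8 * nsq (a 0 k) := by
          unfold eW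
          rw [Finset.mul_sum]
          exact Finset.sum_congr rfl fun k _ => by ring
      _ ≤ _ := mul_le_mul_of_nonneg_left hS hc
  set V : ℕ → ℝ := VV μ B T a with hV
  have hV0 : V 0 ≤ 2 * R := VV_zero hη hμ hB hG hT hE0
  have hVn : ∀ j, 0 ≤ V j := fun j => VV_nonneg hμ hG hT j
  have hVa : ∀ j, V (j + 1) ≤ V j := fun j => VV_anti hμ hG hT j
  set z : ℕ → ℝ := zz R V with hz
  have z0 : z 0 = Real.sqrt (2 * R) := rfl
  have z0s : z 0 ^ 2 = 2 * R := Real.sq_sqrt (by linarith)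
  have zpos : ∀ j, 0 < z j := fun j => zz_pos hR j
  have zanti : ∀ j, z (j + 1) ≤ z j := fun j => zz_anti hR hV0 hVa j
  have zanti' : Antitone z := zz_antitone hR hV0 hVa
  have zhalf : ∀ j, z j ≤ 2 * z (j + 1) := fun j => zz_half j
  have zsq : ∀ j, V j ≤ z j ^ 2 := fun j => le_zz_sq hV0 hVn j
  have hEt : ∀ t ∈ Icc 0 T, eE B (a t) ≤ z 0 ^ 2 := by
    intro t ht
    have := (eE_anti hη hμ hB hG le_rfl ht.1 ht.2).trans hE0
    linarith
  have hEj : ∀ j, ∀ t ∈ Icc 0 T, eW (gH (4 ^ j)) B (a t) ≤ z j ^ 2 := fun j t ht =>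
    (le_VV hμ hG hT j ht).trans (zsq j)
  by_contra hcon
  push Not at hcon
  -- the bad scales
  have hbadi : ∀ j < J, ∀ i < j, m (4 ^ j) / 32 ^ j
      ≤ 1728 * K1 * (Real.sqrt R / 32 ^ (j - i) + 2 * z i) := by
    intro j hj i hij
    by_contra hlt
    rw [not_le] at hlt
    obtain ⟨x, hx, hx2⟩ := hcon j hj
    have hρ : 0 < z i ^ 2 := by have := zpos i; positivity
    have e32 : (0 : ℝ) < 32 ^ j := by positivity
    have e4 : ((4 ^ j : ℕ) : ℝ) = 4 ^ j := by push_cast; rfl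
    have e4i : ((4 ^ i : ℕ) : ℝ) = 4 ^ i := by push_cast; rfl
    have hb := barrier2 (N := 4 ^ j) (M := 4 ^ i) hη hμ hB hG (by positivity) (by
        have h1 : 4 ^ (i + 1) ≤ 4 ^ j := Nat.pow_le_pow_right (by norm_num) hij
        rw [pow_succ] at h1
        omega) (δ := m (4 ^ j) / 32 ^ j) (R := R) hρ (fun k hk => by
        rw [pw, div_mul_cancel₀ _ e32.ne']
        rw [e4] at hk
        exact (hm hk).trans (hmμ k)) hE0 (by
        rw [pw, pw, div_mul_cancel₀ _ e32.ne']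
        have h1 : Real.sqrt (2 * z i ^ 2) ≤ 2 * z i := by
          refine Real.sqrt_le_iff.2 ⟨by have := zpos i; positivity, ?_⟩
          nlinarith [sq_nonneg (z i)]
        have h2 : K1 * 32 ^ j * Real.sqrt (2 * z i ^ 2) ≤ K1 * 32 ^ j * (2 * z i) :=
          mul_le_mul_of_nonneg_left h1 (by positivity)
        rw [lt_div_iff₀ e32] at hlt
        have h3 : (32 : ℝ) ^ j = 32 ^ i * 32 ^ (j - i) := by rw [← pow_add]; congr 1; omega
        have h4 : Real.sqrt R / 32 ^ (j - i) * 32 ^ j = 32 ^ i * Real.sqrt R := by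
          rw [h3]
          field_simp
        have h5 : 1728 * K1 * (Real.sqrt R / 32 ^ (j - i) + 2 * z i) * 32 ^ j
            = 1728 * (K1 * 32 ^ i * Real.sqrt R + K1 * 32 ^ j * (2 * z i)) := by
          calc _ = 1728 * K1 * (Real.sqrt R / 32 ^ (j - i) * 32 ^ j + 2 * z i * 32 ^ j) := by ring
            _ = _ := by rw [h4]; ring
        linarith) (by
        have h1 := hinit _ (1 / ((4 ^ j : ℕ) : ℝ)) (by positivity) (gP_le_jb (P := 4 ^ j)
          (by positivity))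
        have h2 := zz_sq_ge (V := V) hR i
        have h3 : (4 : ℝ) ^ i ≤ 4 ^ j := pow_le_pow_right₀ (by norm_num) hij.le
        have h4 : 1 / (4 : ℝ) ^ j * R ≤ 2 * R / 4 ^ i := by
          rw [one_div, inv_mul_eq_div, div_le_div_iff₀ (by positivity) (by positivity)]
          nlinarith
        rw [e4] at h1
        rw [e4]
        exact h1.trans (h4.trans h2)) le_rfl (fun y hy => by
        rw [e4i]
        exact hEj i y hy) x hx
    have h2 : Phi ((4 ^ j : ℕ) : ℝ) 8 B (a x) ≤ z i ^ 2 + R := by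
      rw [Phi_eq]
      exact add_le_add hb ((eE_anti hη hμ hB hG le_rfl hx.1 hx.2).trans hE0)
    have h3 : z i ^ 2 ≤ 2 * R := by
      rw [← z0s]
      exact pow_le_pow_left₀ (zpos i).le (zanti' (Nat.zero_le i)) 2
    linarith
  have hbad : ∀ j < J, om m j / 32 ^ j ≤ c1 R * Real.sqrt (z j)
      + (1728 * K1 * Real.sqrt R + m 1) * (1 / 2) ^ j := by
    intro j hj
    have hm1 := hm0 1
    have hc1 : 0 ≤ c1 R := by unfold c1; positivity
    rcases Nat.eq_zero_or_pos j with h0 | h0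
    · subst h0
      have h1 : 0 ≤ c1 R * Real.sqrt (z 0) := by positivity
      have h2 : 0 ≤ 1728 * K1 * Real.sqrt R := by positivity
      have h3 : om m 0 = m 1 := rfl
      rw [h3]
      simp only [pow_zero, div_one, mul_one]
      linarith
    · have hl : ∀ l, 1 ≤ l → l ≤ j → om m j / 32 ^ j
          ≤ 1728 * K1 * (Real.sqrt R / 32 ^ l + 2 * (2 ^ l * z j)) := by
        intro l hl1 hl2
        have h1 := hbadi j hj (j - l) (by omega)
        have h2 : j - (j - l) = l := by omega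
        have h3 : z (j - l) ≤ 2 ^ l * z j := by
          have := zz_pow (R := R) (V := V) (j - l) l
          rwa [Nat.sub_add_cancel hl2] at this
        rw [h2] at h1
        have h4 : om m j / 32 ^ j ≤ m (4 ^ j) / 32 ^ j :=
          div_le_div_of_nonneg_right (om_le hm0 j) (by positivity)
        refine h4.trans (h1.trans ?_)
        refine mul_le_mul_of_nonneg_left ?_ (by positivity)
        linarith
      have h1 := choose_l h0 (zpos j) (zanti' (Nat.zero_le j)) (by positivity)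
        (Real.sqrt_nonneg R) hl
      rw [z0] at h1
      have h2 : 0 ≤ m 1 * (1 / 2) ^ j := by positivity
      have e : 1728 * K1 * (Real.sqrt R + 4 + 4 * Real.sqrt (Real.sqrt (2 * R))) = c1 R := rfl
      rw [e] at h1
      linarith
  have hIn : ∀ j, 0 ≤ ∫ s in (0 : ℝ)..T, eW (gH (4 ^ j)) B (a s) := fun j =>
    intervalIntegral.integral_nonneg hT fun s _ => eW_nonneg (gH_nonneg _) _ _
  have hsum : ∀ n, ∑ j ∈ Finset.Ico n J, om m j / 32 ^ j
      * (32 ^ j * ∫ s in (0 : ℝ)..T, eW (gH (4 ^ j)) B (a s)) ≤ z n ^ 2 := by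
    intro n
    have h1 := int_sum hG hT hm0 hm hmμ n J
    refine le_trans (le_of_eq ?_) (h1.trans ((dj_le_VV hG hT n).trans (zsq n)))
    refine Finset.sum_congr rfl fun j _ => ?_
    have : (0 : ℝ) < 32 ^ j := by positivity
    field_simp
  have hstep : ∀ j, z (j + 1) ≤ 10368 * K1
      * (32 ^ j * ∫ s in (0 : ℝ)..T, eW (gH (4 ^ j)) B (a s)) ∨ z (j + 1) ≤ z j / 2 := by
    intro j
    rcases le_or_gt (Real.sqrt (V (j + 1))) (z j / 2) with h | h
    · exact Or.inr (max_le h le_rfl)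
    left
    have e1 : z (j + 1) = Real.sqrt (V (j + 1)) := max_eq_left h.le
    have e2 : z (j + 1) ^ 2 = V (j + 1) := by rw [e1, Real.sq_sqrt (hVn _)]
    have h1 := VV_rec hη hμ hB hG hT (fun j => (zpos j).le) zhalf hEt hEj j
    have h2 := hinit _ _ (by positivity) (gH_le_jb' j)
    have h3 : 2 * R / 4 ^ (j + 1) ≤ z (j + 1) ^ 2 := zz_sq_ge hR (j + 1)
    have h4 : 2 * eW (gH (4 ^ (j + 1))) B (a 0) ≤ z (j + 1) ^ 2 / 2 := by
      have h5 : 1 / (4 * (4 : ℝ) ^ (j + 1)) * R = 2 * R / 4 ^ (j + 1) / 8 := by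
        field_simp
        norm_num
      rw [h5] at h2
      have h6 : 0 ≤ 2 * R / 4 ^ (j + 1) := by positivity
      linarith
    have h6 : V (j + 1) ≤ 2 * eW (gH (4 ^ (j + 1))) B (a 0) + 162 * K1 * 32 ^ (j + 1) * z (j + 1)
        * ∫ s in (0 : ℝ)..T, eW (gH (4 ^ j)) B (a s) := h1
    rw [← e2] at h6
    have h7 : z (j + 1) * z (j + 1) ≤ z (j + 1) * (10368 * K1
      * (32 ^ j * ∫ s in (0 : ℝ)..T, eW (gH (4 ^ j)) B (a s))) := by
      have e3 : 162 * K1 * 32 ^ (j + 1) * z (j + 1) * ∫ s in (0 : ℝ)..T, eW (gH (4 ^ j)) B (a s)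
          = z (j + 1) * (10368 * K1
            * (32 ^ j * ∫ s in (0 : ℝ)..T, eW (gH (4 ^ j)) B (a s))) / 2 := by
        rw [pow_succ]
        ring
      rw [e3] at h6
      nlinarith
    exact le_of_mul_le_mul_left h7 (zpos (j + 1))
  have hfin := disc (C := 10368 * K1) (C₁ := c1 R) (C₂ := 1728 * K1 * Real.sqrt R + m 1) (J := J)
    (by positivity) (by unfold c1; positivity) (by have := hm0 1; positivity) zpos zanti zhalf
    (fun j => div_nonneg (om_nonneg hm0 hm j) (by positivity))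
    (fun j => mul_nonneg (by positivity) (hIn j)) hsum hstep hbad
  have : bd R (m 1) = 4 * (10368 * K1) * z 0 + 4 * c1 R * Real.sqrt (z 0)
      + 2 * (1728 * K1 * Real.sqrt R + m 1) := rfl
  linarith

end

/-- The gradient is bounded, uniformly in the approximation, in time and in the data. -/
theorem grad_all3 {η : K3 → K3 → ℝ} {μ : K3 → ℝ} {m : ℝ → ℝ} (hη : IsWeight η) (hμ : IsSym μ)
    (hm0 : ∀ r, 0 ≤ m r) (hm : Monotone m) (hmμ : ∀ k, m (len k) ≤ μ k)
    (hdiv : ∀ K, ∃ J, K < ∑ j ∈ Finset.range J, om m j / 32 ^ j) {R : ℝ} (hR : 0 < R) :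
    ∃ G : ℝ, 0 ≤ G ∧ ∀ n : ℕ, ∀ a : ℝ → Cf, GalM η μ (Bn n) n a →
      (∑ k ∈ Bn n, jb k ^ 8 * nsq (a 0 k) ≤ R) →
      ∀ t ∈ Icc (0 : ℝ) n, ∑ k ∈ Bn n, jb k * ‖a t k‖ ≤ G := by
  obtain ⟨J, hJ⟩ := hdiv (bd R (m 1))
  refine ⟨∑ j ∈ Finset.range J, Real.sqrt (729 * Z6)
    * Real.sqrt (((4 ^ j : ℕ) : ℝ) ^ 8 * (2 * (3 * R / 2))),
    Finset.sum_nonneg fun _ _ => by positivity, fun n a hG h1 t ht => ?_⟩
  obtain ⟨j, hj, hj2⟩ := good hη hμ Bn_neg hG (Nat.cast_nonneg n) hm0 hm hmμ hR h1 hJ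
  refine (grad_bound (by positivity) (hj2 t ht)).trans ?_
  exact Finset.single_le_sum (f := fun j => Real.sqrt (729 * Z6)
    * Real.sqrt (((4 ^ j : ℕ) : ℝ) ^ 8 * (2 * (3 * R / 2)))) (fun _ _ => by positivity)
    (Finset.mem_range.2 hj)

end Pool.Agent.Run7.h507.SP
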