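import Pool.Agent.Run7.h507.SP.Rec4

/-!
Global smooth solutions when the integral of the dissipation rates diverges: conclusion.
-/

set_option autoImplicit false

open MeasureTheory Set Filter Topology
open scoped ContDiff ComplexConjugate NNReal

namespace Pool.Agent.Run7.h507.SP

open RT

/-- Global smooth solutions, when the gradients of the approximations are bounded. -/
theorem exists_of_grad {η : K3 → K3 → ℝ} {μ : K3 → ℝ} (hη : IsWeight η) (hμ : IsSym μ) {c : Cf}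
    (hh : Herm c) (hd : Dv c) (hc : Rapid c) {G : ℝ} (hG0 : 0 ≤ G)
    (hG : ∀ n : ℕ, ∀ a : ℝ → Cf, GalM η μ (Bn n) n a →
      (∀ k ∈ Bn n, a 0 k = c k) → ∀ t ∈ Icc (0 : ℝ) n, ∑ k ∈ Bn n, jb k * ‖a t k‖ ≤ G) :
    ∃ L : ℝ → Cf, L 0 = c ∧ SolM η μ (Ici 0) L ∧
      ∀ t, 0 ≤ t → ∀ F : Finset K3, ∑ k ∈ F, jb k * ‖L t k‖ ≤ G := by
  have hb : ∀ t : ℝ, ∀ m : ℕ, ∃ C : ℝ, ∀ n : ℕ, t ≤ n → ∀ a : ℝ → Cf, GalM η μ (Bn n) n a →
      (∀ k ∈ Bn n, a 0 k = c k) → ∀ τ ∈ Icc 0 t, ∀ k, jb k ^ m * ‖a τ k‖ ≤ C := by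
    intro t m
    set Q : ℝ := ∑' k, jb k ^ (2 * (m + 1)) * nsq (c k) with hQ
    refine ⟨Real.sqrt (Real.exp (2 * (27 * (m + 1) * 2 ^ m * G) * t) * Q),
      fun n hn a haG h0 τ hτ k => ?_⟩
    have hτn : τ ∈ Icc (0 : ℝ) n := ⟨hτ.1, hτ.2.trans hn⟩
    have h2 := high hη hμ Bn_neg haG (G := G) (hG n a haG h0) m τ hτn
    have h3 := Phi_init hc h0 le_rfl (2 * (m + 1))
    have h4 : Phi 1 (2 * (m + 1)) (Bn n) (a τ)
        ≤ Real.exp (2 * (27 * (m + 1) * 2 ^ m * G) * t) * Q := by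
      refine h2.trans (mul_le_mul (Real.exp_le_exp.2 ?_) h3 (Phi_nonneg _ _ _ _)
        (Real.exp_pos _).le)
      exact mul_le_mul_of_nonneg_left hτ.2 (by positivity)
    by_cases hk : k ∈ Bn n
    · refine Real.le_sqrt_of_sq_le (le_trans ?_ h4)
      have h5 : vN 1 k ^ (2 * (m + 1)) * nsq (a τ k) ≤ Phi 1 (2 * (m + 1)) (Bn n) (a τ) :=
        Finset.single_le_sum (f := fun k => vN 1 k ^ (2 * (m + 1)) * nsq (a τ k))
          (fun k _ => mul_nonneg (pow_nonneg (vN_pos k).le _) (nsq_nonneg _)) hk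
      refine le_trans ?_ h5
      rw [vN_one, mul_pow, ← pow_mul]
      refine mul_le_mul (pow_le_pow_right₀ (one_le_jb k) (by omega)) (norm_sq_le_nsq _)
        (sq_nonneg _) (pow_nonneg (jb_pos k).le _)
    · rw [haG.supp τ k hk, norm_zero, mul_zero]
      exact Real.sqrt_nonneg _
  obtain ⟨L, h0, h1, _, _, h4⟩ := exists_solM hη hμ hh hd (summable_of_rapid hc) (J := Ici 0)
    (fun t ht => ht)
    (fun t ht => ⟨0, self_mem_Ici, t + 1, by have : (0 : ℝ) ≤ t := ht; exact add_nonneg this zero_le_one,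
      ⟨ht, by linarith⟩, by
        have : Ici (0 : ℝ) ∩ Iio (t + 1) ⊆ Icc 0 (t + 1) := fun s hs => ⟨hs.1, hs.2.le⟩
        exact mem_of_superset (inter_mem self_mem_nhdsWithin
          (mem_nhdsWithin_of_mem_nhds (Iio_mem_nhds (by linarith)))) this⟩)
    (fun s hs t _ m => by
      obtain ⟨C, hC⟩ := hb t m
      exact ⟨C, fun n hn a hG h0 τ hτ k => hC n hn a hG h0 τ ⟨le_trans hs hτ.1, hτ.2⟩ k⟩)
  exact ⟨L, h0, h1, h4 G hG⟩

/-! ### The divergence -/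

theorem sum_abel (m : ℝ → ℝ) (J : ℕ) :
    ∑ j ∈ Finset.range (J + 1), m (4 ^ j) / 32 ^ j + 1 / 31 * (m (4 ^ J) / 32 ^ J)
      = 32 / 31 * ∑ j ∈ Finset.range (J + 1), om m j / 32 ^ j := by
  induction J with
  | zero =>
    simp [om]
    ring
  | succ J ih =>
    rw [Finset.sum_range_succ, Finset.sum_range_succ _ (J + 1), mul_add, ← ih]
    have e : om m (J + 1) = m (4 ^ (J + 1)) - m (4 ^ J) := rfl
    have h : (0 : ℝ) < 32 ^ J := by positivity
    rw [e, pow_succ 32 J]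
    field_simp
    ring

theorem rpow_four (J : ℕ) : ((4 : ℝ) ^ J) ^ (7 / 2 : ℝ) = 128 ^ J := by
  have h1 : (4 : ℝ) ^ (7 / 2 : ℝ) = 128 := by
    have e : (4 : ℝ) = 2 ^ (2 : ℝ) := by norm_num
    rw [e, ← Real.rpow_mul (by norm_num)]
    norm_num
  rw [← Real.rpow_natCast, ← Real.rpow_mul (by norm_num), mul_comm, Real.rpow_mul (by norm_num), h1,
    Real.rpow_natCast]

/-- From the divergence of the sum over the integers to the divergence of the increments. -/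
theorem div_of {m : ℝ → ℝ} (hm0 : ∀ r, 0 ≤ m r) (hm : Monotone m)
    (h : ¬ Summable fun N : ℕ => m N / (N : ℝ) ^ (7 / 2 : ℝ)) :
    ∀ K, ∃ J, K < ∑ j ∈ Finset.range J, om m j / 32 ^ j := by
  by_contra hcon
  push Not at hcon
  obtain ⟨K, hK⟩ := hcon
  apply h
  have h1 : ∀ J, ∑ j ∈ Finset.range (J + 1), m (4 ^ j) / 32 ^ j ≤ 32 / 31 * K := by
    intro J
    have h2 := sum_abel m J
    have h3 : 0 ≤ m (4 ^ J) / 32 ^ J := div_nonneg (hm0 _) (by positivity)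
    have h4 := hK (J + 1)
    linarith
  set f : ℕ → ℝ := fun N => m N / (N : ℝ) ^ (7 / 2 : ℝ) with hf
  have hf0 : ∀ N, 0 ≤ f N := fun N => div_nonneg (hm0 _) (by positivity)
  have h2 : ∀ J, ∑ N ∈ Finset.range (4 ^ J), f N
      ≤ f 0 + 96 * ∑ j ∈ Finset.range (J + 1), m (4 ^ j) / 32 ^ j := by
    intro J
    induction J with
    | zero =>
      have : 0 ≤ m 1 := hm0 1
      simp
      linarith
    | succ J ih =>
      have e1 : ∑ N ∈ Finset.range (4 ^ (J + 1)), f N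
          = ∑ N ∈ Finset.range (4 ^ J), f N + ∑ N ∈ Finset.Ico (4 ^ J) (4 ^ (J + 1)), f N :=
        (Finset.sum_range_add_sum_Ico f (Nat.pow_le_pow_right (by norm_num) (by omega))).symm
      have e2 : ∑ N ∈ Finset.Ico (4 ^ J) (4 ^ (J + 1)), f N
          ≤ ∑ _N ∈ Finset.Ico (4 ^ J) (4 ^ (J + 1)), m (4 ^ (J + 1)) / 128 ^ J := by
        refine Finset.sum_le_sum fun N hN => ?_
        rw [Finset.mem_Ico] at hN
        have n1 : ((4 : ℝ) ^ J) ≤ N := by exact_mod_cast hN.1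
        have n2 : (N : ℝ) ≤ 4 ^ (J + 1) := by exact_mod_cast hN.2.le
        have n3 : (128 : ℝ) ^ J ≤ (N : ℝ) ^ (7 / 2 : ℝ) := by
          rw [← rpow_four]
          exact Real.rpow_le_rpow (by positivity) n1 (by norm_num)
        exact div_le_div₀ (hm0 _) (hm n2) (by positivity) n3
      have e3 : ∑ _N ∈ Finset.Ico (4 ^ J) (4 ^ (J + 1)), m (4 ^ (J + 1)) / (128 : ℝ) ^ J
          = 96 * (m (4 ^ (J + 1)) / 32 ^ (J + 1)) := by
        rw [Finset.sum_const, Nat.card_Ico, nsmul_eq_mul]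
        have e4 : ((4 ^ (J + 1) - 4 ^ J : ℕ) : ℝ) = 3 * 4 ^ J := by
          rw [Nat.cast_sub (Nat.pow_le_pow_right (by norm_num) (by omega))]
          push_cast
          rw [pow_succ]
          ring
        have e5 : (128 : ℝ) ^ J = 4 ^ J * 32 ^ J := by rw [← mul_pow]; norm_num
        rw [e4, e5, pow_succ 32 J]
        field_simp
        ring
      rw [e1, Finset.sum_range_succ _ (J + 1)]
      linarith
  refine summable_of_sum_range_le (c := f 0 + 96 * (32 / 31 * K)) hf0 fun n => ?_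
  have h3 : n ≤ 4 ^ n := (Nat.lt_pow_self (by norm_num)).le
  refine (Finset.sum_le_sum_of_subset_of_nonneg (Finset.range_mono h3) fun N _ _ => hf0 N).trans
    ((h2 n).trans ?_)
  have := h1 n
  linarith

/-- Global smooth solutions. -/
theorem exists_global3 {η : K3 → K3 → ℝ} {μ : K3 → ℝ} {m : ℝ → ℝ} (hη : IsWeight η)
    (hμ : IsSym μ) (hm0 : ∀ r, 0 ≤ m r) (hm : Monotone m) (hmμ : ∀ k, m (len k) ≤ μ k)
    (hdiv : ¬ Summable fun N : ℕ => m N / (N : ℝ) ^ (7 / 2 : ℝ)) (R : ℝ) :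
    ∃ G : ℝ, ∀ c : Cf, Herm c → Dv c → Rapid c → ∑' k, jb k ^ 8 * nsq (c k) ≤ R →
      ∃ L : ℝ → Cf, L 0 = c ∧ SolM η μ (Ici 0) L ∧
        ∀ t, 0 ≤ t → ∀ F : Finset K3, ∑ k ∈ F, jb k * ‖L t k‖ ≤ G := by
  obtain ⟨G, hG0, hG⟩ := grad_all3 hη hμ hm0 hm hmμ (div_of hm0 hm hdiv) (R := |R| + 1)
    (by positivity)
  refine ⟨G, fun c hh hd hc hR => exists_of_grad hη hμ hh hd hc hG0 fun n a haG h0 => hG n a haG ?_⟩
  have e1 : ∑ k ∈ Bn n, jb k ^ 8 * nsq (a 0 k) = ∑ k ∈ Bn n, jb k ^ 8 * nsq (c k) :=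
    Finset.sum_congr rfl fun k hk => by rw [h0 k hk]
  have h2 := (summable_pow hc 8).sum_le_tsum (Bn n) fun k _ =>
    mul_nonneg (pow_nonneg (jb_pos k).le _) (nsq_nonneg _)
  rw [e1]
  have := le_abs_self R
  linarith

end Pool.Agent.Run7.h507.SP
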