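import Pool.Agent.Run7.h507.SP.Lim
import Pool.Agent.Run7.h507.RT.Uni2

/-!
Uniqueness of smooth solutions for a general dissipation.
-/

set_option autoImplicit false

open MeasureTheory Set Filter Topology
open scoped ContDiff ComplexConjugate NNReal

namespace Pool.Agent.Run7.h507.SP

open RT

variable {η : K3 → K3 → ℝ} {μ : K3 → ℝ}

theorem SolM.mono {I J : Set ℝ} {a : ℝ → Cf} (h : SolM η μ J a) (hIJ : I ⊆ J) :
    SolM η μ I a :=
  ⟨fun t ht => h.herm t (hIJ ht), fun t ht => h.div t (hIJ ht),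
    fun s hs t ht m => h.rapid s (hIJ hs) t (hIJ ht) m,
    fun t ht k => (h.der t (hIJ ht) k).mono hIJ⟩

theorem SolM.bound {I : Set ℝ} {a : ℝ → Cf} (h : SolM η μ I a) {s t : ℝ} (hs : s ∈ I)
    (ht : t ∈ I) (m : ℕ) : ∃ C : ℝ, ∀ τ ∈ Icc s t, ∀ k, jb k ^ m * ‖a τ k‖ ≤ C := by
  obtain ⟨C1, hC1⟩ := h.rapid s hs t ht m
  obtain ⟨C2, hC2⟩ := h.rapid s hs t ht 0
  refine ⟨|C1| + |C2|, fun τ hτ k => ?_⟩
  by_cases hk : k = 0
  · subst hk
    rw [jb_zero, one_pow, one_mul]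
    have := hC2 τ hτ 0
    rw [pow_zero, one_mul] at this
    have := this.trans (le_abs_self C2)
    linarith [abs_nonneg C1]
  · rw [jb_of_ne hk]
    have := (hC1 τ hτ k).trans (le_abs_self C1)
    linarith [abs_nonneg C2]

/-- Smooth solutions are unique, for every weight. -/
theorem uniqM (hη : IsWeight η) {T : ℝ} (hμ : IsSym μ) {a b : ℝ → Cf}
    (ha : SolM η μ (Ico 0 T) a) (hb : SolM η μ (Ico 0 T) b) (h0 : a 0 = b 0) {t : ℝ}
    (ht : t ∈ Ico 0 T) : a t = b t := by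
  have h00 : (0 : ℝ) ∈ Ico 0 T := ⟨le_rfl, ht.1.trans_lt ht.2⟩
  have hI : ∀ τ ∈ Icc 0 t, τ ∈ Ico 0 T := fun τ hτ => ⟨hτ.1, hτ.2.trans_lt ht.2⟩
  obtain ⟨A1, hA1⟩ := ha.bound h00 ht 8
  obtain ⟨A2, hA2⟩ := hb.bound h00 ht 8
  set A : ℝ := |A1| + |A2| with hAd
  have hA0 : 0 ≤ A := by positivity
  have ha8 : ∀ τ ∈ Icc 0 t, ∀ k, jb k ^ 8 * ‖a τ k‖ ≤ A := fun τ hτ k =>
    ((hA1 τ hτ k).trans (le_abs_self _)).trans (by linarith [abs_nonneg A2])
  have hb8 : ∀ τ ∈ Icc 0 t, ∀ k, jb k ^ 8 * ‖b τ k‖ ≤ A := fun τ hτ k =>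
    ((hA2 τ hτ k).trans (le_abs_self _)).trans (by linarith [abs_nonneg A1])
  have hw8 : ∀ τ ∈ Icc 0 t, ∀ k, jb k ^ 8 * ‖(a τ - b τ) k‖ ≤ A := by
    intro τ hτ k
    have h1 := hA1 τ hτ k
    have h2 := hA2 τ hτ k
    have h3 : ‖(a τ - b τ) k‖ ≤ ‖a τ k‖ + ‖b τ k‖ := norm_sub_le _ _
    have h4 : 0 < jb k ^ 8 := pow_pos (jb_pos k) 8
    calc jb k ^ 8 * ‖(a τ - b τ) k‖ ≤ jb k ^ 8 * (‖a τ k‖ + ‖b τ k‖) :=
          mul_le_mul_of_nonneg_left h3 h4.le
      _ = jb k ^ 8 * ‖a τ k‖ + jb k ^ 8 * ‖b τ k‖ := by ring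
      _ ≤ |A1| + |A2| := add_le_add (h1.trans (le_abs_self _)) (h2.trans (le_abs_self _))
  have hZ := Z6_nonneg
  set C₁ : ℝ := 72 * (A * Z6) with hC₁
  set C₂ : ℝ := C₁ * (3 * A ^ 2 * Z6) + 2 * (144 * A ^ 3 * Z6 ^ 2) with hC₂
  have hC₁0 : 0 ≤ C₁ := by positivity
  have hC₂0 : 0 ≤ C₂ := by positivity
  -- the truncated energy of the difference
  have key : ∀ n : ℕ, 0 < n → ∑ k ∈ Bn n, nsq ((a t - b t) k)
      ≤ Real.exp ((C₁ + 1) * t) * (C₂ / n) := by
    intro n hn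
    have hn0 : (0 : ℝ) < n := by exact_mod_cast hn
    set f : ℝ → ℝ := fun τ => ∑ k ∈ Bn n, nsq ((a τ - b τ) k) with hf
    have hder : ∀ τ ∈ Icc 0 t, HasDerivWithinAt f (∑ k ∈ Bn n,
        2 * ip (rhsM η μ (a τ) k - rhsM η μ (b τ) k) ((a τ - b τ) k)) (Ico 0 T) τ := by
      intro τ hτ
      refine HasDerivWithinAt.fun_sum fun k _ => ?_
      exact hasDerivWithinAt_nsq ((ha.der τ (hI τ hτ) k).sub (hb.der τ (hI τ hτ) k))
    have hle : ∀ τ ∈ Icc 0 t, ∑ k ∈ Bn n,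
        2 * ip (rhsM η μ (a τ) k - rhsM η μ (b τ) k) ((a τ - b τ) k)
        ≤ C₁ * f τ + C₂ / n := by
      intro τ hτ
      have wd : Dv (a τ - b τ) := (ha.div τ (hI τ hτ)).sub (hb.div τ (hI τ hτ))
      have wh : Herm (a τ - b τ) := (ha.herm τ (hI τ hτ)).sub (hb.herm τ (hI τ hτ))
      have a6 : ∀ k, jb k ^ 6 * ‖a τ k‖ ≤ A := fun k => (pow_mono (by omega)).trans (ha8 τ hτ k)
      have b6 : ∀ k, jb k ^ 6 * ‖b τ k‖ ≤ A := fun k => (pow_mono (by omega)).trans (hb8 τ hτ k)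
      have w6 : ∀ k, jb k ^ 6 * ‖(a τ - b τ) k‖ ≤ A :=
        fun k => (pow_mono (by omega)).trans (hw8 τ hτ k)
      have a7 : ∀ k, jb k ^ 7 * ‖a τ k‖ ≤ A := fun k => (pow_mono (by omega)).trans (ha8 τ hτ k)
      have e1 : ∀ k, rhsM η μ (a τ) k - rhsM η μ (b τ) k
          = -(μ k • (a τ - b τ) k) - (nl η (a τ - b τ) (a τ) k
            + nl η (b τ) (a τ - b τ) k) := by
        intro k
        rw [← nl_sub_self hη.bdd (L1_of a6) (L1_of b6)]
        simp only [rhsM, Pi.sub_apply, Pi.neg_apply, disM, smul_sub]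
        abel
      have e2 : ∀ k, 2 * ip (rhsM η μ (a τ) k - rhsM η μ (b τ) k) ((a τ - b τ) k)
          = -(2 * (μ k * nsq ((a τ - b τ) k)))
            - 2 * ip (nl η (a τ - b τ) (a τ) k) ((a τ - b τ) k)
            - 2 * ip (nl η (b τ) (a τ - b τ) k) ((a τ - b τ) k) := by
        intro k
        rw [e1, ip_sub_left, ip_neg_left, ip_smul_left, ip_self, ip_add_left]
        ring
      simp only [e2]
      rw [Finset.sum_sub_distrib, Finset.sum_sub_distrib, Finset.sum_neg_distrib,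
        ← Finset.mul_sum, ← Finset.mul_sum, ← Finset.mul_sum]
      have g1 : 0 ≤ ∑ k ∈ Bn n, μ k * nsq ((a τ - b τ) k) :=
        Finset.sum_nonneg fun k _ => mul_nonneg (hμ.nonneg k) (nsq_nonneg _)
      have g2 := transport_small hη (b := b τ) (w := a τ - b τ) (hb8 τ hτ) (hw8 τ hτ)
        (hb.div τ (hI τ hτ)) wd wh hn
      have g3 := stretch_le hη.bdd (w := a τ - b τ) (a := a τ) wd w6 a7
        (summable_nsq_of (hw8 τ hτ)) (Bn n)
      have g4 := tsum_nsq_le (hw8 τ hτ) hn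
      have g5 : |∑ k ∈ Bn n, ip (nl η (a τ - b τ) (a τ) k) ((a τ - b τ) k)|
          ≤ 36 * (A * Z6) * (f τ + 3 * A ^ 2 * Z6 / n) :=
        (Finset.abs_sum_le_sum_abs _ _).trans (g3.trans (mul_le_mul_of_nonneg_left g4
          (by positivity)))
      have g6 := (abs_le.1 g2).1
      have g7 := (abs_le.1 g5).1
      have g8 : C₁ * f τ + C₂ / n = 2 * (36 * (A * Z6) * (f τ + 3 * A ^ 2 * Z6 / n))
          + 2 * (144 * A ^ 3 * Z6 ^ 2 / n) := by
        rw [hC₂, hC₁]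
        field_simp
        ring
      rw [g8]
      linarith
    have hcont : ContinuousOn f (Icc 0 t) := fun τ hτ =>
      ((hder τ hτ).mono fun x hx => hI x hx).continuousWithinAt
    set g : ℝ → ℝ := fun τ => Real.exp (-((C₁ + 1) * τ)) * (f τ + C₂ / n) with hg
    have hgd : ∀ τ ∈ Ioo 0 t, HasDerivAt g (-(C₁ + 1) * Real.exp (-((C₁ + 1) * τ))
        * (f τ + C₂ / n) + Real.exp (-((C₁ + 1) * τ)) * (∑ k ∈ Bn n,
        2 * ip (rhsM η μ (a τ) k - rhsM η μ (b τ) k) ((a τ - b τ) k))) τ := by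
      intro τ hτ
      have e1 : HasDerivAt f (∑ k ∈ Bn n,
          2 * ip (rhsM η μ (a τ) k - rhsM η μ (b τ) k) ((a τ - b τ) k)) τ :=
        (hder τ ⟨hτ.1.le, hτ.2.le⟩).hasDerivAt (Ico_mem_nhds hτ.1 (hτ.2.trans ht.2))
      have e2 : HasDerivAt (fun τ : ℝ => Real.exp (-((C₁ + 1) * τ)))
          (-(C₁ + 1) * Real.exp (-((C₁ + 1) * τ))) τ := by
        have := (((hasDerivAt_id τ).const_mul (C₁ + 1)).neg).exp
        simp only [id, mul_one] at this
        rw [mul_comm] at this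
        exact this
      exact e2.mul (e1.add_const _)
    have hanti : AntitoneOn g (Icc 0 t) := by
      refine antitoneOn_of_deriv_nonpos (convex_Icc 0 t) ?_ ?_ ?_
      · exact ((Real.continuous_exp.comp (continuous_const.mul continuous_id).neg).continuousOn).mul
          (hcont.add continuousOn_const)
      · intro τ hτ
        rw [interior_Icc] at hτ
        exact (hgd τ hτ).differentiableAt.differentiableWithinAt
      · intro τ hτ
        rw [interior_Icc] at hτ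
        rw [(hgd τ hτ).deriv]
        have h1 := hle τ ⟨hτ.1.le, hτ.2.le⟩
        have h2 := Real.exp_pos (-((C₁ + 1) * τ))
        have h3 : 0 ≤ f τ := Finset.sum_nonneg fun _ _ => nsq_nonneg _
        have h4 : 0 ≤ C₂ / n := by positivity
        have h5 : (∑ k ∈ Bn n, 2 * ip (rhsM η μ (a τ) k - rhsM η μ (b τ) k) ((a τ - b τ) k))
            ≤ (C₁ + 1) * (f τ + C₂ / n) := by nlinarith
        nlinarith
    have hfin := hanti (left_mem_Icc.2 ht.1) (right_mem_Icc.2 ht.1) ht.1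
    have hf0 : f 0 = 0 := by
      rw [hf]
      simp only [h0, sub_self, Pi.zero_apply, nsq_zero, Finset.sum_const_zero]
    simp only [hg] at hfin
    rw [hf0, mul_zero, neg_zero, Real.exp_zero, zero_add, one_mul] at hfin
    have h6 := Real.exp_pos ((C₁ + 1) * t)
    have h7 := mul_le_mul_of_nonneg_left hfin h6.le
    rw [← mul_assoc, ← Real.exp_add, add_neg_cancel, Real.exp_zero, one_mul] at h7
    have h8 : 0 ≤ C₂ / n := by positivity
    show f t ≤ _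
    linarith
  funext k
  have hk0 : nsq ((a t - b t) k) ≤ 0 := by
    obtain ⟨N, hN⟩ := exists_Bn k
    have h1 : Tendsto (fun n : ℕ => Real.exp ((C₁ + 1) * t) * (C₂ / n)) atTop (𝓝 0) := by
      have := (tendsto_const_div_atTop_nhds_zero_nat C₂).const_mul (Real.exp ((C₁ + 1) * t))
      rwa [mul_zero] at this
    refine ge_of_tendsto h1 ?_
    filter_upwards [eventually_ge_atTop N, eventually_gt_atTop 0] with n hn hn1
    refine le_trans ?_ (key n hn1)
    exact Finset.single_le_sum (f := fun k => nsq ((a t - b t) k)) (fun _ _ => nsq_nonneg _)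
      (hN n hn)
  have h1 : ‖(a t - b t) k‖ ^ 2 ≤ 0 := (norm_sq_le_nsq _).trans hk0
  have h2 : ‖(a t - b t) k‖ = 0 := by
    have := sq_nonneg ‖(a t - b t) k‖
    exact pow_eq_zero_iff (two_ne_zero) |>.1 (le_antisymm h1 this)
  have h3 : (a t - b t) k = 0 := norm_eq_zero.1 h2
  rw [Pi.sub_apply, sub_eq_zero] at h3
  exact h3

end Pool.Agent.Run7.h507.SP
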