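import Pool.Agent.Run7.h507.SP.EE4

/-!
A bilinear estimate.
-/

set_option autoImplicit false

open MeasureTheory Set Filter Topology
open scoped ENNReal

namespace Pool.Agent.Run7.h507.SP

open RT FD

theorem summable_int76 : Summable fun n : ℤ => (max 1 |(n : ℝ)|) ^ (-(7 / 6) : ℝ) := by
  have h0 : Summable fun n : ℕ => (2 : ℝ) ^ (7 / 6 : ℝ) * ((n + 1 : ℕ) : ℝ) ^ (-(7 / 6) : ℝ) :=
    ((summable_nat_add_iff 1).2 (Real.summable_nat_rpow.2 (by norm_num : (-(7 / 6) : ℝ) < -1))).mul_left _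
  have h1 : Summable fun n : ℕ => (max 1 |((n : ℤ) : ℝ)|) ^ (-(7 / 6) : ℝ) := by
    refine Summable.of_nonneg_of_le (fun n => by positivity) (fun n => ?_) h0
    have e : |((n : ℤ) : ℝ)| = n := by simp
    rw [e]
    have h2 : ((n + 1 : ℕ) : ℝ) / 2 ≤ max 1 (n : ℝ) := by
      push_cast
      rcases le_total (1 : ℝ) n with h | h
      · rw [max_eq_right h]; linarith
      · rw [max_eq_left h]; linarith
    have h3 : (0 : ℝ) < ((n + 1 : ℕ) : ℝ) / 2 := by positivity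
    calc (max 1 (n : ℝ)) ^ (-(7 / 6) : ℝ) ≤ (((n + 1 : ℕ) : ℝ) / 2) ^ (-(7 / 6) : ℝ) :=
          Real.rpow_le_rpow_of_nonpos h3 h2 (by norm_num)
      _ = (2 : ℝ) ^ (7 / 6 : ℝ) * ((n + 1 : ℕ) : ℝ) ^ (-(7 / 6) : ℝ) := by
          rw [Real.div_rpow (by positivity) (by norm_num), Real.rpow_neg (by norm_num : (0 : ℝ) ≤ 2),
            div_inv_eq_mul, mul_comm]
  refine Summable.of_nat_of_neg h1 (h1.congr fun n => ?_)
  push_cast
  rw [abs_neg]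

theorem summable_jb72 : Summable fun k : K3 => jb k ^ (-(7 / 2) : ℝ) := by
  have h1 := summable_int76
  have h2 := h1.mul_of_nonneg (h1.mul_of_nonneg h1 (fun n => by positivity)
    (fun n => by positivity)) (fun n => by positivity) (fun p => by positivity)
  have h3 := (e3.summable_iff (f := fun p : ℤ × ℤ × ℤ => (max 1 |(p.1 : ℝ)|) ^ (-(7 / 6) : ℝ) *
    ((max 1 |(p.2.1 : ℝ)|) ^ (-(7 / 6) : ℝ) * (max 1 |(p.2.2 : ℝ)|) ^ (-(7 / 6) : ℝ)))).2 h2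
  refine Summable.of_nonneg_of_le (fun k => Real.rpow_nonneg (jb_pos k).le _) (fun k => ?_) h3
  have e5 : ((fun p : ℤ × ℤ × ℤ => (max 1 |(p.1 : ℝ)|) ^ (-(7 / 6) : ℝ) *
    ((max 1 |(p.2.1 : ℝ)|) ^ (-(7 / 6) : ℝ) * (max 1 |(p.2.2 : ℝ)|) ^ (-(7 / 6) : ℝ))) ∘ e3) k
    = (max 1 |(k 0 : ℝ)|) ^ (-(7 / 6) : ℝ) *
    ((max 1 |(k 1 : ℝ)|) ^ (-(7 / 6) : ℝ) * (max 1 |(k 2 : ℝ)|) ^ (-(7 / 6) : ℝ)) := rfl
  rw [e5]
  have h : ∀ j : Fin 3, jb k ^ (-(7 / 6) : ℝ) ≤ (max 1 |(k j : ℝ)|) ^ (-(7 / 6) : ℝ) := fun j =>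
    Real.rpow_le_rpow_of_nonpos (by positivity) (max_le_max le_rfl (abs_le_len k j)) (by norm_num)
  have h0 : 0 ≤ jb k ^ (-(7 / 6) : ℝ) := Real.rpow_nonneg (jb_pos k).le _
  calc jb k ^ (-(7 / 2) : ℝ)
      = jb k ^ (-(7 / 6) : ℝ) * (jb k ^ (-(7 / 6) : ℝ) * jb k ^ (-(7 / 6) : ℝ)) := by
        rw [← Real.rpow_add (jb_pos k), ← Real.rpow_add (jb_pos k)]
        norm_num
    _ ≤ _ := by
        refine mul_le_mul (h 0) (mul_le_mul (h 1) (h 2) h0 (by positivity)) (by positivity)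
          (by positivity)

/-- The sum of `|k|^{-7/2}`. -/
noncomputable def Z7 : ℝ := ∑' k : K3, jb k ^ (-(7 / 2) : ℝ)

theorem Z7_nonneg : 0 ≤ Z7 := tsum_nonneg fun k => Real.rpow_nonneg (jb_pos k).le _

theorem jj_le {x y : ℝ} (hx : 1 ≤ x) (hy : 1 ≤ y) :
    x ^ (-(3 / 2) : ℝ) * y ^ (-2 : ℝ) ≤ x ^ (-(7 / 2) : ℝ) + y ^ (-(7 / 2) : ℝ) := by
  have hx0 : 0 < x := by linarith
  have hy0 : 0 < y := by linarith
  have p1 : 0 ≤ x ^ (-(7 / 2) : ℝ) := Real.rpow_nonneg hx0.le _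
  have p2 : 0 ≤ y ^ (-(7 / 2) : ℝ) := Real.rpow_nonneg hy0.le _
  rcases le_total x y with h | h
  · have h1 : y ^ (-2 : ℝ) ≤ x ^ (-2 : ℝ) := Real.rpow_le_rpow_of_nonpos hx0 h (by norm_num)
    have h2 : x ^ (-(3 / 2) : ℝ) * x ^ (-2 : ℝ) = x ^ (-(7 / 2) : ℝ) := by
      rw [← Real.rpow_add hx0]; norm_num
    have h3 := mul_le_mul_of_nonneg_left h1 (Real.rpow_nonneg hx0.le (-(3 / 2)))
    linarith
  · have h1 : x ^ (-(3 / 2) : ℝ) ≤ y ^ (-(3 / 2) : ℝ) :=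
      Real.rpow_le_rpow_of_nonpos hy0 h (by norm_num)
    have h2 : y ^ (-(3 / 2) : ℝ) * y ^ (-2 : ℝ) = y ^ (-(7 / 2) : ℝ) := by
      rw [← Real.rpow_add hy0]; norm_num
    have h3 := mul_le_mul_of_nonneg_right h1 (Real.rpow_nonneg hy0.le (-2))
    linarith

theorem sum_jj (k : K3) (G : Finset K3) :
    ∑ p ∈ G, jb p ^ (-(3 / 2) : ℝ) * jb (k - p) ^ (-2 : ℝ) ≤ 2 * Z7 := by
  have s2 : Summable fun p => jb (k - p) ^ (-(7 / 2) : ℝ) :=
    (Equiv.subLeft k).summable_iff.2 summable_jb72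
  have e2 : ∑' p, jb (k - p) ^ (-(7 / 2) : ℝ) = Z7 :=
    (Equiv.subLeft k).tsum_eq fun q => jb q ^ (-(7 / 2) : ℝ)
  refine (Finset.sum_le_sum fun p _ => jj_le (one_le_jb p) (one_le_jb (k - p))).trans ?_
  rw [Finset.sum_add_distrib]
  have h1 := summable_jb72.sum_le_tsum G fun p _ => Real.rpow_nonneg (jb_pos p).le _
  have h2 := s2.sum_le_tsum G fun p _ => Real.rpow_nonneg (jb_pos (k - p)).le _
  rw [e2] at h2
  change _ ≤ Z7 at h1
  linarith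

section

variable {U V : K3 → ℝ}

theorem sm_of_w {b : ℝ} (hb : 0 ≤ b) (h : Summable fun k => jb k ^ b * U k ^ 2) :
    Summable fun k => U k ^ 2 :=
  Summable.of_nonneg_of_le (fun k => sq_nonneg _) (fun k => by
    have := Real.one_le_rpow (one_le_jb k) hb
    nlinarith [sq_nonneg (U k)]) h

theorem summable_UV (hU : ∀ k, 0 ≤ U k) (hV : ∀ k, 0 ≤ V k) (sU : Summable fun k => U k ^ 2)
    (sV : Summable fun k => V k ^ 2) (k : K3) : Summable fun p => U p * V (k - p) := by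
  have s2 : Summable fun p => V (k - p) ^ 2 := (Equiv.subLeft k).summable_iff.2 sV
  refine Summable.of_nonneg_of_le (fun p => mul_nonneg (hU p) (hV _)) (fun p => ?_)
    (Summable.add sU s2)
  nlinarith [sq_nonneg (U p - V (k - p)), sq_nonneg (U p), sq_nonneg (V (k - p))]

theorem summable_XY {X Y : K3 → ℝ} (hX : ∀ k, 0 ≤ X k) (hY : ∀ k, 0 ≤ Y k) (sX : Summable X)
    (sY : Summable Y) (k : K3) : Summable fun p => X p * Y (k - p) := by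
  refine Summable.of_nonneg_of_le (fun p => mul_nonneg (hX p) (hY _)) (fun p => ?_)
    (sX.mul_right (∑' q, Y q))
  exact mul_le_mul_of_nonneg_left (sY.le_tsum _ fun q _ => hY q) (hX p)

theorem sum_XY {X Y : K3 → ℝ} (hX : ∀ k, 0 ≤ X k) (hY : ∀ k, 0 ≤ Y k) (sX : Summable X)
    (sY : Summable Y) (F : Finset K3) :
    ∑ k ∈ F, ∑' p, X p * Y (k - p) ≤ (∑' p, X p) * ∑' q, Y q := by
  rw [← Summable.tsum_finsetSum fun k _ => summable_XY hX hY sX sY k, ← tsum_mul_right]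
  have h0 : ∀ p, ∑ k ∈ F, X p * Y (k - p) ≤ X p * ∑' q, Y q := by
    intro p
    rw [← Finset.mul_sum]
    refine mul_le_mul_of_nonneg_left ?_ (hX p)
    have s2 : Summable fun k => Y (k - p) := (Equiv.subRight p).summable_iff.2 sY
    have e2 : ∑' k, Y (k - p) = ∑' q, Y q := (Equiv.subRight p).tsum_eq fun q => Y q
    rw [← e2]
    exact s2.sum_le_tsum F fun k _ => hY _
  exact Summable.tsum_le_tsum h0 (Summable.of_nonneg_of_le
    (fun p => Finset.sum_nonneg fun k _ => mul_nonneg (hX p) (hY _)) h0 (sX.mul_right _))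
    (sX.mul_right _)

/-- The bilinear estimate. -/
theorem conv_sq (hU : ∀ k, 0 ≤ U k) (hV : ∀ k, 0 ≤ V k)
    (sU : Summable fun k => jb k ^ (3 / 2 : ℝ) * U k ^ 2)
    (sV : Summable fun k => jb k ^ (2 : ℝ) * V k ^ 2) (F : Finset K3) :
    ∑ k ∈ F, (∑' p, U p * V (k - p)) ^ 2
      ≤ 2 * Z7 * ((∑' k, jb k ^ (3 / 2 : ℝ) * U k ^ 2) * ∑' k, jb k ^ (2 : ℝ) * V k ^ 2) := by
  have sU0 := sm_of_w (by norm_num) sU
  have sV0 := sm_of_w (by norm_num) sV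
  have hX : ∀ k, 0 ≤ jb k ^ (3 / 2 : ℝ) * U k ^ 2 := fun k =>
    mul_nonneg (Real.rpow_nonneg (jb_pos k).le _) (sq_nonneg _)
  have hY : ∀ k, 0 ≤ jb k ^ (2 : ℝ) * V k ^ 2 := fun k =>
    mul_nonneg (Real.rpow_nonneg (jb_pos k).le _) (sq_nonneg _)
  have hZ := Z7_nonneg
  have h1 : ∀ k, (∑' p, U p * V (k - p)) ^ 2
      ≤ 2 * Z7 * ∑' p, (jb p ^ (3 / 2 : ℝ) * U p ^ 2) * (jb (k - p) ^ (2 : ℝ) * V (k - p) ^ 2) := by
    intro k
    have s1 := summable_UV hU hV sU0 sV0 k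
    have t1 : Tendsto (fun G : Finset K3 => (∑ p ∈ G, U p * V (k - p)) ^ 2) atTop
        (𝓝 ((∑' p, U p * V (k - p)) ^ 2)) := by
      have := s1.hasSum
      exact (this : Tendsto (fun G : Finset K3 => ∑ p ∈ G, U p * V (k - p)) atTop _).pow 2
    refine le_of_tendsto' t1 fun G => ?_
    refine (Finset.sum_sq_le_sum_mul_sum_of_sq_le_mul G
      (f := fun p => jb p ^ (-(3 / 2) : ℝ) * jb (k - p) ^ (-2 : ℝ))
      (g := fun p => (jb p ^ (3 / 2 : ℝ) * U p ^ 2) * (jb (k - p) ^ (2 : ℝ) * V (k - p) ^ 2))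
      (fun p _ => mul_nonneg (Real.rpow_nonneg (jb_pos p).le _)
        (Real.rpow_nonneg (jb_pos (k - p)).le _))
      (fun p _ => mul_nonneg (hX p) (hY _)) fun p _ => le_of_eq ?_).trans ?_
    · have e1 : jb p ^ (-(3 / 2) : ℝ) * jb p ^ (3 / 2 : ℝ) = 1 := by
        rw [← Real.rpow_add (jb_pos p)]; norm_num
      have e2 : jb (k - p) ^ (-2 : ℝ) * jb (k - p) ^ (2 : ℝ) = 1 := by
        rw [← Real.rpow_add (jb_pos (k - p))]; norm_num
      calc (U p * V (k - p)) ^ 2 = 1 * 1 * (U p ^ 2 * V (k - p) ^ 2) := by ring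
        _ = (jb p ^ (-(3 / 2) : ℝ) * jb p ^ (3 / 2 : ℝ))
            * (jb (k - p) ^ (-2 : ℝ) * jb (k - p) ^ (2 : ℝ)) * (U p ^ 2 * V (k - p) ^ 2) := by
              rw [e1, e2]
        _ = _ := by ring
    · have h2 := (summable_XY hX hY sU sV k).sum_le_tsum G fun p _ => mul_nonneg (hX p) (hY _)
      exact mul_le_mul (sum_jj k G) h2 (Finset.sum_nonneg fun p _ => mul_nonneg (hX p) (hY _))
        (by positivity)
  refine (Finset.sum_le_sum fun k _ => h1 k).trans ?_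
  rw [← Finset.mul_sum]
  exact mul_le_mul_of_nonneg_left (sum_XY hX hY sU sV F) (by positivity)

/-- The trilinear estimate. -/
theorem tri (hU : ∀ k, 0 ≤ U k) (hV : ∀ k, 0 ≤ V k)
    (sU : Summable fun k => jb k ^ (3 / 2 : ℝ) * U k ^ 2)
    (sV : Summable fun k => jb k ^ (2 : ℝ) * V k ^ 2) {A B D : ℝ}
    (hA : ∑' k, jb k ^ (3 / 2 : ℝ) * U k ^ 2 ≤ A) (hB : ∑' k, jb k ^ (2 : ℝ) * V k ^ 2 ≤ B)
    (F : Finset K3) {f : K3 → ℝ} (hD : ∑ k ∈ F, f k ^ 2 ≤ D) :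
    ∑ k ∈ F, f k * ∑' p, U p * V (k - p) ≤ Real.sqrt D * (Real.sqrt (2 * Z7) * Real.sqrt (A * B)) := by
  have hZ := Z7_nonneg
  have hA0 : 0 ≤ ∑' k, jb k ^ (3 / 2 : ℝ) * U k ^ 2 := tsum_nonneg fun k =>
    mul_nonneg (Real.rpow_nonneg (jb_pos k).le _) (sq_nonneg _)
  have hB0 : 0 ≤ ∑' k, jb k ^ (2 : ℝ) * V k ^ 2 := tsum_nonneg fun k =>
    mul_nonneg (Real.rpow_nonneg (jb_pos k).le _) (sq_nonneg _)
  have h1 := conv_sq hU hV sU sV F
  refine (Real.sum_mul_le_sqrt_mul_sqrt F f _).trans ?_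
  refine mul_le_mul (Real.sqrt_le_sqrt hD) ?_ (Real.sqrt_nonneg _) (Real.sqrt_nonneg _)
  rw [← Real.sqrt_mul (by positivity)]
  refine Real.sqrt_le_sqrt (h1.trans ?_)
  exact mul_le_mul_of_nonneg_left (mul_le_mul hA hB hB0 (hA0.trans hA)) (by positivity)

theorem comm_UV (k : K3) : ∑' p, V p * U (k - p) = ∑' p, U p * V (k - p) := by
  have h := (Equiv.subLeft k).tsum_eq fun p => U p * V (k - p)
  rw [← h]
  refine tsum_congr fun p => ?_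
  show _ = U (k - p) * V (k - (k - p))
  rw [sub_sub_cancel, mul_comm]

end

theorem norm_nl_conv {u v : Cf} (hu : Sm 0 u) (hv : Sm 0 v) (k : K3) :
    ‖nl (dw univ) u v k‖ ≤ 12 * len k * ∑' p, ‖u p‖ * ‖v (k - p)‖ := by
  refine (norm_nl_cs2 (D := univ) hu hv k).trans ?_
  refine mul_le_mul_of_nonneg_left ?_ (by have := len_nonneg k; positivity)
  refine (summable_cs2 hu hv k).tsum_le_tsum (fun p => ?_) (summable_pair hu hv k)
  have h1 := dd_le (D := univ) (p, k - p)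
  have h2 : 0 ≤ ‖u p‖ * ‖v (k - p)‖ := by positivity
  nlinarith

theorem abs_ip_nl {u v : Cf} (hu : Sm 0 u) (hv : Sm 0 v) (w : Cf) (k : K3) :
    |ip (nl (dw univ) u v k) (w k)| ≤ 36 * ((len k * ‖w k‖) * ∑' p, ‖u p‖ * ‖v (k - p)‖) := by
  refine (RT.abs_ip_le _ _).trans ?_
  have h1 := norm_nl_conv hu hv k
  have h2 := mul_le_mul_of_nonneg_right h1 (norm_nonneg (w k))
  nlinarith

/-- Interpolation. -/
theorem interp {ε x : ℝ} (hε : 0 < ε) (hx : 1 ≤ x) :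
    x ^ (3 / 2 : ℝ) ≤ ε * x ^ (2 : ℝ) + ε⁻¹ ^ 3 := by
  have hx0 : 0 < x := by linarith
  have e1 : x ^ (2 : ℝ) = x ^ (3 / 2 : ℝ) * x ^ (1 / 2 : ℝ) := by
    rw [← Real.rpow_add hx0]; norm_num
  have p1 : 0 ≤ x ^ (3 / 2 : ℝ) := Real.rpow_nonneg hx0.le _
  rcases le_total 1 (ε * x ^ (1 / 2 : ℝ)) with h | h
  · have h1 : x ^ (3 / 2 : ℝ) ≤ ε * x ^ (2 : ℝ) := by
      rw [e1]
      nlinarith
    have h2 : 0 ≤ ε⁻¹ ^ 3 := by positivity
    linarith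
  · have h1 : x ^ (1 / 2 : ℝ) ≤ ε⁻¹ := by
      rw [le_inv_comm₀ (Real.rpow_pos_of_pos hx0 _) hε]
      rw [← one_div, le_div_iff₀ (Real.rpow_pos_of_pos hx0 _)]
      exact h
    have h2 : x ^ (3 / 2 : ℝ) = (x ^ (1 / 2 : ℝ)) ^ 3 := by
      rw [← Real.rpow_natCast, ← Real.rpow_mul hx0.le]; norm_num
    have h3 : (x ^ (1 / 2 : ℝ)) ^ 3 ≤ ε⁻¹ ^ 3 :=
      pow_le_pow_left₀ (Real.rpow_nonneg hx0.le _) h1 3
    have h4 : 0 ≤ ε * x ^ (2 : ℝ) := mul_nonneg hε.le (Real.rpow_nonneg hx0.le _)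
    linarith

end Pool.Agent.Run7.h507.SP
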