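import Pool.Agent.Run7.h507.SP.WS1

/-!
Weak-strong uniqueness: preparations.
-/

set_option autoImplicit false

open MeasureTheory Set Filter Topology
open scoped ENNReal

namespace Pool.Agent.Run7.h507.SP

open RT FD

/-- Families of coefficients with bounded energy and finite dissipation. -/
structure WX (μ : K3 → ℝ) (T : ℝ) (a : ℝ → Cf) : Prop where
  cont : ∀ k, Continuous fun t => a t k
  bdd : ∃ E : ℝ, ∀ t, ∀ F : Finset K3, ∑ k ∈ F, nsq (a t k) ≤ E
  diss : ∃ E : ℝ, ∀ F : Finset K3, ∫ s in (0 : ℝ)..T, ∑ k ∈ F, μ k * nsq (a s k) ≤ E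

section

variable {μ : K3 → ℝ} {T : ℝ} {a : ℝ → Cf} {m : ℝ → ℝ}

theorem WX.gi (h : WX μ T a) (hT : 0 ≤ T) (j : ℕ) :
    IntervalIntegrable (fun s => ∑' k, gH (4 ^ j) k * nsq (a s k)) volume 0 T := by
  obtain ⟨E, hE⟩ := h.bdd
  have hn : ∀ k, Continuous fun s => gH (4 ^ j) k * nsq (a s k) := fun k =>
    continuous_const.mul (nsq_continuous.comp (h.cont k))
  refine (tsum_int hT (f := fun k s => gH (4 ^ j) k * nsq (a s k)) (E := ∫ _s in (0 : ℝ)..T, E)
    (fun k s => mul_nonneg (gH_nonneg _ _) (nsq_nonneg _)) (fun k => (hn k).measurable)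
    (fun k => (hn k).intervalIntegrable _ _) fun F => ?_).2
  have hc : Continuous fun s => ∑ k ∈ F, gH (4 ^ j) k * nsq (a s k) :=
    continuous_finsetSum _ fun k _ => hn k
  refine intervalIntegral.integral_mono_on hT (hc.intervalIntegrable _ _)
    intervalIntegrable_const fun s _ => ?_
  refine le_trans (Finset.sum_le_sum fun k _ => ?_) (hE s F)
  have h1 := gH_le (4 ^ j) k
  have h2 := nsq_nonneg (a s k)
  nlinarith

theorem WX.sn (h : WX μ T a) (t : ℝ) : Summable fun k => nsq (a t k) := by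
  obtain ⟨E, hE⟩ := h.bdd
  exact summable_nsq_of_bdd (hE t)

theorem WX.di (h : WX μ T a) (hT : 0 ≤ T) (hμ0 : ∀ k, 0 ≤ μ k) :
    (∀ᵐ s ∂volume.restrict (Ioc 0 T), Summable fun k => μ k * nsq (a s k)) ∧
      IntervalIntegrable (fun s => ∑' k, μ k * nsq (a s k)) volume 0 T := by
  obtain ⟨E, hE⟩ := h.diss
  have hn : ∀ k, Continuous fun s => μ k * nsq (a s k) := fun k =>
    continuous_const.mul (nsq_continuous.comp (h.cont k))
  exact tsum_int hT (f := fun k s => μ k * nsq (a s k)) (E := E)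
    (fun k s => mul_nonneg (hμ0 k) (nsq_nonneg _)) (fun k => (hn k).measurable)
    (fun k => (hn k).intervalIntegrable _ _) hE

/-- The mass is small for arbitrarily large scales. -/
theorem WX.small (h : WX μ T a) (hT : 0 ≤ T) (hm0 : ∀ r, 0 ≤ m r) (hm : Monotone m)
    (hmμ : ∀ k, m (len k) ≤ μ k)
    (hdiv : ∀ K, ∃ J, K < ∑ j ∈ Finset.range J, om m j / 32 ^ j) {ε : ℝ} (hε : 0 < ε) (j₀ : ℕ) :
    ∃ j, j₀ ≤ j ∧ 32 ^ j * ∫ s in (0 : ℝ)..T, ∑' k, gH (4 ^ j) k * nsq (a s k) < ε := by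
  have hμ0 : ∀ k, 0 ≤ μ k := fun k => (hm0 _).trans (hmμ k)
  obtain ⟨hs, hi⟩ := h.di hT hμ0
  by_contra hcon
  push Not at hcon
  set D : ℝ := ∫ s in (0 : ℝ)..T, ∑' k, μ k * nsq (a s k) with hD
  have sg : ∀ j s, Summable fun k => gH (4 ^ j) k * nsq (a s k) := fun j s =>
    Summable.of_nonneg_of_le (fun k => mul_nonneg (gH_nonneg _ _) (nsq_nonneg _)) (fun k => by
      have h1 := gH_le (4 ^ j) k
      have h2 := nsq_nonneg (a s k)
      nlinarith) (h.sn s)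
  have h1 : ∀ J, ∑ j ∈ Finset.Ico j₀ J, om m j
      * ∫ s in (0 : ℝ)..T, ∑' k, gH (4 ^ j) k * nsq (a s k) ≤ D := by
    intro J
    have e1 : ∑ j ∈ Finset.Ico j₀ J, om m j
        * ∫ s in (0 : ℝ)..T, ∑' k, gH (4 ^ j) k * nsq (a s k)
        = ∫ s in (0 : ℝ)..T, ∑ j ∈ Finset.Ico j₀ J, om m j * ∑' k, gH (4 ^ j) k * nsq (a s k) := by
      rw [intervalIntegral.integral_finsetSum fun j _ => (h.gi hT j).const_mul _]
      refine Finset.sum_congr rfl fun j _ => ?_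
      rw [intervalIntegral.integral_const_mul]
    have e2 : IntervalIntegrable (fun s => ∑ j ∈ Finset.Ico j₀ J, om m j
        * ∑' k, gH (4 ^ j) k * nsq (a s k)) volume 0 T := by
      have := IntervalIntegrable.sum (Finset.Ico j₀ J) fun j _ => (h.gi hT j).const_mul (om m j)
      refine this.congr fun s _ => ?_
      simp only [Finset.sum_apply]
    rw [e1]
    refine intervalIntegral.integral_mono_ae_restrict hT e2 hi ?_
    have hs' : ∀ᵐ s ∂volume.restrict (Icc 0 T), Summable fun k => μ k * nsq (a s k) := by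
      rw [restrict_Ioc_eq_restrict_Icc] at hs
      exact hs
    filter_upwards [hs'] with s hss
    have e3 : ∑ j ∈ Finset.Ico j₀ J, om m j * ∑' k, gH (4 ^ j) k * nsq (a s k)
        = ∑' k, ∑ j ∈ Finset.Ico j₀ J, om m j * (gH (4 ^ j) k * nsq (a s k)) := by
      rw [Summable.tsum_finsetSum fun j _ => (sg j s).mul_left (om m j)]
      refine Finset.sum_congr rfl fun j _ => ?_
      rw [tsum_mul_left]
    rw [e3]
    refine (summable_sum fun j _ => (sg j s).mul_left (om m j)).tsum_le_tsum (fun k => ?_) hss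
    have e4 : ∑ j ∈ Finset.Ico j₀ J, om m j * (gH (4 ^ j) k * nsq (a s k))
        = (∑ j ∈ Finset.Ico j₀ J, om m j * gH (4 ^ j) k) * nsq (a s k) := by
      rw [Finset.sum_mul]
      exact Finset.sum_congr rfl fun j _ => by ring
    rw [e4]
    refine mul_le_mul_of_nonneg_right ((sum_om_gH' hm0 hm hmμ j₀ J k).trans ?_) (nsq_nonneg _)
    have h1 := gH_le (4 ^ j₀) k
    have h2 := hμ0 k
    nlinarith
  have h2 : ∀ J, ∑ j ∈ Finset.Ico j₀ J, om m j / 32 ^ j ≤ D / ε := by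
    intro J
    rw [le_div_iff₀ hε, Finset.sum_mul]
    refine le_trans (Finset.sum_le_sum fun j hj => ?_) (h1 J)
    have h3 := hcon j (Finset.mem_Ico.1 hj).1
    have h4 := om_nonneg hm0 hm j
    have h5 : (0 : ℝ) < 32 ^ j := by positivity
    calc om m j / 32 ^ j * ε ≤ om m j / 32 ^ j
          * (32 ^ j * ∫ s in (0 : ℝ)..T, ∑' k, gH (4 ^ j) k * nsq (a s k)) :=
          mul_le_mul_of_nonneg_left h3 (div_nonneg h4 h5.le)
      _ = _ := by field_simp
  have hD0 : 0 ≤ D / ε := by simpa using h2 0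
  obtain ⟨J, hJ⟩ := hdiv (∑ j ∈ Finset.range j₀, om m j / 32 ^ j + D / ε)
  rcases le_total J j₀ with h3 | h3
  · have h4 : ∑ j ∈ Finset.range J, om m j / 32 ^ j ≤ ∑ j ∈ Finset.range j₀, om m j / 32 ^ j :=
      Finset.sum_le_sum_of_subset_of_nonneg (Finset.range_mono h3) fun j _ _ =>
        div_nonneg (om_nonneg hm0 hm j) (by positivity)
    linarith
  · have h4 := Finset.sum_range_add_sum_Ico (fun j => om m j / 32 ^ j) h3
    have h5 := h2 J
    linarith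


end

theorem jb_sq_le (k : K3) : jb k ^ 2 ≤ 1 + RT.sq k := by
  rw [← len_sq]
  unfold jb
  rcases le_total 1 (len k) with h | h
  · rw [max_eq_right h]; linarith
  · rw [max_eq_left h]; nlinarith [sq_nonneg (len k)]

/-- The perturbation terms. -/
theorem pert {μ : K3 → ℝ} {ν : ℝ} (hν : 0 < ν) (hμ : ∀ k, ν * RT.sq k ≤ μ k) {X : ℝ} (hX : 0 ≤ X) :
    ∃ C : ℝ, 0 ≤ C ∧ ∀ w v : Cf, (Summable fun k => nsq (w k)) →
      (Summable fun k => μ k * nsq (w k)) → (∀ F : Finset K3, ∑ k ∈ F, jb k ^ 2 * nsq (v k) ≤ X) →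
      ∀ F : Finset K3, ∑ k ∈ F, |ip (nl (dw univ) w v k) (w k) + ip (nl (dw univ) v w k) (w k)|
        ≤ ∑' k, μ k * nsq (w k) + C * ∑' k, nsq (w k) := by
  have hZ := Z7_nonneg
  set c0 : ℝ := 72 * (Real.sqrt (2 * Z7) * Real.sqrt X) with hc0
  have hc00 : 0 ≤ c0 := by positivity
  set ε : ℝ := ν ^ 2 / (c0 ^ 2 + 1) with hε
  have hε0 : 0 < ε := by positivity
  set M : ℝ := ε + ε⁻¹ ^ 3 with hM
  have hM0 : 0 ≤ M := by positivity
  refine ⟨c0 ^ 2 / (2 * ν) * M, by positivity, fun w v hw hμw hv F => ?_⟩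
  set d := ∑' k, μ k * nsq (w k) with hd
  set y := ∑' k, nsq (w k) with hy
  have hμn : ∀ k, 0 ≤ μ k * nsq (w k) := fun k =>
    mul_nonneg ((mul_nonneg hν.le (sq_nonneg' k)).trans (hμ k)) (nsq_nonneg _)
  have hd0 : 0 ≤ d := tsum_nonneg hμn
  have hy0 : 0 ≤ y := tsum_nonneg fun k => nsq_nonneg _
  have w0 : Sm 0 w := Summable.of_nonneg_of_le (fun k => wnn 0 w k) (fun k => by
    rw [Real.rpow_zero, one_mul]; exact norm_sq_le_nsq _) hw
  have v2 : Summable fun k => jb k ^ 2 * nsq (v k) :=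
    summable_of_sum_le (fun k => mul_nonneg (sq_nonneg _) (nsq_nonneg _)) hv
  have hv' : ∀ k, jb k ^ (2 : ℝ) * ‖v k‖ ^ 2 ≤ jb k ^ 2 * nsq (v k) := by
    intro k
    rw [Real.rpow_two]
    exact mul_le_mul_of_nonneg_left (norm_sq_le_nsq _) (sq_nonneg _)
  have v2' : Summable fun k => jb k ^ (2 : ℝ) * ‖v k‖ ^ 2 :=
    Summable.of_nonneg_of_le (fun k => wnn 2 v k) hv' v2
  have v0 : Sm 0 v := Sm.mono (b := 2) v2' (by norm_num)
  have hB : ∑' k, jb k ^ (2 : ℝ) * ‖v k‖ ^ 2 ≤ X :=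
    v2'.tsum_le_of_sum_le fun F => (Finset.sum_le_sum fun k _ => hv' k).trans (hv F)
  have hw' : ∀ k, jb k ^ (3 / 2 : ℝ) * ‖w k‖ ^ 2 ≤ ε / ν * (μ k * nsq (w k)) + M * nsq (w k) := by
    intro k
    have h1 := interp hε0 (one_le_jb k)
    rw [Real.rpow_two] at h1
    have h2 := jb_sq_le k
    have h3 : RT.sq k ≤ μ k / ν := by
      rw [le_div_iff₀ hν]; have := hμ k; linarith
    have h4 : jb k ^ (3 / 2 : ℝ) ≤ ε / ν * μ k + M := by
      have : ε * jb k ^ 2 ≤ ε * (1 + μ k / ν) :=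
        mul_le_mul_of_nonneg_left (h2.trans (by linarith)) hε0.le
      have e : ε * (1 + μ k / ν) = ε / ν * μ k + ε := by ring
      rw [hM]
      linarith
    have h5 : 0 ≤ jb k ^ (3 / 2 : ℝ) := Real.rpow_nonneg (jb_pos k).le _
    calc jb k ^ (3 / 2 : ℝ) * ‖w k‖ ^ 2 ≤ (ε / ν * μ k + M) * nsq (w k) :=
          mul_le_mul h4 (norm_sq_le_nsq _) (sq_nonneg _) (h5.trans h4)
      _ = _ := by ring
  have sA : Summable fun k => ε / ν * (μ k * nsq (w k)) + M * nsq (w k) :=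
    (hμw.mul_left _).add (hw.mul_left _)
  have sw : Summable fun k => jb k ^ (3 / 2 : ℝ) * ‖w k‖ ^ 2 :=
    Summable.of_nonneg_of_le (fun k => wnn (3 / 2) w k) hw' sA
  have hA : ∑' k, jb k ^ (3 / 2 : ℝ) * ‖w k‖ ^ 2 ≤ ε / ν * d + M * y := by
    refine (sw.tsum_le_tsum hw' sA).trans (le_of_eq ?_)
    rw [(hμw.mul_left _).tsum_add (hw.mul_left _), tsum_mul_left, tsum_mul_left]
  have hD : ∑ k ∈ F, (len k * ‖w k‖) ^ 2 ≤ d / ν := by
    rw [le_div_iff₀ hν, Finset.sum_mul]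
    refine le_trans (Finset.sum_le_sum fun k _ => ?_) (hμw.sum_le_tsum F fun k _ => hμn k)
    rw [mul_pow, len_sq]
    have h1 := mul_le_mul (hμ k) (norm_sq_le_nsq (w k)) (sq_nonneg _)
      ((mul_nonneg hν.le (sq_nonneg' k)).trans (hμ k))
    linarith
  have h1 : ∀ k ∈ F, |ip (nl (dw univ) w v k) (w k) + ip (nl (dw univ) v w k) (w k)|
      ≤ 72 * ((len k * ‖w k‖) * ∑' p, ‖w p‖ * ‖v (k - p)‖) := by
    intro k _
    have a1 := abs_ip_nl w0 v0 w k
    have a2 := abs_ip_nl v0 w0 w k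
    have a3 := comm_UV (U := fun p => ‖w p‖) (V := fun p => ‖v p‖) k
    rw [a3] at a2
    have a4 := abs_add_le (ip (nl (dw univ) w v k) (w k)) (ip (nl (dw univ) v w k) (w k))
    linarith
  refine (Finset.sum_le_sum h1).trans ?_
  rw [← Finset.mul_sum]
  have h2 := tri (U := fun p => ‖w p‖) (V := fun p => ‖v p‖) (fun _ => norm_nonneg _)
    (fun _ => norm_nonneg _) sw v2' hA hB F hD
  set A := ε / ν * d + M * y with hAd
  have hA0 : 0 ≤ A := by positivity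
  have h3 : 72 * (Real.sqrt (d / ν) * (Real.sqrt (2 * Z7) * Real.sqrt (A * X)))
      = c0 * (Real.sqrt (d / ν) * Real.sqrt A) := by
    rw [Real.sqrt_mul hA0, hc0]
    ring
  have h4 : c0 * (Real.sqrt (d / ν) * Real.sqrt A) ≤ d / 2 + c0 ^ 2 / (2 * ν) * A := by
    have e1 : Real.sqrt (d / ν) ^ 2 = d / ν := Real.sq_sqrt (by positivity)
    have e2 : Real.sqrt A ^ 2 = A := Real.sq_sqrt hA0
    have e3 := sq_nonneg (ν * Real.sqrt (d / ν) - c0 * Real.sqrt A)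
    have e4 : 2 * ν * (c0 * (Real.sqrt (d / ν) * Real.sqrt A))
        ≤ ν ^ 2 * (Real.sqrt (d / ν) ^ 2) + c0 ^ 2 * Real.sqrt A ^ 2 := by nlinarith
    rw [e1, e2] at e4
    have e5 : ν ^ 2 * (d / ν) = ν * d := by field_simp
    rw [e5] at e4
    have e6 : d / 2 + c0 ^ 2 / (2 * ν) * A = (ν * d + c0 ^ 2 * A) / (2 * ν) := by field_simp
    rw [e6, le_div_iff₀ (by positivity)]
    linarith
  have h5 : c0 ^ 2 / (2 * ν) * A ≤ d / 2 + c0 ^ 2 / (2 * ν) * M * y := by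
    have e1 : c0 ^ 2 / (2 * ν) * A = c0 ^ 2 * ε / ν ^ 2 * (d / 2) + c0 ^ 2 / (2 * ν) * M * y := by
      rw [hAd]
      field_simp
    have e2 : c0 ^ 2 * ε / ν ^ 2 ≤ 1 := by
      rw [hε, div_le_one (by positivity), ← mul_div_assoc, div_le_iff₀ (by positivity)]
      nlinarith [sq_nonneg ν]
    have e3 : c0 ^ 2 * ε / ν ^ 2 * (d / 2) ≤ 1 * (d / 2) :=
      mul_le_mul_of_nonneg_right e2 (by positivity)
    linarith
  linarith [mul_le_mul_of_nonneg_left h2 (by norm_num : (0 : ℝ) ≤ 72)]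

end Pool.Agent.Run7.h507.SP
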