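import Pool.Agent.Run7.h507.SP.WS2

/-!
Weak-strong uniqueness, without energy inequality.
-/

set_option autoImplicit false

open MeasureTheory Set Filter Topology
open scoped ENNReal

namespace Pool.Agent.Run7.h507.SP

open RT FD

theorem norm_le_en {a : Cf} {E : ℝ} (h : ∀ F : Finset K3, ∑ k ∈ F, nsq (a k) ≤ E) (k : K3) :
    ‖a k‖ ≤ Real.sqrt E := by
  refine Real.le_sqrt_of_sq_le ((norm_sq_le_nsq _).trans ?_)
  have := h {k}
  simpa using this

/-- The difference of the nonlinear terms. -/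
theorem nl_diff {u v : Cf} (hu : Sm 0 u) (hv : Sm 0 v) (k : K3) :
    nl (dw univ) u u k - nl (dw univ) v v k
      = nl (dw univ) (u - v) (u - v) k + (nl (dw univ) (u - v) v k + nl (dw univ) v (u - v) k) := by
  have hw : Sm 0 (u - v) := hu.sub hv
  rw [nl_add_right hw hu hv, nl_add_left hu hv hu, nl_add_right hv hu hv]
  abel

section

variable {μ : K3 → ℝ} {T : ℝ} {f : ℝ → Cf} {c : Cf} {a b : ℝ → Cf} {m : ℝ → ℝ} {ν : ℝ}

/-- Weak-strong uniqueness. -/
theorem ws_uniq (hν : 0 < ν) (hμ : ∀ k, ν * RT.sq k ≤ μ k) (hm0 : ∀ r, 0 ≤ m r) (hm : Monotone m)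
    (hmμ : ∀ k, m (len k) ≤ μ k)
    (hdiv : ∀ K, ∃ J, K < ∑ j ∈ Finset.range J, om m j / 32 ^ j) (hT : 0 ≤ T)
    (ha : WE μ T f c a) (hb : WE μ T f c b) {X : ℝ}
    (hX : ∀ t, ∀ F : Finset K3, ∑ k ∈ F, jb k ^ 2 * nsq (b t k) ≤ X) :
    ∀ t ∈ Icc 0 T, a t = b t := by
  have hμ0 : ∀ k, 0 ≤ μ k := fun k => (hm0 _).trans (hmμ k)
  have hX0 : 0 ≤ X := by simpa using hX 0 ∅
  obtain ⟨C, hC0, hC⟩ := pert hν hμ hX0
  obtain ⟨Ea, hEa⟩ := ha.bdd
  obtain ⟨Eb, hEb⟩ := hb.bdd
  obtain ⟨Da, hDa⟩ := ha.diss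
  obtain ⟨Db, hDb⟩ := hb.diss
  have hle : ∀ s k, nsq ((a s - b s) k) ≤ 2 * nsq (a s k) + 2 * nsq (b s k) :=
    fun s k => nsq_add_le _ _
  set E := 2 * Ea + 2 * Eb with hE
  have ew : ∀ s, ∀ F : Finset K3, ∑ k ∈ F, nsq ((a s - b s) k) ≤ E := by
    intro s F
    refine (Finset.sum_le_sum fun k _ => hle s k).trans ?_
    rw [Finset.sum_add_distrib, ← Finset.mul_sum, ← Finset.mul_sum]
    have := hEa s F
    have := hEb s F
    linarith
  have hE0 : 0 ≤ E := by simpa using ew 0 ∅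
  have wc : ∀ k, Continuous fun s => (a s - b s) k := fun k => (ha.cont k).sub (hb.cont k)
  have wn : ∀ k, Continuous fun s => nsq ((a s - b s) k) := fun k => nsq_continuous.comp (wc k)
  have an : ∀ k, Continuous fun s => nsq (a s k) := fun k => nsq_continuous.comp (ha.cont k)
  have bn : ∀ k, Continuous fun s => nsq (b s k) := fun k => nsq_continuous.comp (hb.cont k)
  have hW : WX μ T fun s => a s - b s := by
    refine ⟨wc, ⟨E, ew⟩, ⟨2 * Da + 2 * Db, fun F => ?_⟩⟩
    have c1 : Continuous fun s => ∑ k ∈ F, μ k * nsq ((a s - b s) k) :=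
      continuous_finsetSum _ fun k _ => continuous_const.mul (wn k)
    have c2 : Continuous fun s => ∑ k ∈ F, μ k * nsq (a s k) :=
      continuous_finsetSum _ fun k _ => continuous_const.mul (an k)
    have c3 : Continuous fun s => ∑ k ∈ F, μ k * nsq (b s k) :=
      continuous_finsetSum _ fun k _ => continuous_const.mul (bn k)
    have h1 : ∫ s in (0 : ℝ)..T, ∑ k ∈ F, μ k * nsq ((a s - b s) k)
        ≤ ∫ s in (0 : ℝ)..T, (2 * ∑ k ∈ F, μ k * nsq (a s k) + 2 * ∑ k ∈ F, μ k * nsq (b s k)) := by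
      refine intervalIntegral.integral_mono_on hT (c1.intervalIntegrable _ _)
        (((continuous_const.mul c2).add (continuous_const.mul c3)).intervalIntegrable _ _)
        fun s _ => ?_
      rw [Finset.mul_sum, Finset.mul_sum, ← Finset.sum_add_distrib]
      refine Finset.sum_le_sum fun k _ => ?_
      have := mul_le_mul_of_nonneg_left (hle s k) (hμ0 k)
      linarith
    refine h1.trans ?_
    have i2 : IntervalIntegrable (fun s => 2 * ∑ k ∈ F, μ k * nsq (a s k)) volume 0 T :=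
      (continuous_const.mul c2).intervalIntegrable _ _
    have i3 : IntervalIntegrable (fun s => 2 * ∑ k ∈ F, μ k * nsq (b s k)) volume 0 T :=
      (continuous_const.mul c3).intervalIntegrable _ _
    rw [intervalIntegral.integral_add i2 i3, intervalIntegral.integral_const_mul,
      intervalIntegral.integral_const_mul]
    have := hDa F
    have := hDb F
    linarith
  obtain ⟨hds, hdi⟩ := hW.di hT hμ0
  set G : K3 → ℝ → C3 := fun k s => -(μ k • (a s - b s) k
    + (nl (dw univ) (a s) (a s) k - nl (dw univ) (b s) (b s) k)) with hG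
  have la : ∀ k t, IntervalIntegrable (fun s => μ k • a s k) volume 0 t := fun k t =>
    ((ha.cont k).const_smul (μ k)).intervalIntegrable _ _
  have lb : ∀ k t, IntervalIntegrable (fun s => μ k • b s k) volume 0 t := fun k t =>
    ((hb.cont k).const_smul (μ k)).intervalIntegrable _ _
  have iG : ∀ k t, IntervalIntegrable (G k) volume 0 t := by
    intro k t
    have h1 := (((la k t).sub (lb k t)).add ((ha.nli k 0 t).sub (hb.nli k 0 t))).neg
    refine h1.congr fun s _ => ?_
    simp only [hG, Pi.sub_apply, smul_sub]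
    rfl
  have weq : ∀ t ∈ Icc 0 T, ∀ k, (a t - b t) k = ∫ s in (0 : ℝ)..t, G k s := by
    intro t ht k
    have hf := ii_sub (ha.fint k) ht
    rw [Pi.sub_apply, ha.eqn t ht k, hb.eqn t ht k]
    have e1 : ∫ s in (0 : ℝ)..t, G k s
        = (∫ s in (0 : ℝ)..t, (f s k - μ k • a s k - nl (dw univ) (a s) (a s) k))
          - ∫ s in (0 : ℝ)..t, (f s k - μ k • b s k - nl (dw univ) (b s) (b s) k) := by
      rw [← intervalIntegral.integral_sub ((hf.sub (la k t)).sub (ha.nli k 0 t))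
        ((hf.sub (lb k t)).sub (hb.nli k 0 t))]
      refine intervalIntegral.integral_congr fun s _ => ?_
      simp only [hG, Pi.sub_apply, smul_sub]
      abel
    rw [e1]
    abel
  have hsub : ∀ {t}, t ∈ Icc 0 T → uIcc 0 t ⊆ uIcc 0 T := by
    intro t ht
    rw [uIcc_of_le ht.1, uIcc_of_le hT]
    exact Icc_subset_Icc le_rfl ht.2
  have hcongr : ∀ t ∈ Icc 0 T, ∀ k, EqOn (fun s => 2 * ip (G k s) (∫ r in (0 : ℝ)..s, G k r))
      (fun s => 2 * ip (G k s) ((a s - b s) k)) (uIcc 0 t) := by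
    intro t ht k s hs
    have hs' : s ∈ Icc 0 T := by
      have := hsub ht hs
      rwa [uIcc_of_le hT] at this
    show 2 * ip (G k s) (∫ r in (0 : ℝ)..s, G k r) = 2 * ip (G k s) ((a s - b s) k)
    rw [weq s hs' k]
  have iip : ∀ t ∈ Icc 0 T, ∀ k,
      IntervalIntegrable (fun s => 2 * ip (G k s) ((a s - b s) k)) volume 0 t := fun t ht k =>
    (ip_int_ii ht.1 (iG k t) (iG k t)).congr fun s hs => hcongr t ht k (uIoc_subset_uIcc hs)
  have hnsq : ∀ t ∈ Icc 0 T, ∀ k, nsq ((a t - b t) k)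
      = ∫ s in (0 : ℝ)..t, 2 * ip (G k s) ((a s - b s) k) := by
    intro t ht k
    rw [weq t ht k, nsq_int ht.1 (iG k t)]
    exact intervalIntegral.integral_congr (hcongr t ht k)
  -- the two parts
  have nlc : ∀ {u v : ℝ → Cf}, (∀ k, Continuous fun t => u t k) → (∀ k, Continuous fun t => v t k) →
      (∃ E : ℝ, ∀ t, ∀ F : Finset K3, ∑ k ∈ F, nsq (u t k) ≤ E) →
      (∃ E : ℝ, ∀ t, ∀ F : Finset K3, ∑ k ∈ F, nsq (v t k) ≤ E) → ∀ k t,
      IntervalIntegrable (fun s => ip (nl (dw univ) (u s) (v s) k) ((a s - b s) k)) volume 0 t := by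
    intro u v hu hv hu2 hv2 k t
    obtain ⟨E1, hE1⟩ := hu2
    obtain ⟨E2, hE2⟩ := hv2
    have m1 := meas_nl (D := univ) hu hv (fun t => (sm0_of_bdd (hE1 t)).1)
      (fun t => (sm0_of_bdd (hE2 t)).1) k
    have m2 : Measurable fun s => ip (nl (dw univ) (u s) (v s) k) ((a s - b s) k) := by
      have hc : Continuous fun p : C3 × C3 => ip p.1 p.2 := by
        unfold ip
        fun_prop
      exact hc.measurable.comp (m1.prodMk (wc k).measurable)
    have h1 : IntervalIntegrable (fun _ : ℝ => 3 * ((12 * len k * max E1 E2) * Real.sqrt E))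
      volume 0 t := intervalIntegrable_const
    refine h1.mono_fun m2.aestronglyMeasurable (Eventually.of_forall fun s => ?_)
    show ‖ip (nl (dw univ) (u s) (v s) k) ((a s - b s) k)‖
      ≤ ‖3 * ((12 * len k * max E1 E2) * Real.sqrt E)‖
    rw [Real.norm_eq_abs, Real.norm_eq_abs]
    refine le_trans ?_ (le_abs_self _)
    refine (RT.abs_ip_le _ _).trans (mul_le_mul_of_nonneg_left ?_ (by norm_num))
    have n1 := norm_nl_le0 (D := univ) (sm0_of_bdd (hE1 s)).1 (sm0_of_bdd (hE2 s)).1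
      ((sm0_of_bdd (hE1 s)).2.trans (le_max_left E1 E2))
      ((sm0_of_bdd (hE2 s)).2.trans (le_max_right E1 E2)) k
    exact mul_le_mul n1 (norm_le_en (ew s) k) (norm_nonneg _) ((norm_nonneg _).trans n1)
  have ww := nlc wc wc ⟨E, ew⟩ ⟨E, ew⟩
  have wb := nlc wc hb.cont ⟨E, ew⟩ hb.bdd
  have bw := nlc hb.cont wc hb.bdd ⟨E, ew⟩
  set q : ℝ → K3 → ℝ := fun s k => ip (nl (dw univ) (a s - b s) (b s) k) ((a s - b s) k)
    + ip (nl (dw univ) (b s) (a s - b s) k) ((a s - b s) k) with hq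
  have iq : ∀ k t, IntervalIntegrable (fun s => q s k) volume 0 t := fun k t =>
    (wb k t).add (bw k t)
  have hexp : ∀ s k, 2 * ip (G k s) ((a s - b s) k)
      = (-(2 * (μ k * nsq ((a s - b s) k))) - 2 * q s k)
        - 2 * ip (nl (dw univ) (a s - b s) (a s - b s) k) ((a s - b s) k) := by
    intro s k
    simp only [hG, hq]
    rw [nl_diff (ha.sm s) (hb.sm s), ip_neg_left, ip_add_left, ip_smul_left, ip_self, ip_add_left,
      ip_add_left]
    ring
  set Fn : ℕ → ℝ → ℝ := fun n s => ∑ k ∈ low n, (-(2 * (μ k * nsq ((a s - b s) k))) - 2 * q s k)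
    with hFn
  have iFk : ∀ k t, IntervalIntegrable (fun s => -(2 * (μ k * nsq ((a s - b s) k))) - 2 * q s k)
      volume 0 t := fun k t =>
    ((continuous_const.mul (continuous_const.mul (wn k))).neg.intervalIntegrable _ _).sub
      ((iq k t).const_mul 2)
  have iFn : ∀ n t, IntervalIntegrable (Fn n) volume 0 t := by
    intro n t
    have h1 : IntervalIntegrable (∑ k ∈ low n, fun s => -(2 * (μ k * nsq ((a s - b s) k)))
      - 2 * q s k) volume 0 t := IntervalIntegrable.sum _ fun k _ => iFk k t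
    refine h1.congr fun s _ => ?_
    simp only [hFn, Finset.sum_apply]
  set Xn : ℕ → ℝ → ℝ := fun n t => ∑ k ∈ low n, ∫ s in (0 : ℝ)..t,
    ip (nl (dw univ) (a s - b s) (a s - b s) k) ((a s - b s) k) with hXn
  have hyn : ∀ t ∈ Icc 0 T, ∀ n, ∑ k ∈ low n, nsq ((a t - b t) k)
      = (∫ s in (0 : ℝ)..t, Fn n s) - 2 * Xn n t := by
    intro t ht n
    have e1 : ∀ k, nsq ((a t - b t) k) = (∫ s in (0 : ℝ)..t, (-(2 * (μ k * nsq ((a s - b s) k)))
        - 2 * q s k)) - 2 * ∫ s in (0 : ℝ)..t,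
          ip (nl (dw univ) (a s - b s) (a s - b s) k) ((a s - b s) k) := by
      intro k
      rw [hnsq t ht k, ← intervalIntegral.integral_const_mul,
        ← intervalIntegral.integral_sub (iFk k t) ((ww k t).const_mul 2)]
      exact intervalIntegral.integral_congr fun s _ => hexp s k
    rw [Finset.sum_congr rfl fun k _ => e1 k, Finset.sum_sub_distrib, ← Finset.mul_sum, hXn]
    congr 1
    exact (intervalIntegral.integral_finsetSum fun k _ => iFk k t).symm
  have wh : ∀ s, Herm (a s - b s) := fun s => (ha.herm s).sub (hb.herm s)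
  have wd : ∀ s, Dv (a s - b s) := fun s => (ha.div s).sub (hb.div s)
  have ws : ∀ s, Sm 0 (a s - b s) := fun s => (ha.sm s).sub (hb.sm s)
  have hK := K1_nonneg
  have hXs : ∀ t ∈ Icc 0 T, ∀ j, |Xn j t| ≤ 27 / 2 * (K1 * 32 * Real.sqrt E)
        * (32 ^ j * ∫ s in (0 : ℝ)..T, ∑' k, gH (4 ^ j) k * nsq ((a s - b s) k)) := by
    intro t ht j
    have hg := hW.gi hT j
    have hgt := ii_sub hg ht
    simp only [hXn]
    rw [← intervalIntegral.integral_finsetSum fun k _ => ww k t]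
    have hc : 0 ≤ 27 / 2 * (K1 * 32 ^ (j + 1) * Real.sqrt E) := by positivity
    have h1 : |∫ s in (0 : ℝ)..t, ∑ k ∈ low j,
          ip (nl (dw univ) (a s - b s) (a s - b s) k) ((a s - b s) k)|
        ≤ ∫ s in (0 : ℝ)..t, 27 / 2 * (K1 * 32 ^ (j + 1) * Real.sqrt E)
          * ∑' k, gH (4 ^ j) k * nsq ((a s - b s) k) := by
      have h2 := intervalIntegral.norm_integral_le_of_norm_le ht.1
        (f := fun s => ∑ k ∈ low j,
          ip (nl (dw univ) (a s - b s) (a s - b s) k) ((a s - b s) k))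
        (g := fun s => 27 / 2 * (K1 * 32 ^ (j + 1) * Real.sqrt E)
          * ∑' k, gH (4 ^ j) k * nsq ((a s - b s) k)) (μ := volume)
        (Eventually.of_forall fun s _ => by
          rw [Real.norm_eq_abs]
          exact flux3 (ws s) (wh s) (wd s) (ew s) j) (hgt.const_mul _)
      rwa [Real.norm_eq_abs] at h2
    refine h1.trans ?_
    rw [intervalIntegral.integral_const_mul]
    have h3 : ∫ s in (0 : ℝ)..t, ∑' k, gH (4 ^ j) k * nsq ((a s - b s) k)
        ≤ ∫ s in (0 : ℝ)..T, ∑' k, gH (4 ^ j) k * nsq ((a s - b s) k) := by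
      refine intervalIntegral.integral_mono_interval le_rfl ht.1 ht.2 ?_ hg
      exact Eventually.of_forall fun s => tsum_nonneg fun k =>
        mul_nonneg (gH_nonneg _ _) (nsq_nonneg _)
    refine (mul_le_mul_of_nonneg_left h3 hc).trans (le_of_eq ?_)
    rw [pow_succ]
    ring
  -- the limit of the first part
  set d : ℝ → ℝ := fun s => ∑' k, μ k * nsq ((a s - b s) k) with hd
  set y : ℝ → ℝ := fun s => ∑' k, nsq ((a s - b s) k) with hy
  have sn : ∀ s, Summable fun k => nsq ((a s - b s) k) := fun s => summable_nsq_of_bdd (ew s)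
  have hy0 : ∀ s, 0 ≤ y s := fun s => tsum_nonneg fun k => nsq_nonneg _
  have hyE : ∀ s, y s ≤ E := fun s => (sn s).tsum_le_of_sum_le (ew s)
  have hd0 : ∀ s, 0 ≤ d s := fun s => tsum_nonneg fun k => mul_nonneg (hμ0 k) (nsq_nonneg _)
  have hqs : ∀ s, (Summable fun k => μ k * nsq ((a s - b s) k)) → ∀ F : Finset K3,
      ∑ k ∈ F, |q s k| ≤ d s + C * y s := fun s hs F =>
    hC (a s - b s) (b s) (sn s) hs (hX s) F
  have ht2 : ∀ᵐ s ∂volume, s ∈ Ioc 0 T → Summable fun k => μ k * nsq ((a s - b s) k) :=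
    (ae_restrict_iff' measurableSet_Ioc).1 hds
  set bd : ℝ → ℝ := fun s => 4 * d s + 2 * C * E with hbd
  have ibd : IntervalIntegrable bd volume 0 T := (hdi.const_mul 4).add intervalIntegrable_const
  set g : ℝ → ℝ := fun s => -(2 * d s) - 2 * ∑' k, q s k with hg
  have hmem : ∀ {t}, t ∈ Icc 0 T → ∀ {s}, s ∈ uIoc 0 t → s ∈ Ioc 0 T := by
    intro t ht s hs
    rw [uIoc_of_le ht.1] at hs
    exact ⟨hs.1, hs.2.trans ht.2⟩
  have hbound : ∀ t ∈ Icc 0 T, ∀ n, ∀ᵐ s ∂volume, s ∈ uIoc 0 t → ‖Fn n s‖ ≤ bd s := by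
    intro t ht n
    filter_upwards [ht2] with s hs hst
    have hs' := hs (hmem ht hst)
    rw [Real.norm_eq_abs]
    refine (Finset.abs_sum_le_sum_abs _ _).trans ?_
    have h1 : ∀ k ∈ low n, |-(2 * (μ k * nsq ((a s - b s) k))) - 2 * q s k|
        ≤ 2 * (μ k * nsq ((a s - b s) k)) + 2 * |q s k| := by
      intro k _
      have a1 := mul_nonneg (hμ0 k) (nsq_nonneg ((a s - b s) k))
      have a2 := le_abs_self (q s k)
      have a3 := neg_abs_le (q s k)
      rw [abs_le]
      constructor <;> linarith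
    refine (Finset.sum_le_sum h1).trans ?_
    rw [Finset.sum_add_distrib, ← Finset.mul_sum, ← Finset.mul_sum]
    have h2 := hs'.sum_le_tsum (low n) fun k _ => mul_nonneg (hμ0 k) (nsq_nonneg _)
    have h3 := hqs s hs' (low n)
    have h4 := mul_le_mul_of_nonneg_left (hyE s) hC0
    simp only [hbd]
    change _ ≤ d s at h2
    linarith
  have sq' : ∀ s, (Summable fun k => μ k * nsq ((a s - b s) k)) → Summable fun k => |q s k| :=
    fun s hs => summable_of_sum_le (fun k => abs_nonneg _) (hqs s hs)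
  have hlim : ∀ t ∈ Icc 0 T, ∀ᵐ s ∂volume, s ∈ uIoc 0 t →
      Tendsto (fun n => Fn n s) atTop (𝓝 (g s)) := by
    intro t ht
    filter_upwards [ht2] with s hs hst
    have hs' := hs (hmem ht hst)
    have hq' : Summable fun k => q s k := Summable.of_abs (sq' s hs')
    have h1 : Tendsto (fun F : Finset K3 => ∑ k ∈ F, (-(2 * (μ k * nsq ((a s - b s) k)))
        - 2 * q s k)) atTop (𝓝 (g s)) := ((hs'.hasSum.mul_left 2).neg).sub (hq'.hasSum.mul_left 2)
    exact h1.comp tendsto_low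
  have hyf : ∀ t ∈ Icc 0 T, y t = ∫ s in (0 : ℝ)..t, g s := by
    intro t ht
    have h1 : Tendsto (fun n => ∑ k ∈ low n, nsq ((a t - b t) k)) atTop (𝓝 (y t)) := by
      have h0 : Tendsto (fun F : Finset K3 => ∑ k ∈ F, nsq ((a t - b t) k)) atTop (𝓝 (y t)) :=
        (sn t).hasSum
      exact h0.comp tendsto_low
    have h2 : Tendsto (fun n => ∫ s in (0 : ℝ)..t, Fn n s) atTop (𝓝 (∫ s in (0 : ℝ)..t, g s)) :=
      intervalIntegral.tendsto_integral_filter_of_dominated_convergence bd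
        (Eventually.of_forall fun n => (iFn n t).aestronglyMeasurable_restrict_uIoc)
        (Eventually.of_forall fun n => hbound t ht n) (ibd.mono_set (hsub ht)) (hlim t ht)
    have h3 : Tendsto (fun n => 2 * Xn n t) atTop (𝓝 ((∫ s in (0 : ℝ)..t, g s) - y t)) := by
      refine (h2.sub h1).congr fun n => ?_
      rw [hyn t ht n]
      ring
    by_contra hne
    have hpos : 0 < |(∫ s in (0 : ℝ)..t, g s) - y t| := abs_pos.2 (sub_ne_zero.2 (Ne.symm hne))
    set Z := |(∫ s in (0 : ℝ)..t, g s) - y t| with hZ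
    have h4 : ∀ᶠ n in atTop, Z / 2 < |2 * Xn n t| :=
      h3.abs.eventually (lt_mem_nhds (by linarith : Z / 2 < Z))
    obtain ⟨j₀, hj₀⟩ := eventually_atTop.1 h4
    set C2 : ℝ := 27 * (K1 * 32 * Real.sqrt E) with hC2
    have hC20 : 0 ≤ C2 := by positivity
    obtain ⟨j, hj, hj2⟩ := hW.small hT hm0 hm hmμ hdiv (ε := Z / (2 * (C2 + 1))) (by positivity) j₀
    have h5 := hj₀ j hj
    rw [abs_mul, abs_two] at h5
    have h6 := hXs t ht j
    have h7 : C2 * (32 ^ j * ∫ s in (0 : ℝ)..T, ∑' k, gH (4 ^ j) k * nsq ((a s - b s) k))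
        ≤ Z / 2 := by
      refine (mul_le_mul_of_nonneg_left hj2.le hC20).trans ?_
      rw [mul_div_assoc', div_le_div_iff₀ (by positivity) (by norm_num)]
      nlinarith
    have h8 : 2 * (27 / 2 * (K1 * 32 * Real.sqrt E)
        * (32 ^ j * ∫ s in (0 : ℝ)..T, ∑' k, gH (4 ^ j) k * nsq ((a s - b s) k)))
        = C2 * (32 ^ j * ∫ s in (0 : ℝ)..T, ∑' k, gH (4 ^ j) k * nsq ((a s - b s) k)) := by
      rw [hC2]
      ring
    linarith
  have my : Measurable y := by
    refine measurable_of_tendsto_metrizable (f := fun (n : ℕ) t => ∑ k ∈ Bn n, nsq ((a t - b t) k))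
      (fun n => ?_) ?_
    · exact Continuous.measurable (continuous_finsetSum _ fun k _ => wn k)
    · rw [tendsto_pi_nhds]
      exact fun t => tendsto_Bn_sum (sn t).hasSum
  have ig : IntervalIntegrable (fun _ : ℝ => 2 * C) volume 0 T := intervalIntegrable_const
  have igy : IntervalIntegrable (fun s => 2 * C * y s) volume 0 T := by
    rw [intervalIntegrable_iff_integrableOn_Ioc_of_le hT] at ig ⊢
    refine Integrable.mul_bdd (c := E) ig my.aestronglyMeasurable (Eventually.of_forall fun s => ?_)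
    rw [Real.norm_eq_abs, abs_of_nonneg (hy0 s)]
    exact hyE s
  have hle2 : ∀ t ∈ Icc 0 T, y t ≤ ∫ s in (0 : ℝ)..t, 2 * C * y s := by
    intro t ht
    rw [hyf t ht]
    have hfi : IntervalIntegrable g volume 0 t := by
      have h1 : AEStronglyMeasurable g (volume.restrict (uIoc 0 t)) :=
        aestronglyMeasurable_of_tendsto_ae atTop
          (fun n => (iFn n t).aestronglyMeasurable_restrict_uIoc)
          ((ae_restrict_iff' measurableSet_uIoc).2 (hlim t ht))
      refine (ibd.mono_set (hsub ht)).mono_fun h1 ?_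
      refine (ae_restrict_iff' measurableSet_uIoc).2 ?_
      have hb2 : ∀ᵐ s ∂volume, ∀ n, s ∈ uIoc 0 t → ‖Fn n s‖ ≤ bd s :=
        ae_all_iff.2 fun n => hbound t ht n
      filter_upwards [hb2, hlim t ht] with s h2 h3 hs
      refine (le_of_tendsto (h3 hs).norm (Eventually.of_forall fun n => h2 n hs)).trans ?_
      exact le_abs_self _
    refine intervalIntegral.integral_mono_ae_restrict ht.1 hfi (igy.mono_set (hsub ht)) ?_
    rw [EventuallyLE, ae_restrict_iff' measurableSet_Icc]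
    have h0 : ∀ᵐ s ∂(volume : Measure ℝ), s ≠ 0 := by
      simp [ae_iff]
    filter_upwards [ht2, h0] with s hs hs0 hst
    have hs' := hs ⟨lt_of_le_of_ne hst.1 (Ne.symm hs0), hst.2.trans ht.2⟩
    have h3 : ‖∑' k, q s k‖ ≤ ∑' k, ‖q s k‖ :=
      norm_tsum_le_tsum_norm (f := fun k => q s k) (by
        simp only [Real.norm_eq_abs]
        exact sq' s hs')
    simp only [Real.norm_eq_abs] at h3
    have h4 : ∑' k, |q s k| ≤ d s + C * y s := (sq' s hs').tsum_le_of_sum_le (hqs s hs')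
    have h2 : -(∑' k, q s k) ≤ d s + C * y s := (neg_le_abs _).trans (h3.trans h4)
    simp only [hg]
    linarith
  have hfin := gron hT ig (fun _ => by positivity) igy hle2
  intro t ht
  have h1 := hfin t ht
  funext k
  have h2 : nsq ((a t - b t) k) ≤ 0 := ((sn t).le_tsum k fun _ _ => nsq_nonneg _).trans h1
  have h3 : ‖(a t - b t) k‖ ^ 2 ≤ 0 := (norm_sq_le_nsq _).trans h2
  have h4 : ‖(a t - b t) k‖ = 0 := by
    have := sq_nonneg ‖(a t - b t) k‖
    exact pow_eq_zero_iff (two_ne_zero) |>.1 (le_antisymm h3 this)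
  have h5 : (a t - b t) k = 0 := norm_eq_zero.1 h4
  rw [Pi.sub_apply, sub_eq_zero] at h5
  exact h5

end

end Pool.Agent.Run7.h507.SP
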