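import Pool.Agent.Run7.h507.SP.WS1

/-!
Estimates for the Galerkin approximations in Sobolev spaces with growing exponents.
-/

set_option autoImplicit false

open MeasureTheory Set Filter Topology
open scoped ENNReal

namespace Pool.Agent.Run7.h507.SP

open RT FD

theorem jb_tri (k p : K3) : jb k ≤ jb p + jb (k - p) := by
  have h1 : len k ≤ jb p + jb (k - p) :=
    (len_le_add k p).trans (add_le_add (len_le_jb p) (len_le_jb _))
  have h2 := one_le_jb p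
  have h3 := one_le_jb (k - p)
  exact max_le (by linarith) h1

theorem jb_rpow_tri {s S : ℝ} (hs0 : 0 ≤ s) (hsS : s ≤ S) (k p : K3) :
    jb k ^ s ≤ 2 ^ S * (jb p ^ s + jb (k - p) ^ s) := by
  have hp := jb_pos p
  have hq := jb_pos (k - p)
  have h1 : jb k ≤ 2 * max (jb p) (jb (k - p)) := by
    have := jb_tri k p
    have := le_max_left (jb p) (jb (k - p))
    have := le_max_right (jb p) (jb (k - p))
    linarith
  have hm : 0 ≤ max (jb p) (jb (k - p)) := hp.le.trans (le_max_left _ _)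
  have p1 := Real.rpow_nonneg hp.le s
  have p2 := Real.rpow_nonneg hq.le s
  have h2 : (max (jb p) (jb (k - p))) ^ s ≤ jb p ^ s + jb (k - p) ^ s := by
    rcases le_total (jb p) (jb (k - p)) with h | h
    · rw [max_eq_right h]; linarith
    · rw [max_eq_left h]; linarith
  have h3 : (2 : ℝ) ^ s ≤ 2 ^ S := Real.rpow_le_rpow_of_exponent_le (by norm_num) hsS
  calc jb k ^ s ≤ (2 * max (jb p) (jb (k - p))) ^ s := Real.rpow_le_rpow (jb_pos k).le h1 hs0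
    _ = 2 ^ s * (max (jb p) (jb (k - p))) ^ s := Real.mul_rpow (by norm_num) hm
    _ ≤ 2 ^ S * (jb p ^ s + jb (k - p) ^ s) :=
        mul_le_mul h3 h2 (Real.rpow_nonneg hm s) (by positivity)

theorem jb_sq_le' (k : K3) : jb k ^ 2 ≤ 1 + RT.sq k := by
  rw [← len_sq]
  unfold jb
  rcases le_total 1 (len k) with h | h
  · rw [max_eq_right h]; linarith
  · rw [max_eq_left h]; nlinarith [sq_nonneg (len k)]

/-- The nonlinear term in the space with the exponent `s`. -/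
theorem nl_top {ν X S : ℝ} (hν : 0 < ν) (hX : 0 ≤ X) :
    ∃ C : ℝ, 0 ≤ C ∧ ∀ (B : Finset K3) (b : Cf), (∀ k ∉ B, b k = 0) →
      (∑ k ∈ B, jb k ^ 2 * nsq (b k) ≤ X) → ∀ s ∈ Icc 0 S,
      |∑ k ∈ B, jb k ^ (2 * s) * ip (nl (dw univ) b b k) (b k)|
        ≤ ν / 2 * ∑ k ∈ B, jb k ^ (2 * s) * (jb k ^ 2 * nsq (b k))
          + C * ∑ k ∈ B, jb k ^ (2 * s) * nsq (b k) := by
  classical
  have hZ := Z7_nonneg
  set c0 : ℝ := 72 * 2 ^ S * (Real.sqrt (2 * Z7) * Real.sqrt X) with hc0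
  have h2S : (0 : ℝ) < 2 ^ S := Real.rpow_pos_of_pos (by norm_num) _
  have hc00 : 0 ≤ c0 := by positivity
  set ε : ℝ := ν ^ 2 / (4 * (c0 ^ 2 + 1)) with hε
  have hε0 : 0 < ε := by positivity
  refine ⟨c0 ^ 2 / ν * ε⁻¹ ^ 3, by positivity, fun B b hb hbX s hs => ?_⟩
  set u : K3 → ℝ := fun k => jb k ^ s * ‖b k‖ with hu
  have hu0 : ∀ k, 0 ≤ u k := fun k => mul_nonneg (Real.rpow_nonneg (jb_pos k).le _) (norm_nonneg _)
  have ub : ∀ k ∉ B, u k = 0 := fun k hk => by rw [hu]; simp only [hb k hk, norm_zero, mul_zero]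
  have nb : ∀ k ∉ B, ‖b k‖ = 0 := fun k hk => by rw [hb k hk, norm_zero]
  have su1 : Summable fun k => jb k ^ (3 / 2 : ℝ) * u k ^ 2 :=
    summable_of_ne_finset_zero (s := B) fun k hk => by rw [ub k hk]; simp
  have su0 : Summable fun k => u k ^ 2 :=
    summable_of_ne_finset_zero (s := B) fun k hk => by rw [ub k hk]; simp
  have sb1 : Summable fun k => jb k ^ (2 : ℝ) * ‖b k‖ ^ 2 :=
    summable_of_ne_finset_zero (s := B) fun k hk => by rw [nb k hk]; simp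
  have sb0 : Summable fun k => ‖b k‖ ^ 2 :=
    summable_of_ne_finset_zero (s := B) fun k hk => by rw [nb k hk]; simp
  have b0 : Sm 0 b := sb0.congr fun k => by rw [Real.rpow_zero, one_mul]
  have hsq : ∀ k, (jb k ^ s) ^ 2 = jb k ^ (2 * s) := by
    intro k
    rw [← Real.rpow_natCast, ← Real.rpow_mul (jb_pos k).le, mul_comm]
    norm_num
  set D := ∑ k ∈ B, jb k ^ (2 * s) * (jb k ^ 2 * nsq (b k)) with hD
  set Y := ∑ k ∈ B, jb k ^ (2 * s) * nsq (b k) with hY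
  have pj : ∀ k, 0 ≤ jb k ^ (2 * s) := fun k => Real.rpow_nonneg (jb_pos k).le _
  have hD0 : 0 ≤ D := Finset.sum_nonneg fun k _ =>
    mul_nonneg (pj k) (mul_nonneg (sq_nonneg _) (nsq_nonneg _))
  have hY0 : 0 ≤ Y := Finset.sum_nonneg fun k _ => mul_nonneg (pj k) (nsq_nonneg _)
  have hA : ∑' k, jb k ^ (3 / 2 : ℝ) * u k ^ 2 ≤ ε * D + ε⁻¹ ^ 3 * Y := by
    rw [tsum_eq_sum (s := B) fun k hk => by rw [ub k hk]; simp]
    rw [hD, hY, Finset.mul_sum, Finset.mul_sum, ← Finset.sum_add_distrib]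
    refine Finset.sum_le_sum fun k _ => ?_
    have h1 := interp hε0 (one_le_jb k)
    rw [Real.rpow_two] at h1
    have h2 : u k ^ 2 = jb k ^ (2 * s) * ‖b k‖ ^ 2 := by rw [hu]; simp only [mul_pow, hsq]
    have h3 : jb k ^ (2 * s) * ‖b k‖ ^ 2 ≤ jb k ^ (2 * s) * nsq (b k) :=
      mul_le_mul_of_nonneg_left (norm_sq_le_nsq _) (pj k)
    have h4 : 0 ≤ jb k ^ (2 * s) * ‖b k‖ ^ 2 := mul_nonneg (pj k) (sq_nonneg _)
    rw [h2]
    calc jb k ^ (3 / 2 : ℝ) * (jb k ^ (2 * s) * ‖b k‖ ^ 2)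
        ≤ (ε * jb k ^ 2 + ε⁻¹ ^ 3) * (jb k ^ (2 * s) * nsq (b k)) :=
          mul_le_mul h1 h3 h4 (by positivity)
      _ = _ := by ring
  have hB : ∑' k, jb k ^ (2 : ℝ) * ‖b k‖ ^ 2 ≤ X := by
    rw [tsum_eq_sum (s := B) fun k hk => by rw [nb k hk]; simp]
    refine le_trans (Finset.sum_le_sum fun k _ => ?_) hbX
    rw [Real.rpow_two]
    exact mul_le_mul_of_nonneg_left (norm_sq_le_nsq _) (sq_nonneg _)
  have hDf : ∑ k ∈ B, (jb k ^ s * (len k * ‖b k‖)) ^ 2 ≤ D := by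
    refine Finset.sum_le_sum fun k _ => ?_
    rw [mul_pow, mul_pow, hsq]
    refine mul_le_mul_of_nonneg_left ?_ (pj k)
    exact mul_le_mul (pow_le_pow_left₀ (len_nonneg k) (len_le_jb k) 2) (norm_sq_le_nsq _)
      (sq_nonneg _) (sq_nonneg _)
  have hconv : ∀ k, jb k ^ s * ∑' p, ‖b p‖ * ‖b (k - p)‖
      ≤ 2 * 2 ^ S * ∑' p, u p * ‖b (k - p)‖ := by
    intro k
    have s1 := summable_UV (U := u) (V := fun p => ‖b p‖) hu0 (fun _ => norm_nonneg _) su0 sb0 k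
    have s2 := summable_UV (V := u) (U := fun p => ‖b p‖) (fun _ => norm_nonneg _) hu0 sb0 su0 k
    have s3 := summable_UV (V := fun p => ‖b p‖) (U := fun p => ‖b p‖) (fun _ => norm_nonneg _)
      (fun _ => norm_nonneg _) sb0 sb0 k
    have e1 := comm_UV (U := u) (V := fun p => ‖b p‖) k
    have e2 : 2 * 2 ^ S * ∑' p, u p * ‖b (k - p)‖
        = ∑' p, 2 ^ S * (u p * ‖b (k - p)‖ + ‖b p‖ * u (k - p)) := by
      rw [tsum_mul_left, s1.tsum_add s2, e1]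
      ring
    rw [e2, ← tsum_mul_left]
    refine (s3.mul_left _).tsum_le_tsum (fun p => ?_) ((s1.add s2).mul_left _)
    have h1 := jb_rpow_tri hs.1 hs.2 k p
    have h2 : 0 ≤ ‖b p‖ * ‖b (k - p)‖ := by positivity
    calc jb k ^ s * (‖b p‖ * ‖b (k - p)‖)
        ≤ 2 ^ S * (jb p ^ s + jb (k - p) ^ s) * (‖b p‖ * ‖b (k - p)‖) :=
          mul_le_mul_of_nonneg_right h1 h2
      _ = _ := by rw [hu]; ring
  have h1 : |∑ k ∈ B, jb k ^ (2 * s) * ip (nl (dw univ) b b k) (b k)|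
      ≤ 72 * 2 ^ S * ∑ k ∈ B, (jb k ^ s * (len k * ‖b k‖)) * ∑' p, u p * ‖b (k - p)‖ := by
    refine (Finset.abs_sum_le_sum_abs _ _).trans ?_
    rw [Finset.mul_sum]
    refine Finset.sum_le_sum fun k _ => ?_
    rw [abs_mul, abs_of_nonneg (pj k)]
    have a1 := mul_le_mul_of_nonneg_left (abs_ip_nl b0 b0 b k) (pj k)
    have a2 := mul_le_mul_of_nonneg_left (hconv k)
      (show 0 ≤ 36 * (jb k ^ s * (len k * ‖b k‖)) from mul_nonneg (by norm_num)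
        (mul_nonneg (Real.rpow_nonneg (jb_pos k).le _) (mul_nonneg (len_nonneg k) (norm_nonneg _))))
    refine a1.trans ((le_of_eq ?_).trans (a2.trans (le_of_eq ?_)))
    · rw [← hsq]; ring
    · ring
  have h2 := tri (U := u) (V := fun p => ‖b p‖) hu0 (fun _ => norm_nonneg _) su1 sb1 hA hB B hDf
  set A := ε * D + ε⁻¹ ^ 3 * Y with hAd
  have hA0 : 0 ≤ A := by positivity
  have h3 : 72 * 2 ^ S * (Real.sqrt D * (Real.sqrt (2 * Z7) * Real.sqrt (A * X)))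
      = c0 * (Real.sqrt D * Real.sqrt A) := by
    rw [Real.sqrt_mul hA0, hc0]
    ring
  have h4 : c0 * (Real.sqrt D * Real.sqrt A) ≤ ν / 4 * D + c0 ^ 2 / ν * A := by
    have e1 : Real.sqrt D ^ 2 = D := Real.sq_sqrt hD0
    have e2 : Real.sqrt A ^ 2 = A := Real.sq_sqrt hA0
    have e3 := sq_nonneg (ν * Real.sqrt D - 2 * c0 * Real.sqrt A)
    have e4 : 4 * ν * (c0 * (Real.sqrt D * Real.sqrt A))
        ≤ ν ^ 2 * (Real.sqrt D ^ 2) + 4 * c0 ^ 2 * Real.sqrt A ^ 2 := by nlinarith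
    rw [e1, e2] at e4
    have e6 : ν / 4 * D + c0 ^ 2 / ν * A = (ν ^ 2 * D + 4 * c0 ^ 2 * A) / (4 * ν) := by field_simp
    rw [e6, le_div_iff₀ (by positivity)]
    linarith
  have h5 : c0 ^ 2 / ν * A ≤ ν / 4 * D + c0 ^ 2 / ν * ε⁻¹ ^ 3 * Y := by
    have e1 : c0 ^ 2 / ν * A = c0 ^ 2 * ε / ν * D + c0 ^ 2 / ν * ε⁻¹ ^ 3 * Y := by
      rw [hAd]
      ring
    have e2 : c0 ^ 2 * ε / ν ≤ ν / 4 := by
      rw [hε, div_le_div_iff₀ hν (by norm_num), ← mul_div_assoc, div_mul_eq_mul_div,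
        div_le_iff₀ (by positivity)]
      nlinarith [sq_nonneg ν]
    have e3 := mul_le_mul_of_nonneg_right e2 hD0
    linarith
  have h6 := mul_le_mul_of_nonneg_left h2 (by positivity : 0 ≤ 72 * (2 : ℝ) ^ S)
  rw [h3] at h6
  linarith

/-- The derivative of the energy with growing weights. -/
theorem stat {μ : K3 → ℝ} {ν X S : ℝ} (hν : 0 < ν) (hμ : ∀ k, ν * RT.sq k ≤ μ k) (hX : 0 ≤ X) :
    ∃ C : ℝ, 0 ≤ C ∧ ∀ (B : Finset K3) (b : Cf), (∀ k ∉ B, b k = 0) →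
      (∑ k ∈ B, jb k ^ 2 * nsq (b k) ≤ X) → ∀ s ∈ Icc 0 S, ∀ σ : ℝ, 0 ≤ σ →
      ∑ k ∈ B, (Real.log (jb k) * (2 * σ) * jb k ^ (2 * s) * nsq (b k)
        + jb k ^ (2 * s) * (2 * ip (rhsM (dw univ) μ b k) (b k)))
        ≤ (σ ^ 2 / ν + C) * ∑ k ∈ B, jb k ^ (2 * s) * nsq (b k) := by
  obtain ⟨C, hC0, hC⟩ := nl_top (S := S) hν hX
  refine ⟨2 * ν + 2 * C, by positivity, fun B b hb hbX s hs σ hσ => ?_⟩
  have h1 := (abs_le.1 (hC B b hb hbX s hs)).1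
  have pj : ∀ k, 0 ≤ jb k ^ (2 * s) := fun k => Real.rpow_nonneg (jb_pos k).le _
  have h2 : ∀ k ∈ B, Real.log (jb k) * (2 * σ) * jb k ^ (2 * s) * nsq (b k)
        + jb k ^ (2 * s) * (2 * ip (rhsM (dw univ) μ b k) (b k))
      ≤ (σ ^ 2 / ν + 2 * ν) * (jb k ^ (2 * s) * nsq (b k))
        - ν * (jb k ^ (2 * s) * (jb k ^ 2 * nsq (b k)))
        - 2 * (jb k ^ (2 * s) * ip (nl (dw univ) b b k) (b k)) := by
    intro k _
    rw [ip_rhsM]
    have e1 : Real.log (jb k) ≤ jb k := (Real.log_le_sub_one_of_pos (jb_pos k)).trans (by linarith)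
    have e2 : 2 * σ * jb k ≤ ν * jb k ^ 2 + σ ^ 2 / ν := by
      have e3 := sq_nonneg (ν * jb k - σ)
      have e4 : ν * jb k ^ 2 + σ ^ 2 / ν = (ν ^ 2 * jb k ^ 2 + σ ^ 2) / ν := by field_simp
      rw [e4, le_div_iff₀ hν]
      nlinarith
    have e5 : Real.log (jb k) * (2 * σ) ≤ ν * jb k ^ 2 + σ ^ 2 / ν := by
      have := mul_le_mul_of_nonneg_right e1 (by positivity : 0 ≤ 2 * σ)
      linarith
    have e6 : ν * (jb k ^ 2 - 1) ≤ μ k := by
      refine le_trans (mul_le_mul_of_nonneg_left ?_ hν.le) (hμ k)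
      have := jb_sq_le' k
      linarith
    have e7 : 0 ≤ jb k ^ (2 * s) * nsq (b k) := mul_nonneg (pj k) (nsq_nonneg _)
    have e8 := mul_le_mul_of_nonneg_right e5 e7
    have e9 := mul_le_mul_of_nonneg_right e6 e7
    nlinarith
  refine (Finset.sum_le_sum h2).trans ?_
  rw [Finset.sum_sub_distrib, Finset.sum_sub_distrib, ← Finset.mul_sum, ← Finset.mul_sum,
    ← Finset.mul_sum]
  linarith

section

variable {μ : K3 → ℝ} {ν T X S : ℝ} {B : Finset K3} {a : ℝ → Cf}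

theorem der_w (hG : GalM (dw univ) μ B T a) (s₀ σ : ℝ) {τ : ℝ} (hτ : τ ∈ Icc 0 T) :
    HasDerivAt (fun t => ∑ k ∈ B, jb k ^ (2 * (s₀ + σ * t)) * nsq (a t k))
      (∑ k ∈ B, (Real.log (jb k) * (2 * σ) * jb k ^ (2 * (s₀ + σ * τ)) * nsq (a τ k)
        + jb k ^ (2 * (s₀ + σ * τ)) * (2 * ip (rhsM (dw univ) μ (a τ) k) (a τ k)))) τ := by
  refine HasDerivAt.fun_sum fun k hk => ?_
  have e1 : HasDerivAt (fun t : ℝ => 2 * (s₀ + σ * t)) (2 * σ) τ := by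
    have := (((hasDerivAt_id τ).const_mul σ).const_add s₀).const_mul 2
    simpa using this
  have e2 : HasDerivAt (fun t : ℝ => jb k ^ (2 * (s₀ + σ * t)))
      (Real.log (jb k) * (2 * σ) * jb k ^ (2 * (s₀ + σ * τ))) τ := by
    have := e1.const_rpow (jb_pos k)
    exact this
  exact e2.mul (hasDerivAt_nsq (hG.der τ hτ k hk))

end

/-- The growth of the norms. -/
theorem grow {μ : K3 → ℝ} {ν X S : ℝ} (hν : 0 < ν) (hμ : ∀ k, ν * RT.sq k ≤ μ k) (hX : 0 ≤ X) :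
    ∃ C : ℝ, 0 ≤ C ∧ ∀ (B : Finset K3) (T : ℝ) (a : ℝ → Cf), GalM (dw univ) μ B T a →
      ∀ t ∈ Icc 0 T, (∀ τ ∈ Icc 0 t, ∑ k ∈ B, jb k ^ 2 * nsq (a τ k) ≤ X) →
      ∀ s₀ σ : ℝ, 0 ≤ s₀ → 0 ≤ σ → s₀ + σ * t ≤ S →
      ∑ k ∈ B, jb k ^ (2 * (s₀ + σ * t)) * nsq (a t k)
        ≤ Real.exp ((σ ^ 2 / ν + C) * t) * ∑ k ∈ B, jb k ^ (2 * s₀) * nsq (a 0 k) := by
  obtain ⟨C, hC0, hC⟩ := stat (S := S) hν hμ hX
  refine ⟨C, hC0, fun B T a hG t ht hXt s₀ σ hs₀ hσ hS => ?_⟩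
  set M := σ ^ 2 / ν + C with hM
  set F : ℝ → ℝ := fun t => ∑ k ∈ B, jb k ^ (2 * (s₀ + σ * t)) * nsq (a t k) with hF
  set F' : ℝ → ℝ := fun t => ∑ k ∈ B, (Real.log (jb k) * (2 * σ) * jb k ^ (2 * (s₀ + σ * t))
    * nsq (a t k) + jb k ^ (2 * (s₀ + σ * t)) * (2 * ip (rhsM (dw univ) μ (a t) k) (a t k))) with hF'
  have hle : ∀ τ ∈ Icc 0 t, F' τ ≤ M * F τ := by
    intro τ hτ
    refine hC B (a τ) (hG.supp τ) (hXt τ hτ) (s₀ + σ * τ) ⟨?_, ?_⟩ σ hσ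
    · have := mul_nonneg hσ hτ.1
      linarith
    · have := mul_le_mul_of_nonneg_left hτ.2 hσ
      linarith
  have hmono := le_of_deriv_nonneg (f := fun τ => -(Real.exp (-(M * τ)) * F τ))
    (f' := fun τ => -(-M * Real.exp (-(M * τ)) * F τ + Real.exp (-(M * τ)) * F' τ)) ht.1
    (fun τ hτ => by
      have e1 : HasDerivAt (fun τ : ℝ => Real.exp (-(M * τ))) (-M * Real.exp (-(M * τ))) τ := by
        have := (((hasDerivAt_id τ).const_mul M).neg).exp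
        simp only [id, mul_one] at this
        rw [mul_comm] at this
        exact this
      exact (e1.mul (der_w hG s₀ σ ⟨hτ.1, hτ.2.trans ht.2⟩)).neg)
    (fun τ hτ => by
      have := hle τ ⟨hτ.1.le, hτ.2.le⟩
      have h8 := Real.exp_pos (-(M * τ))
      nlinarith)
  simp only [mul_zero, neg_zero, Real.exp_zero, one_mul] at hmono
  have h9 : Real.exp (-(M * t)) * F t ≤ F 0 := by linarith
  have h10 : F t ≤ Real.exp (M * t) * F 0 := by
    have h11 := mul_le_mul_of_nonneg_left h9 (Real.exp_pos (M * t)).le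
    rw [← mul_assoc, ← Real.exp_add] at h11
    simpa using h11
  have h12 : F 0 = ∑ k ∈ B, jb k ^ (2 * s₀) * nsq (a 0 k) := by
    rw [hF]
    simp
  rw [← h12]
  exact h10

/-- The local bound in the first Sobolev space. -/
theorem local_h1 {μ : K3 → ℝ} {ν X₀ : ℝ} (hν : 0 < ν) (hμ : ∀ k, ν * RT.sq k ≤ μ k)
    (hX : 0 < X₀) :
    ∃ τ : ℝ, 0 < τ ∧ ∀ (B : Finset K3) (T : ℝ) (a : ℝ → Cf), GalM (dw univ) μ B T a →
      (∑ k ∈ B, jb k ^ 2 * nsq (a 0 k) ≤ X₀) →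
      ∀ t ∈ Icc 0 T, t ≤ τ → ∑ k ∈ B, jb k ^ 2 * nsq (a t k) ≤ 2 * X₀ := by
  obtain ⟨C, hC0, hC⟩ := stat (S := 1) hν hμ (by positivity : 0 ≤ 2 * X₀)
  set K := 2 * C + 1 with hK
  have hK0 : 0 < K := by positivity
  refine ⟨1 / K, by positivity, fun B T a hG h0 t ht htK => ?_⟩
  have e0 : ∀ k, jb k ^ (2 * ((1 : ℝ) + 0 * t)) = jb k ^ 2 := by
    intro k
    rw [zero_mul, add_zero, mul_one, Real.rpow_two]
  have hjr : ∀ (τ : ℝ) (k : K3), jb k ^ (2 * ((1 : ℝ) + 0 * τ)) = jb k ^ 2 := by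
    intro τ k
    rw [zero_mul, add_zero, mul_one, Real.rpow_two]
  have hder : ∀ τ ∈ Icc 0 T, HasDerivAt (fun t => ∑ k ∈ B, jb k ^ 2 * nsq (a t k))
      (∑ k ∈ B, (Real.log (jb k) * (2 * 0) * jb k ^ (2 * ((1 : ℝ) + 0 * τ)) * nsq (a τ k)
        + jb k ^ (2 * ((1 : ℝ) + 0 * τ)) * (2 * ip (rhsM (dw univ) μ (a τ) k) (a τ k)))) τ := by
    intro τ hτ
    have h1 := der_w hG 1 0 hτ
    have h2 : (fun t => ∑ k ∈ B, jb k ^ (2 * ((1 : ℝ) + 0 * t)) * nsq (a t k))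
        = fun t => ∑ k ∈ B, jb k ^ 2 * nsq (a t k) := by
      funext t
      exact Finset.sum_congr rfl fun k _ => by rw [hjr]
    rw [h2] at h1
    exact h1
  have hmain := image_le_of_deriv_right_lt_deriv_boundary'
    (f := fun t => ∑ k ∈ B, jb k ^ 2 * nsq (a t k))
    (f' := fun τ => ∑ k ∈ B, (Real.log (jb k) * (2 * 0) * jb k ^ (2 * ((1 : ℝ) + 0 * τ))
      * nsq (a τ k) + jb k ^ (2 * ((1 : ℝ) + 0 * τ)) * (2 * ip (rhsM (dw univ) μ (a τ) k) (a τ k))))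
    (B := fun x => X₀ * (1 + K * x)) (B' := fun _ => X₀ * K) (a := 0) (b := t)
    (fun x hx => (hder x ⟨hx.1, hx.2.trans ht.2⟩).continuousAt.continuousWithinAt)
    (fun x hx => (hder x ⟨hx.1, hx.2.le.trans ht.2⟩).hasDerivWithinAt)
    (by simpa using h0) (by fun_prop)
    (fun x _ => by
      have := (((hasDerivAt_id x).const_mul K).const_add 1).const_mul X₀
      simp only [id, mul_one] at this
      exact this.hasDerivWithinAt)
    (fun x hx hfx => by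
      have hx2 : X₀ * (1 + K * x) ≤ 2 * X₀ := by
        have : K * x ≤ 1 := by
          have h3 := mul_le_mul_of_nonneg_left (hx.2.le.trans htK) hK0.le
          rwa [mul_one_div_cancel hK0.ne'] at h3
        nlinarith
      have hfx' : ∑ k ∈ B, jb k ^ 2 * nsq (a x k) = X₀ * (1 + K * x) := hfx
      have h4 := hC B (a x) (hG.supp x) (hfx'.le.trans hx2) (1 + 0 * x) (by simp) 0 le_rfl
      refine lt_of_le_of_lt h4 ?_
      have h5 : ∑ k ∈ B, jb k ^ (2 * ((1 : ℝ) + 0 * x)) * nsq (a x k)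
          = ∑ k ∈ B, jb k ^ 2 * nsq (a x k) := Finset.sum_congr rfl fun k _ => by rw [hjr]
      rw [h5, hfx']
      have h6 : ((0 : ℝ) ^ 2 / ν + C) = C := by simp
      rw [h6]
      have h7 := mul_le_mul_of_nonneg_left hx2 hC0
      rw [hK]
      nlinarith)
  have h1 := hmain ⟨ht.1, le_rfl⟩
  have h2 : X₀ * (1 + K * t) ≤ 2 * X₀ := by
    have : K * t ≤ 1 := by
      have h3 := mul_le_mul_of_nonneg_left htK hK0.le
      rwa [mul_one_div_cancel hK0.ne'] at h3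
    nlinarith
  exact h1.trans h2

end Pool.Agent.Run7.h507.SP
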