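import Pool.Agent.Run7.h507.SP.WS4

/-!
Regularity of the Galerkin approximations for positive times, uniformly for data of bounded energy.
-/

set_option autoImplicit false

open MeasureTheory Set Filter Topology
open scoped ENNReal

namespace Pool.Agent.Run7.h507.SP

open RT FD

section

variable {η : K3 → K3 → ℝ} {μ : K3 → ℝ} {m : ℝ → ℝ} {B : Finset K3} {T : ℝ} {a : ℝ → Cf}

/-- The shifted approximation. -/
theorem GalM.shift (hη : IsWeight η) (hμ : IsSym μ) (hB : ∀ k ∈ B, -k ∈ B) (hG : GalM η μ B T a)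
    {x : ℝ} (hx : x ∈ Icc 0 T) : GalM η μ B (T - x) fun t => a (x + t) := by
  refine ⟨fun t => hG.supp _, fun t => hG.herm _, fun t => hG.div _, fun t ht k hk => ?_,
    fun t ht => ?_⟩
  · have h1 := hG.der (x + t) ⟨by linarith [hx.1, ht.1], by linarith [ht.2]⟩ k hk
    have h2 : HasDerivAt (fun s : ℝ => x + s) 1 t := (hasDerivAt_id t).const_add x
    have h3 := h1.scomp t h2
    rw [one_smul] at h3
    exact h3
  · have h1 := eE_anti hη hμ hB hG hx.1 (by linarith [ht.1] : x ≤ x + t) (by linarith [ht.2])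
    rw [eE_eq, eE_eq] at h1
    simp only [add_zero]
    exact h1

/-- The gradient is bounded, uniformly in the approximation, in time and in the data. -/
theorem grad_all4 (hη : IsWeight η) (hμ : IsSym μ)
    (hm0 : ∀ r, 0 ≤ m r) (hm : Monotone m) (hmμ : ∀ k, m (len k) ≤ μ k)
    (hdiv : ∀ K, ∃ J, K < ∑ j ∈ Finset.range J, om m j / 32 ^ j) {R : ℝ} (hR : 0 < R) :
    ∃ G : ℝ, 0 ≤ G ∧ ∀ (n : ℕ) (T : ℝ) (a : ℝ → Cf), 0 ≤ T → GalM η μ (Bn n) T a →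
      (∑ k ∈ Bn n, jb k ^ 8 * nsq (a 0 k) ≤ R) →
      ∀ t ∈ Icc (0 : ℝ) T, ∑ k ∈ Bn n, jb k * ‖a t k‖ ≤ G := by
  obtain ⟨J, hJ⟩ := hdiv (bd R (m 1))
  refine ⟨∑ j ∈ Finset.range J, Real.sqrt (729 * Z6)
    * Real.sqrt (((4 ^ j : ℕ) : ℝ) ^ 8 * (2 * (3 * R / 2))),
    Finset.sum_nonneg fun _ _ => by positivity, fun n T a hT hG h1 t ht => ?_⟩
  obtain ⟨j, hj, hj2⟩ := good hη hμ Bn_neg hG hT hm0 hm hmμ hR h1 hJ
  refine (grad_bound (by positivity) (hj2 t ht)).trans ?_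
  exact Finset.single_le_sum (f := fun j => Real.sqrt (729 * Z6)
    * Real.sqrt (((4 ^ j : ℕ) : ℝ) ^ 8 * (2 * (3 * R / 2)))) (fun _ _ => by positivity)
    (Finset.mem_range.2 hj)

/-- A time with finite dissipation. -/
theorem pigeon (hη : IsWeight η) (hB : ∀ k ∈ B, -k ∈ B) {δ E : ℝ}
    (hδ : 0 < δ) (hG : GalM η μ B δ a) (hE : eE B (a 0) ≤ E) :
    ∃ x ∈ Icc 0 δ, eW μ B (a x) ≤ E / δ := by
  by_contra hcon
  push Not at hcon
  have h1 := diss_le hη hB hG hδ.le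
  have h2 : ∫ _s in (0 : ℝ)..δ, E / δ ≤ ∫ s in (0 : ℝ)..δ, eW μ B (a s) :=
    intervalIntegral.integral_mono_on hδ.le intervalIntegrable_const
      (int_eW hG μ le_rfl hδ.le le_rfl) fun s hs => (hcon s hs).le
  rw [intervalIntegral.integral_const, sub_zero, smul_eq_mul, mul_div_cancel₀ _ hδ.ne'] at h2
  have hE0 : 0 ≤ E := by
    refine le_trans ?_ hE
    rw [eE_eq]
    exact Finset.sum_nonneg fun k _ => nsq_nonneg _
  have h3 : E = 0 := by linarith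
  have h4 := hcon 0 ⟨le_rfl, hδ.le⟩
  have h5 : eE B (a 0) = 0 := by
    refine le_antisymm (hE.trans h3.le) ?_
    rw [eE_eq]
    exact Finset.sum_nonneg fun k _ => nsq_nonneg _
  have h6 : eW μ B (a 0) = 0 := by
    rw [eE_eq] at h5
    have h7 := (Finset.sum_eq_zero_iff_of_nonneg fun k _ => nsq_nonneg _).1 h5
    unfold eW
    exact Finset.sum_eq_zero fun k hk => by rw [h7 k hk, mul_zero]
  rw [h3, h6, zero_div] at h4
  exact lt_irrefl _ h4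

end

section

variable {μ : K3 → ℝ} {m : ℝ → ℝ} {ν : ℝ}

theorem h1_of (hν : 0 < ν) (hμ : ∀ k, ν * RT.sq k ≤ μ k) {B : Finset K3} {b : Cf} {E D : ℝ}
    (hE : eE B b ≤ E) (hD : eW μ B b ≤ D) : ∑ k ∈ B, jb k ^ 2 * nsq (b k) ≤ E + D / ν := by
  have h1 : ∀ k ∈ B, jb k ^ 2 * nsq (b k) ≤ nsq (b k) + μ k * nsq (b k) / ν := by
    intro k _
    have h2 := jb_sq_le' k
    have h3 : RT.sq k ≤ μ k / ν := by
      rw [le_div_iff₀ hν]; have := hμ k; linarith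
    have h4 := mul_le_mul_of_nonneg_right (h2.trans (by linarith : 1 + RT.sq k ≤ 1 + μ k / ν))
      (nsq_nonneg (b k))
    refine h4.trans (le_of_eq ?_)
    ring
  refine (Finset.sum_le_sum h1).trans ?_
  rw [Finset.sum_add_distrib, ← Finset.sum_div]
  rw [eE_eq] at hE
  unfold eW at hD
  have := div_le_div_of_nonneg_right hD hν.le
  linarith

/-- From a time with finite first Sobolev norm. -/
theorem reg_two (hν : 0 < ν) (hμν : ∀ k, ν * RT.sq k ≤ μ k) {X₀ : ℝ} (hX : 0 < X₀) :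
    ∃ τ₀ : ℝ, 0 < τ₀ ∧ ∀ τ, 0 < τ → τ ≤ τ₀ → ∀ S : ℕ, ∃ Y : ℝ, 0 < Y ∧
      ∀ (B : Finset K3) (T : ℝ) (a : ℝ → Cf), GalM (dw univ) μ B T a →
      (∑ k ∈ B, jb k ^ 2 * nsq (a 0 k) ≤ X₀) → τ ≤ T →
      ∑ k ∈ B, jb k ^ (2 * (S + 1)) * nsq (a τ k) ≤ Y := by
  obtain ⟨τ₀, hτ₀, h1⟩ := local_h1 hν hμν hX
  refine ⟨τ₀, hτ₀, fun τ hτ hττ S => ?_⟩
  obtain ⟨C, hC0, hC⟩ := grow (S := (S : ℝ) + 1) hν hμν (by positivity : 0 ≤ 2 * X₀)
  refine ⟨Real.exp (((S / τ) ^ 2 / ν + C) * τ) * X₀, by positivity, fun B T a hG h0 hT => ?_⟩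
  have h2 := hC B T a hG τ ⟨hτ.le, hT⟩ (fun x hx => h1 B T a hG h0 x ⟨hx.1, hx.2.trans hT⟩
    (hx.2.trans hττ)) 1 (S / τ) zero_le_one (by positivity) (by
      rw [div_mul_cancel₀ _ hτ.ne']; linarith)
  have e1 : ∀ k, jb k ^ (2 * (1 + S / τ * τ)) = jb k ^ (2 * (S + 1)) := by
    intro k
    rw [div_mul_cancel₀ _ hτ.ne', ← Real.rpow_natCast]
    congr 1
    push_cast
    ring
  have e2 : ∀ k, jb k ^ (2 * (1 : ℝ)) = jb k ^ 2 := by
    intro k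
    rw [mul_one, Real.rpow_two]
  simp only [e1, e2] at h2
  exact h2.trans (mul_le_mul_of_nonneg_left h0 (Real.exp_pos _).le)

/-- Uniform bounds for positive times. -/
theorem reg_all (hμ : IsSym μ) (hν : 0 < ν) (hμν : ∀ k, ν * RT.sq k ≤ μ k)
    (hm0 : ∀ r, 0 ≤ m r) (hm : Monotone m) (hmμ : ∀ k, m (len k) ≤ μ k)
    (hdiv : ∀ K, ∃ J, K < ∑ j ∈ Finset.range J, om m j / 32 ^ j) {E s t : ℝ} (hs : 0 < s)
    (hst : s ≤ t) (hE : 0 < E) (l : ℕ) :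
    ∃ C : ℝ, ∀ (n : ℕ) (a : ℝ → Cf), t ≤ n → GalM (dw univ) μ (Bn n) n a →
      (∑ k ∈ Bn n, nsq (a 0 k) ≤ E) → ∀ τ ∈ Icc s t, ∀ k, jb k ^ l * ‖a τ k‖ ≤ C := by
  set δ := s / 2 with hδ
  have hδ0 : 0 < δ := by positivity
  set X₀ := E + E / δ / ν with hX₀
  have hX0 : 0 < X₀ := by positivity
  obtain ⟨τ₀, hτ₀, h1⟩ := reg_two hν hμν hX0
  set τ := min τ₀ (s / 2) with hτ
  have hτ0 : 0 < τ := lt_min hτ₀ (by positivity)
  obtain ⟨Y4, hY4, h4⟩ := h1 τ hτ0 (min_le_left _ _) 3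
  obtain ⟨Yl, hYl, hl⟩ := h1 τ hτ0 (min_le_left _ _) l
  obtain ⟨G, hG0, hG1⟩ := grad_all4 w1 hμ hm0 hm hmμ hdiv hY4
  set M : ℝ := 2 * (27 * (l + 1) * 2 ^ l * G) with hM
  have hM0 : 0 ≤ M := by positivity
  refine ⟨Real.sqrt (Real.exp (M * t) * Yl), fun n a hn hG h0 σ hσ k => ?_⟩
  have htn : s ≤ n := hst.trans hn
  have hδn : δ ≤ n := by linarith
  obtain ⟨x, hx, hx2⟩ := pigeon w1 Bn_neg hδ0 (hG.mono hδn) (E := E) (by rw [eE_eq]; exact h0)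
  have hxn : x ∈ Icc (0 : ℝ) n := ⟨hx.1, hx.2.trans hδn⟩
  have hGx := hG.shift w1 hμ Bn_neg hxn
  have hτx : x + τ ≤ s := by
    have := min_le_right τ₀ (s / 2)
    have := hx.2
    linarith
  have hτT : τ ≤ n - x := by linarith
  have hEx : eE (Bn n) (a x) ≤ E := by
    rw [eE_eq]
    exact (hG.energy x hxn).trans h0
  have hH : ∑ k ∈ Bn n, jb k ^ 2 * nsq (a (x + 0) k) ≤ X₀ := by
    rw [add_zero]
    exact h1_of hν hμν hEx hx2
  have g4 := h4 (Bn n) (n - x) _ hGx hH hτT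
  have gl := hl (Bn n) (n - x) _ hGx hH hτT
  norm_num at g4
  have hGy := hGx.shift w1 hμ Bn_neg (x := τ) ⟨hτ0.le, hτT⟩
  have hgrad := hG1 n (n - x - τ) _ (by linarith) hGy (by simpa using g4)
  have hh := high w1 hμ Bn_neg hGy hgrad l (σ - (x + τ)) ⟨by linarith [hσ.1], by linarith [hσ.2]⟩
  have e1 : x + (τ + (σ - (x + τ))) = σ := by ring
  simp only [e1, add_zero] at hh
  have h2 : Phi 1 (2 * (l + 1)) (Bn n) (a (x + τ)) ≤ Yl := by
    refine le_trans (le_of_eq ?_) gl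
    unfold Phi
    exact Finset.sum_congr rfl fun k _ => by rw [vN_one]
  have h3 : Phi 1 (2 * (l + 1)) (Bn n) (a σ) ≤ Real.exp (M * t) * Yl := by
    refine hh.trans (mul_le_mul ?_ h2 (Phi_nonneg _ _ _ _) (Real.exp_pos _).le)
    refine Real.exp_le_exp.2 (mul_le_mul_of_nonneg_left ?_ hM0)
    have := hx.1
    linarith [hσ.2]
  have h5 : (jb k ^ l * ‖a σ k‖) ^ 2 ≤ Real.exp (M * t) * Yl := by
    by_cases hk : k ∈ Bn n
    · refine le_trans ?_ h3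
      have h6 : vN 1 k ^ (2 * (l + 1)) * nsq (a σ k) ≤ Phi 1 (2 * (l + 1)) (Bn n) (a σ) :=
        Finset.single_le_sum (f := fun k => vN 1 k ^ (2 * (l + 1)) * nsq (a σ k))
          (fun k _ => mul_nonneg (pow_nonneg (vN_pos k).le _) (nsq_nonneg _)) hk
      refine le_trans ?_ h6
      rw [mul_pow, ← pow_mul, vN_one]
      refine mul_le_mul (pow_le_pow_right₀ (one_le_jb k) (by omega)) (norm_sq_le_nsq _)
        (sq_nonneg _) (pow_nonneg (jb_pos k).le _)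
    · rw [hG.supp σ k hk, norm_zero, mul_zero, zero_pow two_ne_zero]
      positivity
  exact Real.le_sqrt_of_sq_le h5

end

end Pool.Agent.Run7.h507.SP
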