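import Pool.Agent.Run7.h507.SP.WS5

/-!
Global solutions for all data of finite energy, smooth for positive times.
-/

set_option autoImplicit false

open MeasureTheory Set Filter Topology
open scoped ContDiff ComplexConjugate NNReal

namespace Pool.Agent.Run7.h507.SP

open RT FD

section

variable {μ : K3 → ℝ}

/-- The existence of a solution, given uniform bounds for the Galerkin approximations. -/
theorem exists_solW {η : K3 → K3 → ℝ} (hη : IsWeight η) (hμ : IsSym μ)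
    {c : Cf} (hh : Herm c) (hd : Dv c) (hc : Summable fun k => nsq (c k)) {J : Set ℝ}
    (hJ0 : ∀ t ∈ J, 0 ≤ t)
    (hJ : ∀ t ∈ J, ∃ t₀ ∈ J, ∃ t₁ ∈ J, t ∈ Icc t₀ t₁ ∧ Icc t₀ t₁ ∈ 𝓝[J] t)
    (hUB : ∀ s ∈ J, ∀ t ∈ J, ∀ m : ℕ, ∃ C : ℝ, ∀ n : ℕ, t ≤ n → ∀ a : ℝ → Cf,
      GalM η μ (Bn n) n a → (∀ k ∈ Bn n, a 0 k = c k) →
      ∀ τ ∈ Icc s t, ∀ k, jb k ^ m * ‖a τ k‖ ≤ C) :
    ∃ L : ℝ → Cf, L 0 = c ∧ SolM η μ J L ∧
      (∀ t, 0 ≤ t → ∀ F : Finset K3, ∑ k ∈ F, nsq (L t k) ≤ ∑' k, nsq (c k)) ∧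
      (∀ k, ∃ C : ℝ, ∀ t, 0 ≤ t → ‖L t k - c k‖ ≤ C * t) ∧
      (∀ X τ : ℝ, (∀ n : ℕ, ∀ a : ℝ → Cf, GalM η μ (Bn n) n a → (∀ k ∈ Bn n, a 0 k = c k) →
        ∀ t ∈ Icc (0 : ℝ) n, t ≤ τ → ∑ k ∈ Bn n, jb k ^ 2 * nsq (a t k) ≤ X) →
        ∀ t, 0 ≤ t → t ≤ τ → ∀ F : Finset K3, ∑ k ∈ F, jb k ^ 2 * nsq (L t k) ≤ X) := by
  classical
  have hex : ∀ n : ℕ, ∃ a : ℝ → Cf, (∀ k ∈ Bn n, a 0 k = c k) ∧ GalM η μ (Bn n) n a := fun n =>
    exists_galM hη hμ Bn_neg (Nat.cast_nonneg n) hh hd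
  choose a ha0 haG using hex
  set E : ℝ := ∑' k, nsq (c k) with hE
  have hE0 : 0 ≤ E := tsum_nonneg fun k => nsq_nonneg _
  -- the energy bound
  have hen : ∀ n : ℕ, ∀ t ∈ Icc (0 : ℝ) n, ∀ F : Finset K3, ∑ k ∈ F, nsq (a n t k) ≤ E := by
    intro n t ht F
    have h1 : ∑ k ∈ F, nsq (a n t k) ≤ ∑ k ∈ Bn n, nsq (a n t k) := by
      calc ∑ k ∈ F, nsq (a n t k) = ∑ k ∈ F ∩ Bn n, nsq (a n t k) := by
            symm
            refine Finset.sum_subset Finset.inter_subset_left fun k hk hk2 => ?_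
            rw [(haG n).supp t k fun h => hk2 (Finset.mem_inter.2 ⟨hk, h⟩), nsq_zero]
        _ ≤ _ := Finset.sum_le_sum_of_subset_of_nonneg Finset.inter_subset_right
            fun _ _ _ => nsq_nonneg _
    refine h1.trans (((haG n).energy t ht).trans ?_)
    rw [Finset.sum_congr rfl fun k hk => by rw [ha0 n k hk]]
    exact hc.sum_le_tsum _ fun _ _ => nsq_nonneg _
  have hen' : ∀ n : ℕ, ∀ t ∈ Icc (0 : ℝ) n, ∀ F : Finset K3, ∑ k ∈ F, ‖a n t k‖ ^ 2 ≤ E :=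
    fun n t ht F => (Finset.sum_le_sum fun k _ => norm_sq_le_nsq _).trans (hen n t ht F)
  have hbd : ∀ n : ℕ, ∀ t ∈ Icc (0 : ℝ) n, ∀ k, ‖a n t k‖ ≤ Real.sqrt E := by
    intro n t ht k
    refine Real.le_sqrt_of_sq_le ?_
    have := hen' n t ht {k}
    simpa using this
  -- the limit
  have hlim : ∀ (t : ℝ) (k : K3), ∃ z : C3, 0 ≤ t →
      Tendsto (fun n => a n t k) UU (𝓝 z) := by
    intro t k
    by_cases ht : 0 ≤ t
    · have h1 : ∀ᶠ n in (UU : Filter ℕ), a n t k ∈ Metric.closedBall (0 : C3) (Real.sqrt E) := by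
        filter_upwards [ev_ge t] with n hn
        rw [mem_closedBall_zero_iff]
        exact hbd n t ⟨ht, hn⟩ k
      obtain ⟨z, _, hz⟩ := (isCompact_closedBall (0 : C3) (Real.sqrt E)).ultrafilter_le_nhds
        (UU.map fun n => a n t k) (by
          rw [le_principal_iff]
          exact h1)
      exact ⟨z, fun _ => hz⟩
    · exact ⟨0, fun h => absurd h ht⟩
  choose L hL using hlim
  have hL0 : L 0 = c := by
    funext k
    refine tendsto_nhds_unique (hL 0 k le_rfl) ?_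
    refine tendsto_const_nhds.congr' ?_
    filter_upwards [ev_mem k] with n hn
    rw [ha0 n k hn]
  have hherm : ∀ t, 0 ≤ t → Herm (L t) := by
    intro t ht k i
    have e1 : Tendsto (fun n => a n t (-k) i) UU (𝓝 (L t (-k) i)) :=
      ((continuous_apply i).tendsto _).comp (hL t (-k) ht)
    have e2 : Tendsto (fun n => conj (a n t k i)) UU (𝓝 (conj (L t k i))) :=
      (Complex.continuous_conj.tendsto _).comp (((continuous_apply i).tendsto _).comp (hL t k ht))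
    refine tendsto_nhds_unique e1 (e2.congr fun n => ?_)
    exact ((haG n).herm t k i).symm
  have hdv : ∀ t, 0 ≤ t → Dv (L t) := by
    intro t ht k
    have e1 : Tendsto (fun n => kd k (a n t k)) UU (𝓝 (kd k (L t k))) :=
      ((kd_continuous k).tendsto _).comp (hL t k ht)
    refine tendsto_nhds_unique e1 ?_
    simp only [(haG _).div t k]
    exact tendsto_const_nhds
  have hnsqc : Continuous nsq := nsq_continuous
  refine ⟨L, hL0, ⟨fun t ht => hherm t (hJ0 t ht), fun t ht => hdv t (hJ0 t ht), ?_, ?_⟩, ?_, ?_,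
    ?_⟩
  · -- rapid decay
    intro s hs t ht m
    obtain ⟨C, hC⟩ := hUB s hs t ht m
    refine ⟨C, fun τ hτ k => ?_⟩
    have h0 : 0 ≤ τ := (hJ0 s hs).trans hτ.1
    have h1 : jb k ^ m * ‖L τ k‖ ≤ C := by
      refine le_of_tendsto ((hL τ k h0).norm.const_mul _) ?_
      filter_upwards [ev_ge t] with n hn
      exact hC n hn (a n) (haG n) (ha0 n) τ hτ k
    refine le_trans ?_ h1
    exact mul_le_mul_of_nonneg_right (pow_le_pow_left₀ (len_nonneg k) (len_le_jb k) m)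
      (norm_nonneg _)
  · -- the equation
    intro t ht k
    obtain ⟨t₀, ht₀, t₁, ht₁, htt, hnb⟩ := hJ t ht
    refine limM_eq hη hμ haG (fun t k h => hL t k h) (hJ0 t₀ ht₀) htt hnb (fun m => ?_) k
    obtain ⟨C, hC⟩ := hUB t₀ ht₀ t₁ ht₁ m
    exact ⟨C, fun n hn τ hτ k => hC n hn (a n) (haG n) (ha0 n) τ hτ k⟩
  · -- the energy
    intro t ht F
    have h1 : Tendsto (fun n => ∑ k ∈ F, nsq (a n t k)) UU (𝓝 (∑ k ∈ F, nsq (L t k))) :=
      tendsto_finsetSum _ fun k _ => (hnsqc.tendsto _).comp (hL t k ht)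
    refine le_of_tendsto h1 ?_
    filter_upwards [ev_ge t] with n hn
    exact hen n t ⟨ht, hn⟩ F
  · -- continuity at zero
    intro k
    refine ⟨μ k * Real.sqrt E + 12 * len k * E, fun t ht => ?_⟩
    have h1 : Tendsto (fun n => a n t k - a n 0 k) UU (𝓝 (L t k - c k)) := by
      rw [← hL0]
      exact (hL t k ht).sub (hL 0 k le_rfl)
    refine le_of_tendsto h1.norm ?_
    filter_upwards [ev_ge t, ev_mem k] with n hn hk
    exact galM_zero hη.bdd hμ (haG n) (hen' n) hk ht hn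
  · -- the first Sobolev norm
    intro X τ hX t ht htτ F
    have h1 : Tendsto (fun n => ∑ k ∈ F, jb k ^ 2 * nsq (a n t k)) UU
        (𝓝 (∑ k ∈ F, jb k ^ 2 * nsq (L t k))) :=
      tendsto_finsetSum _ fun k _ => ((hnsqc.tendsto _).comp (hL t k ht)).const_mul _
    refine le_of_tendsto h1 ?_
    filter_upwards [ev_ge t] with n hn
    refine le_trans ?_ (hX n (a n) (haG n) (ha0 n) t ⟨ht, hn⟩ htτ)
    calc ∑ k ∈ F, jb k ^ 2 * nsq (a n t k) = ∑ k ∈ F ∩ Bn n, jb k ^ 2 * nsq (a n t k) := by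
          symm
          refine Finset.sum_subset Finset.inter_subset_left fun k hk hk2 => ?_
          rw [(haG n).supp t k fun h => hk2 (Finset.mem_inter.2 ⟨hk, h⟩), nsq_zero, mul_zero]
      _ ≤ _ := Finset.sum_le_sum_of_subset_of_nonneg Finset.inter_subset_right
          fun k _ _ => mul_nonneg (sq_nonneg _) (nsq_nonneg _)

end

section

variable {μ : K3 → ℝ} {m : ℝ → ℝ} {ν : ℝ}

/-- Global solutions for all data of finite energy. -/
theorem strong_ex (hμ : IsSym μ) (hν : 0 < ν) (hμν : ∀ k, ν * RT.sq k ≤ μ k)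
    (hm0 : ∀ r, 0 ≤ m r) (hm : Monotone m) (hmμ : ∀ k, m (len k) ≤ μ k)
    (hdiv : ∀ K, ∃ J, K < ∑ j ∈ Finset.range J, om m j / 32 ^ j) {c : Cf} (hh : Herm c)
    (hd : Dv c) (hc : Summable fun k => nsq (c k)) :
    ∃ L : ℝ → Cf, L 0 = c ∧ SolM (dw univ) μ (Ioi 0) L ∧
      (∀ t, 0 ≤ t → ∀ F : Finset K3, ∑ k ∈ F, nsq (L t k) ≤ ∑' k, nsq (c k)) ∧
      (∀ k, ∃ C : ℝ, ∀ t, 0 ≤ t → ‖L t k - c k‖ ≤ C * t) ∧
      ∀ X₀ : ℝ, 0 < X₀ → (∀ F : Finset K3, ∑ k ∈ F, jb k ^ 2 * nsq (c k) ≤ X₀) →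
        ∃ τ : ℝ, 0 < τ ∧ ∀ t, 0 ≤ t → t ≤ τ → ∀ F : Finset K3,
          ∑ k ∈ F, jb k ^ 2 * nsq (L t k) ≤ 2 * X₀ := by
  have hE0 : 0 ≤ ∑' k, nsq (c k) := tsum_nonneg fun k => nsq_nonneg _
  obtain ⟨L, h0, h1, h2, h3, h4⟩ := exists_solW (J := Ioi 0) w1 hμ hh hd hc
    (fun t ht => (mem_Ioi.1 ht).le)
    (fun t ht => by
      have ht' : 0 < t := ht
      refine ⟨t / 2, by simpa using ht', t + 1, by simp; linarith, ⟨by linarith, by linarith⟩, ?_⟩
      exact mem_nhdsWithin_of_mem_nhds (Icc_mem_nhds (by linarith) (by linarith)))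
    (fun s hs t ht l => by
      have hs' : 0 < s := hs
      rcases le_total s t with hst | hst
      · obtain ⟨C, hC⟩ := reg_all (E := ∑' k, nsq (c k) + 1) hμ hν hμν hm0 hm hmμ hdiv hs' hst
          (by linarith) l
        refine ⟨C, fun n hn a hG ha τ hτ k => hC n a hn hG ?_ τ hτ k⟩
        rw [Finset.sum_congr rfl fun k hk => by rw [ha k hk]]
        have := hc.sum_le_tsum (Bn n) fun _ _ => nsq_nonneg _
        linarith
      · rcases hst.eq_or_lt with h | h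
        · subst h
          obtain ⟨C, hC⟩ := reg_all (E := ∑' k, nsq (c k) + 1) hμ hν hμν hm0 hm hmμ hdiv hs' le_rfl
            (by linarith) l
          refine ⟨C, fun n hn a hG ha τ hτ k => hC n a hn hG ?_ τ hτ k⟩
          rw [Finset.sum_congr rfl fun k hk => by rw [ha k hk]]
          have := hc.sum_le_tsum (Bn n) fun _ _ => nsq_nonneg _
          linarith
        · refine ⟨0, fun n _ a _ _ τ hτ k => ?_⟩
          exact absurd (hτ.1.trans hτ.2) (not_le.2 h))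
  refine ⟨L, h0, h1, h2, h3, fun X₀ hX₀ hcX => ?_⟩
  obtain ⟨τ, hτ, h5⟩ := local_h1 hν hμν hX₀
  refine ⟨τ, hτ, fun t ht htτ F => h4 (2 * X₀) τ (fun n a hG ha x hx hxτ => ?_) t ht htτ F⟩
  refine h5 (Bn n) n a hG ?_ x hx hxτ
  rw [Finset.sum_congr rfl fun k hk => by rw [ha k hk]]
  exact hcX _

end

end Pool.Agent.Run7.h507.SP
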