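import Pool.Agent.Run7.h507.SP.WS6

/-!
The smooth solutions are weak solutions.
-/

set_option autoImplicit false

open MeasureTheory Set Filter Topology
open scoped ENNReal

namespace Pool.Agent.Run7.h507.SP

open RT FD

section

variable {μ : K3 → ℝ} {m : ℝ → ℝ} {ν : ℝ} {T : ℝ} {a : ℝ → Cf} {c : Cf}

/-- The integral form of the equation. -/
theorem eqn_ofM {E : ℝ} (hc : ∀ k, ContinuousOn (fun t => a t k) (Icc 0 T))
    (hE : ∀ t ∈ Icc 0 T, ∀ F : Finset K3, ∑ k ∈ F, nsq (a t k) ≤ E)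
    (hd : ∀ t ∈ Ioo 0 T, ∀ k, HasDerivAt (fun s => a s k)
      (-(μ k • a t k) - nl (dw univ) (a t) (a t) k) t) :
    ∀ t ∈ Icc 0 T, ∀ k,
      a t k = a 0 k + ∫ s in (0 : ℝ)..t, (0 - μ k • a s k - nl (dw univ) (a s) (a s) k) := by
  intro t ht k
  have hT : 0 ≤ T := ht.1.trans ht.2
  have hcl : ∀ k, Continuous fun s => a (cl T s) k := fun k => cont_cl hT (hc k)
  have hs0 : ∀ s, Sm 0 (a (cl T s)) := fun s => (sm0_of_bdd (hE _ (cl_mem hT s))).1
  have i1 : IntervalIntegrable (fun s => nl (dw univ) (a (cl T s)) (a (cl T s)) k) volume 0 t :=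
    ii_of_bdd (meas_nl hcl hcl hs0 hs0 k) fun s => norm_nl_le0 (hs0 s) (hs0 s)
      (sm0_of_bdd (hE _ (cl_mem hT s))).2 (sm0_of_bdd (hE _ (cl_mem hT s))).2 k
  have i2 : IntervalIntegrable (fun s => μ k • a (cl T s) k) volume 0 t := by
    have hc : Continuous fun s => μ k • a (cl T s) k := (hcl k).const_smul (μ k)
    exact hc.intervalIntegrable _ _
  have hIcc : ∀ s ∈ uIcc 0 t, s ∈ Icc 0 T := by
    intro s hs
    rw [uIcc_of_le ht.1] at hs
    exact ⟨hs.1, hs.2.trans ht.2⟩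
  have i4 : IntervalIntegrable (fun s => -(μ k • a s k) - nl (dw univ) (a s) (a s) k)
      volume 0 t := by
    refine (i2.neg.sub i1).congr fun s hs => ?_
    have := hIcc s (uIoc_subset_uIcc hs)
    simp only [cl_of this, Pi.neg_apply]
  have h1 := intervalIntegral.integral_eq_sub_of_hasDerivAt_of_le ht.1
    ((hc k).mono (Icc_subset_Icc le_rfl ht.2))
    (fun s hs => hd s ⟨hs.1, hs.2.trans_le ht.2⟩ k) i4
  have h2 : ∫ s in (0 : ℝ)..t, (0 - μ k • a s k - nl (dw univ) (a s) (a s) k)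
      = ∫ s in (0 : ℝ)..t, (-(μ k • a s k) - nl (dw univ) (a s) (a s) k) :=
    intervalIntegral.integral_congr fun s _ => by
      show 0 - μ k • a s k - nl (dw univ) (a s) (a s) k = -(μ k • a s k) - nl (dw univ) (a s) (a s) k
      rw [zero_sub]
  rw [h2, h1]
  abel

/-- A weak solution from its properties, without force. -/
theorem WE.mk' (hT : 0 ≤ T) (hh : ∀ t ∈ Icc 0 T, Herm (a t)) (hv : ∀ t ∈ Icc 0 T, Dv (a t))
    (hc : ∀ k, ContinuousOn (fun t => a t k) (Icc 0 T)) {E D : ℝ}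
    (hE : ∀ t ∈ Icc 0 T, ∀ F : Finset K3, ∑ k ∈ F, nsq (a t k) ≤ E)
    (hD : ∀ F : Finset K3, ∫ s in (0 : ℝ)..T, ∑ k ∈ F, μ k * nsq (a s k) ≤ D)
    (hd : ∀ t ∈ Ioo 0 T, ∀ k, HasDerivAt (fun s => a s k)
      (-(μ k • a t k) - nl (dw univ) (a t) (a t) k) t) :
    WE μ T (fun _ => 0) (a 0) fun t => a (cl T t) := by
  have hcl := fun t => cl_mem hT t
  refine ⟨fun t => hh _ (hcl t), fun t => hv _ (hcl t), fun k => cont_cl hT (hc k),
    ⟨E, fun t F => hE _ (hcl t) F⟩, ⟨D, fun F => ?_⟩, fun k => ?_, fun k => ?_, ⟨0, fun F => ?_⟩,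
    fun t ht k => ?_⟩
  · refine le_trans (le_of_eq ?_) (hD F)
    refine intervalIntegral.integral_congr fun s hs => ?_
    rw [uIcc_of_le hT] at hs
    simp only [cl_of hs]
  · exact intervalIntegrable_const
  · simp only [Pi.zero_apply, nsq_zero]
    exact intervalIntegrable_const
  · simp only [Pi.zero_apply, nsq_zero, Finset.sum_const_zero, intervalIntegral.integral_zero]
    exact le_rfl
  · show a (cl T t) k = _
    rw [cl_of ht, eqn_ofM hc hE hd t ht k]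
    congr 1
    refine intervalIntegral.integral_congr fun s hs => ?_
    rw [uIcc_of_le ht.1] at hs
    have hs' : s ∈ Icc 0 T := ⟨hs.1, hs.2.trans ht.2⟩
    simp only [cl_of hs', Pi.zero_apply]

theorem jb_bound_sum {m' : ℕ} {b : Cf} {C : ℝ} (hC : ∀ k, jb k ^ (m' + 3) * ‖b k‖ ≤ C)
    (F : Finset K3) : ∑ k ∈ F, jb k ^ m' * nsq (b k) ≤ 3 * C ^ 2 * Z6 := by
  have h1 : ∀ k ∈ F, jb k ^ m' * nsq (b k) ≤ 3 * C ^ 2 * (jb k ^ 6)⁻¹ := by
    intro k _
    have h0 := jb_pos k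
    rw [← div_eq_mul_inv, le_div_iff₀ (by positivity)]
    have h3 : jb k ^ m' ≤ jb k ^ (2 * m') := pow_le_pow_right₀ (one_le_jb k) (by omega)
    calc jb k ^ m' * nsq (b k) * jb k ^ 6
        ≤ jb k ^ (2 * m') * (3 * ‖b k‖ ^ 2) * jb k ^ 6 := by
          refine mul_le_mul_of_nonneg_right ?_ (by positivity)
          exact mul_le_mul h3 (nsq_le _) (nsq_nonneg _) (by positivity)
      _ = 3 * (jb k ^ (m' + 3) * ‖b k‖) ^ 2 := by ring
      _ ≤ 3 * C ^ 2 := by
          have := pow_le_pow_left₀ (by positivity) (hC k) 2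
          linarith
  refine (Finset.sum_le_sum h1).trans ?_
  rw [← Finset.mul_sum]
  refine mul_le_mul_of_nonneg_left ?_ (by positivity)
  exact summable_jb.sum_le_tsum F fun k _ => by have := jb_pos k; positivity

theorem SolM.contOn {η : K3 → K3 → ℝ} {I : Set ℝ} (h : SolM η μ I a) (k : K3) :
    ContinuousOn (fun t => a t k) I := fun t ht => (h.der t ht k).continuousWithinAt

/-- Smooth solutions are weak solutions. -/
theorem SolM.toWE (hμ : IsSym μ) (hT : 0 ≤ T) (h : SolM (dw univ) μ (Icc 0 T) a) :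
    WE μ T (fun _ => 0) (a 0) fun t => a (cl T t) := by
  obtain ⟨n, P, hP, hn⟩ := hμ.poly
  have h0T : (0 : ℝ) ∈ Icc 0 T := ⟨le_rfl, hT⟩
  have hTT : T ∈ Icc 0 T := ⟨hT, le_rfl⟩
  obtain ⟨C0, hC0⟩ := h.bound h0T hTT (0 + 3)
  obtain ⟨C1, hC1⟩ := h.bound h0T hTT (n + 3)
  have hE : ∀ t ∈ Icc 0 T, ∀ F : Finset K3, ∑ k ∈ F, nsq (a t k) ≤ 3 * C0 ^ 2 * Z6 := by
    intro t ht F
    have h1 := jb_bound_sum (m' := 0) (hC0 t ht) F
    simpa using h1
  have hD1 : ∀ t ∈ Icc 0 T, ∀ F : Finset K3,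
      ∑ k ∈ F, μ k * nsq (a t k) ≤ P * (3 * C1 ^ 2 * Z6) := by
    intro t ht F
    refine le_trans ?_ (mul_le_mul_of_nonneg_left (jb_bound_sum (hC1 t ht) F) hP)
    rw [Finset.mul_sum]
    refine Finset.sum_le_sum fun k _ => ?_
    have := mul_le_mul_of_nonneg_right (hn k) (nsq_nonneg (a t k))
    linarith
  refine WE.mk' hT h.herm h.div h.contOn (E := 3 * C0 ^ 2 * Z6)
    (D := ∫ _s in (0 : ℝ)..T, P * (3 * C1 ^ 2 * Z6)) hE (fun F => ?_) fun t ht k => ?_
  · have hcF : ContinuousOn (fun s => ∑ k ∈ F, μ k * nsq (a s k)) (Icc 0 T) :=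
      continuousOn_finsetSum _ fun k _ => continuousOn_const.mul
        (nsq_continuous.comp_continuousOn (h.contOn k))
    refine intervalIntegral.integral_mono_on hT ?_ intervalIntegrable_const fun s hs => hD1 s hs F
    exact hcF.intervalIntegrable_of_Icc hT
  · exact (h.der t ⟨ht.1.le, ht.2.le⟩ k).hasDerivAt (Icc_mem_nhds ht.1 ht.2)

/-- The shifted solution. -/
theorem SolM.shift {η : K3 → K3 → ℝ} {I J : Set ℝ} (h : SolM η μ I a) {x : ℝ}
    (hJ : ∀ t ∈ J, x + t ∈ I) : SolM η μ J fun t => a (x + t) := by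
  refine ⟨fun t ht => h.herm _ (hJ t ht), fun t ht => h.div _ (hJ t ht), fun s hs t ht m => ?_,
    fun t ht k => ?_⟩
  · obtain ⟨C, hC⟩ := h.rapid _ (hJ s hs) _ (hJ t ht) m
    exact ⟨C, fun τ hτ k => hC (x + τ) ⟨by linarith [hτ.1], by linarith [hτ.2]⟩ k⟩
  · have h1 := h.der (x + t) (hJ t ht) k
    have h2 : HasDerivWithinAt (fun s : ℝ => x + s) 1 J t :=
      ((hasDerivAt_id t).const_add x).hasDerivWithinAt
    have h3 := h1.scomp t h2 fun s hs => hJ s hs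
    rw [one_smul] at h3
    exact h3

end

end Pool.Agent.Run7.h507.SP
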