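import Pool.Agent.Run7.h507.SP.WS7
import Pool.Agent.Run7.h507.SP.WS3

/-!
All weak solutions are smooth for positive times.
-/

set_option autoImplicit false

open MeasureTheory Set Filter Topology
open scoped ENNReal

namespace Pool.Agent.Run7.h507.SP

open RT FD

section

variable {μ : K3 → ℝ} {m : ℝ → ℝ} {ν : ℝ} {T : ℝ} {a : ℝ → Cf} {c : Cf}

theorem SolM.congr {η : K3 → K3 → ℝ} {I : Set ℝ} {b : ℝ → Cf} (h : SolM η μ I a)
    (hI : I.OrdConnected) (hab : ∀ t ∈ I, b t = a t) : SolM η μ I b := by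
  refine ⟨fun t ht => by rw [hab t ht]; exact h.herm t ht,
    fun t ht => by rw [hab t ht]; exact h.div t ht, ?_, fun t ht k => ?_⟩
  · intro s hs t ht l
    obtain ⟨C, hC⟩ := h.rapid s hs t ht l
    exact ⟨C, fun τ hτ k => by rw [hab τ (hI.out hs ht hτ)]; exact hC τ hτ k⟩
  · rw [hab t ht]
    exact (h.der t ht k).congr (fun s hs => by rw [hab s hs]) (by rw [hab t ht])

/-- The dissipation of a solution which is smooth for positive times. -/
theorem diss_pos (hμ : IsSym μ) (hm0 : ∀ r, 0 ≤ m r) (hm : Monotone m)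
    (hmμ : ∀ k, m (len k) ≤ μ k)
    (hdiv : ∀ K, ∃ J, K < ∑ j ∈ Finset.range J, om m j / 32 ^ j) {E : ℝ} (hE0 : 0 ≤ E)
    (hT : 0 ≤ T)
    (hc : ∀ k, ContinuousOn (fun t => a t k) (Icc 0 T))
    (h : SolM (dw univ) μ (Ioi 0) a)
    (hE : ∀ t, 0 ≤ t → ∀ F : Finset K3, ∑ k ∈ F, nsq (a t k) ≤ E) (F : Finset K3) :
    ∫ s in (0 : ℝ)..T, ∑ k ∈ F, μ k * nsq (a s k) ≤ E / 2 + 1 := by
  have hμ0 := hμ.nonneg
  rcases hT.eq_or_lt with h0 | hT0
  · rw [← h0, intervalIntegral.integral_same]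
    positivity
  have cF : ContinuousOn (fun s => ∑ k ∈ F, μ k * nsq (a s k)) (Icc 0 T) :=
    continuousOn_finsetSum _ fun k _ => continuousOn_const.mul
      (nsq_continuous.comp_continuousOn (hc k))
  set M : ℝ := (∑ k ∈ F, μ k) * E with hM
  have hM0 : 0 ≤ M := mul_nonneg (Finset.sum_nonneg fun k _ => hμ0 k) hE0
  have hle : ∀ s ∈ Icc 0 T, ∑ k ∈ F, μ k * nsq (a s k) ≤ M := by
    intro s hs
    rw [hM, Finset.sum_mul]
    refine Finset.sum_le_sum fun k _ => mul_le_mul_of_nonneg_left ?_ (hμ0 k)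
    have := hE s hs.1 {k}
    simpa using this
  set ε : ℝ := min T (1 / (M + 1)) with hε
  have hε0 : 0 < ε := lt_min hT0 (by positivity)
  have hεT : ε ≤ T := min_le_left _ _
  have hεM : ε * M ≤ 1 := by
    have h1 : ε ≤ 1 / (M + 1) := min_le_right _ _
    have h2 := mul_le_mul_of_nonneg_right h1 hM0
    refine h2.trans ?_
    rw [div_mul_eq_mul_div, div_le_one (by positivity)]
    linarith
  have i1 : IntervalIntegrable (fun s => ∑ k ∈ F, μ k * nsq (a s k)) volume 0 ε :=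
    (cF.mono (Icc_subset_Icc le_rfl hεT)).intervalIntegrable_of_Icc hε0.le
  have i2 : IntervalIntegrable (fun s => ∑ k ∈ F, μ k * nsq (a s k)) volume ε T :=
    (cF.mono (Icc_subset_Icc hε0.le le_rfl)).intervalIntegrable_of_Icc hεT
  rw [← intervalIntegral.integral_add_adjacent_intervals i1 i2]
  have e1 : ∫ s in (0 : ℝ)..ε, ∑ k ∈ F, μ k * nsq (a s k) ≤ 1 := by
    refine le_trans (intervalIntegral.integral_mono_on hε0.le i1 intervalIntegrable_const
      fun s hs => hle s ⟨hs.1, hs.2.trans hεT⟩) ?_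
    rw [intervalIntegral.integral_const, sub_zero, smul_eq_mul]
    exact hεM
  have e2 : ∫ s in ε..T, ∑ k ∈ F, μ k * nsq (a s k) ≤ E / 2 := by
    have hS : SolM (dw univ) μ (Icc 0 (T - ε)) fun t => a (ε + t) :=
      h.shift fun t ht => by
        have := ht.1
        show 0 < ε + t
        linarith
    have hTε : 0 ≤ T - ε := by linarith
    have hW := hS.toWE hμ hTε
    have hTT : T - ε ∈ Icc 0 (T - ε) := ⟨hTε, le_rfl⟩
    have h1 := hW.energy hm0 hm hmμ hdiv hTT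
    obtain ⟨s1, _⟩ := hW.sums hμ0 hTT
    have h2 : ∑' k, nsq ((fun t => a (ε + t)) 0 k) ≤ E :=
      (summable_nsq_of_bdd (hE (ε + 0) (by linarith))).tsum_le_of_sum_le (hE (ε + 0) (by linarith))
    have h3 : ∑' k, ∫ s in (0 : ℝ)..(T - ε), ip ((0 : Cf) k) (a (ε + cl (T - ε) s) k) = 0 := by
      have : ∀ k : K3, ∫ s in (0 : ℝ)..(T - ε), ip ((0 : Cf) k) (a (ε + cl (T - ε) s) k) = 0 := by
        intro k
        have : ∀ v : C3, ip (0 : C3) v = 0 := fun v => by unfold ip; simp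
        simp only [Pi.zero_apply, this, intervalIntegral.integral_zero]
      rw [tsum_congr this, tsum_zero]
    have h4 : 0 ≤ ∑' k, nsq ((fun t => a (ε + cl (T - ε) t)) (T - ε) k) :=
      tsum_nonneg fun k => nsq_nonneg _
    have h5 : ∑' k, μ k * ∫ s in (0 : ℝ)..(T - ε), nsq (a (ε + cl (T - ε) s) k) ≤ E / 2 := by
      linarith
    have h6 := s1.sum_le_tsum F fun k _ => mul_nonneg (hμ0 k)
      (intervalIntegral.integral_nonneg hTε fun s _ => nsq_nonneg _)
    refine le_trans (le_of_eq ?_) (h6.trans h5)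
    have i3 : ∀ k, ContinuousOn (fun s => μ k * nsq (a s k)) (Icc ε T) := fun k =>
      continuousOn_const.mul (nsq_continuous.comp_continuousOn ((hc k).mono
        (Icc_subset_Icc hε0.le le_rfl)))
    rw [intervalIntegral.integral_finsetSum fun k _ => (i3 k).intervalIntegrable_of_Icc hεT]
    refine Finset.sum_congr rfl fun k _ => ?_
    rw [intervalIntegral.integral_const_mul]
    congr 1
    have e3 := intervalIntegral.integral_comp_add_left (a := 0) (b := T - ε)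
      (fun s => nsq (a s k)) ε
    rw [add_zero, add_sub_cancel] at e3
    rw [← e3]
    refine intervalIntegral.integral_congr fun s hs => ?_
    rw [uIcc_of_le hTε] at hs
    simp only [cl_of hs]
  linarith

/-- The global solutions. -/
theorem LW (hμ : IsSym μ) (hν : 0 < ν) (hμν : ∀ k, ν * RT.sq k ≤ μ k)
    (hm0 : ∀ r, 0 ≤ m r) (hm : Monotone m) (hmμ : ∀ k, m (len k) ≤ μ k)
    (hdiv : ∀ K, ∃ J, K < ∑ j ∈ Finset.range J, om m j / 32 ^ j) (hh : Herm c)
    (hd : Dv c) (hc : Summable fun k => nsq (c k)) :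
    ∃ L : ℝ → Cf, L 0 = c ∧ SolM (dw univ) μ (Ioi 0) L ∧
      (∀ T, 0 ≤ T → WE μ T (fun _ => 0) c fun t => L (cl T t)) ∧
      ((∃ X₀ : ℝ, ∀ F : Finset K3, ∑ k ∈ F, jb k ^ 2 * nsq (c k) ≤ X₀) →
        ∀ T : ℝ, ∃ X : ℝ, ∀ t ∈ Icc 0 T, ∀ F : Finset K3, ∑ k ∈ F, jb k ^ 2 * nsq (L t k) ≤ X) := by
  obtain ⟨L, h0, h1, h2, h3, h4⟩ := strong_ex hμ hν hμν hm0 hm hmμ hdiv hh hd hc
  set E := ∑' k, nsq (c k) with hE
  have hE0 : 0 ≤ E := tsum_nonneg fun k => nsq_nonneg _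
  have hcont : ∀ T : ℝ, ∀ k, ContinuousOn (fun t => L t k) (Icc 0 T) := by
    intro T k t ht
    rcases ht.1.eq_or_lt with h | h
    · subst h
      obtain ⟨C, hC⟩ := h3 k
      rw [ContinuousWithinAt, tendsto_iff_norm_sub_tendsto_zero]
      have hz : Tendsto (fun t : ℝ => C * t) (𝓝[Icc 0 T] 0) (𝓝 0) := by
        have : Continuous fun t : ℝ => C * t := continuous_const.mul continuous_id
        have h5 := (this.tendsto 0).mono_left (nhdsWithin_le_nhds (s := Icc 0 T))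
        rwa [mul_zero] at h5
      refine squeeze_zero' (Eventually.of_forall fun _ => norm_nonneg _) ?_ hz
      filter_upwards [self_mem_nhdsWithin] with s hs
      rw [h0]
      exact hC s hs.1
    · exact (((h1.der t h k).hasDerivAt (Ioi_mem_nhds h)).continuousAt).continuousWithinAt
  have hher : ∀ t, 0 ≤ t → Herm (L t) := by
    intro t ht
    rcases ht.eq_or_lt with h | h
    · rw [← h, h0]; exact hh
    · exact h1.herm t h
  have hdiv' : ∀ t, 0 ≤ t → Dv (L t) := by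
    intro t ht
    rcases ht.eq_or_lt with h | h
    · rw [← h, h0]; exact hd
    · exact h1.div t h
  refine ⟨L, h0, h1, fun T hT => ?_, fun hX T => ?_⟩
  · have h5 := WE.mk' (T := T) (a := L) (μ := μ) hT (fun t ht => hher t ht.1)
      (fun t ht => hdiv' t ht.1) (hcont T) (E := E) (D := E / 2 + 1) (fun t ht F => h2 t ht.1 F)
      (fun F => diss_pos hμ hm0 hm hmμ hdiv hE0 hT (hcont T) h1 h2 F)
      (fun t ht k => (h1.der t ht.1 k).hasDerivAt (Ioi_mem_nhds ht.1))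
    rw [h0] at h5
    exact h5
  · obtain ⟨X₀, hX₀⟩ := hX
    have hX0 : 0 ≤ X₀ := by simpa using hX₀ ∅
    obtain ⟨τ, hτ, h5⟩ := h4 (X₀ + 1) (by positivity) fun F => (hX₀ F).trans (by linarith)
    rcases le_total T τ with hTτ | hTτ
    · exact ⟨2 * (X₀ + 1), fun t ht F => h5 t ht.1 (ht.2.trans hTτ) F⟩
    · obtain ⟨C, hC⟩ := h1.bound (s := τ) (t := T) hτ (lt_of_lt_of_le hτ hTτ) (2 + 3)
      refine ⟨2 * (X₀ + 1) + 3 * C ^ 2 * Z6, fun t ht F => ?_⟩
      have hZ := Z6_nonneg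
      rcases le_total t τ with htτ | htτ
      · have := h5 t ht.1 htτ F
        have h6 : 0 ≤ 3 * C ^ 2 * Z6 := by positivity
        linarith
      · have := jb_bound_sum (hC t ⟨htτ, ht.2⟩) F
        linarith

/-- The shifted weak solution. -/
theorem WE.shift (h : WE μ T (fun _ => 0) c a) (hμ0 : ∀ k, 0 ≤ μ k) {x : ℝ}
    (hx : x ∈ Icc 0 T) : WE μ (T - x) (fun _ => 0) (a x) fun t => a (x + t) := by
  obtain ⟨D, hD⟩ := h.diss
  have hn : ∀ k, Continuous fun s => nsq (a s k) := fun k => nsq_continuous.comp (h.cont k)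
  have hcx : Continuous fun t : ℝ => x + t := continuous_const.add continuous_id
  refine ⟨fun t => h.herm _, fun t => h.div _, fun k => (h.cont k).comp hcx, ?_, ⟨D, fun F => ?_⟩,
    fun k => intervalIntegrable_const, fun k => ?_, ⟨0, fun F => ?_⟩, fun t ht k => ?_⟩
  · obtain ⟨E, hE⟩ := h.bdd
    exact ⟨E, fun t F => hE _ F⟩
  · refine le_trans ?_ (hD F)
    have hcF : Continuous fun s => ∑ k ∈ F, μ k * nsq (a s k) :=
      continuous_finsetSum _ fun k _ => continuous_const.mul (hn k)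
    have e3 := intervalIntegral.integral_comp_add_left (a := 0) (b := T - x)
      (fun s => ∑ k ∈ F, μ k * nsq (a s k)) x
    rw [add_zero, add_sub_cancel] at e3
    rw [e3]
    exact intervalIntegral.integral_mono_interval hx.1 hx.2 le_rfl
      (Eventually.of_forall fun s => Finset.sum_nonneg fun k _ =>
        mul_nonneg (hμ0 k) (nsq_nonneg _)) (hcF.intervalIntegrable _ _)
  · simp only [Pi.zero_apply, nsq_zero]
    exact intervalIntegrable_const
  · simp only [Pi.zero_apply, nsq_zero, Finset.sum_const_zero, intervalIntegral.integral_zero]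
    exact le_rfl
  · have hxt : x + t ∈ Icc 0 T := ⟨by linarith [hx.1, ht.1], by linarith [ht.2]⟩
    have hi : ∀ u v : ℝ, IntervalIntegrable
        (fun s => (0 : Cf) k - μ k • a s k - nl (dw univ) (a s) (a s) k) volume u v := fun u v =>
      ((intervalIntegrable_const).sub (((h.cont k).const_smul (μ k)).intervalIntegrable _ _)).sub
        (h.nli k u v)
    have e3 := intervalIntegral.integral_comp_add_left (a := 0) (b := t)
      (fun s => (0 : Cf) k - μ k • a s k - nl (dw univ) (a s) (a s) k) x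
    rw [add_zero] at e3
    show a (x + t) k = a x k + ∫ s in (0 : ℝ)..t, ((0 : Cf) k - μ k • a (x + s) k
      - nl (dw univ) (a (x + s)) (a (x + s)) k)
    rw [e3, h.eqn (x + t) hxt k, h.eqn x hx k, add_assoc,
      intervalIntegral.integral_add_adjacent_intervals (hi 0 x) (hi x (x + t))]

theorem WE.h1_time (h : WE μ T (fun _ => 0) c a) (hν : 0 < ν) (hμν : ∀ k, ν * RT.sq k ≤ μ k)
    (hT : 0 < T) {s : ℝ} (hs : 0 < s) : ∃ x, 0 < x ∧ x < s ∧ x ≤ T ∧
      ∃ X₀ : ℝ, ∀ F : Finset K3, ∑ k ∈ F, jb k ^ 2 * nsq (a x k) ≤ X₀ := by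
  have hμ0 : ∀ k, 0 ≤ μ k := fun k => (mul_nonneg hν.le (sq_nonneg' k)).trans (hμν k)
  obtain ⟨h1, _⟩ := h.di hT.le hμ0
  have h2 : ∃ x ∈ Ioo 0 (min s T), Summable fun k => μ k * nsq (a x k) := by
    by_contra hcon
    push Not at hcon
    have h3 : volume (Ioo 0 (min s T)) = 0 := by
      rw [ae_restrict_iff' measurableSet_Ioc] at h1
      refine measure_mono_null (fun x hx => ?_) h1
      intro hx2
      exact hcon x hx (hx2 ⟨hx.1, (hx.2.le.trans (min_le_right _ _))⟩)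
    rw [Real.volume_Ioo, sub_zero, ENNReal.ofReal_eq_zero] at h3
    exact absurd (lt_min hs hT) (not_lt.2 h3)
  obtain ⟨x, hx, hx2⟩ := h2
  obtain ⟨E, hE⟩ := h.bdd
  refine ⟨x, hx.1, hx.2.trans_le (min_le_left _ _), hx.2.le.trans (min_le_right _ _),
    E + (∑' k, μ k * nsq (a x k)) / ν, fun F => ?_⟩
  refine h1_of hν hμν ?_ ?_
  · rw [eE_eq]; exact hE x F
  · exact hx2.sum_le_tsum F fun k _ => mul_nonneg (hμ0 k) (nsq_nonneg _)

theorem summable_nsq_of_h1 {b : Cf} {X : ℝ} (h : ∀ F : Finset K3, ∑ k ∈ F, jb k ^ 2 * nsq (b k) ≤ X) :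
    Summable fun k => nsq (b k) := by
  refine summable_of_sum_le (c := X) (fun k => nsq_nonneg _) fun F => le_trans
    (Finset.sum_le_sum fun k _ => ?_) (h F)
  have h1 := one_le_pow₀ (one_le_jb k) (n := 2)
  nlinarith [nsq_nonneg (b k)]

/-- Weak solutions with an initial value in the first Sobolev space are strong solutions. -/
theorem WE.strong_of (h : WE μ T (fun _ => 0) c a) (hT : 0 ≤ T) (hμ : IsSym μ) (hν : 0 < ν)
    (hμν : ∀ k, ν * RT.sq k ≤ μ k) (hm0 : ∀ r, 0 ≤ m r) (hm : Monotone m)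
    (hmμ : ∀ k, m (len k) ≤ μ k)
    (hdiv : ∀ K, ∃ J, K < ∑ j ∈ Finset.range J, om m j / 32 ^ j)
    (hX : ∃ X₀ : ℝ, ∀ F : Finset K3, ∑ k ∈ F, jb k ^ 2 * nsq (c k) ≤ X₀) :
    SolM (dw univ) μ (Ioc 0 T) a ∧
      ∀ b, WE μ T (fun _ => 0) c b → ∀ t ∈ Icc 0 T, a t = b t := by
  have hc0 : a 0 = c := by
    funext k
    rw [h.eqn 0 ⟨le_rfl, hT⟩ k, intervalIntegral.integral_same, add_zero]
  obtain ⟨X₀, hX₀⟩ := hX
  obtain ⟨L, h0, h1, h2, h3⟩ := LW hμ hν hμν hm0 hm hmμ hdiv (hc0 ▸ h.herm 0) (hc0 ▸ h.div 0)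
    (summable_nsq_of_h1 hX₀)
  obtain ⟨X, hX⟩ := h3 ⟨X₀, hX₀⟩ T
  have hu : ∀ b, WE μ T (fun _ => 0) c b → ∀ t ∈ Icc 0 T, b t = L t := by
    intro b hb t ht
    have h4 := ws_uniq hν hμν hm0 hm hmμ hdiv hT hb (h2 T hT) (X := X)
      (fun t F => hX _ (cl_mem hT t) F) t ht
    rwa [cl_of ht] at h4
  refine ⟨(h1.mono (I := Ioc 0 T) fun t ht => ht.1).congr ordConnected_Ioc
    fun t ht => hu a h t ⟨ht.1.le, ht.2⟩, fun b hb t ht => ?_⟩
  rw [hu a h t ht, hu b hb t ht]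

/-- All weak solutions are smooth for positive times. -/
theorem WE.smooth (h : WE μ T (fun _ => 0) c a) (hμ : IsSym μ) (hν : 0 < ν)
    (hμν : ∀ k, ν * RT.sq k ≤ μ k) (hm0 : ∀ r, 0 ≤ m r) (hm : Monotone m)
    (hmμ : ∀ k, m (len k) ≤ μ k)
    (hdiv : ∀ K, ∃ J, K < ∑ j ∈ Finset.range J, om m j / 32 ^ j) :
    SolM (dw univ) μ (Ioc 0 T) a := by
  rcases le_or_gt T 0 with hT | hT
  · rw [Ioc_eq_empty (not_lt.2 hT)]
    exact ⟨fun t ht => absurd ht (notMem_empty t), fun t ht => absurd ht (notMem_empty t),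
      fun t ht => absurd ht (notMem_empty t), fun t ht => absurd ht (notMem_empty t)⟩
  have key : ∀ s, 0 < s → ∃ x, 0 < x ∧ x < s ∧ SolM (dw univ) μ (Ioc x T) a := by
    intro s hs
    obtain ⟨x, hx0, hxs, hxT, hX⟩ := h.h1_time hν hμν hT hs
    refine ⟨x, hx0, hxs, ?_⟩
    have h1 := ((h.shift hμ.nonneg ⟨hx0.le, hxT⟩).strong_of (by linarith) hμ hν hμν hm0 hm hmμ hdiv
      hX).1
    have h2 := h1.shift (J := Ioc x T) (x := -x) fun t ht =>
      ⟨by linarith [ht.1], by linarith [ht.2]⟩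
    refine h2.congr ordConnected_Ioc fun t _ => ?_
    show a t = a (x + (-x + t))
    congr 1
    ring
  refine ⟨fun t _ => h.herm t, fun t _ => h.div t, fun s hs t ht l => ?_, fun t ht k => ?_⟩
  · obtain ⟨x, hx0, hxs, hx⟩ := key s hs.1
    rcases le_or_gt s t with hst | hst
    · exact hx.rapid s ⟨hxs, hs.2⟩ t ⟨hxs.trans_le hst, ht.2⟩ l
    · exact ⟨0, fun τ hτ => absurd (hτ.1.trans hτ.2) (not_le.2 hst)⟩
  · obtain ⟨x, hx0, hxt, hx⟩ := key t ht.1
    refine (hx.der t ⟨hxt, ht.2⟩ k).mono_of_mem_nhdsWithin ?_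
    filter_upwards [self_mem_nhdsWithin, mem_nhdsWithin_of_mem_nhds (Ioi_mem_nhds hxt)] with y hy hy2
    exact ⟨hy2, hy.2⟩

end

end Pool.Agent.Run7.h507.SP
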