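import Pool.Agent.Run7.h507.SP.WS8

/-!
Weak solutions with smooth initial values are smooth.
-/

set_option autoImplicit false

open MeasureTheory Set Filter Topology
open scoped ENNReal

namespace Pool.Agent.Run7.h507.SP

open RT FD

section

variable {μ : K3 → ℝ} {m : ℝ → ℝ} {ν : ℝ} {T : ℝ} {a : ℝ → Cf} {c : Cf}

/-- Weak solutions with smooth initial values are smooth. -/
theorem WE.smooth_data (h : WE μ T (fun _ => 0) c a) (hT : 0 ≤ T) (hμ : IsSym μ) (hν : 0 < ν)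
    (hμν : ∀ k, ν * RT.sq k ≤ μ k) (hm0 : ∀ r, 0 ≤ m r) (hm : Monotone m)
    (hmμ : ∀ k, m (len k) ≤ μ k)
    (hdiv : ¬ Summable fun N : ℕ => m N / (N : ℝ) ^ (7 / 2 : ℝ)) (hc : Rapid c) :
    SolM (dw univ) μ (Icc 0 T) a := by
  have hd := div_of hm0 hm hdiv
  have hc0 : a 0 = c := by
    funext k
    rw [h.eqn 0 ⟨le_rfl, hT⟩ k, intervalIntegral.integral_same, add_zero]
  obtain ⟨G, hG⟩ := exists_global3 w1 hμ hm0 hm hmμ hdiv (∑' k, jb k ^ 8 * nsq (c k))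
  obtain ⟨L, h0, h1, _⟩ := hG c (hc0 ▸ h.herm 0) (hc0 ▸ h.div 0) hc le_rfl
  have h2 : SolM (dw univ) μ (Icc 0 T) L := h1.mono fun t ht => ht.1
  have h3 := h2.toWE hμ hT
  rw [h0] at h3
  obtain ⟨C, hC⟩ := h2.bound (s := 0) (t := T) ⟨le_rfl, hT⟩ ⟨hT, le_rfl⟩ (2 + 3)
  have h4 : ∀ t ∈ Icc 0 T, a t = L t := by
    intro t ht
    have h5 := ws_uniq hν hμν hm0 hm hmμ hd hT h h3 (X := 3 * C ^ 2 * Z6)
      (fun t F => jb_bound_sum (hC _ (cl_mem hT t)) F) t ht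
    rwa [cl_of ht] at h5
  exact h2.congr ordConnected_Icc h4

end

end Pool.Agent.Run7.h507.SP
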